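import Pool.Agent.Lib.MP_6babc4_nt.Cyc.Fld

/-!
# Module KFld: the number of the subfields of the algebraic closure with small discriminant

PROOF. Let `σ : Ω → ℂ` be any homomorphism, `N₀ = M`. For `L` in the set with data `E, ι` apply
`field_in_C` to `E` and `σ ∘ ι : E → ℂ`: `θ ∈ AlgInt M (C √D)` (`AlgInt` is increasing in the bound), and
`z ∈ ℚ(θ)` iff `z ∈ σ(ι(E)) = σ(L)`. So `L = σ⁻¹(ℚ(θ))` is determined by `θ`: the map `L ↦ θ` is injective on
the set and `algInt_card` gives the bound `(C (C √D)^(M (M+1)))`.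
-/

set_option autoImplicit false

open Polynomial NumberField IsDedekindDomain Module

namespace FreyCyc

open FreySparse

/-- The subfields of the algebraic closure of degree `≤ M` and discriminant `≤ D`. -/
def SubF (K : Type) [Field K] [NumberField K] (M : ℕ) (D : ℝ) :
    Set (IntermediateField K (AlgebraicClosure K)) :=
  {L | ∃ (E : Type) (_ : Field E) (_ : NumberField E) (_ : Algebra K E)
    (ι : E →ₐ[K] AlgebraicClosure K), finrank ℚ E ≤ M ∧ |(discr E : ℝ)| ≤ D ∧ L = ι.fieldRange}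

theorem subF_count (M : ℕ) : ∃ (A : ℕ) (C : ℝ), 1 ≤ C ∧
    ∀ (K : Type) [Field K] [NumberField K] (D : ℝ), 1 ≤ D → (SubF K M D).Finite ∧
      ((SubF K M D).ncard : ℝ) ≤ C * D ^ A := by
  classical
  obtain ⟨C1, hC1, h1⟩ := field_in_C M
  obtain ⟨C2, hC2, h2⟩ := algInt_card M
  have hC0 : (1 : ℝ) ≤ C1 ^ (M * (M + 1)) := one_le_pow₀ hC1
  refine ⟨M * (M + 1), C2 * C1 ^ (M * (M + 1)), by nlinarith, fun K _ _ D hD => ?_⟩
  have hs1 : (1 : ℝ) ≤ √D := Real.one_le_sqrt.2 hD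
  have hB : (1 : ℝ) ≤ C1 * √D := by nlinarith
  obtain ⟨φ⟩ : Nonempty (K →+* ℂ) := inferInstance
  let _ : Algebra K ℂ := φ.toAlgebra
  obtain ⟨σ⟩ : Nonempty (AlgebraicClosure K →ₐ[K] ℂ) := ⟨IsAlgClosed.lift⟩
  have hσ : Function.Injective σ := σ.toRingHom.injective
  have key : ∀ L ∈ SubF K M D, ∃ θ ∈ AlgInt M (C1 * √D),
      ∀ z : ℂ, z ∈ IntermediateField.adjoin ℚ {θ} ↔ ∃ x ∈ L, σ x = z := by
    rintro L ⟨E, _, _, _, ι, hE, hdE, rfl⟩
    obtain ⟨θ, ⟨ha, hb, hc⟩, h3⟩ := h1 E hE (σ.toRingHom.comp ι.toRingHom)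
    refine ⟨θ, ⟨ha, hb, fun w hw => (hc w hw).trans ?_⟩, fun z => ?_⟩
    · exact mul_le_mul_of_nonneg_left (Real.sqrt_le_sqrt hdE) (by linarith)
    · rw [h3 z]
      constructor
      · rintro ⟨x, hx⟩
        exact ⟨ι x, ⟨x, rfl⟩, hx⟩
      · rintro ⟨_, ⟨x, rfl⟩, hx⟩
        exact ⟨x, hx⟩
  choose! F hF using key
  have hmaps : ∀ L ∈ SubF K M D, F L ∈ AlgInt M (C1 * √D) := fun L hL => (hF L hL).1
  have hinj : Set.InjOn F (SubF K M D) := by
    intro L hL L' hL' he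
    ext x
    have h3 := (hF L hL).2 (σ x)
    have h4 := (hF L' hL').2 (σ x)
    rw [← he] at h4
    have h5 := h3.symm.trans h4
    constructor
    · intro hx
      obtain ⟨y, hy, hyx⟩ := h5.1 ⟨x, hx, rfl⟩
      rw [← hσ hyx]
      exact hy
    · intro hx
      obtain ⟨y, hy, hyx⟩ := h5.2 ⟨x, hx, rfl⟩
      rw [← hσ hyx]
      exact hy
  obtain ⟨hfin, hcard⟩ := h2 (C1 * √D) hB
  refine ⟨Set.Finite.of_injOn hmaps hinj hfin, ?_⟩
  have h6 : ((SubF K M D).ncard : ℝ) ≤ (AlgInt M (C1 * √D)).ncard := by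
    exact_mod_cast Set.ncard_le_ncard_of_injOn F hmaps hinj hfin
  refine (h6.trans hcard).trans ?_
  rw [mul_pow, ← mul_assoc]
  refine mul_le_mul_of_nonneg_left ?_ (by nlinarith)
  refine pow_le_pow_left₀ (by linarith) ?_ _
  rw [Real.sqrt_le_left (by linarith)]
  nlinarith

end FreyCyc
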