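import Pool.Agent.Lib.MP_6babc4_nt.Cyc.KCnd

/-!
# Module KNum: a numbering of the branch points, and the form

`psi m w r X Y = ∏_(j < m) (X (r j)₂ - Y (r j)₁)^(w j)`, `(r j)₁, (r j)₂` the coordinates `vec (r j)`.

PROOF. Over the splitting field `L` (and any extension `F`, `φ : L → F`): the branch points are the `n` roots of the product (different,
because it is separable) and infinity if `winf ≠ 0`. Let `z j` be a numbering with the roots first:
`m = n` or `n + 1`, `w j = wt N f (z j)`. A root `x` is a root of exactly one `f i` (separable), so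
`wt = i`, `1 ≤ i < N`; `winf < N`. `f i = lc_i ∏ (X - z)` over its roots `z` in `L`, so its homogenisation
at `(x, y)` is `lc_i ∏ (x - z y)` (for `y ≠ 0` it is `y^deg (f i)(x/y)`; for `y = 0` it is
`lc_i x^deg`; or compare coefficients: `Polynomial.homogenize`-free proof by induction on the roots),
and `y^winf = (-1)^winf (x · 0 - y · 1)^winf`. The product over `i` of the products over the roots of
`f i` is the product over all the roots. The sum of all the weights is `∑ i deg (f i) + winf`,
divisible by `N` (`winf = (N - sdeg N 1 f % N) % N`, `i * 1 % N = i`).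
(`N ≥ 2`, since for `N ≤ 1` the product is `1`, of degree `0`.)
-/

set_option autoImplicit false

open Polynomial NumberField IsDedekindDomain Module

namespace FreyCyc

open FreySparse

/-- The standard form with the roots `r j` of multiplicity `w j`. -/
def psi {F : Type*} [Field F] (m : ℕ) (w : ℕ → ℕ) (r : ℕ → OnePoint F) (x y : F) : F :=
  ∏ j ∈ Finset.range m, (x * (vec (r j)).2 - y * (vec (r j)).1) ^ w j

/-- The points `ρ 0, ∞, ρ 2, ρ 3, ...`. -/
noncomputable def pts {F : Type*} (ρ : ℕ → F) (j : ℕ) : OnePoint F :=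
  if j = 1 then OnePoint.infty else ((ρ j : F) : OnePoint F)

variable {K : Type} [Field K] [NumberField K]

private lemma kn_scale {F : Type*} [Field F] (s : Multiset F) (y : F) :
    (s.map (fun z => X - C z)).prod.scaleRoots y = (s.map (fun z => X - C (z * y))).prod := by
  induction s using Multiset.induction_on with
  | empty => simp [one_scaleRoots]
  | cons a s ih =>
    rw [Multiset.map_cons, Multiset.prod_cons, Multiset.map_cons, Multiset.prod_cons,
      mul_scaleRoots_of_noZeroDivisors, ih, X_sub_C_scaleRoots]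

private lemma kn_homog {F : Type*} [Field F] {g : F[X]} (hs : g.Splits) (x y : F) :
    ∑ k ∈ Finset.range (g.natDegree + 1), g.coeff k * x ^ k * y ^ (g.natDegree - k) =
      g.leadingCoeff * (g.roots.map (fun z => x - z * y)).prod := by
  have h1 : ∑ k ∈ Finset.range (g.natDegree + 1), g.coeff k * x ^ k * y ^ (g.natDegree - k) =
      (g.scaleRoots y).eval x := by
    rw [eval_eq_sum_range, natDegree_scaleRoots]
    refine Finset.sum_congr rfl fun k _ => ?_
    rw [coeff_scaleRoots]
    ring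
  rw [h1]
  conv_lhs => rw [hs.eq_prod_roots]
  rw [mul_scaleRoots_of_noZeroDivisors, scaleRoots_C, kn_scale, eval_mul, eval_C,
    eval_multiset_prod, Multiset.map_map]
  congr 2
  refine Multiset.map_congr rfl fun z _ => ?_
  simp

omit [NumberField K] in
private lemma kn_winf {N : ℕ} (f : ℕ → (𝓞 K)[X]) (hN : 0 < N) :
    winf N f < N ∧ N ∣ sdeg N 1 f + winf N f := by
  refine ⟨Nat.mod_lt _ hN, ?_⟩
  unfold winf
  have h1 : sdeg N 1 f % N < N := Nat.mod_lt _ hN
  rw [Nat.dvd_iff_mod_eq_zero, Nat.add_mod, Nat.mod_mod, ← Nat.add_mod, Nat.add_mod (sdeg N 1 f),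
    ← Nat.add_mod]
  have h2 : (sdeg N 1 f + (N - sdeg N 1 f % N)) % N =
      (sdeg N 1 f % N + (N - sdeg N 1 f % N)) % N := by
    conv_lhs => rw [Nat.add_mod]
    conv_rhs => rw [Nat.add_mod, Nat.mod_mod]
  rw [h2, Nat.add_sub_cancel' h1.le, Nat.mod_self]

omit [NumberField K] in
private lemma kn_tower (L : Type) [Field L] [Algebra K L] (g : (𝓞 K)[X]) :
    (g.map (algebraMap (𝓞 K) K)).map (algebraMap K L) = g.map (algebraMap (𝓞 K) L) := by
  rw [Polynomial.map_map, ← IsScalarTower.algebraMap_eq]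

omit [NumberField K] in
private lemma kn_inj (L : Type) [Field L] [Algebra K L] :
    Function.Injective (algebraMap (𝓞 K) L) := by
  rw [IsScalarTower.algebraMap_eq (𝓞 K) K L]
  exact (algebraMap K L).injective.comp (FaithfulSMul.algebraMap_injective (𝓞 K) K)

omit [NumberField K] in
private lemma kn_aeval (L : Type) [Field L] [Algebra K L] (g : (𝓞 K)[X]) (x : L) :
    aeval x g = (g.map (algebraMap (𝓞 K) L)).eval x := by
  rw [aeval_def, eval₂_eq_eval_map]

omit [NumberField K] in
private lemma kn_totmap {N : ℕ} (f : ℕ → (𝓞 K)[X]) (L : Type) [Field L] [Algebra K L] :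
    (tot N f).map (algebraMap (𝓞 K) L) =
      ∏ i ∈ Finset.Ico 1 N, (f i).map (algebraMap (𝓞 K) L) := by
  unfold tot
  rw [Polynomial.map_prod]

/-- everything about the roots over the splitting field -/
lemma knum_roots {n N : ℕ} {f : ℕ → (𝓞 K)[X]} (hd : (tot N f).natDegree = n)
    (hf : ((tot N f).map (algebraMap (𝓞 K) K)).Separable) :
    ∃ R : Finset (Spl (tot N f)), R.card = n ∧ (∀ x, x ∈ R ↔ x ∈ rts (tot N f)) ∧
      (∀ i ∈ Finset.Ico 1 N, ((f i).map (algebraMap (𝓞 K) (Spl (tot N f)))).Splits ∧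
        ∃ Ri ⊆ R, ((f i).map (algebraMap (𝓞 K) (Spl (tot N f)))).roots = Ri.val ∧
          Ri.card = (f i).natDegree ∧
          ∀ x : Spl (tot N f), x ∈ Ri ↔ aeval x (f i) = 0) ∧
      (∀ x ∈ R, ∃ i ∈ Finset.Ico 1 N, aeval x (f i) = 0) ∧
      (∀ x : Spl (tot N f), ∀ i ∈ Finset.Ico 1 N, ∀ j ∈ Finset.Ico 1 N, aeval x (f i) = 0 →
        aeval x (f j) = 0 → i = j) := by
  classical
  set T : (Spl (tot N f))[X] := (tot N f).map (algebraMap (𝓞 K) (Spl (tot N f))) with hT
  have hTt : ((tot N f).map (algebraMap (𝓞 K) K)).map (algebraMap K (Spl (tot N f))) = T :=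
    kn_tower _ _
  have hTs : T.Splits := by
    rw [← hTt]; exact SplittingField.splits _
  have hTsep : T.Separable := by
    rw [← hTt]; exact hf.map
  have hT0 : T ≠ 0 := hTsep.ne_zero
  have hTp : T = ∏ i ∈ Finset.Ico 1 N, (f i).map (algebraMap (𝓞 K) (Spl (tot N f))) :=
    kn_totmap f _
  have hTd : T.natDegree = n := by
    rw [hT, natDegree_map_eq_of_injective (kn_inj _), hd]
  have hnd : T.roots.Nodup := nodup_roots hTsep
  have hmem : ∀ x, x ∈ T.roots.toFinset ↔ x ∈ rts (tot N f) := by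
    intro x
    rw [Multiset.mem_toFinset, mem_roots hT0, IsRoot.def]
    show _ ↔ aeval x ((tot N f).map (algebraMap (𝓞 K) K)) = 0
    rw [aeval_map_algebraMap, kn_aeval]
  have hdvd : ∀ i ∈ Finset.Ico 1 N, (f i).map (algebraMap (𝓞 K) (Spl (tot N f))) ∣ T := by
    intro i hi
    rw [hTp]
    exact Finset.dvd_prod_of_mem (fun i => (f i).map (algebraMap (𝓞 K) (Spl (tot N f)))) hi
  refine ⟨T.roots.toFinset, ?_, hmem, ?_, ?_, ?_⟩
  · rw [Multiset.toFinset_card_of_nodup hnd, ← hTd, hTs.natDegree_eq_card_roots]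
  · intro i hi
    have hs := hTs.of_dvd hT0 (hdvd i hi)
    have hsep := hTsep.of_dvd (hdvd i hi)
    have hnd' := nodup_roots hsep
    refine ⟨hs, ((f i).map (algebraMap (𝓞 K) (Spl (tot N f)))).roots.toFinset, ?_, ?_, ?_, ?_⟩
    · intro x hx
      rw [Multiset.mem_toFinset, mem_roots hsep.ne_zero] at hx
      rw [Multiset.mem_toFinset, mem_roots hT0]
      exact hx.dvd (hdvd i hi)
    · rw [Multiset.toFinset_val, Multiset.dedup_eq_self.mpr hnd']
    · rw [Multiset.toFinset_card_of_nodup hnd', ← hs.natDegree_eq_card_roots,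
        natDegree_map_eq_of_injective (kn_inj _)]
    · intro x
      rw [Multiset.mem_toFinset, mem_roots hsep.ne_zero, IsRoot.def, kn_aeval]
  · intro x hx
    rw [Multiset.mem_toFinset, mem_roots hT0, IsRoot.def, hTp, eval_prod,
      Finset.prod_eq_zero_iff] at hx
    obtain ⟨i, hi, h⟩ := hx
    exact ⟨i, hi, by rw [kn_aeval]; exact h⟩
  · intro x i hi j hj h1 h2
    by_contra hij
    have hdvd2 : (f i).map (algebraMap (𝓞 K) (Spl (tot N f))) *
        (f j).map (algebraMap (𝓞 K) (Spl (tot N f))) ∣ T := by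
      rw [hTp, ← Finset.mul_prod_erase _ _ hi]
      refine mul_dvd_mul_left _ ?_
      exact Finset.dvd_prod_of_mem (fun i => (f i).map (algebraMap (𝓞 K) (Spl (tot N f))))
        (Finset.mem_erase.mpr ⟨fun h => hij h.symm, hj⟩)
    obtain ⟨a, b, hab⟩ := (hTsep.of_dvd hdvd2).isCoprime
    have h3 := congrArg (fun g : (Spl (tot N f))[X] => eval x g) hab
    rw [eval_add, eval_mul, eval_mul, ← kn_aeval, ← kn_aeval, h1, h2, mul_zero, mul_zero,
      add_zero, eval_one] at h3
    exact zero_ne_one h3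

theorem numbering {n N : ℕ} (hn : 3 ≤ n) {f : ℕ → (𝓞 K)[X]} (hd : (tot N f).natDegree = n)
    (hf : ((tot N f).map (algebraMap (𝓞 K) K)).Separable) :
    ∃ (m : ℕ) (w : ℕ → ℕ) (z : ℕ → OnePoint (Spl (tot N f))),
      n ≤ m ∧ m ≤ n + 1 ∧ Set.InjOn z (Set.Iio m) ∧ (∀ j < m, 1 ≤ w j ∧ w j < N) ∧
      z '' Set.Iio m = bp N f ∧ (∀ j < m, w j = wt N f (z j)) ∧
      N ∣ ∑ j ∈ Finset.range m, w j ∧
      (∀ j < n, ∃ x ∈ rts (tot N f), z j = (x : OnePoint (Spl (tot N f)))) ∧
      ∀ (F : Type) [Field F] [Algebra K F] (φ : Spl (tot N f) →ₐ[K] F) (x y : F),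
        form N f x y = (-1) ^ winf N f *
          (∏ i ∈ Finset.Ico 1 N, (algebraMap (𝓞 K) F (f i).leadingCoeff) ^ i) *
            psi m w (fun j => (z j).map φ) x y := by
  classical
  have hN : 0 < N := by
    rcases Nat.eq_zero_or_pos N with rfl | h
    · exfalso
      have h1 : tot 0 f = 1 := by
        unfold tot
        rfl
      rw [h1, natDegree_one] at hd
      omega
    · exact h
  obtain ⟨R, hRc, hRm, hRi, hex, huniq⟩ := knum_roots hd hf
  obtain ⟨hwN, hwd⟩ := kn_winf f hN
  let e : Fin n ≃ R := (Finset.equivFinOfCardEq hRc).symm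
  let z : ℕ → OnePoint (Spl (tot N f)) := fun j =>
    if h : j < n then (((e ⟨j, h⟩ : R) : Spl (tot N f)) : OnePoint (Spl (tot N f)))
    else OnePoint.infty
  have hz : ∀ j (h : j < n), z j =
      (((e ⟨j, h⟩ : R) : Spl (tot N f)) : OnePoint (Spl (tot N f))) := fun j h => dif_pos h
  have hz' : ∀ j, ¬ j < n → z j = OnePoint.infty := fun j h => dif_neg h
  -- the weight of a root
  let wr : Spl (tot N f) → ℕ := fun x => ∑ i ∈ Finset.Ico 1 N, if aeval x (f i) = 0 then i else 0
  have hwt : ∀ x : Spl (tot N f), wt N f (x : OnePoint (Spl (tot N f))) = wr x := by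
    intro x
    show (∑ i ∈ Finset.Ico 1 N, _) = ∑ i ∈ Finset.Ico 1 N, _
    refine Finset.sum_congr rfl fun i _ => ?_
    by_cases h : aeval x (f i) = 0
    · rw [if_pos h]
    · rw [if_neg h]
  have hwti : wt N f (OnePoint.infty : OnePoint (Spl (tot N f))) = winf N f := rfl
  have hwr : ∀ x ∈ R, 1 ≤ wr x ∧ wr x < N := by
    intro x hx
    obtain ⟨i, hi, hxi⟩ := hex x hx
    have h1 : wr x = i := by
      show (∑ k ∈ Finset.Ico 1 N, if aeval x (f k) = 0 then k else 0) = i
      rw [Finset.sum_eq_single i]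
      · rw [if_pos hxi]
      · intro k hk hki
        rw [if_neg fun h => hki (huniq x k hk i hi h hxi)]
      · intro h
        exact absurd hi h
    rw [h1]
    exact Finset.mem_Ico.mp hi
  let m : ℕ := if winf N f = 0 then n else n + 1
  let w : ℕ → ℕ := fun j => wt N f (z j)
  have hm0 : winf N f = 0 → m = n := fun h => if_pos h
  have hm1 : winf N f ≠ 0 → m = n + 1 := fun h => if_neg h
  have hmn : n ≤ m ∧ m ≤ n + 1 := by
    by_cases h : winf N f = 0
    · rw [hm0 h]; omega
    · rw [hm1 h]; omega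
  have hzR : ∀ j (h : j < n), ((e ⟨j, h⟩ : R) : Spl (tot N f)) ∈ R := fun j h => (e ⟨j, h⟩).2
  -- sums and products over the first n numbers
  have hprod : ∀ {M : Type} [CommMonoid M] (g : Spl (tot N f) → M) (G : ℕ → M),
      (∀ j (h : j < n), G j = g (e ⟨j, h⟩ : R)) →
        ∏ j ∈ Finset.range n, G j = ∏ x ∈ R, g x := by
    intro M _ g G hG
    rw [Finset.prod_range, ← Finset.prod_coe_sort R g, ← Equiv.prod_comp e (fun x : R => g x)]
    exact Finset.prod_congr rfl fun j _ => hG j j.2
  have hsum : ∑ j ∈ Finset.range n, w j = ∑ x ∈ R, wr x := by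
    rw [Finset.sum_range, ← Finset.sum_coe_sort R wr, ← Equiv.sum_comp e (fun x : R => wr x)]
    refine Finset.sum_congr rfl fun j _ => ?_
    show wt N f (z j) = _
    rw [hz j j.2, hwt]
  have hsum2 : ∑ x ∈ R, wr x = sdeg N 1 f := by
    show (∑ x ∈ R, ∑ i ∈ Finset.Ico 1 N, if aeval x (f i) = 0 then i else 0) = _
    rw [Finset.sum_comm]
    unfold sdeg
    refine Finset.sum_congr rfl fun i hi => ?_
    obtain ⟨_, Ri, hRiR, _, hcard, hmem⟩ := hRi i hi
    have h1 : ∀ x ∈ R, (if aeval x (f i) = 0 then i else 0) = if x ∈ Ri then i else 0 := by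
      intro x _
      by_cases h : aeval x (f i) = 0
      · rw [if_pos h, if_pos ((hmem x).mpr h)]
      · rw [if_neg h, if_neg fun h' => h ((hmem x).mp h')]
    rw [Finset.sum_congr rfl h1, Finset.sum_ite_mem, Finset.inter_eq_right.mpr hRiR,
      Finset.sum_const, hcard, smul_eq_mul, mul_one,
      Nat.mod_eq_of_lt (Finset.mem_Ico.mp hi).2, mul_comm]
  refine ⟨m, w, z, hmn.1, hmn.2, ?_, ?_, ?_, fun _ _ => rfl, ?_, ?_, ?_⟩
  · intro i hi j hj hij
    rw [Set.mem_Iio] at hi hj
    by_cases h1 : i < n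
    · by_cases h2 : j < n
      · rw [hz i h1, hz j h2, OnePoint.coe_eq_coe] at hij
        have h3 := e.injective (Subtype.ext hij)
        exact Fin.mk.inj_iff.mp h3
      · rw [hz i h1, hz' j h2] at hij
        exact absurd hij (OnePoint.coe_ne_infty _)
    · by_cases h2 : j < n
      · rw [hz' i h1, hz j h2] at hij
        exact absurd hij.symm (OnePoint.coe_ne_infty _)
      · omega
  · intro j hj
    show 1 ≤ wt N f (z j) ∧ wt N f (z j) < N
    by_cases h1 : j < n
    · rw [hz j h1, hwt]
      exact hwr _ (hzR j h1)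
    · rw [hz' j h1, hwti]
      have h2 : winf N f ≠ 0 := by
        intro h
        rw [hm0 h] at hj
        exact h1 hj
      exact ⟨Nat.one_le_iff_ne_zero.mpr h2, hwN⟩
  · ext p
    constructor
    · rintro ⟨j, hj, rfl⟩
      rw [Set.mem_Iio] at hj
      by_cases h1 : j < n
      · rw [hz j h1]
        exact Or.inl ⟨_, (hRm _).mp (hzR j h1), rfl⟩
      · rw [hz' j h1]
        refine Or.inr ⟨rfl, ?_⟩
        intro h
        rw [hm0 h] at hj
        exact h1 hj
    · rintro (⟨x, hx, rfl⟩ | ⟨rfl, hw⟩)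
      · have h1 := (hRm x).mpr hx
        refine ⟨(e.symm ⟨x, h1⟩ : Fin n), ?_, ?_⟩
        · rw [Set.mem_Iio]
          exact lt_of_lt_of_le (e.symm ⟨x, h1⟩).2 hmn.1
        · rw [hz _ (e.symm ⟨x, h1⟩).2]
          rw [show (⟨((e.symm ⟨x, h1⟩ : Fin n) : ℕ), (e.symm ⟨x, h1⟩).2⟩ : Fin n) =
            e.symm ⟨x, h1⟩ from rfl, e.apply_symm_apply]
      · refine ⟨n, ?_, hz' n (lt_irrefl n)⟩
        rw [Set.mem_Iio, hm1 hw]
        omega
  · by_cases h : winf N f = 0
    · rw [hm0 h, hsum, hsum2]
      rw [h, Nat.add_zero] at hwd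
      exact hwd
    · rw [hm1 h, Finset.sum_range_succ, hsum, hsum2]
      have h1 : w n = winf N f := by
        show wt N f (z n) = _
        rw [hz' n (lt_irrefl n), hwti]
      rw [h1]
      exact hwd
  · intro j hj
    exact ⟨_, (hRm _).mp (hzR j hj), hz j hj⟩
  · intro F _ _ φ x y
    have hφ : ∀ r : 𝓞 K, algebraMap (𝓞 K) F r = φ (algebraMap (𝓞 K) (Spl (tot N f)) r) := by
      intro r
      rw [IsScalarTower.algebraMap_apply (𝓞 K) K F, IsScalarTower.algebraMap_apply (𝓞 K) K
        (Spl (tot N f)), AlgHom.commutes]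
    -- one factor
    have hone : ∀ i ∈ Finset.Ico 1 N, ∑ k ∈ Finset.range ((f i).natDegree + 1),
        algebraMap (𝓞 K) F ((f i).coeff k) * x ^ k * y ^ ((f i).natDegree - k) =
        algebraMap (𝓞 K) F (f i).leadingCoeff *
          ∏ t ∈ R, if aeval t (f i) = 0 then x - φ t * y else 1 := by
      intro i hi
      obtain ⟨hs, Ri, hRiR, hroots, hcard, hmem⟩ := hRi i hi
      have hs2 : (((f i).map (algebraMap (𝓞 K) (Spl (tot N f)))).map
          (φ : Spl (tot N f) →+* F)).Splits := hs.map _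
      have h1 := kn_homog hs2 x y
      have hdeg : (((f i).map (algebraMap (𝓞 K) (Spl (tot N f)))).map
          (φ : Spl (tot N f) →+* F)).natDegree = (f i).natDegree := by
        rw [natDegree_map_eq_of_injective (φ : Spl (tot N f) →+* F).injective,
          natDegree_map_eq_of_injective (kn_inj _)]
      rw [hdeg, hs.roots_map, hroots] at h1
      have hlc : (((f i).map (algebraMap (𝓞 K) (Spl (tot N f)))).map
          (φ : Spl (tot N f) →+* F)).leadingCoeff = algebraMap (𝓞 K) F (f i).leadingCoeff := by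
        rw [leadingCoeff, hdeg, coeff_map, coeff_map, hφ]
        rfl
      rw [hlc, Multiset.map_map] at h1
      have h2 : ∏ t ∈ R, (if aeval t (f i) = 0 then x - φ t * y else 1) =
          ∏ t ∈ Ri, (x - φ t * y) := by
        have h3 : ∀ t ∈ R, (if aeval t (f i) = 0 then x - φ t * y else 1) =
            if t ∈ Ri then x - φ t * y else 1 := by
          intro t _
          by_cases h : aeval t (f i) = 0
          · rw [if_pos h, if_pos ((hmem t).mpr h)]
          · rw [if_neg h, if_neg fun h' => h ((hmem t).mp h')]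
        rw [Finset.prod_congr rfl h3, Finset.prod_ite_mem, Finset.inter_eq_right.mpr hRiR]
      rw [h2]
      refine Eq.trans ?_ (h1.trans ?_)
      · refine Finset.sum_congr rfl fun k _ => ?_
        rw [coeff_map, coeff_map, hφ]
        rfl
      · rfl
    have hpow : ∀ t ∈ R, ∏ i ∈ Finset.Ico 1 N,
        (if aeval t (f i) = 0 then x - φ t * y else 1) ^ i = (x - φ t * y) ^ wr t := by
      intro t _
      show _ = (x - φ t * y) ^ (∑ i ∈ Finset.Ico 1 N, if aeval t (f i) = 0 then i else 0)
      rw [← Finset.prod_pow_eq_pow_sum]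
      refine Finset.prod_congr rfl fun i _ => ?_
      by_cases h : aeval t (f i) = 0
      · rw [if_pos h, if_pos h]
      · rw [if_neg h, if_neg h, one_pow, pow_zero]
    have hform : form N f x y = y ^ winf N f *
        ((∏ i ∈ Finset.Ico 1 N, (algebraMap (𝓞 K) F (f i).leadingCoeff) ^ i) *
          ∏ t ∈ R, (x - φ t * y) ^ wr t) := by
      unfold form
      congr 1
      rw [Finset.prod_congr rfl fun i hi => by rw [hone i hi, mul_pow], Finset.prod_mul_distrib]
      congr 1
      rw [Finset.prod_congr rfl fun i _ => (Finset.prod_pow R i _).symm, Finset.prod_comm]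
      exact Finset.prod_congr rfl hpow
    have hpsi : ∏ j ∈ Finset.range n, (x * (vec ((z j).map φ)).2 - y * (vec ((z j).map φ)).1) ^ w j =
        ∏ t ∈ R, (x - φ t * y) ^ wr t := by
      refine hprod (fun t => (x - φ t * y) ^ wr t) _ fun j h => ?_
      have h1 : w j = wr (e ⟨j, h⟩ : R) := by
        show wt N f (z j) = _
        rw [hz j h, hwt]
      rw [h1, hz j h]
      show (x * 1 - y * φ _) ^ _ = (x - φ _ * y) ^ _
      rw [mul_one, mul_comm y]
    rw [hform]
    unfold psi
    by_cases h : winf N f = 0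
    · rw [hm0 h, hpsi, h, pow_zero, pow_zero, one_mul, one_mul]
    · rw [hm1 h, Finset.prod_range_succ, hpsi]
      have h1 : w n = winf N f := by
        show wt N f (z n) = _
        rw [hz' n (lt_irrefl n), hwti]
      have h2 : (x * (vec ((z n).map φ)).2 - y * (vec ((z n).map φ)).1) = -y := by
        rw [hz' n (lt_irrefl n)]
        show x * 0 - y * 1 = -y
        ring
      rw [h2, h1]
      have h3 : ((-1 : F)) ^ winf N f * (-y) ^ winf N f = y ^ winf N f := by
        rw [← mul_pow]
        congr 1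
        ring
      rw [← h3]
      ring

end FreyCyc
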