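import Pool.Agent.Lib.MP_6babc4_nt.Cyc.Base
import Pool.Agent.Lib.MP_6babc4_nt.Cyc.KFld

/-!
# Module KSpl: the splitting field, and the field of an `N`-th root, inside the algebraic closure

PROOFS.
* `spl_disc`: `base_finrank`, `base_disc` of Base (private: copy them, or make them public there), and
  `[L : ℚ] = [L : K] d`; the constant as in `base_const` (simpler).
* `root_field`: `E₀` = cyclotomic extension of `K` with a primitive `N`-th root of unity (`base_cyc` of
  Base for `L = K`, `q = N`: degree `≤ N`, `|discr E₀| ≤ (|D_K| N^(2d))^N`). The image `b` of `c` in `E₀`: for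
  `P` of `E₀` with `W ∉ P`, and `v` below, `W ∉ v`, so `N ∣ ord P b` (`ord_algebraMap`). `kummer_step` gives
  `E ⊇ E₀`, `x^N = b`, of degree `≤ N · N d`, `|discr E| ≤ (|discr E₀| (N W)^(N d))^N`. `ι : E → Ω` over `K`
  (`IsAlgClosed.lift`), `e = ι x`, `L = ι.fieldRange`.
-/

set_option autoImplicit false

open Polynomial NumberField IsDedekindDomain Module

namespace FreyCyc

open FreySparse

private lemma kspl_finrank {K : Type} [Field K] (p : K[X]) (hp : p.Separable) :
    finrank K p.SplittingField ≤ p.natDegree.factorial := by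
  classical
  have : Fact ((p.map (algebraMap K p.SplittingField)).Splits) := ⟨SplittingField.splits p⟩
  rw [← Gal.card_of_separable hp]
  have h1 : Nat.card p.Gal ≤ Nat.card (Equiv.Perm (p.rootSet p.SplittingField)) :=
    Nat.card_le_card_of_injective _ (Gal.galActionHom_injective p p.SplittingField)
  refine h1.trans ?_
  rw [Nat.card_eq_fintype_card, Fintype.card_perm,
    card_rootSet_eq_natDegree hp (SplittingField.splits p)]

private lemma kspl_deg (K : Type) [Field K] [NumberField K] (n N : ℕ)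
    (f : ℕ → (𝓞 K)[X]) (hn : (tot N f).natDegree = n)
    (hf : ((tot N f).map (algebraMap (𝓞 K) K)).Separable) :
    finrank K (Spl (tot N f)) ≤ n.factorial := by
  have hdeg : ((tot N f).map (algebraMap (𝓞 K) K)).natDegree = n := by
    rw [natDegree_map_eq_of_injective (FaithfulSMul.algebraMap_injective (𝓞 K) K), hn]
  have h := kspl_finrank _ hf
  rwa [hdeg] at h

private lemma kspl_disc (K : Type) [Field K] [NumberField K] (n N q : ℕ) (hN : N ≠ 0)
    (f : ℕ → (𝓞 K)[X]) (hn : (tot N f).natDegree = n)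
    (hf : ((tot N f).map (algebraMap (𝓞 K) K)).Separable) :
    |(discr (Spl (tot N f)) : ℝ)| ≤
      (|(discr K : ℝ)| * ((n.factorial : ℝ) * (N * cond N q f : ℕ)) ^ finrank ℚ K) ^
        n.factorial := by
  have hgal : IsGalois K (Spl (tot N f)) := IsGalois.of_separable_splitting_field hf
  have hw : N * cond N q f ≠ 0 :=
    Nat.mul_ne_zero hN (Nat.one_le_iff_ne_zero.mp (cond_pos N q f))
  have hm : finrank K (Spl (tot N f)) ≤ n.factorial := kspl_deg K n N f hn hf
  refine discr_galois hw hm fun P P' hPP' => ?_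
  by_cases hNP : (N : 𝓞 K) ∈ P.asIdeal
  · rw [Nat.cast_mul]
    exact P.asIdeal.mul_mem_right _ hNP
  · rw [Nat.cast_mul]
    exact P.asIdeal.mul_mem_left _ (cond_mem N q hf ⟨hNP, Or.inl ⟨P', hPP'⟩⟩)

private lemma kspl_cyc (L : Type) [Field L] [NumberField L] (q : ℕ) (hq : 0 < q) :
    ∃ (E : Type) (_ : Field E) (_ : NumberField E) (_ : Algebra L E) (ζ : E),
      IsPrimitiveRoot ζ q ∧ finrank L E ≤ q ∧
      |(discr E : ℝ)| ≤ (|(discr L : ℝ)| * ((q : ℝ) * q) ^ finrank ℚ L) ^ q := by
  have : NeZero q := ⟨hq.ne'⟩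
  obtain ⟨ζ, hζ⟩ := (CyclotomicField.isCyclotomicExtension q L).exists_isPrimitiveRoot rfl hq.ne'
  have hgal : IsGalois L (CyclotomicField q L) :=
    IsCyclotomicExtension.isGalois {q} L (CyclotomicField q L)
  have htop : IntermediateField.adjoin L {ζ} = ⊤ := by
    have h1 := IsCyclotomicExtension.adjoin_primitive_root_eq_top (A := L) hζ
    rw [← IntermediateField.toSubalgebra_injective.eq_iff, IntermediateField.top_toSubalgebra,
      eq_top_iff, ← h1]
    exact IntermediateField.algebra_adjoin_le_adjoin L {ζ}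
  have hfin : finrank L (CyclotomicField q L) ≤ q := by
    have h1 : finrank L (IntermediateField.adjoin L {ζ}) ≤ q := by
      rw [IntermediateField.adjoin.finrank (hζ.isIntegral hq).tower_top]
      have h2 : (X ^ q - 1 : L[X]) ≠ 0 := X_pow_sub_C_ne_zero hq 1
      have h3 : minpoly L ζ ∣ X ^ q - 1 := minpoly.dvd L ζ (by
        rw [map_sub, map_pow, aeval_X, map_one, hζ.pow_eq_one, sub_self])
      refine (natDegree_le_of_dvd h3 h2).trans ?_
      exact (natDegree_X_pow_sub_C (n := q) (r := (1 : L))).le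
    rw [htop, IntermediateField.finrank_top'] at h1
    exact h1
  refine ⟨CyclotomicField q L, inferInstance, inferInstance, inferInstance, ζ, hζ, hfin, ?_⟩
  refine discr_galois hq.ne' hfin fun P P' hPP' => ?_
  by_contra hP
  refine kummer_unram hq htop one_ne_zero (by rw [hζ.pow_eq_one, map_one]) P hP ?_ P' hPP'
  rw [ord_one]
  exact dvd_zero _

private lemma kspl_discr_one (K : Type) [Field K] [NumberField K] : (1 : ℝ) ≤ |(discr K : ℝ)| := by
  have h : (1 : ℤ) ≤ |discr K| := Int.one_le_abs (discr_ne_zero K)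
  exact_mod_cast h

theorem spl_disc (d n N q : ℕ) (hN : N ≠ 0) : ∃ A : ℕ, 1 ≤ A ∧
    ∀ (K : Type) [Field K] [NumberField K], finrank ℚ K = d → ∀ f : ℕ → (𝓞 K)[X],
      (tot N f).natDegree = n → ((tot N f).map (algebraMap (𝓞 K) K)).Separable →
        finrank ℚ (Spl (tot N f)) ≤ A ∧
        |(discr (Spl (tot N f)) : ℝ)| ≤ (A * (|(discr K : ℝ)| * cond N q f)) ^ A := by
  have hF : 1 ≤ n.factorial := Nat.succ_le_of_lt n.factorial_pos
  have hN1 : 1 ≤ N := Nat.one_le_iff_ne_zero.mpr hN
  refine ⟨n.factorial * N + (1 + d) * n.factorial + n.factorial * d, ?_, ?_⟩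
  · have h1 : 1 ≤ n.factorial * N := Nat.mul_pos hF hN1
    omega
  intro K _ _ hK f hn hf
  have hL : finrank ℚ (Spl (tot N f)) ≤ n.factorial * d := by
    rw [← finrank_mul_finrank ℚ K (Spl (tot N f)), hK, mul_comm]
    exact Nat.mul_le_mul_right d (kspl_deg K n N f hn hf)
  refine ⟨by omega, ?_⟩
  have h1 := kspl_disc K n N q hN f hn hf
  rw [hK, Nat.cast_mul] at h1
  have hD := kspl_discr_one K
  have hc : (1 : ℝ) ≤ (cond N q f : ℝ) := by exact_mod_cast cond_pos N q f
  have hF' : (1 : ℝ) ≤ n.factorial := by exact_mod_cast hF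
  have hN' : (1 : ℝ) ≤ N := by exact_mod_cast hN1
  set D : ℝ := |(discr K : ℝ)| with hDdef
  set c : ℝ := (cond N q f : ℝ) with hcdef
  set F : ℝ := (n.factorial : ℝ) with hFdef
  set Y : ℝ := F * N * (D * c) with hY
  have hFN : 1 ≤ F * N := one_le_mul_of_one_le_of_one_le hF' hN'
  have hDc : 1 ≤ D * c := one_le_mul_of_one_le_of_one_le hD hc
  have hY1 : 1 ≤ Y := one_le_mul_of_one_le_of_one_le hFN hDc
  have hYD : D ≤ Y := by
    calc D = 1 * (D * 1) := by ring
      _ ≤ (F * N) * (D * c) := mul_le_mul hFN (mul_le_mul_of_nonneg_left hc (by positivity))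
          (by positivity) (by positivity)
  have hYF : F * (N * c) ≤ Y := by
    calc F * (N * c) = (F * N * c) * 1 := by ring
      _ ≤ (F * N * c) * D := mul_le_mul_of_nonneg_left hD (by positivity)
      _ = Y := by rw [hY]; ring
  have h2 : |(discr (Spl (tot N f)) : ℝ)| ≤ Y ^ ((1 + d) * n.factorial) := by
    refine h1.trans ?_
    rw [pow_mul]
    refine pow_le_pow_left₀ (by positivity) ?_ _
    rw [pow_add, pow_one]
    exact mul_le_mul hYD (pow_le_pow_left₀ (by positivity) hYF d) (by positivity) (by positivity)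
  refine h2.trans ?_
  have h3 : Y ≤ ((n.factorial * N + (1 + d) * n.factorial + n.factorial * d : ℕ) : ℝ) * (D * c) := by
    rw [hY]
    refine mul_le_mul_of_nonneg_right ?_ (by positivity)
    have : n.factorial * N ≤ n.factorial * N + (1 + d) * n.factorial + n.factorial * d := by omega
    rw [hFdef]
    exact_mod_cast this
  calc Y ^ ((1 + d) * n.factorial) ≤
        Y ^ (n.factorial * N + (1 + d) * n.factorial + n.factorial * d) :=
        pow_le_pow_right₀ hY1 (by omega)
    _ ≤ _ := pow_le_pow_left₀ (by positivity) h3 _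

theorem root_field (d N : ℕ) (hN : N ≠ 0) : ∃ A : ℕ, 1 ≤ A ∧
    ∀ (K : Type) [Field K] [NumberField K], finrank ℚ K = d → ∀ c : K, c ≠ 0 → ∀ W : ℕ, W ≠ 0 →
      N ∣ W → (∀ v : HeightOneSpectrum (𝓞 K), (W : 𝓞 K) ∉ v.asIdeal → (N : ℤ) ∣ ord v c) →
        ∃ L ∈ SubF K A ((A * (|(discr K : ℝ)| * W)) ^ A), ∃ e ∈ L, e ≠ 0 ∧
          e ^ N = algebraMap K (AlgebraicClosure K) c := by
  have hN1 : 1 ≤ N := Nat.one_le_iff_ne_zero.mpr hN
  refine ⟨N * N + ((1 + d) * N + N * d) * N + N * (N * d), ?_, ?_⟩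
  · have h1 : 1 ≤ N * N := Nat.mul_pos hN1 hN1
    omega
  intro K _ _ hK c hc W hW hNW hord
  obtain ⟨E, iF, iN, iA, ζ, hζ, hfin, hdisc⟩ := kspl_cyc K N hN1
  have hl : finrank ℚ E ≤ N * d := by
    rw [← finrank_mul_finrank ℚ K E, hK, mul_comm]
    exact Nat.mul_le_mul_right d hfin
  have hb : algebraMap K E c ≠ 0 := (_root_.map_ne_zero _).mpr hc
  obtain ⟨E', iF', iN', iA', x, hx, hfin', hdisc'⟩ := kummer_step hN1 hζ hb hW hNW (fun P hP => by
    obtain ⟨v, r, hab, -, hr⟩ := ord_algebraMap (E := K) P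
    rw [hr]
    refine Dvd.dvd.mul_left (hord v fun hv => hP ?_) _
    have h5 := (mem_iff_of_above hab (W : 𝓞 K)).mpr hv
    rwa [map_natCast] at h5)
  letI iAK : Algebra K E' := ((algebraMap E E').comp (algebraMap K E)).toAlgebra
  haveI : Algebra.IsAlgebraic K E' := Algebra.IsAlgebraic.tower_top (K := ℚ) K
  let ι : E' →ₐ[K] AlgebraicClosure K := IsAlgClosed.lift
  have hxc : ι x ^ N = algebraMap K (AlgebraicClosure K) c := by
    rw [← map_pow, hx]
    exact ι.commutes c
  refine ⟨ι.fieldRange, ⟨E', iF', iN', iAK, ι, ?_, ?_, rfl⟩, ι x, ⟨x, rfl⟩, ?_, hxc⟩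
  · have h1 : N * finrank ℚ E ≤ N * (N * d) := Nat.mul_le_mul_left N hl
    omega
  · have hD := kspl_discr_one K
    have hW' : (1 : ℝ) ≤ (W : ℝ) := by exact_mod_cast Nat.one_le_iff_ne_zero.mpr hW
    have hN' : (1 : ℝ) ≤ N := by exact_mod_cast hN1
    rw [hK] at hdisc
    set D : ℝ := |(discr K : ℝ)| with hDdef
    set Y : ℝ := N * N * (D * W) with hY
    have hNN : (1 : ℝ) ≤ N * N := one_le_mul_of_one_le_of_one_le hN' hN'
    have hDW : 1 ≤ D * W := one_le_mul_of_one_le_of_one_le hD hW'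
    have hY1 : 1 ≤ Y := one_le_mul_of_one_le_of_one_le hNN hDW
    have hYD : D ≤ Y := by
      calc D = 1 * (D * 1) := by ring
        _ ≤ (N * N) * (D * W) := mul_le_mul hNN (mul_le_mul_of_nonneg_left hW' (by positivity))
            (by positivity) (by positivity)
    have hYN : (N : ℝ) * N ≤ Y := by
      calc (N : ℝ) * N = (N * N) * 1 := by ring
        _ ≤ (N * N) * (D * W) := mul_le_mul_of_nonneg_left hDW (by positivity)
    have hYW : (N : ℝ) * W ≤ Y := by
      calc (N : ℝ) * W = (N * W) * 1 := by ring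
        _ ≤ (N * W) * (N * D) := mul_le_mul_of_nonneg_left
            (one_le_mul_of_one_le_of_one_le hN' hD) (by positivity)
        _ = Y := by rw [hY]; ring
    have h3 : |(discr E : ℝ)| ≤ Y ^ ((1 + d) * N) := by
      refine hdisc.trans ?_
      rw [pow_mul]
      refine pow_le_pow_left₀ (by positivity) ?_ _
      rw [pow_add, pow_one]
      exact mul_le_mul hYD (pow_le_pow_left₀ (by positivity) hYN d) (by positivity) (by positivity)
    have h4 : ((N : ℝ) * W) ^ finrank ℚ E ≤ Y ^ (N * d) := by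
      calc ((N : ℝ) * W) ^ finrank ℚ E ≤ Y ^ finrank ℚ E := pow_le_pow_left₀ (by positivity) hYW _
        _ ≤ Y ^ (N * d) := pow_le_pow_right₀ hY1 hl
    have h5 : |(discr E' : ℝ)| ≤ Y ^ (((1 + d) * N + N * d) * N) := by
      refine hdisc'.trans ?_
      rw [pow_mul]
      refine pow_le_pow_left₀ (by positivity) ?_ _
      rw [pow_add]
      exact mul_le_mul h3 h4 (by positivity) (by positivity)
    refine h5.trans ?_
    have h6 : Y ≤ ((N * N + ((1 + d) * N + N * d) * N + N * (N * d) : ℕ) : ℝ) * (D * W) := by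
      rw [hY]
      refine mul_le_mul_of_nonneg_right ?_ (by positivity)
      have : N * N ≤ N * N + ((1 + d) * N + N * d) * N + N * (N * d) := by omega
      exact_mod_cast this
    calc Y ^ (((1 + d) * N + N * d) * N) ≤
          Y ^ (N * N + ((1 + d) * N + N * d) * N + N * (N * d)) :=
          pow_le_pow_right₀ hY1 (by omega)
      _ ≤ _ := pow_le_pow_left₀ (by positivity) h6 _
  · intro h0
    rw [h0, zero_pow hN] at hxc
    exact hc ((map_eq_zero (algebraMap K (AlgebraicClosure K))).mp hxc.symm)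

end FreyCyc
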