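import Pool.Agent.Lib.MP_6babc4_nt.Cyc.Base
import Pool.Agent.Lib.MP_6babc4_nt.Sp.Hou
import Pool.Agent.Lib.MP_6babc4_nt.Sp.Red

/-!
# Module Crq: cross ratios as quotients of small integers

PROOF. `F = tot N f` has degree `n` and coefficients in `Box K H₁`, `H₁ = ((n + 1) H)^N` (product of
`N - 1` polynomials of degree `≤ n` with coefficients bounded by `H`: the sum of the absolute values
of the coefficients is submultiplicative). With `A` the leading coefficient of `F` and a root `x`: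
`A x` is integral and all its conjugates are at most `2 H₁` (Sp/Hou: `isIntegral_lc_mul`,
`root_bound`-like lemmas for `FreySparse.Fam`; if `n = 0` there is no root). So for branch points
`a ≠ b` the number `A dt a b` is integral with conjugates at most `4 H₁`: `A x - A y`, or `± A`.
`ν = (A dt a b)(A dt c e)`, `δ = (A dt a c)(A dt b e)`, bounded by `16 H₁^2 ≤ (C H)^(2 N)` with
`C = 4 (n+1)` (`N ≥ 1`).
-/

set_option autoImplicit false

open Polynomial NumberField IsDedekindDomain Module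

namespace FreyCyc

open FreySparse

private theorem crq_coeff (n : ℕ) (H : ℝ) (a : ℕ) :
    (∑ j ∈ Finset.range (n + 1), C H * X ^ j : ℝ[X]).coeff a = if a ∈ Finset.range (n + 1) then H else 0 := by
  rw [finsetSum_coeff]
  simp only [coeff_C_mul, coeff_X_pow, mul_ite, mul_one, mul_zero]
  rw [Finset.sum_ite_eq]

private theorem crq_major (n : ℕ) (H : ℝ) (s : Finset ℕ) (G : ℕ → ℂ[X])
    (hd : ∀ i ∈ s, (G i).natDegree ≤ n) (hc : ∀ i ∈ s, ∀ k, ‖(G i).coeff k‖ ≤ H) :
    ∀ k, ‖(∏ i ∈ s, G i).coeff k‖ ≤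
      ((∑ j ∈ Finset.range (n + 1), C H * X ^ j : ℝ[X]) ^ s.card).coeff k := by
  classical
  induction s using Finset.induction_on with
  | empty =>
    intro k
    rw [Finset.prod_empty, Finset.card_empty, pow_zero, coeff_one, coeff_one]
    split_ifs <;> simp
  | insert i s hi ih =>
    have ih' := ih (fun j hj => hd j (Finset.mem_insert_of_mem hj))
      (fun j hj => hc j (Finset.mem_insert_of_mem hj))
    intro k
    rw [Finset.prod_insert hi, Finset.card_insert_of_notMem hi, pow_succ', coeff_mul, coeff_mul]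
    refine (norm_sum_le _ _).trans (Finset.sum_le_sum fun x _ => ?_)
    rw [norm_mul]
    have h1 : ‖(G i).coeff x.1‖ ≤ (∑ j ∈ Finset.range (n + 1), C H * X ^ j : ℝ[X]).coeff x.1 := by
      rw [crq_coeff]
      split_ifs with h
      · exact hc i (Finset.mem_insert_self _ _) _
      · rw [Finset.mem_range, not_lt] at h
        rw [coeff_eq_zero_of_natDegree_lt, norm_zero]
        have := hd i (Finset.mem_insert_self _ _)
        omega
    exact mul_le_mul h1 (ih' x.2) (norm_nonneg _) ((norm_nonneg _).trans h1)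

private theorem crq_le (n : ℕ) (H : ℝ) (hH : 0 ≤ H) (s : Finset ℕ) (G : ℕ → ℂ[X])
    (hd : ∀ i ∈ s, (G i).natDegree ≤ n) (hc : ∀ i ∈ s, ∀ k, ‖(G i).coeff k‖ ≤ H) (k : ℕ) :
    ‖(∏ i ∈ s, G i).coeff k‖ ≤ ((n + 1) * H) ^ s.card := by
  set Q : ℝ[X] := (∑ j ∈ Finset.range (n + 1), C H * X ^ j : ℝ[X]) ^ s.card with hQ
  have h1 := crq_major n H s G hd hc k
  have h0 : ∀ k, 0 ≤ Q.coeff k := fun k =>
    (norm_nonneg _).trans (crq_major n H s (fun _ => 0) (fun i _ => by simp)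
      (fun i _ k => by simpa using hH) k)
  have h2 : Q.eval 1 = ((n + 1) * H) ^ s.card := by
    rw [hQ, eval_pow, eval_finsetSum]
    congr 1
    simp
  refine h1.trans ?_
  rw [← h2, eval_eq_sum_range]
  simp only [one_pow, mul_one]
  rcases le_or_gt k Q.natDegree with h3 | h3
  · exact Finset.single_le_sum (f := fun i => Q.coeff i) (fun i _ => h0 i)
      (Finset.mem_range.2 (Nat.lt_succ_of_le h3))
  · rw [coeff_eq_zero_of_natDegree_lt h3]
    exact Finset.sum_nonneg fun i _ => h0 i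

theorem tot_fam (n N q : ℕ) (hN : N ≠ 0) {K : Type} [Field K] [NumberField K] {H : ℝ} (hH : 1 ≤ H)
    {f : ℕ → (𝓞 K)[X]} (hf : f ∈ Fam K N q n H) :
    tot N f ∈ FreySparse.Fam K n (((n + 1) * H) ^ N) := by
  have _ := hN
  obtain ⟨hbox, -, hdeg, hsep⟩ := hf
  refine ⟨hdeg, fun k => ?_, hsep⟩
  have hF0 : tot N f ≠ 0 := by
    intro h
    have h1 := hsep.ne_zero
    rw [h, Polynomial.map_zero] at h1
    exact h1 rfl
  have hfi : ∀ i ∈ Finset.Ico 1 N, f i ≠ 0 := by
    intro i hi h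
    apply hF0
    unfold tot
    exact Finset.prod_eq_zero hi h
  have hdi : ∀ i ∈ Finset.Ico 1 N, (f i).natDegree ≤ n := by
    intro i hi
    have h1 : (tot N f).natDegree = ∑ i ∈ Finset.Ico 1 N, (f i).natDegree := by
      unfold tot
      exact natDegree_prod _ _ hfi
    rw [← hdeg, h1]
    exact Finset.single_le_sum (f := fun i => (f i).natDegree) (fun i _ => Nat.zero_le _) hi
  intro σ
  set ρ : 𝓞 K →+* ℂ := σ.comp (algebraMap (𝓞 K) K) with hρ
  have h1 : σ (algebraMap (𝓞 K) K ((tot N f).coeff k)) =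
      (∏ i ∈ Finset.Ico 1 N, (f i).map ρ).coeff k := by
    rw [← Polynomial.map_prod, coeff_map]
    rfl
  rw [h1]
  have h2 := crq_le n H (by linarith) (Finset.Ico 1 N) (fun i => (f i).map ρ)
    (fun i hi => natDegree_map_le.trans (hdi i hi))
    (fun i hi k => by
      rw [coeff_map]
      exact hbox i hi k σ) k
  refine h2.trans ?_
  apply pow_le_pow_right₀
  · have : (0 : ℝ) ≤ n := Nat.cast_nonneg n
    nlinarith
  · rw [Nat.card_Ico]
    omega

private theorem crq_lc {K : Type} [Field K] [NumberField K] {F : (𝓞 K)[X]}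
    (hsep : (F.map (algebraMap (𝓞 K) K)).Separable) :
    algebraMap K (Spl F) (algebraMap (𝓞 K) K F.leadingCoeff) ≠ 0 := by
  intro h
  rw [map_eq_zero_iff _ (algebraMap K (Spl F)).injective,
    map_eq_zero_iff _ (FaithfulSMul.algebraMap_injective (𝓞 K) K), leadingCoeff_eq_zero] at h
  have h1 := hsep.ne_zero
  rw [h, Polynomial.map_zero] at h1
  exact h1 rfl

private theorem crq_key {K : Type} [Field K] [NumberField K] {n : ℕ} {H₁ : ℝ} (hH : 1 ≤ H₁)
    {F : (𝓞 K)[X]} (hF : F ∈ FreySparse.Fam K n H₁) {z w : OnePoint (Spl F)}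
    (hz : (∃ x ∈ rts F, z = (x : OnePoint (Spl F))) ∨ z = OnePoint.infty)
    (hw : (∃ x ∈ rts F, w = (x : OnePoint (Spl F))) ∨ w = OnePoint.infty) :
    IsIntegral ℤ (algebraMap K (Spl F) (algebraMap (𝓞 K) K F.leadingCoeff) * dt z w) ∧
      ∀ τ : Spl F →+* ℂ,
        ‖τ (algebraMap K (Spl F) (algebraMap (𝓞 K) K F.leadingCoeff) * dt z w)‖ ≤ 4 * H₁ := by
  obtain ⟨hdeg, hco, hsep⟩ := hF
  set A : Spl F := algebraMap K (Spl F) (algebraMap (𝓞 K) K F.leadingCoeff) with hA
  have hAint : IsIntegral ℤ A := by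
    have h1 : IsIntegral ℤ (algebraMap (𝓞 K) K F.leadingCoeff) :=
      RingOfIntegers.isIntegral_coe F.leadingCoeff
    exact h1.algebraMap
  have hAb : ∀ τ : Spl F →+* ℂ, ‖τ A‖ ≤ H₁ := by
    intro τ
    exact hco F.natDegree (τ.comp (algebraMap K (Spl F)))
  -- roots
  have hroot : ∀ x ∈ rts F, IsIntegral ℤ (A * x) ∧ ∀ τ : Spl F →+* ℂ, ‖τ (A * x)‖ ≤ 2 * H₁ := by
    intro x hx
    have h1 : 1 ≤ F.natDegree := by
      by_contra hlt
      have h0 : F.natDegree = 0 := by omega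
      have h2 : F.map (algebraMap (𝓞 K) K) = C ((F.map (algebraMap (𝓞 K) K)).coeff 0) := by
        apply eq_C_of_natDegree_eq_zero
        have := natDegree_map_le (f := algebraMap (𝓞 K) K) (p := F)
        omega
      have h3 := congrArg (fun P : K[X] => aeval x P) h2
      have hx' : aeval x (F.map (algebraMap (𝓞 K) K)) = 0 := hx
      rw [hx', aeval_C] at h3
      have h4 := (map_eq_zero_iff _ (algebraMap K (Spl F)).injective).1 h3.symm
      rw [h4, C_0] at h2
      exact hsep.ne_zero h2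
    exact ⟨isIntegral_lc_mul hsep hx, fun τ => root_bound hH h1 hco hx τ⟩
  have hfin : ∀ x : Spl F, vec (x : OnePoint (Spl F)) = (x, 1) := fun x => rfl
  have hinf : vec (OnePoint.infty : OnePoint (Spl F)) = (1, 0) := rfl
  rcases hz with ⟨x, hx, rfl⟩ | rfl
  · rcases hw with ⟨y, hy, rfl⟩ | rfl
    · have e1 : A * dt (x : OnePoint (Spl F)) (y : OnePoint (Spl F)) = A * x - A * y := by
        unfold dt
        rw [hfin, hfin]
        ring
      rw [e1]
      refine ⟨(hroot x hx).1.sub (hroot y hy).1, fun τ => ?_⟩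
      rw [map_sub]
      refine (norm_sub_le _ _).trans ?_
      have h1 := (hroot x hx).2 τ
      have h2 := (hroot y hy).2 τ
      linarith
    · have e1 : A * dt (x : OnePoint (Spl F)) OnePoint.infty = - A := by
        unfold dt
        rw [hfin, hinf]
        ring
      rw [e1]
      refine ⟨hAint.neg, fun τ => ?_⟩
      rw [map_neg, norm_neg]
      have h1 := hAb τ
      linarith
  · rcases hw with ⟨y, hy, rfl⟩ | rfl
    · have e1 : A * dt OnePoint.infty (y : OnePoint (Spl F)) = A := by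
        unfold dt
        rw [hfin, hinf]
        ring
      rw [e1]
      refine ⟨hAint, fun τ => ?_⟩
      have h1 := hAb τ
      linarith
    · have e1 : A * dt OnePoint.infty (OnePoint.infty : OnePoint (Spl F)) = 0 := by
        unfold dt
        rw [hinf]
        ring
      rw [e1]
      refine ⟨isIntegral_zero, fun τ => ?_⟩
      rw [map_zero, norm_zero]
      linarith

theorem cr_quot (n N q : ℕ) (hN : N ≠ 0) : ∃ C : ℝ, 1 ≤ C ∧
    ∀ (K : Type) [Field K] [NumberField K] (H : ℝ), 1 ≤ H → ∀ f ∈ Fam K N q n H,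
      ∀ a ∈ bp N f, ∀ b ∈ bp N f, ∀ c ∈ bp N f, ∀ e ∈ bp N f, a ≠ b → a ≠ c → b ≠ e → c ≠ e →
        ∃ ν δ : 𝓞 (Spl (tot N f)), δ ≠ 0 ∧ cr a b c e = (ν : Spl (tot N f)) / δ ∧
          (∀ τ : Spl (tot N f) →+* ℂ, ‖τ ν‖ ≤ (C * H) ^ (2 * N)) ∧
          ∀ τ : Spl (tot N f) →+* ℂ, ‖τ δ‖ ≤ (C * H) ^ (2 * N) := by
  have hn0 : (0 : ℝ) ≤ n := Nat.cast_nonneg n
  refine ⟨4 * (n + 1), by linarith, fun K _ _ H hH f hf a ha b hb c hc e he hab hac hbe hce => ?_⟩
  have hF := tot_fam n N q hN hH hf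
  have hsep := hF.2.2
  set H₁ : ℝ := ((n + 1) * H) ^ N with hH₁
  have hnH : (1 : ℝ) ≤ (n + 1) * H := by nlinarith
  have hH₁1 : 1 ≤ H₁ := one_le_pow₀ hnH
  have hA0 := crq_lc hsep
  have hbp : ∀ z ∈ bp N f, (∃ x ∈ rts (tot N f), z = (x : OnePoint (Spl (tot N f)))) ∨
      z = OnePoint.infty := by
    rintro z (h | ⟨h, -⟩)
    · exact Or.inl h
    · exact Or.inr h
  have key : ∀ z ∈ bp N f, ∀ w ∈ bp N f,
      IsIntegral ℤ (algebraMap K (Spl (tot N f))
        (algebraMap (𝓞 K) K (tot N f).leadingCoeff) * dt z w) ∧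
      ∀ τ : Spl (tot N f) →+* ℂ, ‖τ (algebraMap K (Spl (tot N f))
        (algebraMap (𝓞 K) K (tot N f).leadingCoeff) * dt z w)‖ ≤ 4 * H₁ :=
    fun z hz w hw => crq_key hH₁1 hF (hbp z hz) (hbp w hw)
  generalize algebraMap K (Spl (tot N f)) (algebraMap (𝓞 K) K (tot N f).leadingCoeff) = A at hA0 key
  have hbd : ∀ z ∈ bp N f, ∀ w ∈ bp N f, ∀ z' ∈ bp N f, ∀ w' ∈ bp N f,
      ∀ τ : Spl (tot N f) →+* ℂ,
      ‖τ (A * dt z w * (A * dt z' w'))‖ ≤ (4 * (n + 1) * H) ^ (2 * N) := by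
    intro z hz w hw z' hz' w' hw' τ
    rw [map_mul, norm_mul]
    have h1 := (key z hz w hw).2 τ
    have h2 := (key z' hz' w' hw').2 τ
    have h3 : (4 * (n + 1) * H) ^ (2 * N) = (4 : ℝ) ^ (2 * N) * H₁ ^ 2 := by
      rw [hH₁, ← pow_mul, mul_comm N 2, mul_assoc, mul_pow]
    have h4 : (16 : ℝ) ≤ (4 : ℝ) ^ (2 * N) := by
      calc (16 : ℝ) = 4 ^ 2 := by norm_num
        _ ≤ 4 ^ (2 * N) := pow_le_pow_right₀ (by norm_num) (by omega)
    have h5 : 0 ≤ H₁ ^ 2 := by positivity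
    calc ‖τ (A * dt z w)‖ * ‖τ (A * dt z' w')‖ ≤ (4 * H₁) * (4 * H₁) :=
          mul_le_mul h1 h2 (norm_nonneg _) (by linarith)
      _ = 16 * H₁ ^ 2 := by ring
      _ ≤ (4 : ℝ) ^ (2 * N) * H₁ ^ 2 := mul_le_mul_of_nonneg_right h4 h5
      _ = _ := h3.symm
  refine ⟨⟨A * dt a b * (A * dt c e), (key a ha b hb).1.mul (key c hc e he).1⟩,
    ⟨A * dt a c * (A * dt b e), (key a ha c hc).1.mul (key b hb e he).1⟩, ?_, ?_,
    fun τ => hbd a ha b hb c hc e he τ, fun τ => hbd a ha c hc b hb e he τ⟩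
  · intro h
    have h1 : A * dt a c * (A * dt b e) = 0 := congrArg Subtype.val h
    exact mul_ne_zero (mul_ne_zero hA0 (dt_ne hac)) (mul_ne_zero hA0 (dt_ne hbe)) h1
  · show cr a b c e = (A * dt a b * (A * dt c e)) / (A * dt a c * (A * dt b e))
    unfold cr
    have h1 := dt_ne hac
    have h2 := dt_ne hbe
    field_simp

end FreyCyc
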