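import Pool.Agent.Lib.MP_6babc4_nt.Cyc.Lam
import Pool.Agent.Lib.MP_6babc4_nt.Cyc.Crq

/-!
# Module CrC: the number of the cross ratios

`CRset K σ N q n H Y`: the complex cross ratios (under the embeddings `τ` of the splitting field that
extend `σ`) of four branch points of the `f ∈ Fam K N q n H` with `|D_K| cond ≤ Y`.

PROOF of `cr_count`. Let `A₀` be the constant of `base` (for `d, n, N, q`), `M₀ = A₀`, choose `k` with
`2 M₀ · 2 N / q^k ≤ ε` (so `(H^(2N))^(2 M₀/q^k) ≤ H^ε`), `A₁` the constant of `tower` for `k` and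
`M = M₀`, `M' = M₀ q^(2k)`, and `A₂, C₂` those of `lam_count` for `k, M₀, M'`. Let `z = τ(cr a b c e)` be an
element of the set, `E ⊇ Spl, ζ` from `base`, `w = N q cond`; `tower` gives `F ⊇ E`, the chain, degree
`≤ M'` and `|discr F| ≤ (A₁ |discr E| w)^A₁`; `|discr E| ≤ (A₀ Y)^A₀`, `w ≤ N q Y` (`|discr K| ≥ 1`), so
both discriminants are at most `D = (C Y)^A` with constants depending on `d, n, N, q, k`. `τ` extends
to `F → ℂ` (`F` is algebraic over `Spl`: `IsAlgClosed.lift` with `τ.toAlgebra`). The cross ratio is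
`ν/δ` with conjugates `≤ R = (C H)^(2N)` (`cr_quot`), the same for its image in `E` (an embedding of `E`
restricts to one of `Spl`). So `z ∈ LamSet q k M₀ M' D R` and the number is at most
`C₂ D^A₂ R^(2 M₀/q^k) ≤ C Y^A' H^ε`.
-/

set_option autoImplicit false

open Polynomial NumberField IsDedekindDomain Module

namespace FreyCyc

open FreySparse

def CRset (K : Type) [Field K] [NumberField K] (σ : K →+* ℂ) (N q n : ℕ) (H Y : ℝ) : Set ℂ :=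
  {z | ∃ f ∈ Fam K N q n H, |(discr K : ℝ)| * cond N q f ≤ Y ∧
    ∃ τ : Spl (tot N f) →+* ℂ, (∀ x : K, τ (algebraMap K (Spl (tot N f)) x) = σ x) ∧
      ∃ a ∈ bp N f, ∃ b ∈ bp N f, ∃ c ∈ bp N f, ∃ e ∈ bp N f,
        a ≠ b ∧ a ≠ c ∧ a ≠ e ∧ b ≠ c ∧ b ≠ e ∧ c ≠ e ∧ z = τ (cr a b c e)}

private lemma CrC_ext {L F : Type} [Field L] [NumberField L] [Field F] [NumberField F]
    (g : L →+* F) (τ : L →+* ℂ) : ∃ ι : F →+* ℂ, ∀ x, ι (g x) = τ x := by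
  let _ : Algebra L F := g.toAlgebra
  let _ : Algebra L ℂ := τ.toAlgebra
  have hA : Algebra.IsAlgebraic L F := Algebra.IsAlgebraic.tower_top (K := ℚ) L
  let ι : F →ₐ[L] ℂ := IsAlgClosed.lift
  exact ⟨ι.toRingHom, fun x => ι.commutes x⟩

/-- The bound of the discriminants. -/
private noncomputable def CrC_D (N q A₀ A₁ : ℕ) (Y : ℝ) : ℝ :=
  (A₁ * (A₀ * Y) ^ A₀ * (N * q * Y)) ^ A₁

private lemma CrC_D_eq (N q A₀ A₁ : ℕ) (Y : ℝ) :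
    CrC_D N q A₀ A₁ Y = (A₁ * (A₀ : ℝ) ^ A₀ * (N * q)) ^ A₁ * Y ^ ((A₀ + 1) * A₁) := by
  unfold CrC_D
  rw [pow_mul, ← mul_pow]
  congr 1
  rw [mul_pow, pow_succ]
  ring

private lemma CrC_base {N q A₀ A₁ : ℕ} (hN : 1 ≤ N) (hq : 1 ≤ q) (hA₀ : 1 ≤ A₀) (hA₁ : 1 ≤ A₁)
    {Y : ℝ} (hY : 1 ≤ Y) :
    (A₀ * Y) ^ A₀ ≤ CrC_D N q A₀ A₁ Y ∧
      A₁ * (A₀ * Y) ^ A₀ * (N * q * Y) ≤ A₁ * (A₀ * Y) ^ A₀ * (N * q * Y) ∧
      1 ≤ (A₀ * Y) ^ A₀ := by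
  have h0 : (1 : ℝ) ≤ A₀ := by exact_mod_cast hA₀
  have h1 : (1 : ℝ) ≤ A₁ := by exact_mod_cast hA₁
  have h2 : (1 : ℝ) ≤ N := by exact_mod_cast hN
  have h3 : (1 : ℝ) ≤ q := by exact_mod_cast hq
  have h4 : 1 ≤ A₀ * Y := one_le_mul_of_one_le_of_one_le h0 hY
  have h5 : 1 ≤ (A₀ * Y) ^ A₀ := one_le_pow₀ h4
  have h6 : 1 ≤ (N : ℝ) * q * Y :=
    one_le_mul_of_one_le_of_one_le (one_le_mul_of_one_le_of_one_le h2 h3) hY
  refine ⟨?_, le_refl _, h5⟩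
  have h7 : (A₀ * Y) ^ A₀ ≤ A₁ * (A₀ * Y) ^ A₀ * (N * q * Y) := by
    have h8 : (A₀ * Y) ^ A₀ ≤ A₁ * (A₀ * Y) ^ A₀ := le_mul_of_one_le_left (by linarith) h1
    exact h8.trans (le_mul_of_one_le_right (by linarith) h6)
  have h9 : 1 ≤ A₁ * (A₀ * Y) ^ A₀ * (N * q * Y) := h5.trans h7
  unfold CrC_D
  exact h7.trans (le_self_pow₀ h9 (by omega))

/-- The image of an integer in a larger field. -/
private lemma CrC_int {L E : Type} [Field L] [NumberField L] [Field E] [NumberField E]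
    (g : L →+* E) (ν : 𝓞 L) {R : ℝ} (hν : ∀ τ : L →+* ℂ, ‖τ ν‖ ≤ R) :
    ∃ ν' : 𝓞 E, (ν' : E) = g (ν : L) ∧ ∀ τ : E →+* ℂ, ‖τ ν'‖ ≤ R := by
  have hi : IsIntegral ℤ (g (ν : L)) := map_isIntegral_int g (RingOfIntegers.isIntegral_coe ν)
  obtain ⟨ν', h⟩ : ∃ ν' : 𝓞 E, (ν' : E) = g (ν : L) := ⟨⟨g (ν : L), hi⟩, rfl⟩
  refine ⟨ν', h, fun τ => ?_⟩
  rw [h]
  exact hν (τ.comp g)

private lemma CrC_discr (K : Type) [Field K] [NumberField K] : 1 ≤ |(discr K : ℝ)| := by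
  have h := Int.one_le_abs (discr_ne_zero K)
  exact_mod_cast h

/-- The cross ratios are starting points. -/
private lemma CrC_sub {n N q k A₀ A₁ : ℕ} (hN : N ≠ 0) (h3 : 3 ≤ q) (hA₀ : 1 ≤ A₀) (hA₁ : 1 ≤ A₁)
    {C₁ : ℝ} {K : Type} [Field K] [NumberField K] {H Y : ℝ} (hY : 1 ≤ Y)
    (hbase : ∀ f : ℕ → (𝓞 K)[X],
      (tot N f).natDegree = n → ((tot N f).map (algebraMap (𝓞 K) K)).Separable →
        ∃ (E : Type) (_ : Field E) (_ : NumberField E) (_ : Algebra (Spl (tot N f)) E) (ζ : E),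
          IsPrimitiveRoot ζ q ∧ finrank ℚ E ≤ A₀ ∧
          |(discr E : ℝ)| ≤ (A₀ * (|(discr K : ℝ)| * cond N q f)) ^ A₀ ∧
          ∀ a ∈ bp N f, ∀ b ∈ bp N f, ∀ c ∈ bp N f, ∀ e ∈ bp N f,
            a ≠ b → a ≠ c → a ≠ e → b ≠ c → b ≠ e → c ≠ e →
            algebraMap (Spl (tot N f)) E (cr a b c e) ≠ 0 ∧
            algebraMap (Spl (tot N f)) E (cr a b c e) ≠ 1 ∧
            ∀ P : HeightOneSpectrum (𝓞 E), ((N * q * cond N q f : ℕ) : 𝓞 E) ∉ P.asIdeal →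
              (q : ℤ) ∣ ord P (algebraMap (Spl (tot N f)) E (cr a b c e)) ∧
              (q : ℤ) ∣ ord P (algebraMap (Spl (tot N f)) E (cr a b c e) - 1))
    (htow : ∀ (E : Type) [Field E] [NumberField E], finrank ℚ E ≤ A₀ →
      ∀ ζ : E, IsPrimitiveRoot ζ q → ∀ a : E, a ≠ 0 → a ≠ 1 → ∀ w : ℕ, w ≠ 0 → q ∣ w →
        (∀ P : HeightOneSpectrum (𝓞 E), (w : 𝓞 E) ∉ P.asIdeal →
          (q : ℤ) ∣ ord P a ∧ (q : ℤ) ∣ ord P (a - 1)) →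
        ∃ (F : Type) (_ : Field F) (_ : NumberField F) (_ : Algebra E F) (b : F),
          Chain q (algebraMap E F ζ) k (algebraMap E F a) b ∧
          finrank ℚ F ≤ A₀ * q ^ (2 * k) ∧
          |(discr F : ℝ)| ≤ (A₁ * |(discr E : ℝ)| * w) ^ A₁)
    (hcr : ∀ f ∈ Fam K N q n H,
      ∀ a ∈ bp N f, ∀ b ∈ bp N f, ∀ c ∈ bp N f, ∀ e ∈ bp N f, a ≠ b → a ≠ c → b ≠ e → c ≠ e →
        ∃ ν δ : 𝓞 (Spl (tot N f)), δ ≠ 0 ∧ cr a b c e = (ν : Spl (tot N f)) / δ ∧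
          (∀ τ : Spl (tot N f) →+* ℂ, ‖τ ν‖ ≤ (C₁ * H) ^ (2 * N)) ∧
          ∀ τ : Spl (tot N f) →+* ℂ, ‖τ δ‖ ≤ (C₁ * H) ^ (2 * N)) (σ : K →+* ℂ) :
    CRset K σ N q n H Y ⊆
      LamSet q k A₀ (A₀ * q ^ (2 * k)) (CrC_D N q A₀ A₁ Y) ((C₁ * H) ^ (2 * N)) := by
  rintro z ⟨f, hf, hfY, τ, hτ, a, ha, b, hb, c, hc, e, he, hab, hac, hae, hbc, hbe, hce, rfl⟩
  have hdeg := hf.2.2.1
  have hsep := hf.2.2.2
  obtain ⟨E, _, _, _, ζ, hζ, hME, hDE, hE⟩ := hbase f hdeg hsep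
  obtain ⟨hx0, hx1, hord⟩ := hE a ha b hb c hc e he hab hac hae hbc hbe hce
  have hcp : 1 ≤ cond N q f := cond_pos N q f
  have hw : N * q * cond N q f ≠ 0 := mul_ne_zero (mul_ne_zero hN (by omega)) (by omega)
  have hqw : q ∣ N * q * cond N q f := (dvd_mul_left q N).mul_right _
  obtain ⟨F, _, _, _, b', hch, hMF, hDF⟩ := htow E hME ζ hζ _ hx0 hx1 _ hw hqw hord
  obtain ⟨ι, hι⟩ := CrC_ext ((algebraMap E F).comp (algebraMap (Spl (tot N f)) E)) τ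
  obtain ⟨ν, δ, hδ0, hνδ, hν, hδ⟩ := hcr f hf a ha b hb c hc e he hab hac hbe hce
  obtain ⟨ν', hν', hνb⟩ := CrC_int (algebraMap (Spl (tot N f)) E) ν hν
  obtain ⟨δ', hδ', hδb⟩ := CrC_int (algebraMap (Spl (tot N f)) E) δ hδ
  have hb1 := CrC_base (N := N) (q := q) (by omega) (by omega) hA₀ hA₁ hY
  have hcond : (cond N q f : ℝ) ≤ Y := by
    refine le_trans ?_ hfY
    exact le_mul_of_one_le_left (Nat.cast_nonneg _) (CrC_discr K)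
  have hDE' : |(discr E : ℝ)| ≤ (A₀ * Y) ^ A₀ := by
    refine hDE.trans (pow_le_pow_left₀ (by positivity) ?_ _)
    exact mul_le_mul_of_nonneg_left hfY (by positivity)
  refine ⟨E, F, inferInstance, inferInstance, inferInstance, inferInstance, inferInstance, ι, ζ,
    algebraMap (Spl (tot N f)) E (cr a b c e), b', hζ, hME, hMF, hDE'.trans hb1.1, ?_, hch, hι _,
    ν', δ', ?_, ?_, hνb, hδb⟩
  · refine hDF.trans ?_
    unfold CrC_D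
    refine pow_le_pow_left₀ (by positivity) ?_ _
    have h1 : (A₁ : ℝ) * |(discr E : ℝ)| ≤ A₁ * (A₀ * Y) ^ A₀ :=
      mul_le_mul_of_nonneg_left hDE' (by positivity)
    refine mul_le_mul h1 ?_ (by positivity) (by positivity)
    push_cast
    exact mul_le_mul_of_nonneg_left hcond (by positivity)
  · rintro rfl
    have h1 : algebraMap (Spl (tot N f)) E (δ : Spl (tot N f)) = 0 := by
      rw [← hδ']
      exact map_zero _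
    have h2 : (δ : Spl (tot N f)) = 0 := (map_eq_zero _).1 h1
    exact hδ0 (RingOfIntegers.coe_eq_zero_iff.1 h2)
  · rw [hνδ, map_div₀, hν', hδ']

theorem cr_count (d n N q : ℕ) (hN : N ≠ 0) (h3 : 3 ≤ q) {ε : ℝ} (hε : 0 < ε) :
    ∃ A C : ℝ, 0 < A ∧ 1 ≤ C ∧ ∀ (K : Type) [Field K] [NumberField K], finrank ℚ K = d →
      ∀ σ : K →+* ℂ, ∀ H Y : ℝ, 1 ≤ H → 1 ≤ Y → (CRset K σ N q n H Y).Finite ∧
        ((CRset K σ N q n H Y).ncard : ℝ) ≤ C * Y ^ A * H ^ ε := by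
  obtain ⟨A₀, hA₀, hbase⟩ := base d n N q hN h3
  obtain ⟨k, hk⟩ : ∃ k : ℕ, 2 * (N : ℝ) * (2 * (A₀ : ℝ) / (q : ℝ) ^ k) ≤ ε := by
    have hq1 : (1 : ℝ) < q := by exact_mod_cast (by omega : 1 < q)
    obtain ⟨k, hk⟩ := pow_unbounded_of_one_lt (2 * (N : ℝ) * (2 * (A₀ : ℝ)) / ε) hq1
    refine ⟨k, ?_⟩
    have hqk : (0 : ℝ) < (q : ℝ) ^ k := by positivity
    rw [← mul_div_assoc, div_le_iff₀ hqk]
    rw [div_lt_iff₀ hε] at hk
    linarith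
  obtain ⟨A₁, hA₁, htow⟩ := tower h3 k A₀
  obtain ⟨A₂, C₂, hC₂, hlam⟩ := lam_count h3 k A₀ (A₀ * q ^ (2 * k))
  obtain ⟨C₁, hC₁, hcr⟩ := cr_quot n N q hN
  obtain ⟨B, hB⟩ : ∃ B : ℝ, B = (A₁ * (A₀ : ℝ) ^ A₀ * (N * q)) ^ A₁ := ⟨_, rfl⟩
  have h0 : (1 : ℝ) ≤ A₀ := by exact_mod_cast hA₀
  have h1 : (1 : ℝ) ≤ A₁ := by exact_mod_cast hA₁
  have h2 : (1 : ℝ) ≤ N := by exact_mod_cast (Nat.one_le_iff_ne_zero.2 hN)
  have h4 : (1 : ℝ) ≤ q := by exact_mod_cast (by omega : 1 ≤ q)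
  have hB1 : 1 ≤ B := by
    rw [hB]
    exact one_le_pow₀ (one_le_mul_of_one_le_of_one_le
      (one_le_mul_of_one_le_of_one_le h1 (one_le_pow₀ h0)) (one_le_mul_of_one_le_of_one_le h2 h4))
  refine ⟨(((A₀ + 1) * A₁ * A₂ : ℕ) : ℝ) + 1, C₂ * B ^ A₂ * C₁ ^ ε, by positivity, ?_, ?_⟩
  · exact one_le_mul_of_one_le_of_one_le
      (one_le_mul_of_one_le_of_one_le hC₂ (one_le_pow₀ hB1)) (Real.one_le_rpow hC₁ hε.le)
  intro K _ _ hd σ H Y hH hY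
  have hY0 : 0 < Y := by linarith
  have hCH : 1 ≤ C₁ * H := one_le_mul_of_one_le_of_one_le hC₁ hH
  have hD1 : 1 ≤ CrC_D N q A₀ A₁ Y := by
    have hb1 := CrC_base (N := N) (q := q) (by omega) (by omega) hA₀ hA₁ hY
    exact hb1.2.2.trans hb1.1
  obtain ⟨hfin, hcard⟩ := hlam (CrC_D N q A₀ A₁ Y) ((C₁ * H) ^ (2 * N)) hD1 (one_le_pow₀ hCH)
  have hsub := CrC_sub (k := k) hN h3 hA₀ hA₁ (C₁ := C₁) (H := H) hY (hbase K hd) htow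
    (fun f hf => hcr K H hH f hf) σ
  refine ⟨hfin.subset hsub, ?_⟩
  have hc1 : ((CRset K σ N q n H Y).ncard : ℝ) ≤
      (LamSet q k A₀ (A₀ * q ^ (2 * k)) (CrC_D N q A₀ A₁ Y) ((C₁ * H) ^ (2 * N))).ncard := by
    exact_mod_cast Set.ncard_le_ncard hsub hfin
  refine (hc1.trans hcard).trans ?_
  have hD2 : CrC_D N q A₀ A₁ Y ^ A₂ ≤ B ^ A₂ * Y ^ ((((A₀ + 1) * A₁ * A₂ : ℕ) : ℝ) + 1) := by
    rw [CrC_D_eq, ← hB, mul_pow, ← pow_mul]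
    refine mul_le_mul_of_nonneg_left ?_ (by positivity)
    rw [← Real.rpow_natCast]
    exact Real.rpow_le_rpow_of_exponent_le hY (by linarith)
  have hR : ((C₁ * H) ^ (2 * N)) ^ (2 * (A₀ : ℝ) / (q : ℝ) ^ k) ≤ C₁ ^ ε * H ^ ε := by
    rw [← Real.mul_rpow (by linarith) (by linarith), ← Real.rpow_natCast (C₁ * H),
      ← Real.rpow_mul (by linarith)]
    refine Real.rpow_le_rpow_of_exponent_le hCH ?_
    push_cast
    exact hk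
  calc C₂ * CrC_D N q A₀ A₁ Y ^ A₂ * ((C₁ * H) ^ (2 * N)) ^ (2 * (A₀ : ℝ) / (q : ℝ) ^ k)
      ≤ C₂ * (B ^ A₂ * Y ^ ((((A₀ + 1) * A₁ * A₂ : ℕ) : ℝ) + 1)) * (C₁ ^ ε * H ^ ε) := by
        refine mul_le_mul (mul_le_mul_of_nonneg_left hD2 (by linarith)) hR (by positivity)
          (by positivity)
    _ = _ := by ring

end FreyCyc
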