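import Pool.Agent.Lib.MP_6babc4_nt.Cyc.Stp

/-!
# Module Hgt: the heights along a chain

`mulHeight₁` is the height relative to `E` (Mathlib); `totalWeight = [E : ℚ]`
(`NumberField.totalWeight_eq_finrank`).

PROOFS.
* `height_stp`: `M = [E:ℚ]`. `h(a/(a-1)) = h((a-1)/a) = h(1 - a⁻¹) ≤ 2^M h(a)` (`mulHeight₁_inv`,
  `mulHeight₁_sub_le`, `mulHeight₁_one`; `a ≠ 0, 1`), `h(t)^q = h(t^q)` (`mulHeight₁_pow`);
  `h(ζ) = 1` (its `q`-th power is `1`); `stp ζ t = (ζ/(1+ζ)) (1 + (ζ-1)/(t-ζ))`, so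
  `h(stp) ≤ h(ζ) h(1+ζ) 2^M h(ζ-1) h(t-ζ) ≤ 2^M 2^M 2^M 2^M h(t)` (`mulHeight₁_mul_le`,
  `mulHeight₁_add_le`). So `h(stp ζ t)^q ≤ (16^M)^q 2^M h(a) ≤ (32^M)^q h(a)`.
* `chain_height`: induction on `k`: `h(b)^(q^k) ≤ (32^M)^(q + q² + ... + q^k) h(a)`, and
  `q + ... + q^k ≤ 2 q^k` (`q ≥ 2`); so `h(b) ≤ (32^M)^2 h(a)^(1/q^k)`.
* `height_quot`: `mulHeight₁ (ν/δ) = mulHeight ![ν, δ]` (`mulHeight₁_div_eq_mulHeight`); in
  `mulHeight_eq` the finite places contribute factors `≤ 1` (integers), the infinite places `≤ X`,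
  with the multiplicities `X^[E:ℚ]`.
-/

set_option autoImplicit false

open Polynomial NumberField IsDedekindDomain Module Height

namespace FreyCyc

open FreySparse

theorem height_quot {E : Type} [Field E] [NumberField E] {ν δ : 𝓞 E} (hδ : δ ≠ 0) {X : ℝ}
    (hX : 1 ≤ X) (hν : ∀ τ : E →+* ℂ, ‖τ ν‖ ≤ X) (hδ' : ∀ τ : E →+* ℂ, ‖τ δ‖ ≤ X) :
    mulHeight₁ ((ν : E) / δ) ≤ X ^ finrank ℚ E := by
  have hδ0 : (δ : E) ≠ 0 := by
    rw [Ne, RingOfIntegers.coe_eq_zero_iff]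
    exact hδ
  have hx : ![(ν : E), (δ : E)] ≠ 0 := by
    intro h
    have := congrFun h 1
    simp at this
    exact hδ this
  rw [mulHeight₁_div_eq_mulHeight, NumberField.mulHeight_eq hx]
  have hinf : ∏ v : InfinitePlace E, (⨆ i, v (![(ν : E), (δ : E)] i)) ^ v.mult ≤
      X ^ finrank ℚ E := by
    rw [← InfinitePlace.sum_mult_eq, ← Finset.prod_pow_eq_pow_sum]
    refine Finset.prod_le_prod (fun v _ => ?_) fun v _ => ?_
    · refine pow_nonneg (Real.iSup_nonneg fun i => ?_) _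
      exact AbsoluteValue.nonneg _ _
    · refine pow_le_pow_left₀ (Real.iSup_nonneg fun i => AbsoluteValue.nonneg _ _) ?_ _
      refine ciSup_le fun i => ?_
      fin_cases i
      · show v (ν : E) ≤ X
        rw [← InfinitePlace.norm_embedding_eq]
        exact hν _
      · show v (δ : E) ≤ X
        rw [← InfinitePlace.norm_embedding_eq]
        exact hδ' _
  have hfin : 0 ≤ (∏ᶠ v : FinitePlace E, ⨆ i, v (![(ν : E), (δ : E)] i)) ∧
      (∏ᶠ v : FinitePlace E, ⨆ i, v (![(ν : E), (δ : E)] i)) ≤ 1 := by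
    refine finprod_induction (fun x : ℝ => 0 ≤ x ∧ x ≤ 1) ⟨zero_le_one, le_refl _⟩ ?_ ?_
    · rintro x y ⟨hx0, hx1⟩ ⟨hy0, hy1⟩
      exact ⟨mul_nonneg hx0 hy0, mul_le_one₀ hx1 hy0 hy1⟩
    · intro v
      refine ⟨Real.iSup_nonneg fun i => AbsoluteValue.nonneg _ _, ciSup_le fun i => ?_⟩
      fin_cases i
      · exact FinitePlace.norm_embedding_eq v (ν : E) ▸ FinitePlace.norm_le_one E v.maximalIdeal ν
      · exact FinitePlace.norm_embedding_eq v (δ : E) ▸ FinitePlace.norm_le_one E v.maximalIdeal δ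
  calc _ ≤ X ^ finrank ℚ E * 1 := mul_le_mul hinf hfin.2 hfin.1 (by positivity)
    _ = X ^ finrank ℚ E := mul_one _

theorem height_stp {q : ℕ} (h3 : 3 ≤ q) {E : Type} [Field E] [NumberField E] {ζ : E}
    (hζ : IsPrimitiveRoot ζ q) {a t : E} (h0 : a ≠ 0) (h1 : a ≠ 1) (ht : t ^ q = a / (a - 1)) :
    mulHeight₁ (stp ζ t) ^ q ≤ ((32 : ℝ) ^ finrank ℚ E) ^ q * mulHeight₁ a := by
  have hw : totalWeight E = finrank ℚ E := NumberField.totalWeight_eq_finrank E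
  set M := finrank ℚ E with hM
  have hn := one_add_ne h3 hζ
  have htζ : t - ζ ≠ 0 := by
    have := t_ne hζ h1 ht 1
    rw [pow_one] at this
    exact sub_ne_zero.mpr this
  have h2M : (1 : ℝ) ≤ 2 ^ M := one_le_pow₀ one_le_two
  have hz : mulHeight₁ ζ = 1 := by
    have h4 : mulHeight₁ ζ ^ q = 1 := by
      rw [← mulHeight₁_pow, hζ.pow_eq_one, mulHeight₁_one]
    exact (pow_eq_one_iff_of_nonneg (mulHeight₁_nonneg ζ) (by omega)).mp h4
  have e1 : mulHeight₁ (1 + ζ) ≤ 2 ^ M := by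
    have := mulHeight₁_add_le 1 ζ
    rwa [mulHeight₁_one, hz, hw, mul_one, mul_one] at this
  have e2 : mulHeight₁ (ζ - 1) ≤ 2 ^ M := by
    have := mulHeight₁_sub_le ζ 1
    rwa [mulHeight₁_one, hz, hw, mul_one, mul_one] at this
  have e3 : mulHeight₁ (t - ζ) ≤ 2 ^ M * mulHeight₁ t := by
    have := mulHeight₁_sub_le t ζ
    rwa [hz, hw, mul_one] at this
  have hs : stp ζ t = (ζ * (1 + ζ)⁻¹) * (1 + (ζ - 1) * (t - ζ)⁻¹) := by
    unfold stp
    field_simp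
    ring
  have e4 : mulHeight₁ (ζ * (1 + ζ)⁻¹) ≤ 2 ^ M := by
    refine (mulHeight₁_mul_le _ _).trans ?_
    rw [hz, one_mul, mulHeight₁_inv]
    exact e1
  have e5 : mulHeight₁ ((ζ - 1) * (t - ζ)⁻¹) ≤ 2 ^ M * (2 ^ M * mulHeight₁ t) := by
    refine (mulHeight₁_mul_le _ _).trans ?_
    rw [mulHeight₁_inv]
    exact mul_le_mul e2 e3 (mulHeight₁_nonneg _) (by positivity)
  have e6 : mulHeight₁ (1 + (ζ - 1) * (t - ζ)⁻¹) ≤ 2 ^ M * (2 ^ M * (2 ^ M * mulHeight₁ t)) := by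
    refine (mulHeight₁_add_le _ _).trans ?_
    rw [mulHeight₁_one, mul_one, hw]
    exact mul_le_mul_of_nonneg_left e5 (by positivity)
  have e7 : mulHeight₁ (stp ζ t) ≤ 16 ^ M * mulHeight₁ t := by
    rw [hs]
    refine (mulHeight₁_mul_le _ _).trans ?_
    calc mulHeight₁ (ζ * (1 + ζ)⁻¹) * mulHeight₁ (1 + (ζ - 1) * (t - ζ)⁻¹)
        ≤ 2 ^ M * (2 ^ M * (2 ^ M * (2 ^ M * mulHeight₁ t))) :=
          mul_le_mul e4 e6 (mulHeight₁_nonneg _) (by positivity)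
      _ = 16 ^ M * mulHeight₁ t := by
          have : (16 : ℝ) ^ M = 2 ^ M * 2 ^ M * 2 ^ M * 2 ^ M := by
            rw [← mul_pow, ← mul_pow, ← mul_pow]
            norm_num
          rw [this]
          ring
  have e8 : mulHeight₁ (a / (a - 1)) ≤ 2 ^ M * mulHeight₁ a := by
    have h4 : a / (a - 1) = (1 - a⁻¹)⁻¹ := by
      have : a - 1 ≠ 0 := sub_ne_zero.mpr h1
      field_simp
    rw [h4, mulHeight₁_inv]
    have := mulHeight₁_sub_le 1 a⁻¹
    rwa [mulHeight₁_one, mulHeight₁_inv, hw, mul_one] at this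
  calc mulHeight₁ (stp ζ t) ^ q ≤ (16 ^ M * mulHeight₁ t) ^ q :=
        pow_le_pow_left₀ (mulHeight₁_nonneg _) e7 q
    _ = (16 ^ M) ^ q * mulHeight₁ (a / (a - 1)) := by
        rw [mul_pow, ← mulHeight₁_pow, ht]
    _ ≤ (16 ^ M) ^ q * (2 ^ M * mulHeight₁ a) := mul_le_mul_of_nonneg_left e8 (by positivity)
    _ ≤ (16 ^ M) ^ q * ((2 ^ M) ^ q * mulHeight₁ a) := by
        refine mul_le_mul_of_nonneg_left ?_ (by positivity)
        refine mul_le_mul_of_nonneg_right ?_ (mulHeight₁_nonneg a)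
        exact le_self_pow₀ h2M (by omega)
    _ = ((32 : ℝ) ^ M) ^ q * mulHeight₁ a := by
        rw [← mul_assoc, ← mul_pow, ← mul_pow]
        norm_num

theorem chain_height {q : ℕ} (h3 : 3 ≤ q) {E : Type} [Field E] [NumberField E]
    {ζ : E} (hζ : IsPrimitiveRoot ζ q) (k : ℕ) {a b : E} (h : Chain q ζ k a b) :
    mulHeight₁ b ^ (q ^ k) ≤ ((32 : ℝ) ^ finrank ℚ E) ^ (2 * q ^ k) * mulHeight₁ a := by
  have hB : (1 : ℝ) ≤ (32 : ℝ) ^ finrank ℚ E := one_le_pow₀ (by norm_num)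
  set B : ℝ := (32 : ℝ) ^ finrank ℚ E with hBdef
  have key : ∀ k : ℕ, ∀ a : E, Chain q ζ k a b →
      mulHeight₁ b ^ (q ^ k) ≤ B ^ (2 * q ^ k - 2) * mulHeight₁ a := by
    intro k
    induction k with
    | zero =>
      intro a h
      have h4 : a = b := h
      rw [h4]
      simp
    | succ k ih =>
      intro a h
      obtain ⟨t, h0, h1, ht, hc⟩ := h
      have h4 := ih (stp ζ t) hc
      have h5 := height_stp h3 hζ h0 h1 ht
      rw [← hBdef] at h5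
      have hq1 : 1 ≤ q ^ k := Nat.one_le_pow _ _ (by omega)
      calc mulHeight₁ b ^ (q ^ (k + 1)) = (mulHeight₁ b ^ (q ^ k)) ^ q := by
            rw [← pow_mul, ← pow_succ]
        _ ≤ (B ^ (2 * q ^ k - 2) * mulHeight₁ (stp ζ t)) ^ q :=
            pow_le_pow_left₀ (pow_nonneg (mulHeight₁_nonneg b) _) h4 q
        _ = (B ^ (2 * q ^ k - 2)) ^ q * mulHeight₁ (stp ζ t) ^ q := mul_pow _ _ _
        _ ≤ (B ^ (2 * q ^ k - 2)) ^ q * (B ^ q * mulHeight₁ a) :=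
            mul_le_mul_of_nonneg_left h5 (by positivity)
        _ = B ^ ((2 * q ^ k - 2) * q + q) * mulHeight₁ a := by
            rw [← pow_mul, pow_add]
            ring
        _ ≤ B ^ (2 * q ^ (k + 1) - 2) * mulHeight₁ a := by
            refine mul_le_mul_of_nonneg_right ?_ (mulHeight₁_nonneg a)
            refine pow_le_pow_right₀ hB ?_
            have e1 : (2 * q ^ k - 2) * q = 2 * q ^ (k + 1) - 2 * q := by
              rw [Nat.sub_mul, pow_succ]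
              congr 1
              ring
            have e2 : 1 * q ≤ q ^ k * q := Nat.mul_le_mul_right q hq1
            rw [← pow_succ] at e2
            omega
  refine (key k a h).trans ?_
  refine mul_le_mul_of_nonneg_right ?_ (mulHeight₁_nonneg a)
  exact pow_le_pow_right₀ hB (Nat.sub_le _ _)

end FreyCyc
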