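import Pool.Agent.Lib.MP_6babc4_nt.Sp.Fld
import Pool.Agent.Lib.MP_6babc4_nt.Sp.Pol
import Pool.Agent.Lib.MP_6babc4_nt.Sp.Bas

/-!
# Module Fld: number fields of small discriminant inside `ℂ`, and a prime number

PROOFS.
* `field_in_C`: `small_gen` (Sp/Fld) gives `θ' ∈ 𝓞 E` with `ℚ(θ') = E` and all conjugates at most
  `C √|discr E|`; `θ = ι θ'`; `θ ∈ AlgInt M (C √|discr E|)`: integral, `minpoly ℚ θ = minpoly ℚ θ'`
  (`minpoly_emb`), of degree `≤ [E : ℚ]`, its complex roots are the `τ θ'` (`exists_emb`); the image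
  of `ι` is `(⊤ : IntermediateField ℚ E).map ι = adjoin ℚ {θ}` (`IntermediateField.adjoin_map`).
* `exists_prime`: Bertrand (`Nat.exists_prime_lt_and_le_two_mul`): primes `X < p₁ < p₂ < ...`,
  `p_i ≤ 2^i X`. If `p₁, ..., p_r` all divide `D` then `2^r ≤ p₁ ... p_r ≤ |D|`. Take `r` with
  `2^r > |D| ≥ 2^(r-1)`: some `p_i`, `i ≤ r`, does not divide `D`, and `p_i ≤ 2^r X ≤ 2 |D| X`.
-/

set_option autoImplicit false

open Polynomial NumberField IsDedekindDomain Module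

namespace FreyCyc

open FreySparse

theorem field_in_C (M : ℕ) : ∃ C : ℝ, 1 ≤ C ∧
    ∀ (E : Type) [Field E] [NumberField E], finrank ℚ E ≤ M → ∀ ι : E →+* ℂ,
      ∃ θ ∈ AlgInt M (C * √|(discr E : ℝ)|),
        ∀ z : ℂ, z ∈ IntermediateField.adjoin ℚ {θ} ↔ ∃ x : E, ι x = z := by
  obtain ⟨C, hC, h⟩ := small_gen M
  refine ⟨C, hC, fun E _ _ hE ι => ?_⟩
  obtain ⟨θ', hθ, hb⟩ := h E hE
  refine ⟨ι (θ' : E), ⟨?_, ?_, ?_⟩, ?_⟩
  · exact map_isIntegral_int ι (RingOfIntegers.isIntegral_coe θ')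
  · rw [minpoly_emb]
    exact (minpoly.natDegree_le (θ' : E)).trans hE
  · intro w hw
    obtain ⟨τ, hτ⟩ := exists_emb (θ' : E) ι w hw
    rw [← hτ]
    exact hb τ
  · intro z
    have h1 : IntermediateField.adjoin ℚ {ι (θ' : E)} =
        (⊤ : IntermediateField ℚ E).map ι.toRatAlgHom := by
      rw [← hθ, IntermediateField.adjoin_map, Set.image_singleton]
      rfl
    rw [h1, IntermediateField.mem_map]
    constructor
    · rintro ⟨x, -, hx⟩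
      exact ⟨x, hx⟩
    · rintro ⟨x, hx⟩
      exact ⟨x, IntermediateField.mem_top, hx⟩

theorem exists_prime (X : ℝ) (hX : 1 ≤ X) (D : ℤ) (hD : D ≠ 0) :
    ∃ p : ℕ, p.Prime ∧ ¬ (p : ℤ) ∣ D ∧ X < p ∧ (p : ℝ) ≤ 4 * X * |(D : ℝ)| := by
  have hD1 : (1 : ℝ) ≤ |(D : ℝ)| := by
    have h := Int.one_le_abs hD
    exact_mod_cast h
  have hXD : X ≤ X * |(D : ℝ)| := le_mul_of_one_le_right (by linarith) hD1
  have hDX : |(D : ℝ)| ≤ X * |(D : ℝ)| := le_mul_of_one_le_left (abs_nonneg _) hX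
  obtain ⟨N, hN⟩ : ∃ N : ℕ, N = ⌈X * |(D : ℝ)|⌉₊ := ⟨_, rfl⟩
  have h1 : X * |(D : ℝ)| ≤ N := by
    rw [hN]
    exact Nat.le_ceil _
  have h2 : (N : ℝ) < X * |(D : ℝ)| + 1 := by
    rw [hN]
    exact Nat.ceil_lt_add_one (by positivity)
  have hN0 : N ≠ 0 := by
    rintro rfl
    rw [Nat.cast_zero] at h1
    linarith
  obtain ⟨p, hp, hp1, hp2⟩ := Nat.exists_prime_lt_and_le_two_mul N hN0
  have hp1' : (N : ℝ) < p := by exact_mod_cast hp1
  have hp2' : (p : ℝ) ≤ 2 * N := by exact_mod_cast hp2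
  refine ⟨p, hp, ?_, by linarith, by linarith⟩
  intro hdvd
  have h3 := Int.le_of_dvd (abs_pos.2 hD) ((dvd_abs _ _).2 hdvd)
  have h4 : (p : ℝ) ≤ |(D : ℝ)| := by exact_mod_cast h3
  linarith

end FreyCyc
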