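import Pool.Agent.Lib.MP_6babc4_nt.Cyc.CCnt
import Pool.Agent.Lib.MP_6babc4_nt.Cyc.Hgt
import Pool.Agent.Lib.MP_6babc4_nt.Cyc.Fld

/-!
# Module Lam: the number of the starting points in `ℂ`

`LamSet q k M₀ M D R`: the complex numbers `z` which are images of a number `a` of a number field
`E₀` (degree `≤ M₀`, discriminant `≤ D`), quotient of two integers with conjugates `≤ R`, from
which a chain of `k` steps starts in an extension `E` (degree `≤ M`, discriminant `≤ D`).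

PROOF of `lam_count`. Let `C₁` be the constant of `field_in_C` for `M₀ + M`. For `z ∈ LamSet` with data
`E₀, E, ι` put `θ₀, θ ∈ AlgInt (M₀ + M) (C₁ √D)` with `ℚ(θ₀) = ι(E₀)`, `ℚ(θ) = ι(E)`, and
`u = ι(ζ)`, `u^q = 1`. For fixed `(θ₀, θ, u)` let `F₀ = ℚ(θ₀) ≤ F = ℚ(θ)`, number fields
(`IntermediateField ℚ ℂ`, the algebra `F₀ → F` is the inclusion), `F ≅ E` by `ι`, so
`discr F = discr E` (`NumberField.discr_eq_discr_of_ringEquiv`) and the degree is the same. The chain,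
transported by `ι` (`chain_map` for `E → F`), starts at `a' ∈ F₀`, `(a' : ℂ) = z`, and `a'` is the
quotient of two integers of `F₀`, so of `F`, with conjugates `≤ R` (every embedding `τ` of `F` gives the
embedding `τ ∘ ι` of `E` and of `E₀`). By `height_quot` `h_F(a') ≤ R^m`, `m = [F : ℚ]`, and by
`chain_height` the end `b'` has `h_F(b') ≤ (32^m)^2 R^(m / q^k) =: R_b`. Choose
`p` by `exists_prime` for `X = 2 · 32^4 · R^(2 / q^k)` and the integer `q discr F`: then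
`2^m R_b^2 = X^m < p^m`, `p ∤ q`, and `chain_count` bounds the number of the `a'` by
`(2p)^M₀ (q^k)^M ≤ C D^M₀ R^(2 M₀ / q^k)` (`p ≤ 4 X q D`). The number of the triples `(θ₀, θ, u)` is at
most `(C (C₁ √D)^(N (N+1)))^2 q`, `N = M₀ + M` (`algInt_card`; `u` is a root of `X^q - 1`). Together
`≤ C D^A R^(2 M₀/q^k)` with `A = N (N + 1) + M₀`. (Finite union of finite sets:
`Set.Finite.biUnion`, `Finset.card_biUnion_le`, `Set.ncard_le_...`.)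
-/

set_option autoImplicit false

open Polynomial NumberField IsDedekindDomain Module Height

namespace FreyCyc

open FreySparse

def LamSet (q k M₀ M : ℕ) (D R : ℝ) : Set ℂ :=
  {z | ∃ (E₀ E : Type) (_ : Field E₀) (_ : NumberField E₀) (_ : Field E) (_ : NumberField E)
    (_ : Algebra E₀ E) (ι : E →+* ℂ) (ζ a : E₀) (b : E), IsPrimitiveRoot ζ q ∧
      finrank ℚ E₀ ≤ M₀ ∧ finrank ℚ E ≤ M ∧ |(discr E₀ : ℝ)| ≤ D ∧ |(discr E : ℝ)| ≤ D ∧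
      Chain q (algebraMap E₀ E ζ) k (algebraMap E₀ E a) b ∧ ι (algebraMap E₀ E a) = z ∧
      ∃ ν δ : 𝓞 E₀, δ ≠ 0 ∧ a = (ν : E₀) / δ ∧ (∀ τ : E₀ →+* ℂ, ‖τ ν‖ ≤ R) ∧
        ∀ τ : E₀ →+* ℂ, ‖τ δ‖ ≤ R}

/-- Two fields with the same image in `ℂ`. -/
private lemma lam_iso {E E' : Type} [Field E] [Field E'] (ι : E →+* ℂ) (ι' : E' →+* ℂ)
    (h : ∀ x : E', ∃ y : E, ι y = ι' x) : ∃ φ : E' →+* E, ∀ x, ι (φ x) = ι' x := by
  choose f hf using h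
  have hinj : Function.Injective ι := ι.injective
  refine ⟨{ toFun := f
            map_one' := ?_
            map_mul' := ?_
            map_zero' := ?_
            map_add' := ?_ }, fun x => hf x⟩
  · apply hinj
    rw [hf, map_one, map_one]
  · intro x y
    apply hinj
    rw [hf, map_mul, map_mul, hf, hf]
  · apply hinj
    rw [hf, map_zero, map_zero]
  · intro x y
    apply hinj
    rw [hf, map_add, map_add, hf, hf]

private noncomputable def lamB (q k m : ℕ) (R : ℝ) : ℝ :=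
  ((32 : ℝ) ^ m) ^ 2 * (R ^ m) ^ ((1 : ℝ) / (q : ℝ) ^ k)

private lemma lamB_nonneg (q k m : ℕ) {R : ℝ} (hR : 1 ≤ R) : 0 ≤ lamB q k m R := by
  unfold lamB
  positivity

private lemma lamB_pow {q k m : ℕ} (h1q : 1 ≤ q) {R : ℝ} (hR : 1 ≤ R) :
    lamB q k m R ^ (q ^ k) = ((32 : ℝ) ^ m) ^ (2 * q ^ k) * R ^ m := by
  have h0 : (0 : ℝ) ≤ R ^ m := by positivity
  have h1 : ((q : ℝ) ^ k) ≠ 0 := by positivity
  unfold lamB
  rw [mul_pow, ← pow_mul, ← Real.rpow_natCast ((R ^ m) ^ ((1 : ℝ) / (q : ℝ) ^ k)),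
    ← Real.rpow_mul h0]
  congr 1
  push_cast
  rw [one_div, inv_mul_cancel₀ h1, Real.rpow_one]

private lemma lamB_sq {q k m : ℕ} {R : ℝ} (hR : 1 ≤ R) :
    2 ^ m * lamB q k m R * lamB q k m R = (2 * 32 ^ 4 * R ^ ((2 : ℝ) / (q : ℝ) ^ k)) ^ m := by
  have h0 : (0 : ℝ) ≤ R := by linarith
  have h1 : (R ^ m) ^ ((1 : ℝ) / (q : ℝ) ^ k) * (R ^ m) ^ ((1 : ℝ) / (q : ℝ) ^ k) =
      (R ^ ((2 : ℝ) / (q : ℝ) ^ k)) ^ m := by
    have hRm : (0 : ℝ) < R ^ m := by positivity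
    rw [← Real.rpow_add hRm, ← Real.rpow_natCast R m, ← Real.rpow_mul h0,
      ← Real.rpow_natCast (R ^ ((2 : ℝ) / (q : ℝ) ^ k)) m, ← Real.rpow_mul h0]
    congr 1
    ring
  unfold lamB
  calc _ = 2 ^ m * (((32 : ℝ) ^ m) ^ 2 * ((32 : ℝ) ^ m) ^ 2) *
        ((R ^ m) ^ ((1 : ℝ) / (q : ℝ) ^ k) * (R ^ m) ^ ((1 : ℝ) / (q : ℝ) ^ k)) := by ring
    _ = _ := by
        have h32 : ((32 : ℝ) ^ m) ^ 2 * ((32 : ℝ) ^ m) ^ 2 = ((32 : ℝ) ^ 4) ^ m := by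
          obtain ⟨t, ht⟩ : ∃ t : ℝ, t = 32 := ⟨_, rfl⟩
          rw [← ht]
          ring
        rw [h1, h32, mul_pow, mul_pow]

/-- Transport of a starting point to the reference fields. -/
private lemma lam_move {q : ℕ} (h3 : 3 ≤ q) (k : ℕ) {R : ℝ} (hR : 1 ≤ R)
    {E₀ E : Type} [Field E₀] [NumberField E₀] [Field E] [NumberField E] [Algebra E₀ E]
    (ι : E →+* ℂ) {ζ : E₀} (hζ : IsPrimitiveRoot ζ q)
    {E₀' E' : Type} [Field E₀'] [NumberField E₀'] [Field E'] [NumberField E'] [Algebra E₀' E']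
    (ι' : E' →+* ℂ) {ζ' : E₀'} (hu : ι (algebraMap E₀ E ζ) = ι' (algebraMap E₀' E' ζ'))
    (h₀ : ∀ x : E₀', ∃ y : E₀, ι (algebraMap E₀ E y) = ι' (algebraMap E₀' E' x))
    (h₁ : ∀ x : E', ∃ y : E, ι y = ι' x) {a' : E₀'} {b' : E'}
    (hch : Chain q (algebraMap E₀' E' ζ') k (algebraMap E₀' E' a') b')
    {ν δ : 𝓞 E₀'} (hδ0 : δ ≠ 0) (ha : a' = (ν : E₀') / δ) (hν : ∀ τ : E₀' →+* ℂ, ‖τ ν‖ ≤ R)
    (hδ : ∀ τ : E₀' →+* ℂ, ‖τ δ‖ ≤ R) :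
    ∃ a : E₀, ι (algebraMap E₀ E a) = ι' (algebraMap E₀' E' a') ∧
      ∃ b : E, Chain q (algebraMap E₀ E ζ) k (algebraMap E₀ E a) b ∧
        mulHeight₁ b ≤ lamB q k (finrank ℚ E) R := by
  obtain ⟨φ, hφ⟩ := lam_iso ι ι' h₁
  obtain ⟨a, haa⟩ := h₀ a'
  have hinj : Function.Injective ι := ι.injective
  have e1 : algebraMap E₀ E a = φ (algebraMap E₀' E' a') := by
    apply hinj
    rw [haa, hφ]
  have e2 : algebraMap E₀ E ζ = φ (algebraMap E₀' E' ζ') := by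
    apply hinj
    rw [hu, hφ]
  refine ⟨a, haa, φ b', ?_, ?_⟩
  · rw [e1, e2]
    exact chain_map φ k hch
  have hc : Chain q (algebraMap E₀ E ζ) k (algebraMap E₀ E a) (φ b') := by
    rw [e1, e2]
    exact chain_map φ k hch
  have hζE : IsPrimitiveRoot (algebraMap E₀ E ζ) q :=
    hζ.map_of_injective (algebraMap E₀ E).injective
  have hht := chain_height h3 hζE k hc
  -- the height of the starting point
  let g : E₀' →+* E := φ.comp (algebraMap E₀' E')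
  have hνE : IsIntegral ℤ (g (ν : E₀')) := map_isIntegral_int g (RingOfIntegers.isIntegral_coe ν)
  have hδE : IsIntegral ℤ (g (δ : E₀')) := map_isIntegral_int g (RingOfIntegers.isIntegral_coe δ)
  obtain ⟨ν₁, hν₁⟩ : ∃ ν₁ : 𝓞 E, (ν₁ : E) = g (ν : E₀') := ⟨⟨g (ν : E₀'), hνE⟩, rfl⟩
  obtain ⟨δ₁, hδ₁⟩ : ∃ δ₁ : 𝓞 E, (δ₁ : E) = g (δ : E₀') := ⟨⟨g (δ : E₀'), hδE⟩, rfl⟩
  have hδ₁0 : δ₁ ≠ 0 := by
    intro h
    rw [h] at hδ₁
    have h2 : g (δ : E₀') = 0 := by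
      rw [← hδ₁]
      exact map_zero _
    have h3' : (δ : E₀') = 0 := (map_eq_zero g).1 h2
    exact hδ0 (RingOfIntegers.coe_eq_zero_iff.1 h3')
  have e3 : algebraMap E₀ E a = (ν₁ : E) / δ₁ := by
    rw [e1, ha, hν₁, hδ₁, map_div₀, map_div₀]
    rfl
  have h4 : mulHeight₁ (algebraMap E₀ E a) ≤ R ^ finrank ℚ E := by
    rw [e3]
    refine height_quot hδ₁0 hR ?_ ?_
    · intro τ
      rw [hν₁]
      exact hν (τ.comp g)
    · intro τ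
      rw [hδ₁]
      exact hδ (τ.comp g)
  have h5 : mulHeight₁ (φ b') ^ (q ^ k) ≤ lamB q k (finrank ℚ E) R ^ (q ^ k) := by
    rw [lamB_pow (by omega : 1 ≤ q) hR]
    exact hht.trans (mul_le_mul_of_nonneg_left h4 (by positivity))
  exact le_of_pow_le_pow_left₀ (pow_pos (by omega : 0 < q) k).ne' (lamB_nonneg q k _ hR) h5

/-- The starting points with given images in `ℂ` of the two fields and of the root of unity. -/
private def LamT (q k M₀ M : ℕ) (D R : ℝ) (θ₀ θ u : ℂ) : Set ℂ :=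
  {z | ∃ (E₀ E : Type) (_ : Field E₀) (_ : NumberField E₀) (_ : Field E) (_ : NumberField E)
    (_ : Algebra E₀ E) (ι : E →+* ℂ) (ζ a : E₀) (b : E), IsPrimitiveRoot ζ q ∧
      finrank ℚ E₀ ≤ M₀ ∧ finrank ℚ E ≤ M ∧ |(discr E : ℝ)| ≤ D ∧
      Chain q (algebraMap E₀ E ζ) k (algebraMap E₀ E a) b ∧ ι (algebraMap E₀ E a) = z ∧
      (∃ ν δ : 𝓞 E₀, δ ≠ 0 ∧ a = (ν : E₀) / δ ∧ (∀ τ : E₀ →+* ℂ, ‖τ ν‖ ≤ R) ∧
        ∀ τ : E₀ →+* ℂ, ‖τ δ‖ ≤ R) ∧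
      (∀ z : ℂ, z ∈ IntermediateField.adjoin ℚ {θ₀} ↔ ∃ x : E₀, ι (algebraMap E₀ E x) = z) ∧
      (∀ z : ℂ, z ∈ IntermediateField.adjoin ℚ {θ} ↔ ∃ x : E, ι x = z) ∧
      ι (algebraMap E₀ E ζ) = u}

private lemma lam_triple {q : ℕ} (h3 : 3 ≤ q) (k M₀ M : ℕ) {D R : ℝ} (hD : 1 ≤ D)
    (hR : 1 ≤ R) (θ₀ θ u : ℂ) : (LamT q k M₀ M D R θ₀ θ u).Finite ∧
      ((LamT q k M₀ M D R θ₀ θ u).ncard : ℝ) ≤
        ((16 * 32 ^ 4 * q) ^ M₀ * (q ^ k) ^ M) * D ^ M₀ * R ^ (2 * (M₀ : ℝ) / (q : ℝ) ^ k) := by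
  classical
  have hq1 : (1 : ℝ) ≤ q := by exact_mod_cast (by omega : 1 ≤ q)
  have hR0 : 0 < R := by linarith
  by_cases hne : (LamT q k M₀ M D R θ₀ θ u).Nonempty
  swap
  · rw [Set.not_nonempty_iff_eq_empty] at hne
    rw [hne]
    refine ⟨Set.finite_empty, ?_⟩
    rw [Set.ncard_empty, Nat.cast_zero]
    positivity
  obtain ⟨z₀, E₀, E, _, _, _, _, _, ι, ζ, a₀, b₀, hζ, hM₀, hM, hDE, -, -, -, hr₀, hr₁, hu⟩ := hne
  have hinj : Function.Injective ι := ι.injective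
  -- the prime number
  have hX0 : 1 ≤ R ^ ((2 : ℝ) / (q : ℝ) ^ k) := Real.one_le_rpow hR (by positivity)
  obtain ⟨X, hX⟩ : ∃ X : ℝ, X = 2 * 32 ^ 4 * R ^ ((2 : ℝ) / (q : ℝ) ^ k) := ⟨_, rfl⟩
  have hX1 : 1 ≤ X := by
    rw [hX]
    linarith
  have hdE : (discr E : ℤ) ≠ 0 := discr_ne_zero E
  have hqZ : (q : ℤ) ≠ 0 := by exact_mod_cast (by omega : q ≠ 0)
  obtain ⟨p, hp, hpd, hXp, hpX⟩ := exists_prime X hX1 ((q : ℤ) * discr E) (mul_ne_zero hqZ hdE)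
  have hpq : ¬ p ∣ q := by
    intro h
    have h' : (p : ℤ) ∣ (q : ℤ) := by exact_mod_cast h
    exact hpd (h'.mul_right _)
  have hpE : ¬ (p : ℤ) ∣ discr E := fun h => hpd (h.mul_left _)
  have hζE : IsPrimitiveRoot (algebraMap E₀ E ζ) q :=
    hζ.map_of_injective (algebraMap E₀ E).injective
  have hm : finrank ℚ E ≠ 0 := (finrank_pos (R := ℚ) (M := E)).ne'
  have hcond : 2 ^ finrank ℚ E * lamB q k (finrank ℚ E) R * lamB q k (finrank ℚ E) R <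
      (p : ℝ) ^ finrank ℚ E := by
    rw [lamB_sq hR, ← hX]
    exact pow_lt_pow_left₀ hXp (by linarith) hm
  obtain ⟨hfin, hcard⟩ := chain_count h3 (E₀ := E₀) hζE k hp hpq hpE hcond
  obtain ⟨S, hS⟩ : ∃ S : Set E₀, S = {a : E₀ | ∃ b : E, Chain q (algebraMap E₀ E ζ) k
    (algebraMap E₀ E a) b ∧ mulHeight₁ b ≤ lamB q k (finrank ℚ E) R} := ⟨_, rfl⟩
  rw [← hS] at hfin hcard
  have hsub : LamT q k M₀ M D R θ₀ θ u ⊆ (fun a : E₀ => ι (algebraMap E₀ E a)) '' S := by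
    rintro z ⟨E₀', E', _, _, _, _, _, ι', ζ', a', b', -, -, -, -, hch, hz, ⟨ν, δ, hδ0, ha, hν, hδ⟩,
      hr₀', hr₁', hu'⟩
    obtain ⟨a, h1, b, h2, h4⟩ := lam_move h3 k hR ι hζ ι' (ζ' := ζ') (hu.trans hu'.symm)
      (fun x => (hr₀ _).1 ((hr₀' _).2 ⟨x, rfl⟩)) (fun x => (hr₁ _).1 ((hr₁' _).2 ⟨x, rfl⟩)) hch
      hδ0 ha hν hδ
    refine ⟨a, ?_, ?_⟩
    · rw [hS]
      exact ⟨b, h2, h4⟩
    · show ι (algebraMap E₀ E a) = z
      rw [h1, hz]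
  have hfin2 : ((fun a : E₀ => ι (algebraMap E₀ E a)) '' S).Finite := hfin.image _
  refine ⟨hfin2.subset hsub, ?_⟩
  have hp1 : (1 : ℝ) ≤ 2 * p := by
    have : (1 : ℝ) ≤ p := by exact_mod_cast hp.one_lt.le
    linarith
  have hc1 : (LamT q k M₀ M D R θ₀ θ u).ncard ≤ (2 * p) ^ finrank ℚ E₀ * (q ^ k) ^ finrank ℚ E :=
    ((Set.ncard_le_ncard hsub hfin2).trans (Set.ncard_image_le hfin)).trans hcard
  have hc2 : ((LamT q k M₀ M D R θ₀ θ u).ncard : ℝ) ≤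
      (2 * p) ^ finrank ℚ E₀ * ((q : ℝ) ^ k) ^ finrank ℚ E := by exact_mod_cast hc1
  refine hc2.trans ?_
  have hpD : (p : ℝ) ≤ 4 * X * (q * D) := by
    refine hpX.trans (mul_le_mul_of_nonneg_left ?_ (by linarith))
    push_cast
    rw [abs_mul, Nat.abs_cast]
    exact mul_le_mul_of_nonneg_left hDE (by linarith)
  have h2p : (2 * (p : ℝ)) ^ finrank ℚ E₀ ≤
      (16 * 32 ^ 4 * q) ^ M₀ * D ^ M₀ * R ^ (2 * (M₀ : ℝ) / (q : ℝ) ^ k) := by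
    calc (2 * (p : ℝ)) ^ finrank ℚ E₀ ≤ (2 * (p : ℝ)) ^ M₀ := pow_le_pow_right₀ hp1 hM₀
      _ ≤ (16 * 32 ^ 4 * q * D * R ^ ((2 : ℝ) / (q : ℝ) ^ k)) ^ M₀ := by
          refine pow_le_pow_left₀ (by positivity) ?_ _
          rw [hX] at hpD
          linarith
      _ = _ := by
          rw [mul_pow, mul_pow, ← Real.rpow_natCast (R ^ ((2 : ℝ) / (q : ℝ) ^ k)) M₀,
            ← Real.rpow_mul hR0.le]
          congr 2
          ring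
  have hqk : ((q : ℝ) ^ k) ^ finrank ℚ E ≤ ((q : ℝ) ^ k) ^ M :=
    pow_le_pow_right₀ (one_le_pow₀ hq1) hM
  calc (2 * (p : ℝ)) ^ finrank ℚ E₀ * ((q : ℝ) ^ k) ^ finrank ℚ E ≤
      ((16 * 32 ^ 4 * q) ^ M₀ * D ^ M₀ * R ^ (2 * (M₀ : ℝ) / (q : ℝ) ^ k)) * ((q : ℝ) ^ k) ^ M :=
        mul_le_mul h2p hqk (by positivity) (by positivity)
    _ = _ := by ring

private lemma algInt_mono {N : ℕ} {B B' : ℝ} (h : B ≤ B') : AlgInt N B ⊆ AlgInt N B' := by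
  rintro z ⟨h1, h2, h3⟩
  exact ⟨h1, h2, fun w hw => (h3 w hw).trans h⟩

theorem lam_count {q : ℕ} (h3 : 3 ≤ q) (k M₀ M : ℕ) : ∃ (A : ℕ) (C : ℝ), 1 ≤ C ∧
    ∀ D R : ℝ, 1 ≤ D → 1 ≤ R → (LamSet q k M₀ M D R).Finite ∧
      ((LamSet q k M₀ M D R).ncard : ℝ) ≤ C * D ^ A * R ^ (2 * (M₀ : ℝ) / (q : ℝ) ^ k) := by
  classical
  obtain ⟨C₀, hC₀, hF₀⟩ := field_in_C M₀
  obtain ⟨C₁, hC₁, hF₁⟩ := field_in_C M
  obtain ⟨B₀, hB₀, hA₀⟩ := algInt_card M₀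
  obtain ⟨B₁, hB₁, hA₁⟩ := algInt_card M
  have hq1 : (1 : ℝ) ≤ q := by exact_mod_cast (by omega : 1 ≤ q)
  obtain ⟨e₀, he₀⟩ : ∃ e₀ : ℕ, e₀ = M₀ * (M₀ + 1) := ⟨_, rfl⟩
  obtain ⟨e₁, he₁⟩ : ∃ e₁ : ℕ, e₁ = M * (M + 1) := ⟨_, rfl⟩
  obtain ⟨C₃, hC₃⟩ : ∃ C₃ : ℝ, C₃ = (16 * 32 ^ 4 * q) ^ M₀ * (q ^ k) ^ M := ⟨_, rfl⟩
  have hC₃1 : 1 ≤ C₃ := by
    rw [hC₃]
    refine one_le_mul_of_one_le_of_one_le (one_le_pow₀ ?_) (one_le_pow₀ (one_le_pow₀ hq1))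
    linarith
  refine ⟨e₀ + e₁ + M₀, (B₀ * C₀ ^ e₀) * (B₁ * C₁ ^ e₁) * q * C₃, ?_, fun D R hD hR => ?_⟩
  · have h1 : 1 ≤ B₀ * C₀ ^ e₀ := one_le_mul_of_one_le_of_one_le hB₀ (one_le_pow₀ hC₀)
    have h2 : 1 ≤ B₁ * C₁ ^ e₁ := one_le_mul_of_one_le_of_one_le hB₁ (one_le_pow₀ hC₁)
    exact one_le_mul_of_one_le_of_one_le
      (one_le_mul_of_one_le_of_one_le (one_le_mul_of_one_le_of_one_le h1 h2) hq1) hC₃1
  have hD0 : 0 < D := by linarith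
  have hsD1 : 1 ≤ √D := by
    rw [Real.one_le_sqrt]
    exact hD
  have hsD : √D ≤ D := by
    rw [Real.sqrt_le_left (by linarith)]
    nlinarith
  obtain ⟨hfin₀, hcard₀⟩ := hA₀ (C₀ * √D) (one_le_mul_of_one_le_of_one_le hC₀ hsD1)
  obtain ⟨hfin₁, hcard₁⟩ := hA₁ (C₁ * √D) (one_le_mul_of_one_le_of_one_le hC₁ hsD1)
  rw [← he₀] at hcard₀
  rw [← he₁] at hcard₁
  -- the triples
  obtain ⟨U, hU⟩ : ∃ U : Finset ℂ, U = (Polynomial.nthRoots q (1 : ℂ)).toFinset := ⟨_, rfl⟩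
  have hUcard : (U.card : ℝ) ≤ q := by
    have : U.card ≤ q := by
      rw [hU]
      exact (Multiset.toFinset_card_le _).trans (Polynomial.card_nthRoots q 1)
    exact_mod_cast this
  obtain ⟨T, hT⟩ : ∃ T : Finset (ℂ × ℂ × ℂ), T = hfin₀.toFinset ×ˢ (hfin₁.toFinset ×ˢ U) := ⟨_, rfl⟩
  have hTcard : (T.card : ℝ) ≤ (B₀ * (C₀ * √D) ^ e₀) * ((B₁ * (C₁ * √D) ^ e₁) * q) := by
    rw [hT, Finset.card_product, Finset.card_product, ← Set.ncard_eq_toFinset_card _ hfin₀,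
      ← Set.ncard_eq_toFinset_card _ hfin₁]
    push_cast
    exact mul_le_mul hcard₀ (mul_le_mul hcard₁ hUcard (by positivity) (by positivity))
      (by positivity) (by positivity)
  obtain ⟨W, hW⟩ : ∃ W : ℝ, W = C₃ * D ^ M₀ * R ^ (2 * (M₀ : ℝ) / (q : ℝ) ^ k) := ⟨_, rfl⟩
  have hW0 : 0 ≤ W := by
    rw [hW]
    positivity
  have htr : ∀ t : ℂ × ℂ × ℂ, (LamT q k M₀ M D R t.1 t.2.1 t.2.2).Finite ∧
      ((LamT q k M₀ M D R t.1 t.2.1 t.2.2).ncard : ℝ) ≤ W := by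
    intro t
    rw [hW, hC₃]
    exact lam_triple h3 k M₀ M hD hR t.1 t.2.1 t.2.2
  obtain ⟨V, hV⟩ : ∃ V : Finset ℂ, V = T.biUnion fun t => (htr t).1.toFinset := ⟨_, rfl⟩
  have hsub : LamSet q k M₀ M D R ⊆ (V : Set ℂ) := by
    rintro z ⟨E₀, E, _, _, _, _, _, ι, ζ, a, b, hζ, hM₀, hM, hD₀, hDE, hch, hz, hqt⟩
    obtain ⟨θ₀, hθ₀, hr₀⟩ := hF₀ E₀ hM₀ (ι.comp (algebraMap E₀ E))
    obtain ⟨θ, hθ, hr₁⟩ := hF₁ E hM ι
    rw [hV, Finset.coe_biUnion]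
    rw [Set.mem_iUnion₂]
    refine ⟨(θ₀, θ, ι (algebraMap E₀ E ζ)), ?_, ?_⟩
    · rw [hT, Finset.mem_coe, Finset.mem_product, Finset.mem_product, Set.Finite.mem_toFinset,
        Set.Finite.mem_toFinset, hU, Multiset.mem_toFinset, Polynomial.mem_nthRoots (by omega : 0 < q)]
      refine ⟨algInt_mono ?_ hθ₀, algInt_mono ?_ hθ, ?_⟩
      · exact mul_le_mul_of_nonneg_left (Real.sqrt_le_sqrt hD₀) (by linarith)
      · exact mul_le_mul_of_nonneg_left (Real.sqrt_le_sqrt hDE) (by linarith)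
      · show (ι (algebraMap E₀ E ζ)) ^ q = 1
        rw [← map_pow, ← map_pow, hζ.pow_eq_one, map_one, map_one]
    · rw [Finset.mem_coe, Set.Finite.mem_toFinset]
      exact ⟨E₀, E, inferInstance, inferInstance, inferInstance, inferInstance, inferInstance, ι, ζ, a,
        b, hζ, hM₀, hM, hDE, hch, hz, hqt, hr₀, hr₁, rfl⟩
  refine ⟨V.finite_toSet.subset hsub, ?_⟩
  have hVcard : (V.card : ℝ) ≤ T.card * W := by
    have h1 : V.card ≤ ∑ t ∈ T, ((htr t).1.toFinset).card := by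
      rw [hV]
      exact Finset.card_biUnion_le
    have h2 : (V.card : ℝ) ≤ ∑ t ∈ T, (((htr t).1.toFinset).card : ℝ) := by exact_mod_cast h1
    refine h2.trans ?_
    rw [← nsmul_eq_mul, ← Finset.sum_const]
    refine Finset.sum_le_sum fun t _ => ?_
    rw [← Set.ncard_eq_toFinset_card _ (htr t).1]
    exact (htr t).2
  have hnc : ((LamSet q k M₀ M D R).ncard : ℝ) ≤ V.card := by
    have h1 := Set.ncard_le_ncard hsub V.finite_toSet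
    rw [Set.ncard_coe_finset] at h1
    exact_mod_cast h1
  have hsD₀ : (C₀ * √D) ^ e₀ ≤ C₀ ^ e₀ * D ^ e₀ := by
    rw [mul_pow]
    exact mul_le_mul_of_nonneg_left (pow_le_pow_left₀ (by linarith) hsD _) (by positivity)
  have hsD₁ : (C₁ * √D) ^ e₁ ≤ C₁ ^ e₁ * D ^ e₁ := by
    rw [mul_pow]
    exact mul_le_mul_of_nonneg_left (pow_le_pow_left₀ (by linarith) hsD _) (by positivity)
  calc ((LamSet q k M₀ M D R).ncard : ℝ) ≤ T.card * W := hnc.trans hVcard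
    _ ≤ ((B₀ * (C₀ * √D) ^ e₀) * ((B₁ * (C₁ * √D) ^ e₁) * q)) * W :=
        mul_le_mul_of_nonneg_right hTcard hW0
    _ ≤ ((B₀ * (C₀ ^ e₀ * D ^ e₀)) * ((B₁ * (C₁ ^ e₁ * D ^ e₁)) * q)) * W := by
        gcongr
    _ = _ := by
        rw [hW, pow_add, pow_add]
        ring

end FreyCyc
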