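import Pool.Agent.Lib.MP_6babc4_nt.Cyc.KNum

/-!
# Module KSta: the curve in standard form over the splitting field

`Std N f m w r A u`: over the field `F` the form of `f` is `u psi(A (x, y))`, `det A ≠ 0`, `u ≠ 0`.

PROOF of `std_exists`. Take the numbering, `z 0 = a, z 1 = b, z 2 = c` finite (`n ≥ 3`), and
`M = !![-dt a b * c₂, dt a b * c₁; -dt a c * b₂, dt a c * b₁]`, i.e. `M v = (dt a b · dt c v, dt a c · dt b v)`,
`det M = dt a b * dt a c * dt c b`, `dt (M v) (M z) = det M · dt v z`, and
`M z = dt a c · dt b z · (cr a b c z, 1)` for `z ≠ b`, `M b = dt a b · dt c b · (1, 0)`. So with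
`r 1 = ∞` and `r j = cr a b c (z j)` for `j ≠ 1` (`r 0 = 1`, `r 2 = 0`) and `W = ∑ w j`:
`form = C psi m w z (x, y) = u psi m w r (M (x, y))` (`C` from `numbering`) where
`u = (dt a c / det M)^W C (dt a b dt c b / dt a c)^(w 1) ∏_(j ≠ 1) (dt b (z j))^(w j)`
(`dt v z = (det M)⁻¹ dt a c dt b z dt (M v) (λ, 1)`), and `C ∏_(j ≠ 1) dt b (z j)^(w j) = lead N f b`: for
the roots `z ≠ b` of `f i` the product of the `lc_i (b - z)` is `f i b`, or `f' i b` for the `i` with
`f i b = 0`; the factor of infinity is `(b · 0 - 1 · 1)^winf = (-1)^winf` and `(-1)^(2 winf) = 1` (if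
infinity is not a branch point `winf = 0`). So `u = (dt a c / det M)^W tw N f a b c`, and
`(dt a c / det M)^W` is the `N`-th power of `s = (dt a c / det M)^(W / N)`.
`gauss_eq`: the finsum over `bp \ {b}` is the sum over `j < m`, `j ≠ 1`.
-/

set_option autoImplicit false

open Polynomial NumberField IsDedekindDomain Module

namespace FreyCyc

open FreySparse

/-- The form of `f` is `u psi(A (x, y))` over `F`. -/
def Std {K : Type} [Field K] [NumberField K] {F : Type*} [Field F] [Algebra (𝓞 K) F] (N : ℕ)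
    (f : ℕ → (𝓞 K)[X]) (m : ℕ) (w : ℕ → ℕ) (r : ℕ → OnePoint F) (A : Matrix (Fin 2) (Fin 2) F)
    (u : F) : Prop :=
  A.det ≠ 0 ∧ u ≠ 0 ∧
    ∀ x y : F, form N f x y = u * psi m w r (A 0 0 * x + A 0 1 * y) (A 1 0 * x + A 1 1 * y)

variable {K : Type} [Field K] [NumberField K]

/-- The data of the standard form: `ρ j` is the coordinate of the branch point number `j ≠ 1`. -/
structure SForm (N : ℕ) (f : ℕ → (𝓞 K)[X]) (m : ℕ) (w : ℕ → ℕ) (ρ : ℕ → Spl (tot N f))
    (A : Matrix (Fin 2) (Fin 2) (Spl (tot N f))) (u a b c : Spl (tot N f)) : Prop where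
  hm : 3 ≤ m
  hw : ∀ j < m, 1 ≤ w j ∧ w j < N
  hW : N ∣ ∑ j ∈ Finset.range m, w j
  inj : Set.InjOn ρ (Set.Iio m \ {1})
  h0 : ρ 0 = 1
  h2 : ρ 2 = 0
  hcr : ∀ j, 3 ≤ j → j < m → ∃ a ∈ bp N f, ∃ b ∈ bp N f, ∃ c ∈ bp N f, ∃ e ∈ bp N f,
    a ≠ b ∧ a ≠ c ∧ a ≠ e ∧ b ≠ c ∧ b ≠ e ∧ c ≠ e ∧ ρ j = cr a b c e
  ha : a ∈ rts (tot N f)
  hb : b ∈ rts (tot N f)
  hc : c ∈ rts (tot N f)
  hab : a ≠ b
  hac : a ≠ c
  hbc : b ≠ c
  hstd : ∀ (F : Type) [Field F] [Algebra K F] (φ : Spl (tot N f) →ₐ[K] F),
    Std N f m w (pts fun j => φ (ρ j)) (A.map φ) (φ u)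
  hu : ∃ s : Spl (tot N f), s ≠ 0 ∧ u = s ^ N * tw N f a b c
  hg : ∀ P : HeightOneSpectrum (𝓞 (Spl (tot N f))), gauss N f P a b c =
    ord P (tw N f a b c) + ∑ j ∈ (Finset.range m).erase 1, (w j : ℤ) * min 0 (ord P (ρ j))

private lemma ks_vec_coe {F : Type*} [Field F] (x : F) : vec (x : OnePoint F) = (x, 1) := rfl

private lemma ks_vec_inf {F : Type*} [Field F] : vec (OnePoint.infty : OnePoint F) = (1, 0) := rfl

private lemma ks_vec_map {E F : Type*} [Field E] [Field F] (φ : E →+* F) (z : OnePoint E) :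
    vec (z.map φ) = (φ (vec z).1, φ (vec z).2) := by
  induction z using OnePoint.rec with
  | infty =>
    show vec (OnePoint.infty : OnePoint F) = (φ 1, φ 0)
    rw [map_one, map_zero]
    rfl
  | coe x =>
    show vec ((φ x : F) : OnePoint F) = (φ x, φ 1)
    rw [map_one]
    rfl

private lemma ks_dt_coe {F : Type*} [Field F] (x : F) (z : OnePoint F) :
    dt (x : OnePoint F) z = x * (vec z).2 - (vec z).1 := by
  unfold dt
  rw [ks_vec_coe]
  ring

private lemma ks_der {F : Type*} [Field F] (H : F[X]) (b : F) :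
    (derivative ((X - C b) * H)).eval b = H.eval b := by
  rw [derivative_mul, eval_add, derivative_sub, derivative_X, derivative_C, sub_zero, one_mul,
    eval_mul, eval_sub, eval_X, eval_C, sub_self, zero_mul, add_zero]

/-- Factorisation of the values and of the derivatives at a point. -/
private lemma ks_val {F : Type*} [Field F] [DecidableEq F] {g : F[X]} (hs : g.Splits)
    {R : Finset F} (hR : g.roots = R.val) (b : F) :
    (if b ∈ R then (derivative g).eval b else g.eval b) =
      g.leadingCoeff * ∏ t ∈ R.erase b, (b - t) := by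
  have h1 : g = C g.leadingCoeff * ∏ t ∈ R, (X - C t) := by
    conv_lhs => rw [hs.eq_prod_roots]
    rw [hR]
    rfl
  by_cases hb : b ∈ R
  · rw [if_pos hb]
    have h2 : g = (X - C b) * (C g.leadingCoeff * ∏ t ∈ R.erase b, (X - C t)) := by
      conv_lhs => rw [h1]
      rw [← Finset.mul_prod_erase R (fun t => X - C t) hb]
      ring
    have h3 : (derivative g).eval b =
        eval b (C g.leadingCoeff * ∏ t ∈ R.erase b, (X - C t)) := by
      conv_lhs => rw [h2]
      exact ks_der _ b
    rw [h3, eval_mul, eval_C, eval_prod]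
    congr 1
    exact Finset.prod_congr rfl fun t _ => by rw [eval_sub, eval_X, eval_C]
  · rw [if_neg hb, Finset.erase_eq_of_notMem hb]
    conv_lhs => rw [h1]
    rw [eval_mul, eval_C, eval_prod]
    congr 1
    exact Finset.prod_congr rfl fun t _ => by rw [eval_sub, eval_X, eval_C]

omit [NumberField K] in
private lemma ks_aeval (L : Type) [Field L] [Algebra K L] (g : (𝓞 K)[X]) (x : L) :
    aeval x g = (g.map (algebraMap (𝓞 K) L)).eval x := by
  rw [aeval_def, eval₂_eq_eval_map]

omit [NumberField K] in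
private lemma ks_inj (L : Type) [Field L] [Algebra K L] :
    Function.Injective (algebraMap (𝓞 K) L) := by
  rw [IsScalarTower.algebraMap_eq (𝓞 K) K L]
  exact (algebraMap K L).injective.comp (FaithfulSMul.algebraMap_injective (𝓞 K) K)

/-- The leading constant at `b`. -/
private lemma ks_lead {n N : ℕ} {f : ℕ → (𝓞 K)[X]} (hd : (tot N f).natDegree = n)
    (hf : ((tot N f).map (algebraMap (𝓞 K) K)).Separable) {m : ℕ}
    {z : ℕ → OnePoint (Spl (tot N f))} (hinj : Set.InjOn z (Set.Iio m))
    (him : z '' Set.Iio m = bp N f) {b : Spl (tot N f)} {k : ℕ} (hk : k < m)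
    (hb : z k = (b : OnePoint (Spl (tot N f)))) :
    lead N f b = (-1) ^ winf N f *
      (∏ i ∈ Finset.Ico 1 N, (algebraMap (𝓞 K) (Spl (tot N f)) (f i).leadingCoeff) ^ i) *
        ∏ j ∈ (Finset.range m).erase k, (dt (b : OnePoint (Spl (tot N f))) (z j)) ^
          wt N f (z j) := by
  classical
  obtain ⟨R, hRc, hRm, hRi, hex, huniq⟩ := knum_roots hd hf
  -- the factors
  have hfac : ∀ i ∈ Finset.Ico 1 N,
      (if aeval b (f i) = 0 then aeval b (derivative (f i)) else aeval b (f i)) =
      algebraMap (𝓞 K) (Spl (tot N f)) (f i).leadingCoeff *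
        ∏ t ∈ R.erase b, (if aeval t (f i) = 0 then b - t else 1) := by
    intro i hi
    obtain ⟨hs, Ri, hRiR, hroots, hcard, hmem⟩ := hRi i hi
    have h1 := ks_val hs hroots b
    have h2 : ((f i).map (algebraMap (𝓞 K) (Spl (tot N f)))).leadingCoeff =
        algebraMap (𝓞 K) (Spl (tot N f)) (f i).leadingCoeff :=
      leadingCoeff_map_of_injective (ks_inj _) _
    have h3 : ∏ t ∈ R.erase b, (if aeval t (f i) = 0 then b - t else 1) =
        ∏ t ∈ Ri.erase b, (b - t) := by
      have h4 : ∀ t ∈ R.erase b, (if aeval t (f i) = 0 then b - t else 1) =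
          if t ∈ Ri.erase b then b - t else 1 := by
        intro t ht
        by_cases h : aeval t (f i) = 0
        · rw [if_pos h, if_pos (Finset.mem_erase.mpr ⟨(Finset.mem_erase.mp ht).1, (hmem t).mpr h⟩)]
        · rw [if_neg h, if_neg fun h' => h ((hmem t).mp (Finset.mem_of_mem_erase h'))]
      rw [Finset.prod_congr rfl h4, Finset.prod_ite_mem,
        Finset.inter_eq_right.mpr (Finset.erase_subset_erase b hRiR)]
    rw [h3, ← h2, ← h1]
    by_cases h : aeval b (f i) = 0
    · rw [if_pos h, if_pos ((hmem b).mpr h), ks_aeval, derivative_map]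
    · rw [if_neg h, if_neg fun h' => h ((hmem b).mp h'), ks_aeval]
  have hpow : ∀ t ∈ R.erase b, ∏ i ∈ Finset.Ico 1 N,
      (if aeval t (f i) = 0 then b - t else 1) ^ i =
      (b - t) ^ wt N f (t : OnePoint (Spl (tot N f))) := by
    intro t _
    have hw : wt N f (t : OnePoint (Spl (tot N f))) =
        ∑ i ∈ Finset.Ico 1 N, if aeval t (f i) = 0 then i else 0 := by
      show (∑ i ∈ Finset.Ico 1 N, _) = ∑ i ∈ Finset.Ico 1 N, _
      refine Finset.sum_congr rfl fun i _ => ?_
      by_cases h : aeval t (f i) = 0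
      · rw [if_pos h]
      · rw [if_neg h]
    rw [hw, ← Finset.prod_pow_eq_pow_sum]
    refine Finset.prod_congr rfl fun i _ => ?_
    by_cases h : aeval t (f i) = 0
    · rw [if_pos h, if_pos h]
    · rw [if_neg h, if_neg h, one_pow, pow_zero]
  have hlead : lead N f b =
      (∏ i ∈ Finset.Ico 1 N, (algebraMap (𝓞 K) (Spl (tot N f)) (f i).leadingCoeff) ^ i) *
        ∏ t ∈ R.erase b, (b - t) ^ wt N f (t : OnePoint (Spl (tot N f))) := by
    have h0 : lead N f b = ∏ i ∈ Finset.Ico 1 N,
        (if aeval b (f i) = 0 then aeval b (derivative (f i)) else aeval b (f i)) ^ i := by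
      unfold lead
      refine Finset.prod_congr rfl fun i _ => ?_
      by_cases h : aeval b (f i) = 0
      · rw [if_pos h]
      · rw [if_neg h]
    rw [h0, Finset.prod_congr rfl fun i hi => by rw [hfac i hi, mul_pow],
      Finset.prod_mul_distrib]
    congr 1
    rw [Finset.prod_congr rfl fun i _ => (Finset.prod_pow (R.erase b) i _).symm,
      Finset.prod_comm]
    exact Finset.prod_congr rfl hpow
  -- the product over the numbers
  have hprod : ∏ j ∈ (Finset.range m).erase k, (dt (b : OnePoint (Spl (tot N f))) (z j)) ^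
      wt N f (z j) = (-1) ^ winf N f *
        ∏ t ∈ R.erase b, (b - t) ^ wt N f (t : OnePoint (Spl (tot N f))) := by
    have hinj' : Set.InjOn z ((Finset.range m).erase k : Finset ℕ) := by
      intro i hi j hj hij
      rw [Finset.mem_coe] at hi hj
      exact hinj (Finset.mem_range.mp (Finset.mem_of_mem_erase hi))
        (Finset.mem_range.mp (Finset.mem_of_mem_erase hj)) hij
    have h1 : ∏ j ∈ (Finset.range m).erase k, (dt (b : OnePoint (Spl (tot N f))) (z j)) ^
        wt N f (z j) = ∏ ζ ∈ ((Finset.range m).erase k).image z,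
          (dt (b : OnePoint (Spl (tot N f))) ζ) ^ wt N f ζ :=
      (Finset.prod_image (f := fun ζ => (dt (b : OnePoint (Spl (tot N f))) ζ) ^ wt N f ζ)
        hinj').symm
    have h2 : ((Finset.range m).erase k).image z =
        (R.erase b).image (fun t : Spl (tot N f) => (t : OnePoint (Spl (tot N f)))) ∪
          (if winf N f = 0 then ∅ else {OnePoint.infty}) := by
      ext ζ
      rw [Finset.mem_image, Finset.mem_union, Finset.mem_image]
      constructor
      · rintro ⟨j, hj, rfl⟩
        have hj1 := (Finset.mem_erase.mp hj).1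
        have hj2 := Finset.mem_range.mp (Finset.mem_erase.mp hj).2
        have h3 : z j ∈ bp N f := by
          rw [← him]
          exact ⟨j, hj2, rfl⟩
        rcases h3 with ⟨x, hx, hzx⟩ | ⟨hz, hw⟩
        · refine Or.inl ⟨x, Finset.mem_erase.mpr ⟨?_, (hRm x).mpr hx⟩, hzx.symm⟩
          rintro rfl
          exact hj1 (hinj hj2 hk (hzx.trans hb.symm))
        · right
          rw [if_neg hw, Finset.mem_singleton]
          exact hz
      · rintro (⟨x, hx, rfl⟩ | h)
        · have h3 : ((x : Spl (tot N f)) : OnePoint (Spl (tot N f))) ∈ z '' Set.Iio m := by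
            rw [him]
            exact Or.inl ⟨x, (hRm x).mp (Finset.mem_erase.mp hx).2, rfl⟩
          obtain ⟨j, hj, hzj⟩ := h3
          refine ⟨j, Finset.mem_erase.mpr ⟨?_, Finset.mem_range.mpr hj⟩, hzj⟩
          rintro rfl
          rw [hb, OnePoint.coe_eq_coe] at hzj
          exact (Finset.mem_erase.mp hx).1 hzj.symm
        · by_cases hw : winf N f = 0
          · rw [if_pos hw] at h
            exact absurd h (Finset.notMem_empty _)
          · rw [if_neg hw, Finset.mem_singleton] at h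
            have h3 : ζ ∈ z '' Set.Iio m := by
              rw [him]
              exact Or.inr ⟨h, hw⟩
            obtain ⟨j, hj, hzj⟩ := h3
            refine ⟨j, Finset.mem_erase.mpr ⟨?_, Finset.mem_range.mpr hj⟩, hzj⟩
            rintro rfl
            rw [hb, h] at hzj
            exact OnePoint.coe_ne_infty _ hzj
    have hdis : Disjoint
        ((R.erase b).image (fun t : Spl (tot N f) => (t : OnePoint (Spl (tot N f)))))
        (if winf N f = 0 then (∅ : Finset (OnePoint (Spl (tot N f)))) else {OnePoint.infty}) := by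
      rw [Finset.disjoint_left]
      intro ζ h1 h2
      obtain ⟨t, _, rfl⟩ := Finset.mem_image.mp h1
      by_cases hw : winf N f = 0
      · rw [if_pos hw] at h2
        exact absurd h2 (Finset.notMem_empty _)
      · rw [if_neg hw, Finset.mem_singleton] at h2
        exact OnePoint.coe_ne_infty _ h2
    rw [h1, h2, Finset.prod_union hdis, Finset.prod_image
      (fun x _ y _ h => OnePoint.coe_injective h), mul_comm]
    congr 1
    · by_cases hw : winf N f = 0
      · rw [if_pos hw, Finset.prod_empty, hw, pow_zero]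
      · rw [if_neg hw, Finset.prod_singleton, ks_dt_coe, ks_vec_inf]
        have h3 : wt N f (OnePoint.infty : OnePoint (Spl (tot N f))) = winf N f := rfl
        rw [h3]
        congr 1
        show b * 0 - 1 = -1
        ring
    · refine Finset.prod_congr rfl fun t _ => ?_
      rw [ks_dt_coe, ks_vec_coe]
      congr 1
      show b * 1 - t = b - t
      ring
  rw [hprod, hlead]
  have h4 : ((-1 : Spl (tot N f)) ^ winf N f) * (-1) ^ winf N f = 1 := by
    rw [← mul_pow]
    norm_num
  linear_combination (-(∏ i ∈ Finset.Ico 1 N,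
    (algebraMap (𝓞 K) (Spl (tot N f)) (f i).leadingCoeff) ^ i) *
        ∏ t ∈ R.erase b, (b - t) ^ wt N f (t : OnePoint (Spl (tot N f)))) * h4

/-- One factor of the form in the coordinate `X`. -/
private lemma ks_factor {F : Type*} [Field F] {a b c v1 v2 : F} (hac : a - c ≠ 0)
    (hD : b * v2 - v1 ≠ 0) (x y : F) :
    (-(a - b) * x + (a - b) * c * y) * 1 -
      (-(a - c) * x + (a - c) * b * y) *
        ((a - b) * (c * v2 - v1) / ((a - c) * (b * v2 - v1))) =
    (a - b) * (c - b) / (b * v2 - v1) * (x * v2 - y * v1) := by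
  field_simp
  ring

theorem std_exists {n N : ℕ} (hn : 3 ≤ n) {f : ℕ → (𝓞 K)[X]} (hd : (tot N f).natDegree = n)
    (hf : ((tot N f).map (algebraMap (𝓞 K) K)).Separable) :
    ∃ (m : ℕ) (w : ℕ → ℕ) (ρ : ℕ → Spl (tot N f)) (A : Matrix (Fin 2) (Fin 2) (Spl (tot N f)))
      (u a b c : Spl (tot N f)), m ≤ n + 1 ∧ SForm N f m w ρ A u a b c := by
  classical
  obtain ⟨m, w, z, hnm, hmn, hinj, hw, him, hwt, hNs, hroot, hform⟩ := numbering hn hd hf
  obtain ⟨a, ha, hza⟩ := hroot 0 (by omega)
  obtain ⟨b, hb, hzb⟩ := hroot 1 (by omega)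
  obtain ⟨c, hc, hzc⟩ := hroot 2 (by omega)
  have h0m : 0 < m := by omega
  have h1m : 1 < m := by omega
  have h2m : 2 < m := by omega
  have hab : a ≠ b := by
    rintro rfl
    exact absurd (hinj (Set.mem_Iio.mpr h0m) (Set.mem_Iio.mpr h1m) (hza.trans hzb.symm)) (by omega)
  have hac : a ≠ c := by
    rintro rfl
    exact absurd (hinj (Set.mem_Iio.mpr h0m) (Set.mem_Iio.mpr h2m) (hza.trans hzc.symm)) (by omega)
  have hbc : b ≠ c := by
    rintro rfl
    exact absurd (hinj (Set.mem_Iio.mpr h1m) (Set.mem_Iio.mpr h2m) (hzb.trans hzc.symm)) (by omega)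
  have hab' : a - b ≠ 0 := sub_ne_zero.mpr hab
  have hac' : a - c ≠ 0 := sub_ne_zero.mpr hac
  have hcb' : c - b ≠ 0 := sub_ne_zero.mpr hbc.symm
  have hbp : ∀ j, j < m → z j ∈ bp N f := by
    intro j hj
    rw [← him]
    exact ⟨j, hj, rfl⟩
  have hne : ∀ i j, i < m → j < m → i ≠ j → z i ≠ z j := fun i j hi hj hij h =>
    hij (hinj hi hj h)
  have hD : ∀ j, j < m → j ≠ 1 → dt (b : OnePoint (Spl (tot N f))) (z j) ≠ 0 := by
    intro j hj hj1
    rw [← hzb]
    exact dt_ne (hne 1 j h1m hj (Ne.symm hj1))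
  set ρ : ℕ → Spl (tot N f) := fun j =>
    cr (a : OnePoint (Spl (tot N f))) (b : OnePoint (Spl (tot N f)))
      (c : OnePoint (Spl (tot N f))) (z j) with hρ
  have hρv : ∀ j, ρ j = (a - b) * (c * (vec (z j)).2 - (vec (z j)).1) /
      ((a - c) * (b * (vec (z j)).2 - (vec (z j)).1)) := by
    intro j
    show cr _ _ _ _ = _
    unfold cr
    rw [ks_dt_coe, ks_dt_coe, ks_dt_coe, ks_dt_coe, ks_vec_coe, ks_vec_coe]
    congr 2
    · show a * 1 - b = a - b
      ring
    · show a * 1 - c = a - c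
      ring
  set A : Matrix (Fin 2) (Fin 2) (Spl (tot N f)) :=
    !![-(a - b), (a - b) * c; -(a - c), (a - c) * b] with hA
  set E : Spl (tot N f) := (a - b) * (c - b) with hE
  have hE0 : E ≠ 0 := mul_ne_zero hab' hcb'
  set LC : Spl (tot N f) := (-1) ^ winf N f *
    (∏ i ∈ Finset.Ico 1 N, (algebraMap (𝓞 K) (Spl (tot N f)) (f i).leadingCoeff) ^ i) with hLC
  set Dp : Spl (tot N f) := ∏ j ∈ (Finset.range m).erase 1,
    (dt (b : OnePoint (Spl (tot N f))) (z j)) ^ w j with hDp
  have hDp0 : Dp ≠ 0 := Finset.prod_ne_zero_iff.mpr fun j hj =>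
    pow_ne_zero _ (hD j (Finset.mem_range.mp (Finset.mem_erase.mp hj).2)
      (Finset.mem_erase.mp hj).1)
  set Q : Spl (tot N f) := (a - c) ^ w 1 *
    ∏ j ∈ (Finset.range m).erase 1, (E / dt (b : OnePoint (Spl (tot N f))) (z j)) ^ w j with hQ
  have hQ0 : Q ≠ 0 := mul_ne_zero (pow_ne_zero _ hac') (Finset.prod_ne_zero_iff.mpr fun j hj =>
    pow_ne_zero _ (div_ne_zero hE0 (hD j (Finset.mem_range.mp (Finset.mem_erase.mp hj).2)
      (Finset.mem_erase.mp hj).1)))
  have hlead : lead N f b = LC * Dp := by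
    rw [ks_lead hd hf hinj him h1m hzb, hLC, hDp]
    congr 1
    exact Finset.prod_congr rfl fun j hj => by
      rw [hwt j (Finset.mem_range.mp (Finset.mem_erase.mp hj).2)]
  have hT : (tot N f) ≠ 0 := by
    intro h
    rw [h, natDegree_zero] at hd
    omega
  have hLC0 : LC ≠ 0 := by
    refine mul_ne_zero (pow_ne_zero _ (neg_ne_zero.mpr one_ne_zero))
      (Finset.prod_ne_zero_iff.mpr fun i hi => pow_ne_zero _ ?_)
    rw [Ne, map_eq_zero_iff _ (ks_inj _), leadingCoeff_eq_zero]
    intro h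
    apply hT
    unfold tot
    exact Finset.prod_eq_zero hi h
  set u : Spl (tot N f) := LC * Q⁻¹ with hu
  have hu0 : u ≠ 0 := mul_ne_zero hLC0 (inv_ne_zero hQ0)
  -- the set of the other branch points
  have hinj' : Set.InjOn z ((Finset.range m).erase 1 : Finset ℕ) := by
    intro i hi j hj hij
    rw [Finset.mem_coe] at hi hj
    exact hinj (Finset.mem_range.mp (Finset.mem_of_mem_erase hi))
      (Finset.mem_range.mp (Finset.mem_of_mem_erase hj)) hij
  refine ⟨m, w, ρ, A, u, a, b, c, hmn, ?_⟩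
  refine ⟨by omega, hw, hNs, ?_, ?_, ?_, ?_, ha, hb, hc, hab, hac, hbc, ?_, ?_, ?_⟩
  · -- injectivity
    intro i hi j hj hij
    have hi1 : i ≠ 1 := fun h => hi.2 h
    have hj1 : j ≠ 1 := fun h => hj.2 h
    have hDi := hD i hi.1 hi1
    have hDj := hD j hj.1 hj1
    rw [ks_dt_coe] at hDi hDj
    rw [hρv, hρv, div_eq_div_iff (mul_ne_zero hac' hDi) (mul_ne_zero hac' hDj)] at hij
    have h1 : (a - b) * (a - c) * (c - b) *
        ((vec (z i)).1 * (vec (z j)).2 - (vec (z i)).2 * (vec (z j)).1) = 0 := by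
      linear_combination hij
    have h2 : dt (z i) (z j) = 0 := by
      unfold dt
      exact (mul_eq_zero.mp h1).resolve_left
        (mul_ne_zero (mul_ne_zero hab' hac') hcb')
    by_contra hij'
    exact dt_ne (hne i j hi.1 hj.1 hij') h2
  · -- h0
    rw [hρv, hza, ks_vec_coe]
    show (a - b) * (c * 1 - a) / ((a - c) * (b * 1 - a)) = 1
    rw [div_eq_one_iff_eq (mul_ne_zero hac' (by rw [mul_one]; exact sub_ne_zero.mpr hab.symm))]
    ring
  · -- h2
    rw [hρv, hzc, ks_vec_coe]
    show (a - b) * (c * 1 - c) / ((a - c) * (b * 1 - c)) = 0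
    rw [mul_one, sub_self, mul_zero, zero_div]
  · -- hcr
    intro j hj3 hjm
    refine ⟨z 0, hbp 0 h0m, z 1, hbp 1 h1m, z 2, hbp 2 h2m, z j, hbp j hjm,
      hne 0 1 h0m h1m (by omega), hne 0 2 h0m h2m (by omega), hne 0 j h0m hjm (by omega),
      hne 1 2 h1m h2m (by omega), hne 1 j h1m hjm (by omega), hne 2 j h2m hjm (by omega), ?_⟩
    rw [hza, hzb, hzc]
  · -- hstd
    intro F _ _ φ
    have hφ : ∀ r : 𝓞 K, algebraMap (𝓞 K) F r = φ (algebraMap (𝓞 K) (Spl (tot N f)) r) := by
      intro r
      rw [IsScalarTower.algebraMap_apply (𝓞 K) K F, IsScalarTower.algebraMap_apply (𝓞 K) K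
        (Spl (tot N f)), AlgHom.commutes]
    have hφi : Function.Injective φ := (φ : Spl (tot N f) →+* F).injective
    refine ⟨?_, ?_, ?_⟩
    · rw [Matrix.det_fin_two]
      show φ (-(a - b)) * φ ((a - c) * b) - φ ((a - b) * c) * φ (-(a - c)) ≠ 0
      rw [← map_mul, ← map_mul, ← map_sub, Ne, map_eq_zero_iff φ hφi]
      have h1 : -(a - b) * ((a - c) * b) - (a - b) * c * -(a - c) =
          (a - b) * (a - c) * (c - b) := by ring
      rw [h1]
      exact mul_ne_zero (mul_ne_zero hab' hac') hcb'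
    · rw [Ne, map_eq_zero_iff φ hφi]
      exact hu0
    · intro x y
      have h1 := hform F φ x y
      have h2 : φ LC = (-1) ^ winf N f *
          (∏ i ∈ Finset.Ico 1 N, (algebraMap (𝓞 K) F (f i).leadingCoeff) ^ i) := by
        rw [hLC, map_mul, map_pow, map_neg, map_one, map_prod]
        congr 1
        exact Finset.prod_congr rfl fun i _ => by rw [map_pow, hφ]
      rw [h1, ← h2]
      have hvm : ∀ j, vec ((z j).map φ) = (φ (vec (z j)).1, φ (vec (z j)).2) := fun j =>
        ks_vec_map (φ : Spl (tot N f) →+* F) (z j)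
      -- the factors
      have hf1 : ∀ j ∈ (Finset.range m).erase 1,
          ((A.map φ) 0 0 * x + (A.map φ) 0 1 * y) * (vec (pts (fun j => φ (ρ j)) j)).2 -
            ((A.map φ) 1 0 * x + (A.map φ) 1 1 * y) * (vec (pts (fun j => φ (ρ j)) j)).1 =
          φ (E / dt (b : OnePoint (Spl (tot N f))) (z j)) *
            (x * (vec ((z j).map φ)).2 - y * (vec ((z j).map φ)).1) := by
        intro j hj
        have hj1 := (Finset.mem_erase.mp hj).1
        have hjm := Finset.mem_range.mp (Finset.mem_erase.mp hj).2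
        have hDj := hD j hjm hj1
        rw [ks_dt_coe] at hDj
        have h3 : pts (fun j => φ (ρ j)) j = ((φ (ρ j) : F) : OnePoint F) := if_neg hj1
        rw [h3, ks_vec_coe, hvm]
        show (φ (-(a - b)) * x + φ ((a - b) * c) * y) * 1 -
          (φ (-(a - c)) * x + φ ((a - c) * b) * y) * φ (ρ j) = _ * (x * φ (vec (z j)).2 -
            y * φ (vec (z j)).1)
        rw [hρv, ks_dt_coe, hE]
        have h4 := ks_factor (F := F) (a := φ a) (b := φ b) (c := φ c) (v1 := φ (vec (z j)).1)
          (v2 := φ (vec (z j)).2) (by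
            rw [← map_sub, Ne, map_eq_zero_iff φ hφi]; exact hac') (by
            rw [← map_mul, ← map_sub, Ne, map_eq_zero_iff φ hφi]; exact hDj) x y
        simp only [map_neg, map_sub, map_mul, map_div₀]
        exact h4
      have hf2 : ((A.map φ) 0 0 * x + (A.map φ) 0 1 * y) *
            (vec (pts (fun j => φ (ρ j)) 1)).2 -
          ((A.map φ) 1 0 * x + (A.map φ) 1 1 * y) * (vec (pts (fun j => φ (ρ j)) 1)).1 =
          φ (a - c) * (x * (vec ((z 1).map φ)).2 - y * (vec ((z 1).map φ)).1) := by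
        have h3 : pts (fun j => φ (ρ j)) 1 = OnePoint.infty := if_pos rfl
        rw [h3, ks_vec_inf, hvm, hzb, ks_vec_coe]
        show (φ (-(a - b)) * x + φ ((a - b) * c) * y) * 0 -
          (φ (-(a - c)) * x + φ ((a - c) * b) * y) * 1 = φ (a - c) * (x * φ 1 - y * φ b)
        simp only [map_neg, map_sub, map_mul, map_one]
        ring
      have h1r : 1 ∈ Finset.range m := Finset.mem_range.mpr h1m
      have h5 : psi m w (pts fun j => φ (ρ j)) ((A.map φ) 0 0 * x + (A.map φ) 0 1 * y)
          ((A.map φ) 1 0 * x + (A.map φ) 1 1 * y) =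
          φ Q * psi m w (fun j => (z j).map φ) x y := by
        unfold psi
        rw [← Finset.mul_prod_erase (Finset.range m) _ h1r, hf2,
          Finset.prod_congr rfl fun j hj => by rw [hf1 j hj],
          ← Finset.mul_prod_erase (Finset.range m)
            (fun j => (x * (vec ((z j).map φ)).2 - y * (vec ((z j).map φ)).1) ^ w j) h1r,
          Finset.prod_congr rfl fun j _ => mul_pow _ _ _, Finset.prod_mul_distrib, mul_pow, hQ,
          map_mul, map_pow, map_prod]
        have h6 : ∏ j ∈ (Finset.range m).erase 1,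
            φ (E / dt (b : OnePoint (Spl (tot N f))) (z j)) ^ w j =
            ∏ j ∈ (Finset.range m).erase 1,
              φ ((E / dt (b : OnePoint (Spl (tot N f))) (z j)) ^ w j) :=
          Finset.prod_congr rfl fun j _ => (map_pow φ _ _).symm
        rw [h6]
        ring
      rw [h5, hu, map_mul φ LC, map_inv₀]
      have h7 : φ Q ≠ 0 := by
        rw [Ne, map_eq_zero_iff φ hφi]
        exact hQ0
      field_simp
  · -- hu
    obtain ⟨k, hk⟩ := hNs
    refine ⟨(E⁻¹) ^ k, pow_ne_zero _ (inv_ne_zero hE0), ?_⟩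
    have hwb : wt N f (b : OnePoint (Spl (tot N f))) = w 1 := by
      rw [hwt 1 h1m, hzb]
    have hQ1 : Q = (a - c) ^ w 1 * (E ^ (∑ j ∈ (Finset.range m).erase 1, w j) / Dp) := by
      rw [hQ, hDp]
      congr 1
      rw [Finset.prod_congr rfl fun j _ => div_pow _ _ _, Finset.prod_div_distrib,
        Finset.prod_pow_eq_pow_sum]
    have hsum : w 1 + ∑ j ∈ (Finset.range m).erase 1, w j = N * k := by
      rw [Finset.add_sum_erase _ _ (Finset.mem_range.mpr h1m), hk]
    have hpow : E ^ w 1 * E ^ (∑ j ∈ (Finset.range m).erase 1, w j) = E ^ (k * N) := by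
      rw [← pow_add, hsum, mul_comm]
    rw [← pow_mul, inv_pow, ← hpow]
    unfold tw
    rw [hwb, hlead, hu, hQ1, ← hE, div_pow]
    have h8 := pow_ne_zero (w 1) hac'
    have h9 := pow_ne_zero (w 1) hE0
    have h10 := pow_ne_zero (∑ j ∈ (Finset.range m).erase 1, w j) hE0
    field_simp
  · -- hg
    intro P
    have hset : bp N f \ {(b : OnePoint (Spl (tot N f)))} =
        ((((Finset.range m).erase 1).image z : Finset (OnePoint (Spl (tot N f)))) :
          Set (OnePoint (Spl (tot N f)))) := by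
      ext ζ
      rw [Set.mem_diff, Set.mem_singleton_iff, Finset.mem_coe, Finset.mem_image, ← him]
      constructor
      · rintro ⟨⟨j, hj, rfl⟩, h⟩
        refine ⟨j, Finset.mem_erase.mpr ⟨?_, Finset.mem_range.mpr hj⟩, rfl⟩
        rintro rfl
        exact h hzb
      · rintro ⟨j, hj, rfl⟩
        have hj1 := (Finset.mem_erase.mp hj).1
        have hjm := Finset.mem_range.mp (Finset.mem_erase.mp hj).2
        refine ⟨⟨j, hjm, rfl⟩, ?_⟩
        rw [← hzb]
        exact hne j 1 hjm h1m hj1
    unfold gauss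
    rw [hset, finsum_mem_coe_finset, Finset.sum_image hinj']
    congr 1
    refine Finset.sum_congr rfl fun j hj => ?_
    rw [hwt j (Finset.mem_range.mp (Finset.mem_erase.mp hj).2)]

end FreyCyc
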