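import Pool.Agent.Lib.MP_6babc4_nt.Cyc.ArcA

/-!
# Archimedean part for cyclic covers: the estimate for one complex embedding

`F i` (`1 ≤ i < l`) are complex polynomials whose product has no multiple root; the weight of index
`j` is `∏ i, ‖F i z‖ ^ (-2 * ((i * j) % l) / l)`.
-/

open Polynomial MeasureTheory Set FreyAvg
open scoped ComplexConjugate

namespace FreyCyc

/-- A polynomial with coefficients of absolute value at most `H` on the unit disc. -/
lemma poly_eval_le {F : ℂ[X]} {n : ℕ} (hdeg : F.natDegree ≤ n) {H : ℝ} (hH : 0 ≤ H)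
    (hF : ∀ i, ‖F.coeff i‖ ≤ H) (z : ℂ) (hz : ‖z‖ ≤ 1) : ‖F.eval z‖ ≤ (n + 1) * H := by
  rw [eval_eq_sum_range' (Nat.lt_succ_of_le hdeg)]
  refine (norm_sum_le _ _).trans ?_
  calc ∑ i ∈ Finset.range (n + 1), ‖F.coeff i * z ^ i‖ ≤
        ∑ _i ∈ Finset.range (n + 1), H := by
        refine Finset.sum_le_sum fun i _ => ?_
        rw [norm_mul, norm_pow]
        calc ‖F.coeff i‖ * ‖z‖ ^ i ≤ H * 1 := by
              refine mul_le_mul (hF i) (pow_le_one₀ (norm_nonneg _) hz) (by positivity) hH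
          _ = H := mul_one _
    _ = (n + 1) * H := by
        rw [Finset.sum_const, Finset.card_range, nsmul_eq_mul]
        push_cast
        ring

/-- The bound for the product of the weights on the unit disc. -/
lemma prod_eval_le {ι : Type*} (I : Finset ι) (s : ι → ℝ) (F : ι → ℂ[X])
    (hs0 : ∀ i ∈ I, 0 ≤ s i) {n : ℕ} (hdeg : ∀ i ∈ I, (F i).natDegree ≤ n) {H : ℝ} (hH : 0 < H)
    (hF : ∀ i ∈ I, ∀ k, ‖(F i).coeff k‖ ≤ H) (z : ℂ) (hz : ‖z‖ ≤ 1) :
    ∏ i ∈ I, ‖(F i).eval z‖ ^ (s i) ≤ ((n + 1) * H) ^ (∑ i ∈ I, s i) := by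
  have h0 : 0 < ((n : ℝ) + 1) * H := by positivity
  rw [Real.rpow_sum_of_pos h0]
  refine Finset.prod_le_prod (fun i _ => Real.rpow_nonneg (norm_nonneg _) _) fun i hi => ?_
  exact Real.rpow_le_rpow (norm_nonneg _) (poly_eval_le (hdeg i hi) hH.le (hF i hi) z hz)
    (hs0 i hi)

/-- The lower bound for the logarithm of the determinant. -/
theorem log_det_lower {ι : Type*} (I : Finset ι) (s : ι → ℝ) (F : ι → ℂ[X])
    (hsep : (∏ i ∈ I, F i).Separable) (hs0 : ∀ i ∈ I, 0 ≤ s i) (hs2 : ∀ i ∈ I, s i < 2) {g : ℕ}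
    (hg : 2 * (g : ℝ) < ∑ i ∈ I, s i * (F i).natDegree) {r : ℝ} (hr : 0 < r)
    {n : ℕ} (hdeg : ∀ i ∈ I, (F i).natDegree ≤ n) {H : ℝ} (hH : 0 < H)
    (hF : ∀ i ∈ I, ∀ k, ‖(F i).coeff k‖ ≤ H) :
    -(g * ((∑ i ∈ I, s i) * Real.log H +
        ((∑ i ∈ I, s i) * Real.log (n + 1) - Real.log (r * lam0 g)))) ≤
      Real.log ‖(((r : ℝ) : ℂ) • gw g (fun z => (∏ i ∈ I, ‖(F i).eval z‖ ^ (s i))⁻¹)).det‖ := by
  have h0 : 0 < ((n : ℝ) + 1) * H := by positivity
  have hM0 : 0 < (((n : ℝ) + 1) * H) ^ (∑ i ∈ I, s i) := by positivity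
  have h1 := gw_det_lower I s F hsep hs0 hs2 hg hr hM0
    (fun z hz => prod_eval_le I s F hs0 hdeg hH hF z hz)
  have hlam := lam0_pos g
  have h2 := Real.log_le_log (by positivity) h1
  rw [Real.log_pow, Real.log_div (by positivity) (by positivity),
    Real.log_rpow (by positivity), Real.log_mul (by positivity) hH.ne'] at h2
  refine le_trans (le_of_eq ?_) h2
  ring

end FreyCyc
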