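import Pool.Agent.Lib.MP_6babc4_nt.Cyc.Defs
import Pool.Agent.Lib.MP_6babc4_nt.Cyc.ArcB

/-!
# Module Arc: the upper bound for the height (helper5)

For each complex embedding and each `j` the determinant of the Gram matrix is at least a constant
times a power of `1 / H` (`ArcA`, `ArcB`); there are only finitely many possible values of the
number of the forms (at most `n`), so the constants are uniform.
-/

set_option autoImplicit false

open Polynomial NumberField Module MeasureTheory FreyAvg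
open scoped ComplexConjugate

namespace FreyCyc

/-- The exponents of the weight. -/
noncomputable def ex (N j i : ℕ) : ℝ := 2 * ((i * j % N : ℕ) : ℝ) / N

lemma ex_nonneg (N j i : ℕ) : 0 ≤ ex N j i := by unfold ex; positivity

lemma ex_lt {N : ℕ} (hN : 0 < N) (j i : ℕ) : ex N j i < 2 := by
  unfold ex
  have hN0 : (0 : ℝ) < N := by exact_mod_cast hN
  have h1 : ((i * j % N : ℕ) : ℝ) < N := by exact_mod_cast Nat.mod_lt _ hN
  rw [div_lt_iff₀ hN0]
  linarith

lemma gram_eq_gw (N j : ℕ) (F : ℕ → ℂ[X]) :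
    gram N j F = (((1 / (N : ℝ) : ℝ)) : ℂ) •
      gw (forms N j F) (fun z => (∏ i ∈ Finset.Ico 1 N, ‖(F i).eval z‖ ^ (ex N j i))⁻¹) := by
  ext a b
  simp only [gram, gw, Matrix.of_apply, Matrix.smul_apply, smul_eq_mul]
  have h : ∀ z : ℂ, z ^ (a : ℕ) * (conj z) ^ (b : ℕ) /
      ((∏ i ∈ Finset.Ico 1 N, ‖(F i).eval z‖ ^ (2 * ((i * j % N : ℕ) : ℝ) / N) : ℝ) : ℂ) =
      z ^ (a : ℕ) * (conj z) ^ (b : ℕ) *
        (((∏ i ∈ Finset.Ico 1 N, ‖(F i).eval z‖ ^ (ex N j i))⁻¹ : ℝ) : ℂ) := by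
    intro z
    rw [Complex.ofReal_inv, div_eq_mul_inv]
    rfl
  simp only [h]
  push_cast
  rfl

/-- The sum of the products of the exponents and the degrees. -/
lemma sum_ex_mul (N j : ℕ) (F : ℕ → ℂ[X]) :
    ∑ i ∈ Finset.Ico 1 N, ex N j i * ((F i).natDegree : ℝ) = 2 * (sdeg N j F : ℝ) / N := by
  unfold sdeg ex
  push_cast
  rw [Finset.mul_sum, Finset.sum_div]
  refine Finset.sum_congr rfl fun i _ => ?_
  ring

lemma forms_lt {N j : ℕ} (hN : 0 < N) {F : ℕ → ℂ[X]} (hs : 0 < sdeg N j F) :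
    2 * (forms N j F : ℝ) < 2 * (sdeg N j F : ℝ) / N := by
  have hN0 : (0 : ℝ) < N := by exact_mod_cast hN
  have h3 : forms N j F * N ≤ sdeg N j F - 1 := Nat.div_mul_le_self _ _
  have h4 : forms N j F * N < sdeg N j F := by omega
  have h5 : (forms N j F : ℝ) * N < sdeg N j F := by exact_mod_cast h4
  rw [lt_div_iff₀ hN0]
  linarith

lemma forms_le {N j n : ℕ} (hN : 0 < N) {F : ℕ → ℂ[X]}
    (hF : ∑ i ∈ Finset.Ico 1 N, (F i).natDegree = n) : forms N j F ≤ n := by
  unfold forms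
  have h1 : sdeg N j F ≤ N * n := by
    unfold sdeg
    rw [← hF, Finset.mul_sum]
    exact Finset.sum_le_sum fun i _ => Nat.mul_le_mul_right _ (Nat.mod_lt _ hN).le
  calc (sdeg N j F - 1) / N ≤ (N * n) / N := Nat.div_le_div_right (by omega)
    _ = n := Nat.mul_div_cancel_left _ hN

theorem height_le (n N q : ℕ) (hn : 3 ≤ n) (hN : N ≠ 0) :
    ∃ C₁ C : ℝ, 0 < C₁ ∧ 0 < C ∧ ∀ (K : Type) [Field K] [NumberField K] (H : ℝ), 1 ≤ H →
      ∀ f ∈ Fam K N q n H, height N f ≤ C₁ * Real.log H + C := by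
  have hNpos : 0 < N := Nat.pos_of_ne_zero hN
  have hN0 : (0 : ℝ) < N := by exact_mod_cast hNpos
  have hn0 : (0 : ℝ) < n := by exact_mod_cast (by omega : 0 < n)
  set Λ : ℝ := ∑ g ∈ Finset.range (n + 1), |Real.log (1 / (N : ℝ) * lam0 g)| with hΛ
  have hΛ0 : 0 ≤ Λ := Finset.sum_nonneg fun g _ => abs_nonneg _
  have hlogn : 0 ≤ Real.log ((n : ℝ) + 1) := Real.log_nonneg (by linarith)
  set B : ℝ := (n : ℝ) * (2 * N * Real.log ((n : ℝ) + 1) + Λ) with hB
  have hB0 : 0 ≤ B := by positivity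
  refine ⟨N * (n * N), N * B / 2 + 1, by positivity, by positivity, ?_⟩
  intro K _ _ H hH f hf
  obtain ⟨hcoef, -, hdeg, hsep⟩ := hf
  have hH0 : 0 < H := by linarith
  have hlogH : 0 ≤ Real.log H := Real.log_nonneg hH
  have hd : (0 : ℝ) < finrank ℚ K := by exact_mod_cast (finrank_pos (R := ℚ) (M := K))
  have hterm : ∀ σ : K →+* ℂ, ∀ j ∈ Finset.Ico 1 N,
      -(2 * (n * N) * Real.log H + B) ≤ Real.log ‖(gram N j (im σ f)).det‖ := by
    intro σ j hj
    have hinj : Function.Injective (σ.comp (algebraMap (𝓞 K) K)) := by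
      rw [RingHom.coe_comp]
      exact σ.injective.comp (FaithfulSMul.algebraMap_injective (𝓞 K) K)
    have hprod : ∏ i ∈ Finset.Ico 1 N, im σ f i =
        (tot N f).map (σ.comp (algebraMap (𝓞 K) K)) := by
      unfold tot im
      rw [Polynomial.map_prod]
    have hFsep : (∏ i ∈ Finset.Ico 1 N, im σ f i).Separable := by
      rw [hprod, ← map_map]
      exact hsep.map
    have hF0 : ∀ i ∈ Finset.Ico 1 N, im σ f i ≠ 0 := fun i hi =>
      Finset.prod_ne_zero_iff.mp hFsep.ne_zero i hi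
    have hFdeg : ∑ i ∈ Finset.Ico 1 N, (im σ f i).natDegree = n := by
      rw [← natDegree_prod _ _ hF0, hprod, ← hdeg]
      exact natDegree_map_eq_of_injective hinj _
    have hFle : ∀ i ∈ Finset.Ico 1 N, (im σ f i).natDegree ≤ n := by
      intro i hi
      rw [← hFdeg]
      exact Finset.single_le_sum (f := fun i => (im σ f i).natDegree) (fun _ _ => Nat.zero_le _) hi
    have hFcoef : ∀ i ∈ Finset.Ico 1 N, ∀ k, ‖(im σ f i).coeff k‖ ≤ H := by
      intro i hi k
      unfold im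
      rw [coeff_map]
      exact hcoef i hi k σ
    rcases Nat.eq_zero_or_pos (sdeg N j (im σ f)) with hs0 | hspos
    · have hf0 : forms N j (im σ f) = 0 := by
        unfold forms
        rw [hs0]
        simp
      have hemp : IsEmpty (Fin (forms N j (im σ f))) := by
        rw [hf0]
        exact Fin.isEmpty
      rw [Matrix.det_isEmpty, norm_one, Real.log_one, neg_nonpos]
      positivity
    have hg : 2 * (forms N j (im σ f) : ℝ) <
        ∑ i ∈ Finset.Ico 1 N, ex N j i * ((im σ f i).natDegree : ℝ) := by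
      rw [sum_ex_mul]
      exact forms_lt hNpos hspos
    have h1 := log_det_lower (Finset.Ico 1 N) (ex N j) (im σ f) hFsep
      (fun i _ => ex_nonneg N j i) (fun i _ => ex_lt hNpos j i) hg (r := 1 / (N : ℝ))
      (by positivity) hFle hH0 hFcoef
    rw [← gram_eq_gw] at h1
    refine le_trans ?_ h1
    rw [neg_le_neg_iff]
    set g : ℕ := forms N j (im σ f) with hgdef
    set s : ℝ := ∑ i ∈ Finset.Ico 1 N, ex N j i with hs
    have hgn : (g : ℝ) ≤ n := by exact_mod_cast forms_le hNpos hFdeg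
    have hg0 : (0 : ℝ) ≤ g := by positivity
    have hs0 : 0 ≤ s := Finset.sum_nonneg fun i _ => ex_nonneg N j i
    have hs2 : s ≤ 2 * N := by
      calc s ≤ ∑ _i ∈ Finset.Ico 1 N, (2 : ℝ) := Finset.sum_le_sum fun i _ => (ex_lt hNpos j i).le
        _ = (N - 1 : ℕ) * 2 := by rw [Finset.sum_const, Nat.card_Ico, nsmul_eq_mul]
        _ ≤ 2 * N := by
          have : ((N - 1 : ℕ) : ℝ) ≤ N := by exact_mod_cast Nat.sub_le _ _
          linarith
    have hlam : -Real.log (1 / (N : ℝ) * lam0 g) ≤ Λ := by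
      refine (neg_le_abs _).trans ?_
      rw [hΛ]
      refine Finset.single_le_sum (f := fun g => |Real.log (1 / (N : ℝ) * lam0 g)|)
        (fun _ _ => abs_nonneg _) ?_
      rw [Finset.mem_range]
      exact Nat.lt_succ_of_le (forms_le hNpos hFdeg)
    have h2 : s * Real.log H + (s * Real.log (n + 1) - Real.log (1 / (N : ℝ) * lam0 g)) ≤
        2 * N * Real.log H + (2 * N * Real.log (n + 1) + Λ) := by
      have e1 : s * Real.log H ≤ 2 * N * Real.log H := by gcongr
      have e2 : s * Real.log (n + 1) ≤ 2 * N * Real.log (n + 1) := by gcongr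
      linarith
    have h3 : 0 ≤ 2 * N * Real.log H + (2 * N * Real.log (n + 1) + Λ) := by positivity
    calc (g : ℝ) * (s * Real.log H + (s * Real.log (n + 1) - Real.log (1 / (N : ℝ) * lam0 g)))
        ≤ g * (2 * N * Real.log H + (2 * N * Real.log (n + 1) + Λ)) := by gcongr
      _ ≤ n * (2 * N * Real.log H + (2 * N * Real.log (n + 1) + Λ)) := by gcongr
      _ = 2 * (n * N) * Real.log H + B := by rw [hB]; ring
  set T : ℝ := 2 * (n * N) * Real.log H + B with hT
  have hT0 : 0 ≤ T := by positivity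
  have hcardI : (((Finset.Ico 1 N).card : ℕ) : ℝ) ≤ N := by
    rw [Nat.card_Ico]
    exact_mod_cast Nat.sub_le _ _
  have hsum : (finrank ℚ K : ℝ) * (-(N * T)) ≤
      ∑ σ : K →+* ℂ, ∑ j ∈ Finset.Ico 1 N, Real.log ‖(gram N j (im σ f)).det‖ := by
    calc (finrank ℚ K : ℝ) * (-(N * T))
        ≤ (finrank ℚ K : ℝ) * (-(((Finset.Ico 1 N).card : ℕ) * T)) := by gcongr
      _ = ∑ _σ : K →+* ℂ, ∑ _j ∈ Finset.Ico 1 N, -T := by
          rw [Finset.sum_const, Finset.sum_const, Finset.card_univ, Embeddings.card,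
            nsmul_eq_mul, nsmul_eq_mul]
          ring
      _ ≤ _ := Finset.sum_le_sum fun σ _ => Finset.sum_le_sum fun j hj => hterm σ j hj
  unfold height
  have h5 : -(1 / (2 * (finrank ℚ K : ℝ))) * ∑ σ : K →+* ℂ, ∑ j ∈ Finset.Ico 1 N,
      Real.log ‖(gram N j (im σ f)).det‖ ≤
      -(1 / (2 * (finrank ℚ K : ℝ))) * ((finrank ℚ K : ℝ) * (-(N * T))) := by
    apply mul_le_mul_of_nonpos_left hsum
    rw [neg_nonpos]
    positivity
  refine h5.trans ?_
  have h6 : -(1 / (2 * (finrank ℚ K : ℝ))) * ((finrank ℚ K : ℝ) * (-(N * T))) = N * T / 2 := by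
    field_simp
  rw [h6, hT]
  linarith

end FreyCyc
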