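import Pool.Agent.Lib.MP_6babc4_nt.Cyc.Kum

/-!
# Module Tow: the tower of the descent

PROOF. Induction on `k`, for all `M`. `k = 0`: `F = E`, `b = a`, `A = 1` (`|discr E| ≥ 1`, `w ≥ 1`).
Step: `kummer_step` for `a` gives `E' ∋ x`; then `kummer_step` for `a - 1 ∈ E'` (the hypothesis for `E'`
follows from that for `E`: `ord P' (algebraMap c) = e ord P c` for `P = P' ∩ 𝓞 E`, `ord_algebraMap`
below, and `w ∈ P` iff `w ∈ P'`) gives `E'' ∋ x, y` with `x^q - y^q = a - (a - 1) = 1`, degree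
`≤ q² M`, discriminant polynomially bounded in `|discr E|` and `w` (with exponents and constants
depending on `M`, `q` only). `t = x/y`, `t^q = a/(a-1)`. `a₁ = stp ζ t` is `≠ 0, 1` (`stp_ne`, `t_ne`) and
satisfies the hypothesis of the induction with `w = q` (`stp_ord`). The chain from `a₁` to `b` in
`F ⊇ E''` gives the chain from `a` (with `t ∈ E'' → F`). The algebra `E → F` is the composition
(`RingHom.toAlgebra`). Constants: take `A` large.
-/

set_option autoImplicit false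

open Polynomial NumberField IsDedekindDomain Module

namespace FreyCyc

open FreySparse

private lemma tow_comap {E E' : Type} [Field E] [NumberField E] [Field E'] [NumberField E']
    [Algebra E E'] {v : HeightOneSpectrum (𝓞 E)} {P : HeightOneSpectrum (𝓞 E')}
    (h : Above v P) : P.asIdeal.comap (algebraMap (𝓞 E) (𝓞 E')) = v.asIdeal := by
  have := P.isPrime
  have h1 : v.asIdeal ≤ P.asIdeal.comap (algebraMap (𝓞 E) (𝓞 E')) := by
    unfold Above at h
    rwa [Ideal.dvd_iff_le, Ideal.map_le_iff_le_comap] at h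
  have h2 : P.asIdeal.comap (algebraMap (𝓞 E) (𝓞 E')) ≠ ⊤ :=
    (Ideal.comap_isPrime (algebraMap (𝓞 E) (𝓞 E')) P.asIdeal).ne_top
  exact (v.isMaximal.eq_of_le h2 h1).symm

/-- The order at a prime above. -/
theorem ord_algebraMap {E E' : Type} [Field E] [NumberField E] [Field E'] [NumberField E']
    [Algebra E E'] (P' : HeightOneSpectrum (𝓞 E')) :
    ∃ (P : HeightOneSpectrum (𝓞 E)) (e : ℕ), Above P P' ∧ 0 < e ∧
      ∀ c : E, ord P' (algebraMap E E' c) = e * ord P c := by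
  obtain ⟨P, hP⟩ := exists_below (K := E) P'
  have : P'.asIdeal.LiesOver P.asIdeal := ⟨(tow_comap hP).symm⟩
  have := P'.isPrime
  refine ⟨P, P.asIdeal.ramificationIdx' P'.asIdeal, hP, Nat.pos_of_ne_zero
    (Ideal.IsDedekindDomain.ramificationIdx'_ne_zero_of_liesOver P'.asIdeal P.ne_bot),
    fun c => ?_⟩
  unfold ord
  rw [← HeightOneSpectrum.valuation_liesOver E' P P' c, WithZero.log_pow, nsmul_eq_mul]
  ring

private lemma tow_one_le (E : Type) [Field E] [NumberField E] : (1 : ℝ) ≤ |(discr E : ℝ)| := by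
  have h : (1 : ℤ) ≤ |discr E| := Int.one_le_abs (discr_ne_zero E)
  exact_mod_cast h

private lemma tow_bound {q w N M : ℕ} (hq : 1 ≤ q) (hw : 1 ≤ w) (hNM : N ≤ M) {D D' : ℝ}
    (hD : 1 ≤ D) (h : D' ≤ (D * ((q : ℝ) * w) ^ N) ^ q) :
    D' ≤ (q * D * w) ^ ((M + 1) * q) := by
  have hq' : (1 : ℝ) ≤ q := by exact_mod_cast hq
  have hw' : (1 : ℝ) ≤ w := by exact_mod_cast hw
  have h1 : (1 : ℝ) ≤ (q : ℝ) * w := one_le_mul_of_one_le_of_one_le hq' hw'
  have h0 : (0 : ℝ) ≤ (q : ℝ) * w := by linarith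
  have h2 : (q : ℝ) * w ≤ q * D * w := by
    calc (q : ℝ) * w = q * w * 1 := by ring
      _ ≤ q * w * D := mul_le_mul_of_nonneg_left hD h0
      _ = q * D * w := by ring
  have h4 : D ≤ q * D * w := by
    calc D = D * 1 := by ring
      _ ≤ D * (q * w) := mul_le_mul_of_nonneg_left h1 (by linarith)
      _ = q * D * w := by ring
  refine h.trans ?_
  rw [pow_mul]
  refine pow_le_pow_left₀ (by positivity) ?_ q
  calc D * ((q : ℝ) * w) ^ N ≤ D * ((q : ℝ) * w) ^ M :=
        mul_le_mul_of_nonneg_left (pow_le_pow_right₀ h1 hNM) (by linarith)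
    _ ≤ (q * D * w) * (q * D * w) ^ M :=
        mul_le_mul h4 (pow_le_pow_left₀ h0 h2 M) (by positivity) (by positivity)
    _ = (q * D * w) ^ (M + 1) := by ring

private lemma tow_bound2 {q w : ℕ} (hq : 1 ≤ q) (hw : 1 ≤ w) {A B C : ℕ} (hA : 1 ≤ A)
    {D D' D2 D3 : ℝ} (hD : 1 ≤ D) (hD' : 0 ≤ D') (hD2 : 0 ≤ D2)
    (h1 : D' ≤ (q * D * w) ^ B) (h2 : D2 ≤ (q * D' * w) ^ C) (h3 : D3 ≤ (A * D2 * q) ^ A) :
    D3 ≤ ((A * q * ((B + 1) * C + 1) : ℕ) * D * w) ^ (A * q * ((B + 1) * C + 1)) := by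
  have hq' : (1 : ℝ) ≤ q := by exact_mod_cast hq
  have hw' : (1 : ℝ) ≤ w := by exact_mod_cast hw
  have hA' : (1 : ℝ) ≤ A := by exact_mod_cast hA
  have hX : (1 : ℝ) ≤ q * D * w :=
    one_le_mul_of_one_le_of_one_le (one_le_mul_of_one_le_of_one_le hq' hD) hw'
  have h4 : (q : ℝ) * D' * w ≤ (q * D * w) ^ (B + 1) := by
    calc (q : ℝ) * D' * w = (q * w) * D' := by ring
      _ ≤ (q * w) * (q * D * w) ^ B := mul_le_mul_of_nonneg_left h1 (by positivity)
      _ ≤ (q * D * w) * (q * D * w) ^ B := by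
          refine mul_le_mul_of_nonneg_right ?_ (by positivity)
          calc (q : ℝ) * w = q * w * 1 := by ring
            _ ≤ q * w * D := mul_le_mul_of_nonneg_left hD (by positivity)
            _ = q * D * w := by ring
      _ = (q * D * w) ^ (B + 1) := by ring
  have h5 : D2 ≤ (q * D * w) ^ ((B + 1) * C) := by
    refine h2.trans ?_
    rw [pow_mul]
    exact pow_le_pow_left₀ (by positivity) h4 C
  have hY : (1 : ℝ) ≤ A * q * D * w :=
    one_le_mul_of_one_le_of_one_le (one_le_mul_of_one_le_of_one_le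
      (one_le_mul_of_one_le_of_one_le hA' hq') hD) hw'
  have h6 : (A : ℝ) * D2 * q ≤ (A * q * D * w) ^ ((B + 1) * C + 1) := by
    calc (A : ℝ) * D2 * q = (A * q) * D2 := by ring
      _ ≤ (A * q) * (q * D * w) ^ ((B + 1) * C) := mul_le_mul_of_nonneg_left h5 (by positivity)
      _ ≤ (A * q * D * w) * (A * q * D * w) ^ ((B + 1) * C) := by
          refine mul_le_mul ?_ (pow_le_pow_left₀ (by positivity) ?_ _) (by positivity)
            (by positivity)
          · calc (A : ℝ) * q = A * q * 1 := by ring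
              _ ≤ A * q * (D * w) := mul_le_mul_of_nonneg_left
                  (one_le_mul_of_one_le_of_one_le hD hw') (by positivity)
              _ = A * q * D * w := by ring
          · calc (q : ℝ) * D * w = 1 * (q * D * w) := by ring
              _ ≤ A * (q * D * w) := mul_le_mul_of_nonneg_right hA' (by positivity)
              _ = A * q * D * w := by ring
      _ = (A * q * D * w) ^ ((B + 1) * C + 1) := by ring
  have hE : (1 : ℝ) ≤ (((B + 1) * C + 1 : ℕ) : ℝ) := by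
    exact_mod_cast Nat.le_add_left 1 _
  have h7 : (A * q * D * w : ℝ) ≤ ((A * q * ((B + 1) * C + 1) : ℕ) * D * w : ℝ) := by
    rw [Nat.cast_mul (A * q), Nat.cast_mul A q]
    calc (A * q * D * w : ℝ) = (A * q * D * w) * 1 := by ring
      _ ≤ (A * q * D * w) * (((B + 1) * C + 1 : ℕ) : ℝ) :=
          mul_le_mul_of_nonneg_left hE (by positivity)
      _ = (A : ℝ) * q * (((B + 1) * C + 1 : ℕ) : ℝ) * D * w := by ring
  calc D3 ≤ (A * D2 * q) ^ A := h3
    _ ≤ ((A * q * D * w) ^ ((B + 1) * C + 1)) ^ A := pow_le_pow_left₀ (by positivity) h6 A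
    _ = (A * q * D * w) ^ (A * ((B + 1) * C + 1)) := by rw [← pow_mul, mul_comm A]
    _ ≤ (A * q * D * w) ^ (A * q * ((B + 1) * C + 1)) :=
        pow_le_pow_right₀ hY (Nat.mul_le_mul_right _ (Nat.le_mul_of_pos_right A hq))
    _ ≤ _ := pow_le_pow_left₀ (by positivity) h7 _

private lemma tow_stp {E F : Type} [Field E] [Field F] (φ : E →+* F) (ζ t : E) :
    φ (stp ζ t) = stp (φ ζ) (φ t) := by
  unfold stp
  simp only [map_div₀, map_mul, map_sub, map_add, map_one]

private lemma tow_trans {E E' : Type} [Field E] [NumberField E] [Field E'] [NumberField E']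
    [Algebra E E'] {q w : ℕ} {c : E}
    (h : ∀ P : HeightOneSpectrum (𝓞 E), (w : 𝓞 E) ∉ P.asIdeal → (q : ℤ) ∣ ord P c)
    (P' : HeightOneSpectrum (𝓞 E')) (hP' : (w : 𝓞 E') ∉ P'.asIdeal) :
    (q : ℤ) ∣ ord P' (algebraMap E E' c) := by
  obtain ⟨P, e, hab, -, he⟩ := ord_algebraMap (E := E) P'
  rw [he]
  refine Dvd.dvd.mul_left (h P fun hw => hP' ?_) _
  have h1 := (mem_iff_of_above hab (w : 𝓞 E)).mpr hw
  rwa [map_natCast] at h1

theorem tower {q : ℕ} (h3 : 3 ≤ q) (k : ℕ) : ∀ M : ℕ, ∃ A : ℕ, 1 ≤ A ∧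
    ∀ (E : Type) [Field E] [NumberField E], finrank ℚ E ≤ M → ∀ ζ : E, IsPrimitiveRoot ζ q →
      ∀ a : E, a ≠ 0 → a ≠ 1 → ∀ w : ℕ, w ≠ 0 → q ∣ w →
        (∀ P : HeightOneSpectrum (𝓞 E), (w : 𝓞 E) ∉ P.asIdeal →
          (q : ℤ) ∣ ord P a ∧ (q : ℤ) ∣ ord P (a - 1)) →
        ∃ (F : Type) (_ : Field F) (_ : NumberField F) (_ : Algebra E F) (b : F),
          Chain q (algebraMap E F ζ) k (algebraMap E F a) b ∧
          finrank ℚ F ≤ M * q ^ (2 * k) ∧
          |(discr F : ℝ)| ≤ (A * |(discr E : ℝ)| * w) ^ A := by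
  induction k with
  | zero =>
    intro M
    refine ⟨1, le_rfl, ?_⟩
    intro E _ _ hM ζ hζ a ha0 ha1 w hw hqw h
    refine ⟨E, inferInstance, inferInstance, Algebra.id E, a, rfl, by simpa using hM, ?_⟩
    have h1 : (1 : ℝ) ≤ w := by exact_mod_cast Nat.one_le_iff_ne_zero.mpr hw
    rw [pow_one, Nat.cast_one, one_mul]
    exact le_mul_of_one_le_right (abs_nonneg _) h1
  | succ k ih =>
    intro M
    obtain ⟨A, hA, hF⟩ := ih (q * (q * M))
    have hq1 : 1 ≤ q := by omega
    refine ⟨A * q * (((M + 1) * q + 1) * ((q * M + 1) * q) + 1),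
      Nat.one_le_iff_ne_zero.mpr (by positivity), ?_⟩
    intro E _ _ hM ζ hζ a ha0 ha1 w hw hqw h
    have hw1 : 1 ≤ w := Nat.one_le_iff_ne_zero.mpr hw
    obtain ⟨E', _, _, _, x, hx, hdeg', hD'⟩ := kummer_step (by omega) hζ ha0 hw hqw
      (fun P hP => (h P hP).1)
    have hζ' := hζ.map_of_injective (algebraMap E E').injective
    have ha1' : algebraMap E E' (a - 1) ≠ 0 := by
      rw [ne_eq, map_eq_zero]
      exact sub_ne_zero.mpr ha1
    obtain ⟨E2, _, _, _, y, hy, hdeg2, hD2⟩ := kummer_step (by omega) hζ' ha1' hw hqw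
      (tow_trans (fun P hP => (h P hP).2))
    have hζ2 := hζ'.map_of_injective (algebraMap E' E2).injective
    have hM' : finrank ℚ E' ≤ q * M := hdeg'.trans (Nat.mul_le_mul_left q hM)
    have hM2 : finrank ℚ E2 ≤ q * (q * M) := hdeg2.trans (Nat.mul_le_mul_left q hM')
    have hD'b := tow_bound hq1 hw1 hM (tow_one_le E) hD'
    have hD2b := tow_bound hq1 hw1 hM' (tow_one_le E') hD2
    set φ : E →+* E2 := (algebraMap E' E2).comp (algebraMap E E') with hφ
    have hxq : (algebraMap E' E2 x) ^ q = φ a := by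
      rw [← map_pow, hx]
      rfl
    have hyq : y ^ q = φ (a - 1) := hy
    have hx0 : algebraMap E' E2 x ≠ 0 := by
      intro h0
      rw [h0, zero_pow (by omega)] at hxq
      exact ha0 ((map_eq_zero φ).mp hxq.symm)
    have hy0 : y ≠ 0 := by
      intro h0
      rw [h0, zero_pow (by omega)] at hyq
      exact ha1 (sub_eq_zero.mp ((map_eq_zero φ).mp hyq.symm))
    have hxy : (algebraMap E' E2 x) ^ q - y ^ q = 1 := by
      rw [hxq, hyq, map_sub, map_one]
      ring
    have ht : (algebraMap E' E2 x / y) ^ q = φ a / (φ a - 1) := by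
      rw [div_pow, hxq, hyq, map_sub, map_one]
    have hφ1 : φ a ≠ 1 := by
      intro h0
      exact ha1 (φ.injective (h0.trans (map_one φ).symm))
    have hφ0 : φ a ≠ 0 := (map_ne_zero φ).mpr ha0
    have hne := stp_ne h3 hζ2 (t_ne hζ2 hφ1 ht)
    obtain ⟨F, iF, iN, iA, b, hch, hdegF, hDF⟩ := hF E2 hM2 _ hζ2 _ hne.1 hne.2 q (by omega)
      (dvd_refl q) (fun P hP => stp_ord h3 hζ2 P hP hx0 hy0 hxy)
    refine ⟨F, iF, iN, ((algebraMap E2 F).comp φ).toAlgebra, b, ?_, ?_, ?_⟩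
    · refine ⟨algebraMap E2 F (algebraMap E' E2 x / y), ?_, ?_, ?_, ?_⟩
      · exact (map_ne_zero ((algebraMap E2 F).comp φ)).mpr ha0
      · intro h0
        exact ha1 (((algebraMap E2 F).comp φ).injective (h0.trans (map_one _).symm))
      · rw [← map_pow, ht, map_div₀, map_sub, map_one]
        rfl
      · rw [tow_stp] at hch
        exact hch
    · refine hdegF.trans (le_of_eq ?_)
      ring
    · exact tow_bound2 hq1 hw1 hA (tow_one_le E) (abs_nonneg _) (abs_nonneg _) hD'b hD2b hDF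

end FreyCyc
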