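import Pool.Agent.Lib.MP_6babc4_nt.Cyc.Tow
import Pool.Agent.Lib.MP_6babc4_nt.Sp.Fin

/-!
# Module Base: the splitting field with the roots of unity, and the cross ratios

PROOFS.
* `dt_ne`: distinct points have `dt ≠ 0`. `cr_sub_one`: the Plücker relation
  `dt a b dt c d - dt a c dt b d + dt a d dt b c = 0`, so `cr a b c d - 1 = - cr a d c b`.
* `bad_finite`: `ramified_finite` (Sp/Fin); for the second condition: the set `bp` is finite (roots of
  a nonzero polynomial, and infinity), so there are finitely many cross ratios, each is a nonzero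
  element of the splitting field, and for `x ≠ 0` the set `{P | ord P x ≠ 0}` is finite (divisors of
  numerator and denominator); the `v` below are finitely many (`fin_of_above` in Sp/Fin, private:
  copy it).
* `cond_pos`, `cond_mem`: as `cond_pos`, `dvd_cond` in Sp/Fin; `N(v) ∈ v` (`Ideal.absNorm_mem`).
* `base`: `L = Spl (tot N f)`, Galois over `K` of degree `≤ n!`, ramified only at the divisors of
  `N cond` (a ramified `v` contains `N` or is bad): `discr_galois`. `E = CyclotomicField q L`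
  (number field; Galois over `L` of degree `≤ q`; unramified outside `q`: `kummer_unram` with `b = 1`,
  `x = ζ`), `discr_galois` again. For a cross ratio `x`: `x ≠ 0` (`dt_ne`), `x ≠ 1` (`cr_sub_one`), and
  for `P ∌ N q cond` of `E`, `P₀` below in `L`, `v` below in `K`: `N ∉ v` and `v` is not bad
  (`cond_mem`), so `q ∣ ord P₀ (cr ...)` for all the cross ratios; `ord_algebraMap`.
-/

set_option autoImplicit false

open Polynomial NumberField IsDedekindDomain Module

namespace FreyCyc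

open FreySparse

section points

variable {F : Type*} [Field F]

theorem dt_ne {a b : OnePoint F} (h : a ≠ b) : dt a b ≠ 0 := by
  induction a using OnePoint.rec with
  | infty =>
    induction b using OnePoint.rec with
    | infty => exact absurd rfl h
    | coe y =>
      change (1 : F) * 1 - 0 * y ≠ 0
      rw [one_mul, zero_mul, sub_zero]
      exact one_ne_zero
  | coe x =>
    induction b using OnePoint.rec with
    | infty =>
      change x * 0 - 1 * (1 : F) ≠ 0
      rw [mul_zero, one_mul, zero_sub]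
      exact neg_ne_zero.mpr one_ne_zero
    | coe y =>
      change x * 1 - 1 * y ≠ 0
      rw [mul_one, one_mul]
      exact sub_ne_zero.mpr fun hxy => h (congrArg _ hxy)

theorem cr_sub_one {a b c d : OnePoint F} (hac : a ≠ c) (hbd : b ≠ d) :
    cr a b c d - 1 = - cr a d c b := by
  have h1 := dt_ne hac
  have h2 := dt_ne hbd
  have h3 : dt d b = -dt b d := by unfold dt; ring
  have h4 : dt a b * dt c d - dt a c * dt b d = dt a d * dt c b := by unfold dt; ring
  unfold cr
  rw [h3, mul_neg, div_neg, neg_neg, ← h4, sub_div, div_self (mul_ne_zero h1 h2)]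

end points

variable {K : Type} [Field K] [NumberField K]

private lemma base_above {L : Type} [Field L] [NumberField L] [Algebra K L]
    {S : Set (HeightOneSpectrum (𝓞 K))} {T : Set (HeightOneSpectrum (𝓞 L))} (hT : T.Finite)
    (h : ∀ v ∈ S, ∃ P ∈ T, Above v P) : S.Finite := by
  classical
  choose b hb using fun P : HeightOneSpectrum (𝓞 L) => exists_below (K := K) P
  refine (hT.image b).subset fun v hv => ?_
  obtain ⟨P, hP, hvP⟩ := h v hv
  exact ⟨P, hP, (below_unique hvP (hb P)).symm⟩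

private lemma base_ord {L : Type} [Field L] [NumberField L] {x : L} (hx : x ≠ 0) :
    {P : HeightOneSpectrum (𝓞 L) | ord P x ≠ 0}.Finite := by
  obtain ⟨r, s, hs, rfl⟩ := IsFractionRing.div_surjective (A := 𝓞 L) x
  have hs0 : s ≠ 0 := nonZeroDivisors.ne_zero hs
  have hinj : Function.Injective (algebraMap (𝓞 L) L) := FaithfulSMul.algebraMap_injective _ _
  have hs' : algebraMap (𝓞 L) L s ≠ 0 := (map_ne_zero_iff _ hinj).mpr hs0
  have hr' : algebraMap (𝓞 L) L r ≠ 0 := fun h => hx (by rw [h, zero_div])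
  have hr0 : r ≠ 0 := (map_ne_zero_iff _ hinj).mp hr'
  have h0 : Ideal.span {r * s} ≠ (0 : Ideal (𝓞 L)) := by
    rw [Ne, Ideal.zero_eq_bot, Ideal.span_singleton_eq_bot]
    exact mul_ne_zero hr0 hs0
  refine (Ideal.finite_factors h0).subset fun P hP => ?_
  rw [Set.mem_ofPred_eq] at hP ⊢
  rw [Ideal.dvd_span_singleton]
  by_contra hn
  have hr1 : r ∉ P.asIdeal := fun h => hn (P.asIdeal.mul_mem_right s h)
  have hs1 : s ∉ P.asIdeal := fun h => hn (P.asIdeal.mul_mem_left r h)
  apply hP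
  have h1 : ord P (algebraMap (𝓞 L) L r) = 0 := by
    have h2 := ord_nonneg P r
    have h3 := (ord_pos_iff P hr0).not.mpr hr1
    omega
  have h2 : ord P (algebraMap (𝓞 L) L s) = 0 := by
    have h2 := ord_nonneg P s
    have h3 := (ord_pos_iff P hs0).not.mpr hs1
    omega
  have h3 := ord_mul P (x := algebraMap (𝓞 L) L r / algebraMap (𝓞 L) L s) (div_ne_zero hr' hs') hs'
  rw [div_mul_cancel₀ _ hs', h1, h2] at h3
  omega

private lemma base_bp (N : ℕ) {f : ℕ → (𝓞 K)[X]}
    (hf : ((tot N f).map (algebraMap (𝓞 K) K)).Separable) : (bp N f).Finite := by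
  have h0 : tot N f ≠ 0 := by
    intro h
    rw [h, Polynomial.map_zero] at hf
    exact not_separable_zero hf
  refine (((rts_finite (tot N f) h0).image
    (fun x : Spl (tot N f) => (x : OnePoint (Spl (tot N f))))).union
    (Set.finite_singleton OnePoint.infty)).subset fun z hz => ?_
  rcases hz with ⟨x, hx, rfl⟩ | ⟨rfl, -⟩
  · exact Or.inl ⟨x, hx, rfl⟩
  · exact Or.inr rfl

private lemma base_cr_ne {F : Type} [Field F] {a b c d : OnePoint F} (hab : a ≠ b) (hac : a ≠ c)
    (hbd : b ≠ d) (hcd : c ≠ d) : cr a b c d ≠ 0 :=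
  div_ne_zero (mul_ne_zero (dt_ne hab) (dt_ne hcd)) (mul_ne_zero (dt_ne hac) (dt_ne hbd))

theorem bad_finite (N q : ℕ) {f : ℕ → (𝓞 K)[X]}
    (hf : ((tot N f).map (algebraMap (𝓞 K) K)).Separable) :
    {v : HeightOneSpectrum (𝓞 K) | Bad N q f v}.Finite := by
  have hbp := base_bp N hf
  have hfin : (⋃ a ∈ bp N f, ⋃ b ∈ bp N f, ⋃ c ∈ bp N f, ⋃ d ∈ bp N f,
      {P : HeightOneSpectrum (𝓞 (Spl (tot N f))) | cr a b c d ≠ 0 ∧
        ord P (cr a b c d) ≠ 0}).Finite := by
    refine hbp.biUnion fun a _ => hbp.biUnion fun b _ => hbp.biUnion fun c _ =>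
      hbp.biUnion fun d _ => ?_
    by_cases h : cr a b c d ≠ 0
    · exact (base_ord h).subset fun P hP => hP.2
    · exact Set.finite_empty.subset fun P hP => (h hP.1).elim
  have h2 : {v : HeightOneSpectrum (𝓞 K) | ∃ P : HeightOneSpectrum (𝓞 (Spl (tot N f))),
      Above v P ∧ ∃ a ∈ bp N f, ∃ b ∈ bp N f, ∃ c ∈ bp N f, ∃ d ∈ bp N f,
        a ≠ b ∧ a ≠ c ∧ a ≠ d ∧ b ≠ c ∧ b ≠ d ∧ c ≠ d ∧
          ¬ (q : ℤ) ∣ ord P (cr a b c d)}.Finite := by
    refine base_above hfin fun v hv => ?_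
    obtain ⟨P, hP, a, ha, b, hb, c, hc, d, hd, hab, hac, had, hbc, hbd, hcd, ho⟩ := hv
    refine ⟨P, ?_, hP⟩
    simp only [Set.mem_iUnion]
    refine ⟨a, ha, b, hb, c, hc, d, hd, base_cr_ne hab hac hbd hcd, fun h => ho ?_⟩
    rw [h]
    exact dvd_zero _
  refine ((ramified_finite (tot N f)).union h2).subset fun v hv => ?_
  exact hv.2

private lemma base_norm_pos (v : HeightOneSpectrum (𝓞 K)) : 1 ≤ Ideal.absNorm v.asIdeal := by
  rw [Nat.one_le_iff_ne_zero, Ne, Ideal.absNorm_eq_zero_iff]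
  exact v.ne_bot

theorem cond_pos (N q : ℕ) (f : ℕ → (𝓞 K)[X]) : 1 ≤ cond N q f := by
  refine finprod_induction (fun n : ℕ => 1 ≤ n) le_rfl
    (fun a b ha hb => Nat.one_le_iff_ne_zero.mpr (Nat.mul_ne_zero (by omega) (by omega)))
    fun v => finprod_induction (fun n : ℕ => 1 ≤ n) le_rfl
    (fun a b ha hb => Nat.one_le_iff_ne_zero.mpr (Nat.mul_ne_zero (by omega) (by omega)))
    fun _ => base_norm_pos v

theorem cond_mem (N q : ℕ) {f : ℕ → (𝓞 K)[X]}
    (hf : ((tot N f).map (algebraMap (𝓞 K) K)).Separable) {v : HeightOneSpectrum (𝓞 K)}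
    (hv : Bad N q f v) : (cond N q f : 𝓞 K) ∈ v.asIdeal := by
  have h1 : cond N q f = ∏ v ∈ (bad_finite N q hf).toFinset, Ideal.absNorm v.asIdeal :=
    finprod_mem_eq_finite_toFinset_prod (fun v : HeightOneSpectrum (𝓞 K) =>
      Ideal.absNorm v.asIdeal) (bad_finite N q hf)
  have h2 : Ideal.absNorm v.asIdeal ∣ cond N q f := by
    rw [h1]
    exact Finset.dvd_prod_of_mem (fun v : HeightOneSpectrum (𝓞 K) => Ideal.absNorm v.asIdeal)
      ((bad_finite N q hf).mem_toFinset.mpr hv)
  obtain ⟨t, ht⟩ := h2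
  rw [ht, Nat.cast_mul]
  exact v.asIdeal.mul_mem_right _ (Ideal.absNorm_mem v.asIdeal)

private lemma base_finrank {K : Type} [Field K] (p : K[X]) (hp : p.Separable) :
    finrank K p.SplittingField ≤ p.natDegree.factorial := by
  classical
  have : Fact ((p.map (algebraMap K p.SplittingField)).Splits) := ⟨SplittingField.splits p⟩
  rw [← Gal.card_of_separable hp]
  have h1 : Nat.card p.Gal ≤ Nat.card (Equiv.Perm (p.rootSet p.SplittingField)) :=
    Nat.card_le_card_of_injective _ (Gal.galActionHom_injective p p.SplittingField)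
  refine h1.trans ?_
  rw [Nat.card_eq_fintype_card, Fintype.card_perm,
    card_rootSet_eq_natDegree hp (SplittingField.splits p)]

private lemma base_disc (K : Type) [Field K] [NumberField K] (n N q : ℕ) (hN : N ≠ 0)
    (f : ℕ → (𝓞 K)[X]) (hn : (tot N f).natDegree = n)
    (hf : ((tot N f).map (algebraMap (𝓞 K) K)).Separable) :
    |(discr (Spl (tot N f)) : ℝ)| ≤
      (|(discr K : ℝ)| * ((n.factorial : ℝ) * (N * cond N q f : ℕ)) ^ finrank ℚ K) ^
        n.factorial := by
  have hgal : IsGalois K (Spl (tot N f)) := IsGalois.of_separable_splitting_field hf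
  have hw : N * cond N q f ≠ 0 :=
    Nat.mul_ne_zero hN (Nat.one_le_iff_ne_zero.mp (cond_pos N q f))
  have hdeg : ((tot N f).map (algebraMap (𝓞 K) K)).natDegree = n := by
    rw [natDegree_map_eq_of_injective (FaithfulSMul.algebraMap_injective (𝓞 K) K), hn]
  have hm : finrank K (Spl (tot N f)) ≤ n.factorial := by
    have h := base_finrank _ hf
    rwa [hdeg] at h
  refine discr_galois hw hm fun P P' hPP' => ?_
  by_cases hNP : (N : 𝓞 K) ∈ P.asIdeal
  · rw [Nat.cast_mul]
    exact P.asIdeal.mul_mem_right _ hNP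
  · rw [Nat.cast_mul]
    exact P.asIdeal.mul_mem_left _ (cond_mem N q hf ⟨hNP, Or.inl ⟨P', hPP'⟩⟩)

private lemma base_cyc (L : Type) [Field L] [NumberField L] (q : ℕ) (hq : 0 < q) :
    ∃ (E : Type) (_ : Field E) (_ : NumberField E) (_ : Algebra L E) (ζ : E),
      IsPrimitiveRoot ζ q ∧ finrank L E ≤ q ∧
      |(discr E : ℝ)| ≤ (|(discr L : ℝ)| * ((q : ℝ) * q) ^ finrank ℚ L) ^ q := by
  have : NeZero q := ⟨hq.ne'⟩
  obtain ⟨ζ, hζ⟩ := (CyclotomicField.isCyclotomicExtension q L).exists_isPrimitiveRoot rfl hq.ne'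
  have hgal : IsGalois L (CyclotomicField q L) :=
    IsCyclotomicExtension.isGalois {q} L (CyclotomicField q L)
  have htop : IntermediateField.adjoin L {ζ} = ⊤ := by
    have h1 := IsCyclotomicExtension.adjoin_primitive_root_eq_top (A := L) hζ
    rw [← IntermediateField.toSubalgebra_injective.eq_iff, IntermediateField.top_toSubalgebra,
      eq_top_iff, ← h1]
    exact IntermediateField.algebra_adjoin_le_adjoin L {ζ}
  have hfin : finrank L (CyclotomicField q L) ≤ q := by
    have h1 : finrank L (IntermediateField.adjoin L {ζ}) ≤ q := by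
      rw [IntermediateField.adjoin.finrank (hζ.isIntegral hq).tower_top]
      have h2 : (X ^ q - 1 : L[X]) ≠ 0 := X_pow_sub_C_ne_zero hq 1
      have h3 : minpoly L ζ ∣ X ^ q - 1 := minpoly.dvd L ζ (by
        rw [map_sub, map_pow, aeval_X, map_one, hζ.pow_eq_one, sub_self])
      refine (natDegree_le_of_dvd h3 h2).trans ?_
      exact (natDegree_X_pow_sub_C (n := q) (r := (1 : L))).le
    rw [htop, IntermediateField.finrank_top'] at h1
    exact h1
  refine ⟨CyclotomicField q L, inferInstance, inferInstance, inferInstance, ζ, hζ, hfin, ?_⟩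
  refine discr_galois hq.ne' hfin fun P P' hPP' => ?_
  by_contra hP
  refine kummer_unram hq htop one_ne_zero (by rw [hζ.pow_eq_one, map_one]) P hP ?_ P' hPP'
  rw [ord_one]
  exact dvd_zero _

private lemma base_const {D c Dl De : ℝ} {d F N q l : ℕ} (hF : 1 ≤ F) (hN : 1 ≤ N) (hq : 1 ≤ q)
    (hD : 1 ≤ D) (hc : 1 ≤ c) (hl : l ≤ F * d) (h0 : 0 ≤ Dl)
    (h1 : Dl ≤ (D * ((F : ℝ) * (N * c)) ^ d) ^ F)
    (h2 : De ≤ (Dl * ((q : ℝ) * q) ^ l) ^ q) :
    De ≤ (((F * N * q + (((1 + d) * F + 2 * (F * d)) * q) + q * (F * d) : ℕ) : ℝ) * (D * c)) ^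
      (F * N * q + (((1 + d) * F + 2 * (F * d)) * q) + q * (F * d)) := by
  have hF' : (1 : ℝ) ≤ F := by exact_mod_cast hF
  have hN' : (1 : ℝ) ≤ N := by exact_mod_cast hN
  have hq' : (1 : ℝ) ≤ q := by exact_mod_cast hq
  set Y : ℝ := F * N * q * (D * c) with hY
  have hDc : 1 ≤ D * c := one_le_mul_of_one_le_of_one_le hD hc
  have hC : (1 : ℝ) ≤ F * N * q :=
    one_le_mul_of_one_le_of_one_le (one_le_mul_of_one_le_of_one_le hF' hN') hq'
  have hY1 : 1 ≤ Y := one_le_mul_of_one_le_of_one_le hC hDc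
  have hYD : D ≤ Y := by
    calc D = 1 * (D * 1) := by ring
      _ ≤ (F * N * q) * (D * c) := by
          refine mul_le_mul hC (mul_le_mul_of_nonneg_left hc (by positivity)) (by positivity)
            (by positivity)
  have hYF : (F : ℝ) * (N * c) ≤ Y := by
    calc (F : ℝ) * (N * c) = (F * N) * c * 1 := by ring
      _ ≤ (F * N) * c * (q * D) := mul_le_mul_of_nonneg_left
          (one_le_mul_of_one_le_of_one_le hq' hD) (by positivity)
      _ = Y := by rw [hY]; ring
  have hYq : (q : ℝ) ≤ Y := by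
    calc (q : ℝ) = q * 1 := by ring
      _ ≤ q * ((F * N) * (D * c)) := mul_le_mul_of_nonneg_left
          (one_le_mul_of_one_le_of_one_le (one_le_mul_of_one_le_of_one_le hF' hN') hDc)
          (by positivity)
      _ = Y := by rw [hY]; ring
  have h3 : Dl ≤ Y ^ ((1 + d) * F) := by
    refine h1.trans ?_
    rw [pow_mul]
    refine pow_le_pow_left₀ (by positivity) ?_ F
    rw [pow_add, pow_one]
    exact mul_le_mul hYD (pow_le_pow_left₀ (by positivity) hYF d) (by positivity) (by positivity)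
  have h4 : ((q : ℝ) * q) ^ l ≤ Y ^ (2 * (F * d)) := by
    calc ((q : ℝ) * q) ^ l ≤ ((q : ℝ) * q) ^ (F * d) :=
          pow_le_pow_right₀ (one_le_mul_of_one_le_of_one_le hq' hq') hl
      _ ≤ (Y * Y) ^ (F * d) := pow_le_pow_left₀ (by positivity)
          (mul_le_mul hYq hYq (by positivity) (by positivity)) _
      _ = Y ^ (2 * (F * d)) := by rw [pow_mul]; ring
  have h5 : De ≤ Y ^ (((1 + d) * F + 2 * (F * d)) * q) := by
    refine h2.trans ?_
    rw [pow_mul]
    refine pow_le_pow_left₀ (by positivity) ?_ q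
    rw [pow_add]
    exact mul_le_mul h3 h4 (by positivity) (by positivity)
  refine h5.trans ?_
  have h6 : Y ≤ ((F * N * q + (((1 + d) * F + 2 * (F * d)) * q) + q * (F * d) : ℕ) : ℝ) *
      (D * c) := by
    rw [hY]
    refine mul_le_mul_of_nonneg_right ?_ (by positivity)
    have : F * N * q ≤ F * N * q + (((1 + d) * F + 2 * (F * d)) * q) + q * (F * d) := by omega
    exact_mod_cast this
  calc Y ^ (((1 + d) * F + 2 * (F * d)) * q) ≤
        Y ^ (F * N * q + (((1 + d) * F + 2 * (F * d)) * q) + q * (F * d)) :=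
        pow_le_pow_right₀ hY1 (by omega)
    _ ≤ _ := pow_le_pow_left₀ (by positivity) h6 _

omit [NumberField K] in
theorem base (d n N q : ℕ) (hN : N ≠ 0) (h3 : 3 ≤ q) : ∃ A : ℕ, 1 ≤ A ∧
    ∀ (K : Type) [Field K] [NumberField K], finrank ℚ K = d → ∀ f : ℕ → (𝓞 K)[X],
      (tot N f).natDegree = n → ((tot N f).map (algebraMap (𝓞 K) K)).Separable →
        ∃ (E : Type) (_ : Field E) (_ : NumberField E) (_ : Algebra (Spl (tot N f)) E) (ζ : E),
          IsPrimitiveRoot ζ q ∧ finrank ℚ E ≤ A ∧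
          |(discr E : ℝ)| ≤ (A * (|(discr K : ℝ)| * cond N q f)) ^ A ∧
          ∀ a ∈ bp N f, ∀ b ∈ bp N f, ∀ c ∈ bp N f, ∀ e ∈ bp N f,
            a ≠ b → a ≠ c → a ≠ e → b ≠ c → b ≠ e → c ≠ e →
            algebraMap (Spl (tot N f)) E (cr a b c e) ≠ 0 ∧
            algebraMap (Spl (tot N f)) E (cr a b c e) ≠ 1 ∧
            ∀ P : HeightOneSpectrum (𝓞 E), ((N * q * cond N q f : ℕ) : 𝓞 E) ∉ P.asIdeal →
              (q : ℤ) ∣ ord P (algebraMap (Spl (tot N f)) E (cr a b c e)) ∧
              (q : ℤ) ∣ ord P (algebraMap (Spl (tot N f)) E (cr a b c e) - 1) := by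
  have hF : 1 ≤ n.factorial := Nat.succ_le_of_lt n.factorial_pos
  refine ⟨n.factorial * N * q + (((1 + d) * n.factorial + 2 * (n.factorial * d)) * q) +
    q * (n.factorial * d), ?_, ?_⟩
  · have h1 : 1 ≤ n.factorial * N * q :=
      Nat.one_le_iff_ne_zero.mpr (by positivity)
    omega
  intro K _ _ hK f hn hf
  obtain ⟨E, iF, iN, iA, ζ, hζ, hfin, hdisc⟩ := base_cyc (Spl (tot N f)) q (by omega)
  have hdeg : ((tot N f).map (algebraMap (𝓞 K) K)).natDegree = n := by
    rw [natDegree_map_eq_of_injective (FaithfulSMul.algebraMap_injective (𝓞 K) K), hn]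
  have hm : finrank K (Spl (tot N f)) ≤ n.factorial := by
    have h := base_finrank _ hf
    rwa [hdeg] at h
  have hL : finrank ℚ (Spl (tot N f)) ≤ n.factorial * d := by
    rw [← finrank_mul_finrank ℚ K (Spl (tot N f)), hK, mul_comm]
    exact Nat.mul_le_mul_right d hm
  refine ⟨E, iF, iN, iA, ζ, hζ, ?_, ?_, ?_⟩
  · have h1 : finrank ℚ E ≤ q * (n.factorial * d) := by
      rw [← finrank_mul_finrank ℚ (Spl (tot N f)) E, mul_comm]
      exact Nat.mul_le_mul hfin hL
    omega
  · have h1 := base_disc K n N q hN f hn hf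
    rw [hK, Nat.cast_mul] at h1
    have h2 : (1 : ℝ) ≤ |(discr K : ℝ)| := by
      have h : (1 : ℤ) ≤ |discr K| := Int.one_le_abs (discr_ne_zero K)
      exact_mod_cast h
    have h4 : (1 : ℝ) ≤ (cond N q f : ℝ) := by exact_mod_cast cond_pos N q f
    exact base_const hF (Nat.one_le_iff_ne_zero.mpr hN) (by omega) h2 h4 hL (abs_nonneg _) h1 hdisc
  · intro a ha b hb c hc e he hab hac hae hbc hbe hce
    have h0 := base_cr_ne hab hac hbe hce
    have h1 : cr a b c e ≠ 1 := by
      intro h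
      have h5 := cr_sub_one (a := a) (b := b) hac hbe
      rw [h, sub_self] at h5
      exact base_cr_ne hae hac hbe.symm hbc.symm (neg_eq_zero.mp h5.symm)
    refine ⟨(_root_.map_ne_zero _).mpr h0, fun h => h1 ((algebraMap (Spl (tot N f)) E).injective
      (h.trans (map_one _).symm)), fun P hP => ?_⟩
    obtain ⟨P₀, r, hab0, -, hr⟩ := ord_algebraMap (E := Spl (tot N f)) P
    obtain ⟨v, hv⟩ := exists_below (K := K) P₀
    have hmem : ∀ m : ℕ, m ∣ N * q * cond N q f → (m : 𝓞 K) ∉ v.asIdeal := by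
      intro m hm hmv
      apply hP
      have h5 := (mem_iff_of_above hv (m : 𝓞 K)).mpr hmv
      rw [map_natCast] at h5
      have h6 := (mem_iff_of_above hab0 (m : 𝓞 (Spl (tot N f)))).mpr h5
      rw [map_natCast] at h6
      obtain ⟨t, ht⟩ := hm
      rw [ht, Nat.cast_mul]
      exact P.asIdeal.mul_mem_right _ h6
    have hNv : (N : 𝓞 K) ∉ v.asIdeal := hmem N ⟨q * cond N q f, by ring⟩
    have hgood : ¬ Bad N q f v := fun h =>
      hmem (cond N q f) ⟨N * q, by ring⟩ (cond_mem N q hf h)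
    have hord : ∀ a ∈ bp N f, ∀ b ∈ bp N f, ∀ c ∈ bp N f, ∀ e ∈ bp N f,
        a ≠ b → a ≠ c → a ≠ e → b ≠ c → b ≠ e → c ≠ e → (q : ℤ) ∣ ord P₀ (cr a b c e) := by
      intro a ha b hb c hc e he hab hac hae hbc hbe hce
      by_contra hn
      exact hgood ⟨hNv, Or.inr ⟨P₀, hv, a, ha, b, hb, c, hc, e, he, hab, hac, hae, hbc, hbe, hce,
        hn⟩⟩
    constructor
    · rw [hr]
      exact Dvd.dvd.mul_left (hord a ha b hb c hc e he hab hac hae hbc hbe hce) _
    · rw [← map_one (algebraMap (Spl (tot N f)) E), ← map_sub, hr, cr_sub_one hac hbe, ord_neg]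
      exact Dvd.dvd.mul_left (hord a ha e he c hc b hb hae hac hab hce.symm hbe.symm hbc.symm) _

end FreyCyc
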