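import Pool.Agent.Lib.MP_6babc4_nt.Cyc.Stp

/-!
# Module Clo: close numbers at a prime

`Clo P a b`: the chordal distance of `a` and `b` at `P` is less than `1`.

PROOFS. `v = P.valuation E`.
* `clo_trans`: `(a - c) b = (a - b) c + (b - c) a` and `a - c = (a - b) + (b - c)` give
  `v(a - c) max(v b, 1) ≤ max (v(a-b) max(v c, 1), v(b-c) max(v a, 1))`; multiply the inequalities.
* `clo_B`: for `m(a) = a/(a-1)`: `m(a) - m(b) = -(a-b)/((a-1)(b-1))` and
  `max(v(m a), 1) v(a - 1) = max(v a, v(a-1)) = max(v a, 1)` (ultrametric inequality, both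
  directions). The same for `stp ζ`: `stp ζ s - stp ζ t = ζ(1+ζ)(1-ζ)(s-t)/((1+ζ)(s-ζ)(1+ζ)(t-ζ))`
  (check by `field_simp; ring`), `v ζ = v (1+ζ) = v (1-ζ) = 1` (`q ∉ P`; `1 - ζ` and
  `1 - ζ^2 = (1-ζ)(1+ζ)` are divisors of `q`), `max(v(s-1), v(s-ζ)) = max(v s, 1)` (because
  `(s-1) - (s-ζ) = ζ - 1` and `s = ...` have unit coefficients).
* `clo_pow`: `s^q - t^q = ∏_(m<q) (s - ζ^m t)`; `max(v(s^q),1) = max(v s,1)^q`; if all the factors had
  `v(s - ζ^m t) ≥ max(v s,1) max(v (ζ^m t),1)`, `v ζ = 1`, the product would be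
  `≥ max(v (s^q),1) max(v (t^q),1)`.
-/

set_option autoImplicit false

open Polynomial NumberField IsDedekindDomain Module

namespace FreyCyc

open FreySparse

variable {E : Type*} [Field E] [NumberField E]

/-- The chordal distance of `a` and `b` at `P` is less than `1`. -/
def Clo (P : HeightOneSpectrum (𝓞 E)) (a b : E) : Prop :=
  P.valuation E (a - b) < max (P.valuation E a) 1 * max (P.valuation E b) 1

/-- `max (v a) 1` is positive. -/
private lemma clo_M_pos (P : HeightOneSpectrum (𝓞 E)) (a : E) : 0 < max (P.valuation E a) 1 :=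
  lt_of_lt_of_le zero_lt_one (le_max_right _ _)

theorem clo_refl (P : HeightOneSpectrum (𝓞 E)) (a : E) : Clo P a a := by
  unfold Clo
  rw [sub_self, map_zero]
  exact mul_pos (clo_M_pos P a) (clo_M_pos P a)

theorem clo_symm {P : HeightOneSpectrum (𝓞 E)} {a b : E} (h : Clo P a b) : Clo P b a := by
  unfold Clo at h ⊢
  rw [Valuation.map_sub_swap, mul_comm]
  exact h

theorem clo_trans {P : HeightOneSpectrum (𝓞 E)} {a b c : E} (h : Clo P a b) (h' : Clo P b c) :
    Clo P a c := by
  unfold Clo at h h' ⊢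
  set v := P.valuation E with hv
  have ha := clo_M_pos P a
  have hb := clo_M_pos P b
  have hc := clo_M_pos P c
  rw [← hv] at ha hb hc
  have e1 : v (a - b) * max (v c) 1 < max (v a) 1 * max (v b) 1 * max (v c) 1 :=
    mul_lt_mul_of_pos_right h hc
  have e2 : v (b - c) * max (v a) 1 < max (v a) 1 * max (v b) 1 * max (v c) 1 := by
    have := mul_lt_mul_of_pos_right h' ha
    calc v (b - c) * max (v a) 1 < max (v b) 1 * max (v c) 1 * max (v a) 1 := this
      _ = max (v a) 1 * max (v b) 1 * max (v c) 1 := by ac_rfl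
  have e3 : v (a - c) * v b < max (v a) 1 * max (v b) 1 * max (v c) 1 := by
    have h1 : (a - c) * b = (a - b) * c + (b - c) * a := by ring
    rw [← map_mul, h1]
    refine lt_of_le_of_lt (v.map_add _ _) (max_lt ?_ ?_)
    · rw [map_mul]
      exact lt_of_le_of_lt (mul_le_mul_right (le_max_left _ _) _) e1
    · rw [map_mul]
      exact lt_of_le_of_lt (mul_le_mul_right (le_max_left _ _) _) e2
  have e4 : v (a - c) < max (v a) 1 * max (v b) 1 * max (v c) 1 := by
    have h1 : a - c = (a - b) + (b - c) := by ring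
    rw [h1]
    refine lt_of_le_of_lt (v.map_add _ _) (max_lt ?_ ?_)
    · refine lt_of_le_of_lt ?_ e1
      calc v (a - b) = v (a - b) * 1 := (mul_one _).symm
        _ ≤ v (a - b) * max (v c) 1 := mul_le_mul_right (le_max_right _ _) _
    · refine lt_of_le_of_lt ?_ e2
      calc v (b - c) = v (b - c) * 1 := (mul_one _).symm
        _ ≤ v (b - c) * max (v a) 1 := mul_le_mul_right (le_max_right _ _) _
  have e5 : v (a - c) * max (v b) 1 < max (v a) 1 * max (v c) 1 * max (v b) 1 := by
    have h1 : max (v a) 1 * max (v c) 1 * max (v b) 1 =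
        max (v a) 1 * max (v b) 1 * max (v c) 1 := by ac_rfl
    rw [h1]
    rcases max_choice (v b) 1 with h2 | h2
    · rw [h2] at e3 ⊢
      exact e3
    · rw [h2] at e4 ⊢
      rw [mul_one]
      exact e4
  exact lt_of_mul_lt_mul_right e5 hb.le

/-- Closeness of two quotients. -/
private lemma clo_mob {P : HeightOneSpectrum (𝓞 E)} {a b p q p' q' : E} (hq : q ≠ 0) (hq' : q' ≠ 0)
    (h1 : max (P.valuation E p) (P.valuation E q) = max (P.valuation E a) 1)
    (h2 : max (P.valuation E p') (P.valuation E q') = max (P.valuation E b) 1)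
    (h3 : P.valuation E (p * q' - p' * q) = P.valuation E (a - b)) (h : Clo P a b) :
    Clo P (p / q) (p' / q') := by
  unfold Clo at h ⊢
  set v := P.valuation E with hv
  have hvq : 0 < v q := zero_lt_iff.mpr ((Valuation.ne_zero_iff _).mpr hq)
  have hvq' : 0 < v q' := zero_lt_iff.mpr ((Valuation.ne_zero_iff _).mpr hq')
  have key : ∀ {x y : E}, y ≠ 0 → max (v (x / y)) 1 * v y = max (v x) (v y) := by
    intro x y hy
    have hvy : v y ≠ 0 := (Valuation.ne_zero_iff _).mpr hy
    rw [max_mul, one_mul, ← map_mul, div_mul_cancel₀ _ hy]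
  have e1 : v (p / q - p' / q') * (v q * v q') = v (a - b) := by
    rw [← map_mul, ← map_mul, ← h3]
    congr 1
    field_simp
  have e2 : max (v (p / q)) 1 * max (v (p' / q')) 1 * (v q * v q') =
      max (v a) 1 * max (v b) 1 := by
    rw [← h1, ← h2, ← key hq, ← key hq']
    ac_rfl
  refine lt_of_mul_lt_mul_right ?_ (mul_pos hvq hvq').le
  rw [e1, e2]
  exact h

theorem clo_B {P : HeightOneSpectrum (𝓞 E)} {a b : E} (ha : a ≠ 1) (hb : b ≠ 1) (h : Clo P a b) :
    Clo P (a / (a - 1)) (b / (b - 1)) := by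
  have key : ∀ x : E, max (P.valuation E x) (P.valuation E (x - 1)) =
      max (P.valuation E x) 1 := by
    intro x
    apply le_antisymm
    · refine max_le (le_max_left _ _) ?_
      have := (P.valuation E).map_sub x 1
      rwa [map_one] at this
    · refine max_le (le_max_left _ _) ?_
      have := (P.valuation E).map_sub x (x - 1)
      rwa [sub_sub_cancel, map_one] at this
  refine clo_mob (sub_ne_zero.mpr ha) (sub_ne_zero.mpr hb) (key a) (key b) ?_ h
  rw [← Valuation.map_neg]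
  congr 1
  ring

private lemma clo_val_one {P : HeightOneSpectrum (𝓞 E)} {x : E} (hx : x ≠ 0) (h : ord P x = 0) :
    P.valuation E x = 1 := by
  have h0 : P.valuation E x ≠ 0 := (Valuation.ne_zero_iff _).mpr hx
  unfold ord at h
  have h1 : WithZero.log (P.valuation E x) = WithZero.log 1 := by
    rw [WithZero.log_one]
    omega
  have h2 := WithZero.exp_log h0
  rw [h1, WithZero.log_one, WithZero.exp_zero] at h2
  exact h2.symm

private lemma clo_val_zeta {q : ℕ} (hq : 0 < q) {ζ : E} (hζ : IsPrimitiveRoot ζ q)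
    (P : HeightOneSpectrum (𝓞 E)) (j : ℕ) : P.valuation E (ζ ^ j) = 1 :=
  clo_val_one (pow_ne_zero _ (hζ.ne_zero hq.ne')) (stp_ord_zeta P hq hζ j)

theorem clo_stp {q : ℕ} (h3 : 3 ≤ q) {ζ : E} (hζ : IsPrimitiveRoot ζ q)
    {P : HeightOneSpectrum (𝓞 E)} (hP : (q : 𝓞 E) ∉ P.asIdeal) {s t : E} (hs : s ≠ ζ) (ht : t ≠ ζ)
    (h : Clo P s t) : Clo P (stp ζ s) (stp ζ t) := by
  have hpos : 0 < q := by omega
  have hn := one_add_ne h3 hζ
  have hne : ∀ k : ℕ, 0 < k → k < q → 1 - ζ ^ k ≠ 0 := by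
    intro k hk hkq h
    have h7 : ζ ^ k = 1 := by linear_combination -h
    have := Nat.le_of_dvd hk ((hζ.pow_eq_one_iff_dvd k).mp h7)
    omega
  have h1 := hne 1 one_pos (by omega)
  have v1 := clo_val_one h1 (stp_ord_one_sub P hpos hζ hP (k := 1) one_pos (by omega))
  have v2 := clo_val_one (hne 2 two_pos (by omega))
    (stp_ord_one_sub P hpos hζ hP (k := 2) two_pos (by omega))
  rw [pow_one] at v1 h1
  have vz : P.valuation E ζ = 1 := by
    have := clo_val_zeta hpos hζ P 1
    rwa [pow_one] at this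
  have va : P.valuation E (1 + ζ) = 1 := by
    have h4 : 1 - ζ ^ 2 = (1 - ζ) * (1 + ζ) := by ring
    rw [h4, map_mul, v1, one_mul] at v2
    exact v2
  have key : ∀ x : E, max (P.valuation E (ζ * (x - 1))) (P.valuation E ((1 + ζ) * (x - ζ))) =
      max (P.valuation E x) 1 := by
    intro x
    rw [map_mul, map_mul, vz, va, one_mul, one_mul]
    apply le_antisymm
    · refine max_le ?_ ?_
      · have := (P.valuation E).map_sub x 1
        rwa [map_one] at this
      · have := (P.valuation E).map_sub x ζ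
        rwa [vz] at this
    · refine max_le ?_ ?_
      · have h5 := (P.valuation E).map_sub (x - ζ) (ζ * (x - 1))
        have h6 : x - ζ - ζ * (x - 1) = x * (1 - ζ) := by ring
        rw [h6, map_mul, v1, mul_one, map_mul, vz, one_mul, max_comm] at h5
        exact h5
      · have h5 := (P.valuation E).map_sub (x - ζ) (x - 1)
        have h6 : x - ζ - (x - 1) = 1 - ζ := by ring
        rw [h6, v1, max_comm] at h5
        exact h5
  refine clo_mob (mul_ne_zero hn (sub_ne_zero.mpr hs)) (mul_ne_zero hn (sub_ne_zero.mpr ht))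
    (key s) (key t) ?_ h
  have h4 : ζ * (s - 1) * ((1 + ζ) * (t - ζ)) - ζ * (t - 1) * ((1 + ζ) * (s - ζ)) =
      ζ * (1 + ζ) * (1 - ζ) * (s - t) := by ring
  rw [h4, map_mul, map_mul, map_mul, vz, va, v1, one_mul, one_mul, one_mul]

theorem clo_pow {q : ℕ} (h0 : 0 < q) {ζ : E} (hζ : IsPrimitiveRoot ζ q)
    {P : HeightOneSpectrum (𝓞 E)} {s t : E} (h : Clo P (s ^ q) (t ^ q)) :
    ∃ m < q, Clo P s (ζ ^ m * t) := by
  by_contra hcon
  push Not at hcon
  have hpos : 0 < q := by omega
  have hpow : ∀ x : E, max (P.valuation E (x ^ q)) 1 = (max (P.valuation E x) 1) ^ q := by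
    intro x
    rw [map_pow]
    rcases le_total (P.valuation E x) 1 with h1 | h1
    · rw [max_eq_right h1, one_pow, max_eq_right (pow_le_one' h1 q)]
    · rw [max_eq_left h1, max_eq_left (one_le_pow_of_one_le' h1 q)]
  unfold Clo at h
  rw [hpow, hpow, ← stp_prod hpos hζ, map_prod, ← mul_pow] at h
  apply absurd h
  rw [not_lt]
  calc (max (P.valuation E s) 1 * max (P.valuation E t) 1) ^ q
      = ∏ _i ∈ Finset.range q, (max (P.valuation E s) 1 * max (P.valuation E t) 1) := by
        rw [Finset.prod_const, Finset.card_range]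
    _ ≤ ∏ i ∈ Finset.range q, P.valuation E (s - ζ ^ i * t) := by
        refine Finset.prod_le_prod' fun i hi => ?_
        have h1 := hcon i (Finset.mem_range.mp hi)
        unfold Clo at h1
        rw [not_lt, map_mul, clo_val_zeta hpos hζ, one_mul] at h1
        exact h1

/-- The colouring of one fibre: if the first members of the chains of `S` are close to each other
then the last members fall into at most `q^k` classes. PROOF: induction on `k`. `S = ∅` is
trivial. For `k + 1` choose `t x` for `x ∈ S` (`Chain` at `x`) and fix `z ∈ S`: `x.1 ~ z.1`, so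
`(t x)^q = x.1/(x.1 - 1) ~ (t z)^q` (`clo_B`) and `t x ~ ζ^(m x) t z` (`clo_pow`). For each `m` the
pairs `(stp ζ (t x), x.2)` with `m x = m` satisfy the hypothesis for `k` (`clo_trans`, `clo_symm`,
`clo_stp`; `t x ≠ ζ` by `t_ne`), let `c m` be their colouring; the colour of `x` is
`(m x, c (m x) (stp ζ (t x), x.2))` in `Fin q × Fin (q^k)`, of cardinality `q^(k+1)`. -/
theorem chain_colour {q : ℕ} (h3 : 3 ≤ q) {ζ : E} (hζ : IsPrimitiveRoot ζ q)
    {P : HeightOneSpectrum (𝓞 E)} (hP : (q : 𝓞 E) ∉ P.asIdeal) (k : ℕ) (S : Set (E × E))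
    (hS : ∀ x ∈ S, Chain q ζ k x.1 x.2) (hC : ∀ x ∈ S, ∀ y ∈ S, Clo P x.1 y.1) :
    ∃ c : E × E → Fin (q ^ k), ∀ x ∈ S, ∀ y ∈ S, c x = c y → Clo P x.2 y.2 := by
  have hpos : 0 < q := by omega
  induction k generalizing S with
  | zero =>
    refine ⟨fun _ => ⟨0, by simp⟩, fun x hx y hy _ => ?_⟩
    have h1 : x.1 = x.2 := hS x hx
    have h2 : y.1 = y.2 := hS y hy
    rw [← h1, ← h2]
    exact hC x hx y hy
  | succ k ih =>
    rcases S.eq_empty_or_nonempty with hSe | ⟨z, hz⟩
    · refine ⟨fun _ => ⟨0, pow_pos hpos _⟩, fun x hx => ?_⟩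
      rw [hSe] at hx
      exact absurd hx (Set.notMem_empty _)
    have hS' : ∀ x ∈ S, ∃ t : E, x.1 ≠ 0 ∧ x.1 ≠ 1 ∧ t ^ q = x.1 / (x.1 - 1) ∧
        Chain q ζ k (stp ζ t) x.2 := fun x hx => hS x hx
    choose! t ht0 ht1 ht2 ht3 using hS'
    have hm : ∀ x ∈ S, ∃ m : ℕ, m < q ∧ Clo P (t x) (ζ ^ m * t z) := by
      intro x hx
      have h1 : Clo P (t x ^ q) (t z ^ q) := by
        rw [ht2 x hx, ht2 z hz]
        exact clo_B (ht1 x hx) (ht1 z hz) (hC x hx z hz)
      obtain ⟨m, hm, h2⟩ := clo_pow (by omega) hζ h1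
      exact ⟨m, hm, h2⟩
    choose! m hmq hmC using hm
    have hne : ∀ x ∈ S, t x ≠ ζ := by
      intro x hx
      have := t_ne hζ (ht1 x hx) (ht2 x hx) 1
      rwa [pow_one] at this
    have hcol : ∀ j : ℕ, ∃ c : E × E → Fin (q ^ k),
        ∀ x ∈ {p : E × E | ∃ x ∈ S, m x = j ∧ p = (stp ζ (t x), x.2)},
        ∀ y ∈ {p : E × E | ∃ x ∈ S, m x = j ∧ p = (stp ζ (t x), x.2)},
          c x = c y → Clo P x.2 y.2 := by
      intro j
      refine ih _ ?_ ?_
      · rintro p ⟨x, hx, -, rfl⟩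
        exact ht3 x hx
      · rintro p ⟨x, hx, hxj, rfl⟩ q ⟨y, hy, hyj, rfl⟩
        refine clo_stp h3 hζ hP (hne x hx) (hne y hy) ?_
        have h1 := hmC x hx
        have h2 := hmC y hy
        rw [hxj] at h1
        rw [hyj] at h2
        exact clo_trans h1 (clo_symm h2)
    choose c hc using hcol
    have hcard : q * q ^ k = q ^ (k + 1) := (pow_succ' q k).symm
    refine ⟨fun x => Fin.cast hcard (finProdFinEquiv
      ((⟨m x % q, Nat.mod_lt _ hpos⟩ : Fin q), c (m x) (stp ζ (t x), x.2))), ?_⟩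
    intro x hx y hy hxy
    have h1 := finProdFinEquiv.injective (Fin.cast_injective hcard hxy)
    rw [Prod.mk.injEq] at h1
    obtain ⟨h4, h5⟩ := h1
    have h6 : m x = m y := by
      have h7 := congrArg Fin.val h4
      simp only [Nat.mod_eq_of_lt (hmq x hx), Nat.mod_eq_of_lt (hmq y hy)] at h7
      exact h7
    rw [← h6] at h5
    exact hc (m x) (stp ζ (t x), x.2) ⟨x, hx, rfl, rfl⟩ (stp ζ (t y), y.2)
      ⟨y, hy, h6.symm, rfl⟩ h5

end FreyCyc
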