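import Pool.Agent.Lib.MP_6babc4_nt.Cyc.Clo

/-!
# Module Col: residue classes at the primes above `p`

PROOFS.
* `card_above`: the primes `P ∋ p` are the prime factors of the nonzero ideal `(p)`, and
  `∏ N(P) ∣ N((p)) = p^M`, each `N(P) ≥ 2`... simpler: each `N(P)` is a power `≥ p` of `p`, so
  `p^(number) ≤ p^M`.
* `colour`: for one `P`: at most `N(P) + 1 ≤ 2 N(P)` classes: `a` with `v(a) > 1` are all close to each
  other (`1/a`, `1/b` have `v < 1`: `v(a-b) ≤ max(v a, v b) < v a v b`); for `v(a) ≤ 1` there is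
  `u ∈ 𝓞 E` with `v(a - u) < 1` (write `a = x/s`, `x, s ∈ 𝓞 E`, `s ∉ P`, which is possible for
  `v(a) ≤ 1`, and `u = x s'` with `s s' - 1 ∈ P`), colour = class of `u` in `𝓞 E ⧸ P`, finite of
  cardinality `N(P)`; two such numbers with the same colour have `v(a - b) < 1`.
  The product over the `P ∋ p` of the `2 N(P)` is at most `2^M p^M` (`∏ N(P)` divides
  `N((p)) = p^M`; their number is at most `M`).
* `clo_map`: for `P` of `E` above `Q = P ∩ 𝓞 E₀`: `P.valuation E (algebraMap x)` is a fixed positive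
  power `e` of `Q.valuation E₀ x` (`IsDedekindDomain.HeightOneSpectrum.valuation_comap`), and
  `y < max x 1 * max z 1` gives the same for the `e`-th powers.
-/

set_option autoImplicit false

open Polynomial NumberField IsDedekindDomain Module

namespace FreyCyc

open FreySparse

section above

variable {E : Type} [Field E] [NumberField E]

private lemma Col_finrank : finrank ℤ (𝓞 E) = finrank ℚ E := RingOfIntegers.rank E

private lemma Col_dvd_absNorm {P : Ideal (𝓞 E)} (hP : P.IsPrime) {p : ℕ}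
    (hp : p.Prime) (hm : (p : 𝓞 E) ∈ P) : p ∣ Ideal.absNorm P := by
  have h1 : P ∣ Ideal.span {(p : 𝓞 E)} := (Ideal.dvd_span_singleton).2 hm
  have h2 : Ideal.absNorm P ∣ p ^ finrank ℤ (𝓞 E) := by
    rw [← Ideal.absNorm_span_natCast]
    exact map_dvd _ h1
  obtain ⟨f, -, hf⟩ := (Nat.dvd_prime_pow hp).1 h2
  rcases Nat.eq_zero_or_pos f with h0 | h0
  · rw [h0, pow_zero] at hf
    exact absurd (Ideal.absNorm_eq_one_iff.1 hf) hP.ne_top
  · rw [hf]
    exact dvd_pow_self _ h0.ne'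

private lemma Col_prod {p : ℕ} (F : Finset (Ideal (𝓞 E)))
    (hF : ∀ P ∈ F, Prime P ∧ (p : 𝓞 E) ∈ P) :
    ∏ P ∈ F, Ideal.absNorm P ∣ p ^ finrank ℤ (𝓞 E) := by
  have h1 : ∏ P ∈ F, P ∣ Ideal.span {(p : 𝓞 E)} :=
    Finset.prod_primes_dvd _ (fun P hP => (hF P hP).1)
      (fun P hP => (Ideal.dvd_span_singleton).2 (hF P hP).2)
  rw [← Ideal.absNorm_span_natCast, ← map_prod]
  exact map_dvd _ h1

private lemma Col_card_above {p : ℕ} (hp : p.Prime) (F : Finset (Ideal (𝓞 E)))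
    (hF : ∀ P ∈ F, Prime P ∧ (p : 𝓞 E) ∈ P) : F.card ≤ finrank ℚ E := by
  have h2 := Col_prod F hF
  have h3 : p ^ F.card ∣ ∏ P ∈ F, Ideal.absNorm P := by
    rw [← Finset.prod_const]
    exact Finset.prod_dvd_prod_of_dvd _ _ fun P hP =>
      Col_dvd_absNorm (Ideal.isPrime_of_prime (hF P hP).1) hp (hF P hP).2
  have h4 := h3.trans h2
  rw [Col_finrank] at h4
  exact (Nat.pow_dvd_pow_iff_le_right hp.one_lt).1 h4

private lemma Col_fin {p : ℕ} (hp : p.Prime) :
    {P : HeightOneSpectrum (𝓞 E) | (p : 𝓞 E) ∈ P.asIdeal}.Finite := by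
  have h : Ideal.span {(p : 𝓞 E)} ≠ 0 := by
    rw [Ne, Ideal.zero_eq_bot, Ideal.span_singleton_eq_bot]
    exact_mod_cast hp.ne_zero
  have h1 := Ideal.finite_factors h
  refine h1.subset fun P hP => ?_
  exact (Ideal.dvd_span_singleton).2 hP

private lemma Col_inj : Function.Injective (fun P : HeightOneSpectrum (𝓞 E) => P.asIdeal) :=
  fun _ _ h => HeightOneSpectrum.ext h

/-- The colouring for one prime. -/
private lemma Col_one (P : HeightOneSpectrum (𝓞 E)) :
    ∃ c : E → Option (𝓞 E ⧸ P.asIdeal), ∀ a b, c a = c b → Clo P a b := by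
  have h : ∀ a : E, ∃ o : Option (𝓞 E ⧸ P.asIdeal), (o = none → 1 < P.valuation E a) ∧
      ∀ z, o = some z → P.valuation E a ≤ 1 ∧ ∃ u : 𝓞 E, Ideal.Quotient.mk P.asIdeal u = z ∧
        P.valuation E (algebraMap (𝓞 E) E u - a) < 1 := by
    intro a
    rcases lt_or_ge 1 (P.valuation E a) with h1 | h1
    · exact ⟨none, fun _ => h1, fun z hz => by simp at hz⟩
    · obtain ⟨u, hu⟩ := P.exists_valuation_sub_lt_of_integer h1 1
      refine ⟨some (Ideal.Quotient.mk P.asIdeal u), fun hn => by simp at hn, fun z hz => ?_⟩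
      rw [Option.some.injEq] at hz
      exact ⟨h1, u, hz, hu⟩
  choose c hc1 hc2 using h
  refine ⟨c, fun a b hab => ?_⟩
  unfold Clo
  cases hca : c a with
  | none =>
    have ha := hc1 a hca
    have hb := hc1 b (hab.symm.trans hca)
    rw [max_eq_left ha.le, max_eq_left hb.le]
    have ha0 : 0 < P.valuation E a := lt_trans zero_lt_one ha
    have hb0 : 0 < P.valuation E b := lt_trans zero_lt_one hb
    refine lt_of_le_of_lt ((P.valuation E).map_sub a b) (max_lt ?_ ?_)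
    · have h1 := mul_lt_mul_of_pos_left hb ha0
      rwa [mul_one] at h1
    · have h1 := mul_lt_mul_of_pos_right ha hb0
      rwa [one_mul] at h1
  | some z =>
    obtain ⟨ha, u, hu, hu'⟩ := hc2 a z hca
    obtain ⟨hb, w, hw, hw'⟩ := hc2 b z (hab.symm.trans hca)
    rw [max_eq_right ha, max_eq_right hb, mul_one]
    have h1 : u - w ∈ P.asIdeal := by
      rw [← Ideal.Quotient.eq_zero_iff_mem, map_sub, hu, hw, sub_self]
    have h2 : P.valuation E (algebraMap (𝓞 E) E (u - w)) < 1 :=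
      (P.valuation_lt_one_iff_mem (u - w)).2 h1
    have h3 : a - b = (algebraMap (𝓞 E) E (u - w) - (algebraMap (𝓞 E) E u - a)) +
        (algebraMap (𝓞 E) E w - b) := by
      rw [map_sub]
      ring
    rw [h3]
    refine lt_of_le_of_lt ((P.valuation E).map_add _ _) (max_lt ?_ hw')
    exact lt_of_le_of_lt ((P.valuation E).map_sub _ _) (max_lt h2 hu')

end above

theorem card_above (E : Type) [Field E] [NumberField E] {p : ℕ} (hp : p.Prime) :
    {P : HeightOneSpectrum (𝓞 E) | (p : 𝓞 E) ∈ P.asIdeal}.Finite ∧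
      {P : HeightOneSpectrum (𝓞 E) | (p : 𝓞 E) ∈ P.asIdeal}.ncard ≤ finrank ℚ E := by
  classical
  have hfin := Col_fin (E := E) hp
  refine ⟨hfin, ?_⟩
  rw [Set.ncard_eq_toFinset_card _ hfin, ← Finset.card_image_of_injective _ (Col_inj (E := E))]
  refine Col_card_above hp _ fun I hI => ?_
  rw [Finset.mem_image] at hI
  obtain ⟨P, hP, rfl⟩ := hI
  rw [Set.Finite.mem_toFinset] at hP
  exact ⟨P.prime, hP⟩

theorem colour (E : Type) [Field E] [NumberField E] {p : ℕ} (hp : p.Prime) :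
    ∃ N : ℕ, N ≤ (2 * p) ^ finrank ℚ E ∧ ∃ c : E → Fin N, ∀ a b, c a = c b →
      ∀ P : HeightOneSpectrum (𝓞 E), (p : 𝓞 E) ∈ P.asIdeal → Clo P a b := by
  classical
  have hfin := Col_fin (E := E) hp
  obtain ⟨S, hS⟩ : ∃ S, S = hfin.toFinset := ⟨_, rfl⟩
  have hmem : ∀ P, P ∈ S ↔ (p : 𝓞 E) ∈ P.asIdeal := fun P => by
    rw [hS, Set.Finite.mem_toFinset]
    rfl
  have hcard : S.card ≤ finrank ℚ E := by
    have h1 := (card_above E hp).2
    rwa [Set.ncard_eq_toFinset_card _ hfin, ← hS] at h1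
  choose c hc using fun P : HeightOneSpectrum (𝓞 E) => Col_one P
  have hq : ∀ P : HeightOneSpectrum (𝓞 E), Finite (𝓞 E ⧸ P.asIdeal) := fun P =>
    Ideal.finiteQuotientOfFreeOfNeBot P.asIdeal P.ne_bot
  refine ⟨Nat.card (∀ P : S, Option (𝓞 E ⧸ P.1.asIdeal)), ?_, fun a =>
    Finite.equivFin (∀ P : S, Option (𝓞 E ⧸ P.1.asIdeal)) (fun P => c P.1 a),
    fun a b hab P hP => ?_⟩
  · rw [Nat.card_pi]
    have h1 : ∀ P : S, Nat.card (Option (𝓞 E ⧸ P.1.asIdeal)) ≤
        2 * Ideal.absNorm P.1.asIdeal := by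
      intro P
      rw [Finite.card_option]
      have h2 : Nat.card (𝓞 E ⧸ P.1.asIdeal) = Ideal.absNorm P.1.asIdeal := rfl
      rw [h2]
      have h3 : 0 < Ideal.absNorm P.1.asIdeal := by
        rw [Nat.pos_iff_ne_zero, Ne, Ideal.absNorm_eq_zero_iff]
        exact P.1.ne_bot
      omega
    refine (Finset.prod_le_prod' fun P _ => h1 P).trans ?_
    rw [Finset.prod_mul_distrib, Finset.prod_const, Finset.card_univ, Fintype.card_coe, mul_pow]
    refine Nat.mul_le_mul (Nat.pow_le_pow_right (by norm_num) hcard) ?_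
    have h2 := Col_prod (p := p) (S.image fun P : HeightOneSpectrum (𝓞 E) => P.asIdeal)
      (fun I hI => by
        rw [Finset.mem_image] at hI
        obtain ⟨P, hP, rfl⟩ := hI
        exact ⟨P.prime, (hmem P).1 hP⟩)
    rw [Finset.prod_image (fun P _ Q _ h => Col_inj h), Col_finrank] at h2
    have h3 := Nat.le_of_dvd (pow_pos hp.pos _) h2
    rw [← Finset.prod_coe_sort] at h3
    exact h3
  · have h1 := (Finite.equivFin (∀ P : S, Option (𝓞 E ⧸ P.1.asIdeal))).injective hab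
    exact hc P a b (congrFun h1 ⟨P, (hmem P).2 hP⟩)

theorem clo_map {E₀ E : Type} [Field E₀] [NumberField E₀] [Field E] [NumberField E] [Algebra E₀ E]
    {p : ℕ} {a b : E₀} (h : ∀ Q : HeightOneSpectrum (𝓞 E₀), (p : 𝓞 E₀) ∈ Q.asIdeal → Clo Q a b)
    (P : HeightOneSpectrum (𝓞 E)) (hP : (p : 𝓞 E) ∈ P.asIdeal) :
    Clo P (algebraMap E₀ E a) (algebraMap E₀ E b) := by
  obtain ⟨Q, hQ⟩ : ∃ Q : HeightOneSpectrum (𝓞 E₀), Q.asIdeal = P.asIdeal.under (𝓞 E₀) := by
    refine ⟨⟨P.asIdeal.under (𝓞 E₀), inferInstance, ?_⟩, rfl⟩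
    exact Ideal.under_ne_bot (𝓞 E₀) P.ne_bot
  have hlo : P.asIdeal.LiesOver Q.asIdeal := ⟨hQ⟩
  have hpQ : (p : 𝓞 E₀) ∈ Q.asIdeal := by
    rw [hQ, Ideal.under_def, Ideal.mem_comap, map_natCast]
    exact hP
  have h1 := h Q hpQ
  have hval : ∀ x : E₀, P.valuation E (algebraMap E₀ E x) =
      Q.valuation E₀ x ^ Q.asIdeal.ramificationIdx' P.asIdeal := fun x =>
    (HeightOneSpectrum.valuation_liesOver E Q P x).symm
  have he : Q.asIdeal.ramificationIdx' P.asIdeal ≠ 0 :=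
    Ideal.IsDedekindDomain.ramificationIdx'_ne_zero_of_liesOver P.asIdeal Q.ne_bot
  obtain ⟨e, hee⟩ : ∃ e, e = Q.asIdeal.ramificationIdx' P.asIdeal := ⟨_, rfl⟩
  rw [← hee] at he
  rw [← hee] at hval
  have hpow : ∀ x : E₀, max (Q.valuation E₀ x ^ e) 1 = (max (Q.valuation E₀ x) 1) ^ e := by
    intro x
    rcases le_total (Q.valuation E₀ x) 1 with h1 | h1
    · rw [max_eq_right h1, one_pow, max_eq_right (pow_le_one' h1 e)]
    · rw [max_eq_left h1, max_eq_left (one_le_pow_of_one_le' h1 e)]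
  unfold Clo at h1 ⊢
  rw [← map_sub, hval, hval, hval, hpow, hpow, ← mul_pow]
  exact pow_lt_pow_left₀ h1 zero_le' he

end FreyCyc
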