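import Pool.Agent.Lib.MP_6babc4_nt.Cyc.Inj
import Pool.Agent.Lib.MP_6babc4_nt.Cyc.Col

/-!
# Module CCnt: the number of the starting points of chains of small height

PROOF. Let `S` be the set of the pairs `(a₀, b)`; by `chain_unique` `a₀` is determined by `b` (and
`algebraMap E₀ E` is injective), so it is enough to bound the number of the `b`, or of a set of
`a₀` with one chosen `b = β a₀` each; `β` is injective. Colour `a₀` by `c₀ a₀` (`colour E₀`, at most
`(2 p)^M₀` colours) and, within one colour class, for each `P ∋ p` of `E` by `chain_colour`: the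
hypothesis `Clo P (a₀) (a₀')` is `clo_map`; `q ∉ P` because `p ∈ P` and `p` does not
divide `q` (otherwise `1 ∈ P`, Bézout). Two `a₀` with all colours equal have `b`s that are close at all `P ∋ p`, so equal by
`clo_inj` and the hypothesis on `R`. So the total number of colours
`(2 p)^M₀ (q^k)^(number of P) ≤ (2 p)^M₀ (q^k)^M` bounds the number (first for every finite subset,
then finiteness: `Set.encard`/`Set.Finite` by an injection into a finite type).
-/

set_option autoImplicit false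

open Polynomial NumberField IsDedekindDomain Module Height

namespace FreyCyc

open FreySparse

private lemma ccnt_coprime {E : Type} [Field E] [NumberField E] {p q : ℕ} (hp : p.Prime)
    (hpq : ¬ p ∣ q) (P : HeightOneSpectrum (𝓞 E)) (hP : (p : 𝓞 E) ∈ P.asIdeal) :
    (q : 𝓞 E) ∉ P.asIdeal := by
  intro hq
  have h1 : Int.gcd (p : ℤ) (q : ℤ) = 1 := by
    rw [Int.gcd_natCast_natCast]
    exact (Nat.Prime.coprime_iff_not_dvd hp).2 hpq
  have h2 : IsCoprime (p : ℤ) (q : ℤ) := Int.isCoprime_iff_gcd_eq_one.2 h1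
  obtain ⟨u, v, huv⟩ := h2
  have h3 : (u : 𝓞 E) * (p : 𝓞 E) + (v : 𝓞 E) * (q : 𝓞 E) = 1 := by
    have h4 := congrArg (fun z : ℤ => (z : 𝓞 E)) huv
    push_cast at h4
    exact h4
  apply P.isMaximal.ne_top
  rw [Ideal.eq_top_iff_one, ← h3]
  exact P.asIdeal.add_mem (P.asIdeal.mul_mem_left _ hP) (P.asIdeal.mul_mem_left _ hq)

theorem chain_count {q : ℕ} (h3 : 3 ≤ q) {E₀ E : Type} [Field E₀] [NumberField E₀]
    [Field E] [NumberField E] [Algebra E₀ E] {ζ : E} (hζ : IsPrimitiveRoot ζ q) (k : ℕ) {p : ℕ}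
    (hp : p.Prime) (hpq : ¬ p ∣ q) (hd : ¬ (p : ℤ) ∣ discr E) {R : ℝ}
    (hR : 2 ^ finrank ℚ E * R * R < (p : ℝ) ^ finrank ℚ E) :
    {a : E₀ | ∃ b : E, Chain q ζ k (algebraMap E₀ E a) b ∧ mulHeight₁ b ≤ R}.Finite ∧
      {a : E₀ | ∃ b : E, Chain q ζ k (algebraMap E₀ E a) b ∧ mulHeight₁ b ≤ R}.ncard ≤
        (2 * p) ^ finrank ℚ E₀ * (q ^ k) ^ finrank ℚ E := by
  classical
  obtain ⟨A, hA⟩ : ∃ A : Set E₀, A =
      {a : E₀ | ∃ b : E, Chain q ζ k (algebraMap E₀ E a) b ∧ mulHeight₁ b ≤ R} := ⟨_, rfl⟩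
  rw [← hA]
  have hA' : ∀ a ∈ A, ∃ b : E, Chain q ζ k (algebraMap E₀ E a) b ∧ mulHeight₁ b ≤ R := by
    intro a ha
    rw [hA] at ha
    exact ha
  choose! β hβ1 hβ2 using hA'
  obtain ⟨N, hN, c₀, hc₀⟩ := colour E₀ hp
  obtain ⟨hfin, hcard⟩ := card_above E hp
  -- the colouring at one prime
  have hcol : ∀ (n : Fin N) (P : HeightOneSpectrum (𝓞 E)), (p : 𝓞 E) ∈ P.asIdeal →
      ∃ c : E × E → Fin (q ^ k), ∀ a ∈ A, ∀ a' ∈ A, c₀ a = n → c₀ a' = n →
        c (algebraMap E₀ E a, β a) = c (algebraMap E₀ E a', β a') → Clo P (β a) (β a') := by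
    intro n P hP
    obtain ⟨c, hc⟩ := chain_colour h3 hζ (ccnt_coprime hp hpq P hP) k
      {x : E × E | ∃ a ∈ A, c₀ a = n ∧ x = (algebraMap E₀ E a, β a)}
      (by
        rintro x ⟨a, ha, -, rfl⟩
        exact hβ1 a ha)
      (by
        rintro x ⟨a, ha, han, rfl⟩ y ⟨a', ha', han', rfl⟩
        exact clo_map (hc₀ a a' (han.trans han'.symm)) P hP)
    exact ⟨c, fun a ha a' ha' han han' h =>
      hc _ ⟨a, ha, han, rfl⟩ _ ⟨a', ha', han', rfl⟩ h⟩
  choose c hc using hcol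
  obtain ⟨U, hU⟩ : ∃ U : Set (HeightOneSpectrum (𝓞 E)), U =
      {P : HeightOneSpectrum (𝓞 E) | (p : 𝓞 E) ∈ P.asIdeal} := ⟨_, rfl⟩
  rw [← hU] at hfin hcard
  have hUm : ∀ P : U, (p : 𝓞 E) ∈ P.1.asIdeal := by
    rintro ⟨P, hP⟩
    rw [hU] at hP
    exact hP
  haveI : Finite U := hfin.to_subtype
  obtain ⟨f, hf⟩ : ∃ f : A → Fin N × (U → Fin (q ^ k)), ∀ a, f a = (c₀ a.1, fun P =>
      c (c₀ a.1) P.1 (hUm P) (algebraMap E₀ E a.1, β a.1)) := ⟨_, fun _ => rfl⟩
  have hinj : Function.Injective f := by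
    intro a a' haa
    rw [hf, hf, Prod.mk.injEq] at haa
    obtain ⟨h1, h2⟩ := haa
    have hclo : ∀ P : HeightOneSpectrum (𝓞 E), (p : 𝓞 E) ∈ P.asIdeal →
        Clo P (β a.1) (β a'.1) := by
      intro P hP
      have hPU : P ∈ U := by
        rw [hU]
        exact hP
      have h4 := congrFun h2 ⟨P, hPU⟩
      simp only at h4
      rw [← h1] at h4
      exact hc (c₀ a.1) P hP a.1 a.2 a'.1 a'.2 rfl h1.symm h4
    have hβ : β a.1 = β a'.1 := by
      by_contra hne
      have h4 := clo_inj hp hd hne hclo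
      have h5 := hβ2 a.1 a.2
      have h6 := hβ2 a'.1 a'.2
      have h7 : 0 ≤ mulHeight₁ (β a.1) := (zero_lt_one.trans_le (one_le_mulHeight₁ _)).le
      have h8 : 0 ≤ mulHeight₁ (β a'.1) := (zero_lt_one.trans_le (one_le_mulHeight₁ _)).le
      have h9 : 2 ^ finrank ℚ E * mulHeight₁ (β a.1) * mulHeight₁ (β a'.1) ≤
          2 ^ finrank ℚ E * R * R := by
        refine mul_le_mul (mul_le_mul_of_nonneg_left h5 (by positivity)) h6 h8 ?_
        exact mul_nonneg (by positivity) (h7.trans h5)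
      linarith
    have h10 := hβ1 a'.1 a'.2
    rw [← hβ] at h10
    have h11 := chain_unique h3 hζ k (hβ1 a.1 a.2) h10
    exact Subtype.ext ((algebraMap E₀ E).injective h11)
  have hfinA : Finite A := Finite.of_injective f hinj
  refine ⟨Set.toFinite A, ?_⟩
  have h1 := Nat.card_le_card_of_injective f hinj
  have e1 : ∀ n : ℕ, Nat.card (Fin n) = n := fun n => by
    rw [Nat.card_eq_fintype_card, Fintype.card_fin]
  rw [Nat.card_prod, Nat.card_fun, e1, e1, Nat.card_coe_set_eq, Nat.card_coe_set_eq] at h1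
  refine h1.trans (Nat.mul_le_mul hN ?_)
  exact Nat.pow_le_pow_right (Nat.pow_pos (by omega)) hcard

end FreyCyc
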