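import Pool.Agent.Lib.MP_6babc4_nt.Sp.ArcA

/-!
# Archimedean part for cyclic covers: integrability and a lower bound for determinants

For finitely many polynomials `F i` over the complex numbers and real exponents `s i ≥ 0` such that
`∑ i, s i * (multiplicity of a in F i) < 2` for each `a`, and `m + 2 < ∑ i, s i * deg (F i)`, the
function `‖z‖ ^ m * (∏ i, ‖F i z‖ ^ (s i))⁻¹` is bounded by an integrable function.
-/

open Polynomial MeasureTheory Set FreyAvg
open scoped ComplexConjugate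

namespace FreyCyc

/-- For `b ≠ a`, each `z` which is at least as near to `a` as to `b` has distance at least a
constant times `1 + ‖z‖` from `b`. -/
lemma far_root {a b : ℂ} (hab : b ≠ a) :
    ∃ c : ℝ, 0 < c ∧ ∀ z : ℂ, ‖z - a‖ ≤ ‖z - b‖ → c * (1 + ‖z‖) ≤ ‖z - b‖ := by
  have hd : 0 < ‖b - a‖ := norm_pos_iff.mpr (sub_ne_zero.mpr hab)
  have hpos : 0 < (1 + ‖b‖) * (2 / ‖b - a‖) + 1 := by positivity
  refine ⟨((1 + ‖b‖) * (2 / ‖b - a‖) + 1)⁻¹, by positivity, fun z hz => ?_⟩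
  rw [inv_mul_le_iff₀ hpos]
  have h1 : ‖b - a‖ ≤ 2 * ‖z - b‖ := by
    calc ‖b - a‖ = ‖(z - a) - (z - b)‖ := by congr 1; ring
      _ ≤ ‖z - a‖ + ‖z - b‖ := norm_sub_le _ _
      _ ≤ 2 * ‖z - b‖ := by linarith
  have h2 : 1 ≤ 2 / ‖b - a‖ * ‖z - b‖ := by
    rw [div_mul_eq_mul_div, le_div_iff₀ hd, one_mul]
    exact h1
  have h3 : ‖z‖ ≤ ‖b‖ + ‖z - b‖ := by
    calc ‖z‖ = ‖b + (z - b)‖ := by congr 1; ring
      _ ≤ ‖b‖ + ‖z - b‖ := norm_add_le _ _
  have h4 : (1 + ‖b‖) * 1 ≤ (1 + ‖b‖) * (2 / ‖b - a‖ * ‖z - b‖) := by gcongr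
  nlinarith

/-- The bound for the product of powers of the distances to the points of a finite set. -/
lemma prod_bound (S : Finset ℂ) (e : ℂ → ℝ) (he0 : ∀ a ∈ S, 0 ≤ e a) (he2 : ∀ a ∈ S, e a < 2)
    {m : ℕ} (hm : (m : ℝ) + 2 < ∑ a ∈ S, e a) :
    ∃ G : ℂ → ℝ, Integrable G ∧ ∀ z : ℂ, ‖z‖ ^ m * ∏ a ∈ S, ‖z - a‖ ^ (-(e a)) ≤ G z := by
  classical
  have hSne : S.Nonempty := by
    rw [Finset.nonempty_iff_ne_empty]
    rintro rfl
    rw [Finset.sum_empty] at hm
    have : (0 : ℝ) ≤ m := by positivity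
    linarith
  have hex : ∀ a b : ℂ, ∃ c : ℝ, 0 < c ∧
      (b ≠ a → ∀ z : ℂ, ‖z - a‖ ≤ ‖z - b‖ → c * (1 + ‖z‖) ≤ ‖z - b‖) := by
    intro a b
    by_cases hab : b ≠ a
    · obtain ⟨c, hc, h⟩ := far_root hab
      exact ⟨c, hc, fun _ => h⟩
    · exact ⟨1, one_pos, fun h => absurd h hab⟩
  choose c hc hfar using hex
  set t : ℂ → ℝ := fun a => (∑ b ∈ S.erase a, e b) - m with ht
  have hsplit : ∀ a ∈ S, e a + (∑ b ∈ S.erase a, e b) = ∑ b ∈ S, e b := fun a ha =>
    Finset.add_sum_erase S e ha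
  have hst : ∀ a ∈ S, 2 < e a + t a := by
    intro a ha
    have := hsplit a ha
    simp only [ht]
    linarith
  have ht0 : ∀ a ∈ S, 0 ≤ t a := by
    intro a ha
    have h1 := hst a ha
    have h2 := he2 a ha
    linarith
  set A : ℂ → ℝ := fun a => ∏ b ∈ S.erase a, c a b ^ (-(e b)) with hA
  have hA0 : ∀ a, 0 ≤ A a := fun a => Finset.prod_nonneg fun b _ => Real.rpow_nonneg (hc a b).le _
  refine ⟨fun z => ∑ a ∈ S, A a * (1 + ‖a‖) ^ (t a) * FreySparse.kst (e a) (t a) (z - a), ?_, ?_⟩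
  · refine integrable_finsetSum _ fun a ha => ?_
    exact ((FreySparse.kst_integrable (he2 a ha) (ht0 a ha) (hst a ha)).comp_sub_right a).const_mul _
  · intro z
    have hz1 : 0 < 1 + ‖z‖ := by positivity
    obtain ⟨a, ha, hmin⟩ := Finset.exists_min_image S (fun b => ‖z - b‖) hSne
    -- the other factors
    have h1 : ∏ b ∈ S.erase a, ‖z - b‖ ^ (-(e b)) ≤
        A a * (1 + ‖z‖) ^ (-(∑ b ∈ S.erase a, e b)) := by
      have e1 : (1 + ‖z‖) ^ (-(∑ b ∈ S.erase a, e b)) = ∏ b ∈ S.erase a, (1 + ‖z‖) ^ (-(e b)) := by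
        rw [← Finset.sum_neg_distrib, Real.rpow_sum_of_pos hz1]
      rw [e1, hA, ← Finset.prod_mul_distrib]
      refine Finset.prod_le_prod (fun b _ => Real.rpow_nonneg (norm_nonneg _) _) ?_
      intro b hb
      have hb1 : b ≠ a := Finset.ne_of_mem_erase hb
      have hb2 : b ∈ S := Finset.mem_of_mem_erase hb
      rw [← Real.mul_rpow (hc a b).le hz1.le]
      refine Real.rpow_le_rpow_of_nonpos (mul_pos (hc a b) hz1) ?_ (by linarith [he0 b hb2])
      exact hfar a b hb1 z (hmin b hb2)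
    have h2 : (1 + ‖z‖) ^ (-(t a)) ≤ (1 + ‖a‖) ^ (t a) * (1 + ‖z - a‖) ^ (-(t a)) := by
      have e1 : 1 + ‖z - a‖ ≤ (1 + ‖z‖) * (1 + ‖a‖) := by
        have := norm_sub_le z a
        nlinarith [norm_nonneg z, norm_nonneg a]
      have e2 : (1 + ‖z - a‖) ^ (t a) ≤ (1 + ‖z‖) ^ (t a) * (1 + ‖a‖) ^ (t a) := by
        rw [← Real.mul_rpow (by positivity) (by positivity)]
        exact Real.rpow_le_rpow (by positivity) e1 (ht0 a ha)
      rw [Real.rpow_neg (by positivity), Real.rpow_neg (by positivity),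
        ← div_eq_mul_inv, le_div_iff₀ (by positivity), inv_mul_le_iff₀ (by positivity)]
      exact e2
    have h3 : ‖z‖ ^ m ≤ (1 + ‖z‖) ^ (m : ℝ) := by
      rw [Real.rpow_natCast]
      gcongr
      linarith
    calc ‖z‖ ^ m * ∏ b ∈ S, ‖z - b‖ ^ (-(e b))
        = ‖z - a‖ ^ (-(e a)) * (‖z‖ ^ m * ∏ b ∈ S.erase a, ‖z - b‖ ^ (-(e b))) := by
          rw [← Finset.mul_prod_erase S _ ha]
          ring
      _ ≤ ‖z - a‖ ^ (-(e a)) * ((1 + ‖z‖) ^ (m : ℝ) *
            (A a * (1 + ‖z‖) ^ (-(∑ b ∈ S.erase a, e b)))) := by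
          refine mul_le_mul_of_nonneg_left ?_ (Real.rpow_nonneg (norm_nonneg _) _)
          refine mul_le_mul h3 h1 (Finset.prod_nonneg fun b _ =>
            Real.rpow_nonneg (norm_nonneg _) _) (by positivity)
      _ = A a * ‖z - a‖ ^ (-(e a)) * (1 + ‖z‖) ^ (-(t a)) := by
          have e3 : (1 + ‖z‖) ^ (-(t a)) =
              (1 + ‖z‖) ^ (m : ℝ) * (1 + ‖z‖) ^ (-(∑ b ∈ S.erase a, e b)) := by
            rw [← Real.rpow_add hz1]
            congr 1
            simp only [ht]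
            ring
          rw [e3]
          ring
      _ ≤ A a * ‖z - a‖ ^ (-(e a)) * ((1 + ‖a‖) ^ (t a) * (1 + ‖z - a‖) ^ (-(t a))) := by
          refine mul_le_mul_of_nonneg_left h2 ?_
          exact mul_nonneg (hA0 a) (Real.rpow_nonneg (norm_nonneg _) _)
      _ = A a * (1 + ‖a‖) ^ (t a) * FreySparse.kst (e a) (t a) (z - a) := by
          unfold FreySparse.kst
          ring
      _ ≤ ∑ a ∈ S, A a * (1 + ‖a‖) ^ (t a) * FreySparse.kst (e a) (t a) (z - a) := by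
          refine Finset.single_le_sum
            (f := fun a => A a * (1 + ‖a‖) ^ (t a) * FreySparse.kst (e a) (t a) (z - a)) ?_ ha
          intro b _
          exact mul_nonneg (mul_nonneg (hA0 b) (by positivity)) (FreySparse.kst_nonneg _ _ _)

/-- The absolute value of a polynomial in terms of its roots. -/
lemma norm_eval_eq {F : ℂ[X]} {S : Finset ℂ} (hS : F.roots.toFinset ⊆ S) (z : ℂ) :
    ‖F.eval z‖ = ‖F.leadingCoeff‖ * ∏ a ∈ S, ‖z - a‖ ^ (F.roots.count a) := by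
  classical
  have hsplit : F.Splits := IsAlgClosed.splits F
  have h1 : F.eval z = F.leadingCoeff * ∏ a ∈ S, (z - a) ^ (F.roots.count a) := by
    conv_lhs => rw [hsplit.eq_prod_roots]
    rw [eval_mul, eval_C, Finset.prod_multiset_map_count, eval_prod]
    congr 1
    rw [← Finset.prod_subset hS]
    · refine Finset.prod_congr rfl fun a _ => ?_
      rw [eval_pow, eval_sub, eval_X, eval_C]
    · intro a _ ha
      rw [Multiset.mem_toFinset] at ha
      rw [Multiset.count_eq_zero_of_notMem ha, pow_zero]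
  rw [h1, norm_mul, norm_prod]
  congr 1
  exact Finset.prod_congr rfl fun a _ => norm_pow _ _

variable {ι : Type*}

/-- The bound for the weight of finitely many polynomials whose product has no multiple root. -/
theorem weight_bound (I : Finset ι) (s : ι → ℝ) (F : ι → ℂ[X]) (hF : (∏ i ∈ I, F i).Separable)
    (hs0 : ∀ i ∈ I, 0 ≤ s i) (hs2 : ∀ i ∈ I, s i < 2) {m : ℕ}
    (hm : (m : ℝ) + 2 < ∑ i ∈ I, s i * (F i).natDegree) :
    ∃ G : ℂ → ℝ, Integrable G ∧
      ∀ z : ℂ, ‖z‖ ^ m * (∏ i ∈ I, ‖(F i).eval z‖ ^ (s i))⁻¹ ≤ G z := by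
  classical
  have hP0 : (∏ i ∈ I, F i) ≠ 0 := hF.ne_zero
  have hF0 : ∀ i ∈ I, F i ≠ 0 := fun i hi => Finset.prod_ne_zero_iff.mp hP0 i hi
  set S : Finset ℂ := (∏ i ∈ I, F i).roots.toFinset with hS
  set e : ℂ → ℝ := fun a => ∑ i ∈ I, s i * ((F i).roots.count a : ℝ) with he
  have hsub : ∀ i ∈ I, (F i).roots.toFinset ⊆ S := by
    intro i hi a ha
    rw [Multiset.mem_toFinset, mem_roots (hF0 i hi)] at ha
    rw [hS, Multiset.mem_toFinset, mem_roots hP0, IsRoot.def, eval_prod]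
    exact Finset.prod_eq_zero hi ha
  -- the number of the polynomials vanishing at a point
  have hcount : ∀ a : ℂ, ∑ i ∈ I, (F i).roots.count a ≤ 1 := by
    intro a
    have h1 : (∏ i ∈ I, F i).roots.count a ≤ 1 := count_roots_le_one hF a
    rw [roots_prod F I hP0, Multiset.count_bind] at h1
    exact h1
  have he0 : ∀ a ∈ S, 0 ≤ e a := fun a _ =>
    Finset.sum_nonneg fun i hi => mul_nonneg (hs0 i hi) (Nat.cast_nonneg _)
  have he2 : ∀ a ∈ S, e a < 2 := by
    intro a _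
    by_cases hall : ∀ i ∈ I, (F i).roots.count a = 0
    · have : e a = 0 := Finset.sum_eq_zero fun i hi => by rw [hall i hi]; simp
      rw [this]
      norm_num
    · push Not at hall
      obtain ⟨i₀, hi₀, hne⟩ := hall
      have h1 : e a < ∑ i ∈ I, 2 * ((F i).roots.count a : ℝ) := by
        refine Finset.sum_lt_sum ?_ ⟨i₀, hi₀, ?_⟩
        · intro i hi
          exact mul_le_mul_of_nonneg_right (hs2 i hi).le (Nat.cast_nonneg _)
        · have : (0 : ℝ) < ((F i₀).roots.count a : ℝ) := by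
            exact_mod_cast Nat.pos_of_ne_zero hne
          exact mul_lt_mul_of_pos_right (hs2 i₀ hi₀) this
      have h2 : ∑ i ∈ I, 2 * ((F i).roots.count a : ℝ) ≤ 2 := by
        rw [← Finset.mul_sum]
        have h3 : (∑ i ∈ I, ((F i).roots.count a : ℝ)) ≤ 1 := by
          exact_mod_cast hcount a
        linarith
      linarith
  have hsum : ∑ a ∈ S, e a = ∑ i ∈ I, s i * (F i).natDegree := by
    simp only [he]
    rw [Finset.sum_comm]
    refine Finset.sum_congr rfl fun i hi => ?_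
    rw [← Finset.mul_sum]
    congr 1
    have h1 : ∑ a ∈ S, (F i).roots.count a = (F i).natDegree := by
      rw [(IsAlgClosed.splits (F i)).natDegree_eq_card_roots,
        ← Multiset.toFinset_sum_count_eq (F i).roots]
      symm
      apply Finset.sum_subset (hsub i hi)
      intro a _ ha
      rw [Multiset.mem_toFinset] at ha
      exact Multiset.count_eq_zero_of_notMem ha
    exact_mod_cast h1
  have hm' : (m : ℝ) + 2 < ∑ a ∈ S, e a := by rw [hsum]; exact hm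
  obtain ⟨G, hG, hle⟩ := prod_bound S e he0 he2 hm'
  set A : ℝ := (∏ i ∈ I, ‖(F i).leadingCoeff‖ ^ (s i))⁻¹ with hA
  have hA0 : 0 ≤ A := inv_nonneg.mpr (Finset.prod_nonneg fun i _ =>
    Real.rpow_nonneg (norm_nonneg _) _)
  refine ⟨fun z => A * G z, hG.const_mul _, fun z => ?_⟩
  have hkey : (∏ i ∈ I, ‖(F i).eval z‖ ^ (s i))⁻¹ = A * ∏ a ∈ S, ‖z - a‖ ^ (-(e a)) := by
    have h1 : ∏ i ∈ I, ‖(F i).eval z‖ ^ (s i) =
        (∏ i ∈ I, ‖(F i).leadingCoeff‖ ^ (s i)) * ∏ a ∈ S, ‖z - a‖ ^ (e a) := by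
      have h2 : ∀ a : ℂ, ‖z - a‖ ^ (e a) = ∏ i ∈ I, ‖z - a‖ ^ (s i * ((F i).roots.count a : ℝ)) :=
        fun a => Real.rpow_sum_of_nonneg (norm_nonneg _)
          fun i hi => mul_nonneg (hs0 i hi) (Nat.cast_nonneg _)
      simp only [h2]
      rw [Finset.prod_comm, ← Finset.prod_mul_distrib]
      refine Finset.prod_congr rfl fun i hi => ?_
      rw [norm_eval_eq (hsub i hi) z, Real.mul_rpow (norm_nonneg _)
        (Finset.prod_nonneg fun a _ => by positivity)]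
      congr 1
      rw [← Real.finsetProd_rpow _ _ (fun a _ => by positivity)]
      refine Finset.prod_congr rfl fun a _ => ?_
      rw [← Real.rpow_natCast, ← Real.rpow_mul (norm_nonneg _), mul_comm]
    rw [h1, mul_inv, hA, ← Finset.prod_inv_distrib (f := fun a => ‖z - a‖ ^ (e a))]
    congr 1
    refine Finset.prod_congr rfl fun a _ => ?_
    rw [Real.rpow_neg (norm_nonneg _)]
  rw [hkey]
  calc ‖z‖ ^ m * (A * ∏ a ∈ S, ‖z - a‖ ^ (-(e a))) =
      A * (‖z‖ ^ m * ∏ a ∈ S, ‖z - a‖ ^ (-(e a))) := by ring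
    _ ≤ A * G z := mul_le_mul_of_nonneg_left (hle z) hA0

/-- The entries are integrals of integrable functions. -/
lemma entry_integrable (I : Finset ι) (s : ι → ℝ) (F : ι → ℂ[X])
    (hF : (∏ i ∈ I, F i).Separable) (hs0 : ∀ i ∈ I, 0 ≤ s i) (hs2 : ∀ i ∈ I, s i < 2) {a b : ℕ}
    (hab : (a : ℝ) + b + 2 < ∑ i ∈ I, s i * (F i).natDegree) :
    Integrable (fun z : ℂ => z ^ a * (conj z) ^ b *
      (((∏ i ∈ I, ‖(F i).eval z‖ ^ (s i))⁻¹ : ℝ) : ℂ)) := by
  obtain ⟨G, hG, hle⟩ := weight_bound I s F hF hs0 hs2 (m := a + b) (by push_cast; linarith)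
  have hmeas : ∀ i ∈ I, Measurable (fun z : ℂ => ‖(F i).eval z‖ ^ (s i)) := fun i _ => by
    have := (F i).continuous.measurable
    fun_prop
  have hmeas' : Measurable (fun z : ℂ => (∏ i ∈ I, ‖(F i).eval z‖ ^ (s i))⁻¹) :=
    (Finset.measurable_fun_prod I hmeas).inv
  refine Integrable.mono' hG ?_ (Filter.Eventually.of_forall fun z => ?_)
  · apply Measurable.aestronglyMeasurable
    have h2 : Measurable (fun z : ℂ =>
        (((∏ i ∈ I, ‖(F i).eval z‖ ^ (s i))⁻¹ : ℝ) : ℂ)) :=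
      Complex.measurable_ofReal.comp hmeas'
    have h3 : Measurable (fun z : ℂ => z ^ a * (conj z) ^ b) := by fun_prop
    exact h3.mul h2
  · refine le_trans (le_of_eq ?_) (hle z)
    have h4 : 0 ≤ (∏ i ∈ I, ‖(F i).eval z‖ ^ (s i))⁻¹ :=
      inv_nonneg.mpr (Finset.prod_nonneg fun i _ => Real.rpow_nonneg (norm_nonneg _) _)
    rw [norm_mul, norm_mul, norm_pow, norm_pow, RCLike.norm_conj, Complex.norm_real,
      Real.norm_of_nonneg h4, ← pow_add]

/-- A lower bound for the determinant of `r` times the matrix of a weight which is at least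
`1 / M` on the unit disc. -/
theorem gw_lower {g : ℕ} {w : ℂ → ℝ} (hint : ∀ i j : Fin g,
      Integrable (fun z : ℂ => z ^ (i : ℕ) * (conj z) ^ (j : ℕ) * ((w z : ℝ) : ℂ)))
    (hw0 : ∀ z, 0 ≤ w z) {M : ℝ} (hM0 : 0 < M) (hw : ∀ᵐ z : ℂ, ‖z‖ ≤ 1 → M⁻¹ ≤ w z)
    {r : ℝ} (hr : 0 < r) :
    (r * lam0 g / M) ^ g ≤ ‖(((r : ℝ) : ℂ) • gw g w).det‖ := by
  have hherm : (((r : ℝ) : ℂ) • gw g w).IsHermitian := by
    have h := gw_isHermitian g w
    unfold Matrix.IsHermitian at h ⊢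
    rw [Matrix.conjTranspose_smul, h]
    congr 1
    simp
  refine det_lower hherm (by have := lam0_pos g; positivity) ?_
  intro c
  have h1 : dotProduct (star c) (Matrix.mulVec (((r : ℝ) : ℂ) • gw g w) c) =
      ((r * ∫ z, ‖pc c z‖ ^ 2 * w z : ℝ) : ℂ) := by
    rw [Matrix.smul_mulVec, dotProduct_smul, quad_eq hint c]
    push_cast
    simp
  rw [h1, Complex.ofReal_re]
  have h2 : ∫ z, M⁻¹ * (‖pc c z‖ ^ 2 * wd z) ≤ ∫ z, ‖pc c z‖ ^ 2 * w z := by
    refine integral_mono_ae ?_ (quad_integrable hint c) ?_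
    · exact (quad_integrable (fun i j => wd_integrable i j) c).const_mul _
    · filter_upwards [hw] with z hz
      by_cases hz1 : z ∈ Metric.closedBall (0 : ℂ) 1
      · have hwd : wd z = 1 := by
          unfold wd
          rw [indicator_of_mem hz1]
          rfl
        rw [hwd, mul_one, mul_comm]
        exact mul_le_mul_of_nonneg_left (hz (mem_closedBall_zero_iff.mp hz1)) (by positivity)
      · have hwd : wd z = 0 := by
          unfold wd
          rw [indicator_of_notMem hz1]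
        rw [hwd]
        simp only [mul_zero]
        exact mul_nonneg (by positivity) (hw0 z)
  rw [integral_const_mul] at h2
  have h3 := disc_form c
  calc r * lam0 g / M * ∑ i, ‖c i‖ ^ 2 = r * (M⁻¹ * (lam0 g * ∑ i, ‖c i‖ ^ 2)) := by
        field_simp
    _ ≤ r * (M⁻¹ * ∫ z, ‖pc c z‖ ^ 2 * wd z) := by gcongr
    _ ≤ r * ∫ z, ‖pc c z‖ ^ 2 * w z := by gcongr

/-- The lower bound for the determinant of the matrix of the weight
`(∏ i, ‖F i z‖ ^ (s i))⁻¹`. -/
theorem gw_det_lower (I : Finset ι) (s : ι → ℝ) (F : ι → ℂ[X])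
    (hF : (∏ i ∈ I, F i).Separable) (hs0 : ∀ i ∈ I, 0 ≤ s i) (hs2 : ∀ i ∈ I, s i < 2) {g : ℕ}
    (hdeg : 2 * (g : ℝ) < ∑ i ∈ I, s i * (F i).natDegree) {r : ℝ} (hr : 0 < r)
    {M : ℝ} (hM0 : 0 < M) (hM : ∀ z : ℂ, ‖z‖ ≤ 1 → ∏ i ∈ I, ‖(F i).eval z‖ ^ (s i) ≤ M) :
    (r * lam0 g / M) ^ g ≤
      ‖(((r : ℝ) : ℂ) • gw g (fun z => (∏ i ∈ I, ‖(F i).eval z‖ ^ (s i))⁻¹)).det‖ := by
  classical
  have hP0 : (∏ i ∈ I, F i) ≠ 0 := hF.ne_zero
  refine gw_lower (fun i j => ?_) (fun z => ?_) hM0 ?_ hr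
  · refine entry_integrable I s F hF hs0 hs2 ?_
    have hi : ((i : ℕ) : ℝ) + 1 ≤ g := by exact_mod_cast i.2
    have hj : ((j : ℕ) : ℝ) + 1 ≤ g := by exact_mod_cast j.2
    linarith
  · exact inv_nonneg.mpr (Finset.prod_nonneg fun i _ => Real.rpow_nonneg (norm_nonneg _) _)
  · have hfin : (((∏ i ∈ I, F i).roots.toFinset : Finset ℂ) : Set ℂ).Finite :=
      Finset.finite_toSet _
    have hae : ∀ᵐ z : ℂ, z ∉ (((∏ i ∈ I, F i).roots.toFinset : Finset ℂ) : Set ℂ) :=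
      measure_eq_zero_iff_ae_notMem.mp (hfin.measure_zero _)
    filter_upwards [hae] with z hz hz1
    have hFz : (∏ i ∈ I, F i).eval z ≠ 0 := by
      intro h
      apply hz
      rw [Finset.mem_coe, Multiset.mem_toFinset, mem_roots hP0]
      exact h
    rw [eval_prod] at hFz
    have hpos : 0 < ∏ i ∈ I, ‖(F i).eval z‖ ^ (s i) := by
      refine Finset.prod_pos fun i hi => Real.rpow_pos_of_pos ?_ _
      exact norm_pos_iff.mpr (Finset.prod_ne_zero_iff.mp hFz i hi)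
    exact inv_anti₀ hpos (hM z hz1)

end FreyCyc
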