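import Mathlib
import Pool.Agent.Lib.MP_6babc4_nt.Sp.Defs

/-!
# Frey's inequality for cyclic covers of the projective line: definitions

`K` is a number field, `N ≥ 2`, `f 1, ..., f (N - 1)` polynomials over the ring of integers `𝓞 K`
whose product has no multiple root; the curve is `y ^ N = f₁(x) f₂(x)^2 ... f_(N-1)(x)^(N-1)`. (The
other values of `f : ℕ → (𝓞 K)[X]` play no role.) Its branch points are the roots of the `f i` and,
if `N` does not divide `∑ i deg (f i)`, the point at infinity. The ramification index of a root of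
`f i` is `N / gcd(N, i)`.

From `Sp/Defs.lean`: `FreySparse.ord P x` is the order of `x` at the prime `P`, `Above v P` means
that `P` lies above `v`, `Spl F` is the splitting field of the polynomial `F` over `K`, `rts F` the
set of its roots there, `Ramified F v` means that `v` is ramified in `Spl F`.
`FreyAvg.Box K H`: the elements of `𝓞 K` all of whose conjugates are at most `H`.
-/

open Polynomial NumberField MeasureTheory IsDedekindDomain Module
open scoped ComplexConjugate

namespace FreyCyc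

open FreySparse

/-- The sum of `(i j mod N) deg (f i)` over `1 ≤ i < N`. -/
noncomputable def sdeg {R : Type*} [CommRing R] (N j : ℕ) (f : ℕ → R[X]) : ℕ :=
  ∑ i ∈ Finset.Ico 1 N, (i * j % N) * (f i).natDegree

/-- The number of the holomorphic forms `x^a ∏ (f i)^[i j / N] dx / y^j`: the number of the `a ≥ 0`
with `N (a + 1) < sdeg N j f`. -/
noncomputable def forms {R : Type*} [CommRing R] (N j : ℕ) (f : ℕ → R[X]) : ℕ :=
  (sdeg N j f - 1) / N

/-- The Gram matrix of the forms `x^a ∏ (F i)^[i j / N] dx / (N y^j)`, `0 ≤ a < forms N j F`, on the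
curve `y^N = ∏ (F i)^i` over `ℂ`: the entries are
`(1/N) ∫_ℂ z^a conj(z)^b / ∏ |F i (z)|^(2 (i j mod N) / N) d²z`. -/
noncomputable def gram (N j : ℕ) (F : ℕ → ℂ[X]) :
    Matrix (Fin (forms N j F)) (Fin (forms N j F)) ℂ :=
  Matrix.of fun a b =>
    (1 / (N : ℂ)) * ∫ z : ℂ, z ^ (a : ℕ) * (conj z) ^ (b : ℕ) /
      ((∏ i ∈ Finset.Ico 1 N, ‖(F i).eval z‖ ^ (2 * ((i * j % N : ℕ) : ℝ) / N) : ℝ) : ℂ)

section points

variable {F : Type*} [Field F]

/-- Homogeneous coordinates: `(x, 1)` for a finite point `x` and `(1, 0)` for infinity. -/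
def vec (z : OnePoint F) : F × F := z.elim (1, 0) fun x => (x, 1)

/-- The determinant of the coordinates: `a - b` for finite points. -/
def dt (a b : OnePoint F) : F := (vec a).1 * (vec b).2 - (vec a).2 * (vec b).1

/-- The cross ratio of four points. -/
def cr (a b c d : OnePoint F) : F := dt a b * dt c d / (dt a c * dt b d)

end points

/-- The product of the `f i`, `1 ≤ i < N`. -/
noncomputable def tot {R : Type*} [CommRing R] (N : ℕ) (f : ℕ → R[X]) : R[X] :=
  ∏ i ∈ Finset.Ico 1 N, f i

/-- The weight of the point at infinity: the residue of `- ∑ i deg (f i)` modulo `N`. -/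
noncomputable def winf {R : Type*} [CommRing R] (N : ℕ) (f : ℕ → R[X]) : ℕ :=
  (N - sdeg N 1 f % N) % N

variable {K : Type*} [Field K] [NumberField K]

/-- The images of the `f i` under the embedding `σ` of `K`. -/
noncomputable def im (σ : K →+* ℂ) (f : ℕ → (𝓞 K)[X]) (i : ℕ) : ℂ[X] :=
  (f i).map (σ.comp (algebraMap (𝓞 K) K))

/-- The height of `f`: minus `1 / (2 [K : ℚ])` times the sum over all the complex embeddings `σ` of
`K` and over `1 ≤ j < N` of `log |det (gram N j (σ f))|`. -/
noncomputable def height (N : ℕ) (f : ℕ → (𝓞 K)[X]) : ℝ :=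
  -(1 / (2 * (finrank ℚ K : ℝ))) *
    ∑ σ : K →+* ℂ, ∑ j ∈ Finset.Ico 1 N, Real.log ‖(gram N j (im σ f)).det‖

/-- The branch points, over the splitting field of the product of the `f i`. -/
def bp (N : ℕ) (f : ℕ → (𝓞 K)[X]) : Set (OnePoint (Spl (tot N f))) :=
  {z | (∃ x ∈ rts (tot N f), z = (x : OnePoint (Spl (tot N f)))) ∨
    (z = OnePoint.infty ∧ winf N f ≠ 0)}

/-- The bad primes: not above `N`, and either ramified in the splitting field, or such that the
order of some cross ratio of four branch points (at some prime above) is not divisible by `q`. -/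
def Bad (N q : ℕ) (f : ℕ → (𝓞 K)[X]) (v : HeightOneSpectrum (𝓞 K)) : Prop :=
  (N : 𝓞 K) ∉ v.asIdeal ∧
    (Ramified (tot N f) v ∨ ∃ P : HeightOneSpectrum (𝓞 (Spl (tot N f))), Above v P ∧
      ∃ a ∈ bp N f, ∃ b ∈ bp N f, ∃ c ∈ bp N f, ∃ d ∈ bp N f,
        a ≠ b ∧ a ≠ c ∧ a ≠ d ∧ b ≠ c ∧ b ≠ d ∧ c ≠ d ∧ ¬ (q : ℤ) ∣ ord P (cr a b c d))

/-- The product of the norms of the bad primes. -/
noncomputable def cond (N q : ℕ) (f : ℕ → (𝓞 K)[X]) : ℕ :=
  ∏ᶠ (v : HeightOneSpectrum (𝓞 K)) (_ : Bad N q f v), Ideal.absNorm v.asIdeal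

/-- Frey's inequality for `f` with the constants `κ` and `c`. -/
def Frey (N q : ℕ) (κ c : ℝ) (f : ℕ → (𝓞 K)[X]) : Prop :=
  height N f ≤ κ * Real.log (|(NumberField.discr K : ℝ)| * cond N q f) + c

/-- The families `f 1, ..., f (N - 1)` with coefficients in `Box K H` whose product has degree `n`
and no multiple root, such that the ramification index `N / gcd(N, i)` of the roots of `f i` is
divisible by `q` for each nonconstant `f i`. -/
def Fam (K : Type*) [Field K] [NumberField K] (N q n : ℕ) (H : ℝ) : Set (ℕ → (𝓞 K)[X]) :=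
  {f | (∀ i ∈ Finset.Ico 1 N, ∀ k, (f i).coeff k ∈ FreyAvg.Box K H) ∧
    (∀ i ∈ Finset.Ico 1 N, (f i).natDegree ≠ 0 → q ∣ N / N.gcd i) ∧
    (tot N f).natDegree = n ∧ ((tot N f).map (algebraMap (𝓞 K) K)).Separable}

/-- The branch points of weight `i` over `ℂ`. -/
def branch (N : ℕ) (F : ℕ → ℂ[X]) (i : ℕ) : Set (OnePoint ℂ) :=
  {z | (∃ x : ℂ, (F i).eval x = 0 ∧ z = (x : OnePoint ℂ)) ∨ (z = OnePoint.infty ∧ winf N F = i)}

open Classical in
/-- Some Möbius transformation over `ℂ` carries the branch points of each weight `1 ≤ i < N` of the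
first curve onto those of the second: the two covers of the projective line are isomorphic over
`ℂ`. -/
def Iso (N : ℕ) (F G : ℕ → ℂ[X]) : Prop :=
  ∃ g : Matrix.GeneralLinearGroup (Fin 2) ℂ, ∀ i ∈ Finset.Ico 1 N, ∀ z : OnePoint ℂ,
    z ∈ branch N F i ↔ g • z ∈ branch N G i

end FreyCyc
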