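import Pool.Agent.Lib.MP_6babc4_nt.Cyc.Mob
import Pool.Agent.Lib.MP_6babc4_nt.Cyc.CrC

/-!
# Module Enu: the branch points have a code with cross ratios in `CRset`

PROOF. `τ : Spl (tot N f) →+* ℂ` extends `σ` (`IsAlgClosed.lift`, `σ.toAlgebra`). The points of
`bp N f` are the `n` roots of `tot N f` in the splitting field (it splits and is separable:
`card_roots`) and, if `winf N f ≠ 0`, infinity: `m = n` or `n + 1`. Number them `y 0, ..., y (m - 1)`
(`Finset.equivFin` or a list without duplicates) and put `z j = (y j).map τ`, injective because `τ`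
is. The weight `w j` of a root `x` is the unique `1 ≤ i < N` with `(f i)(x) = 0` (it exists as `x` is a
root of the product; it is unique because the product is separable: two factors with a common
root give a double root), the weight of infinity is `winf N f < N`. `branch N (im σ f) i`: a root
`x' ∈ ℂ` of `im σ f i` is `τ x` for a root `x` of `f i` in the splitting field (`f i` splits there as it
divides `tot`: `Polynomial.Splits`, roots of the map = map of the roots), and
`winf N (im σ f) = winf N f` (`natDegree_map_eq_of_injective`). The cross ratios: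
`cr (map τ a) (map τ b) (map τ c) (map τ e) = τ (cr a b c e)` (`dt` and `vec` commute with `τ`).
(`N ≥ 2`: for `N ≤ 1` the product `tot N f` is `1`, of degree `0 < n`.)
-/

set_option autoImplicit false

open Polynomial NumberField IsDedekindDomain Module

namespace FreyCyc

open FreySparse

variable {K : Type} [Field K] [NumberField K]

private lemma enu_vec {F F' : Type*} [Field F] [Field F'] (τ : F →+* F') (a : OnePoint F) :
    vec (a.map τ) = (τ (vec a).1, τ (vec a).2) := by
  induction a using OnePoint.rec with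
  | infty =>
    change ((1 : F'), (0 : F')) = (τ 1, τ 0)
    rw [map_one, map_zero]
  | coe x =>
    change (τ x, (1 : F')) = (τ x, τ 1)
    rw [map_one]

private lemma enu_dt {F F' : Type*} [Field F] [Field F'] (τ : F →+* F') (a b : OnePoint F) :
    dt (a.map τ) (b.map τ) = τ (dt a b) := by
  unfold dt
  rw [enu_vec, enu_vec, map_sub, map_mul, map_mul]

theorem cr_map {F F' : Type*} [Field F] [Field F'] (τ : F →+* F') (a b c e : OnePoint F) :
    cr (a.map τ) (b.map τ) (c.map τ) (e.map τ) = τ (cr a b c e) := by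
  unfold cr
  rw [enu_dt, enu_dt, enu_dt, enu_dt, map_div₀, map_mul, map_mul]

private lemma enu_map_inj {F F' : Type*} [Field F] [Field F'] (τ : F →+* F') :
    Function.Injective (OnePoint.map τ : OnePoint F → OnePoint F') := by
  intro a b h
  induction a using OnePoint.rec with
  | infty =>
    induction b using OnePoint.rec with
    | infty => rfl
    | coe y => exact absurd h.symm (OnePoint.coe_ne_infty _)
  | coe x =>
    induction b using OnePoint.rec with
    | infty => exact absurd h (OnePoint.coe_ne_infty _)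
    | coe y =>
      rw [OnePoint.map_some, OnePoint.map_some, OnePoint.coe_eq_coe] at h
      rw [τ.injective h]

/-- The points of weight `i` over the splitting field. -/
private def enuB (N : ℕ) (f : ℕ → (𝓞 K)[X]) (i : ℕ) : Set (OnePoint (Spl (tot N f))) :=
  {z | (∃ x : Spl (tot N f), aeval x ((f i).map (algebraMap (𝓞 K) K)) = 0 ∧
    z = (x : OnePoint (Spl (tot N f)))) ∨ (z = OnePoint.infty ∧ winf N f = i)}

omit [NumberField K] in
private lemma enu_winf_lt {N : ℕ} (f : ℕ → (𝓞 K)[X]) (hN : 0 < N) : winf N f < N :=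
  Nat.mod_lt _ hN

omit [NumberField K] in
private lemma enu_tot_map (N : ℕ) (f : ℕ → (𝓞 K)[X]) :
    (tot N f).map (algebraMap (𝓞 K) K) =
      ∏ i ∈ Finset.Ico 1 N, (f i).map (algebraMap (𝓞 K) K) := by
  unfold tot
  rw [Polynomial.map_prod]

omit [NumberField K] in
private lemma enu_aeval {L : Type} [Field L] [Algebra K L] (N : ℕ) (f : ℕ → (𝓞 K)[X]) (x : L) :
    aeval x ((tot N f).map (algebraMap (𝓞 K) K)) =
      ∏ i ∈ Finset.Ico 1 N, aeval x ((f i).map (algebraMap (𝓞 K) K)) := by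
  rw [enu_tot_map, map_prod]

omit [NumberField K] in
private lemma enu_mem {N : ℕ} (hN : 0 < N) {f : ℕ → (𝓞 K)[X]} {z : OnePoint (Spl (tot N f))} :
    z ∈ bp N f ↔ ∃ i ∈ Finset.Ico 1 N, z ∈ enuB N f i := by
  constructor
  · rintro (⟨x, hx, rfl⟩ | ⟨rfl, hw⟩)
    · have hx' : aeval x ((tot N f).map (algebraMap (𝓞 K) K)) = 0 := hx
      rw [enu_aeval, Finset.prod_eq_zero_iff] at hx'
      obtain ⟨i, hi, h⟩ := hx'
      exact ⟨i, hi, Or.inl ⟨x, h, rfl⟩⟩
    · exact ⟨winf N f, Finset.mem_Ico.mpr ⟨Nat.one_le_iff_ne_zero.mpr hw, enu_winf_lt f hN⟩,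
        Or.inr ⟨rfl, rfl⟩⟩
  · rintro ⟨i, hi, ⟨x, hx, rfl⟩ | ⟨rfl, hw⟩⟩
    · refine Or.inl ⟨x, ?_, rfl⟩
      change aeval x ((tot N f).map (algebraMap (𝓞 K) K)) = 0
      rw [enu_aeval]
      exact Finset.prod_eq_zero hi hx
    · refine Or.inr ⟨rfl, ?_⟩
      rw [hw]
      exact Nat.one_le_iff_ne_zero.mp (Finset.mem_Ico.mp hi).1

private lemma enu_uniq {N : ℕ} {f : ℕ → (𝓞 K)[X]}
    (hf : ((tot N f).map (algebraMap (𝓞 K) K)).Separable) {z : OnePoint (Spl (tot N f))}
    {i j : ℕ} (hi : i ∈ Finset.Ico 1 N) (hj : j ∈ Finset.Ico 1 N) (hzi : z ∈ enuB N f i)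
    (hzj : z ∈ enuB N f j) : i = j := by
  rcases hzi with ⟨x, hx, rfl⟩ | ⟨rfl, hw⟩
  · rcases hzj with ⟨y, hy, hxy⟩ | ⟨h, -⟩
    · have hxy' : x = y := OnePoint.coe_injective hxy
      subst hxy'
      by_contra hij
      have hdvd : (f i).map (algebraMap (𝓞 K) K) * (f j).map (algebraMap (𝓞 K) K) ∣
          (tot N f).map (algebraMap (𝓞 K) K) := by
        rw [enu_tot_map, ← Finset.mul_prod_erase _ _ hi]
        refine mul_dvd_mul_left _ ?_
        exact Finset.dvd_prod_of_mem (fun i => (f i).map (algebraMap (𝓞 K) K))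
          (Finset.mem_erase.mpr ⟨fun h => hij h.symm, hj⟩)
      obtain ⟨a, b, hab⟩ := (hf.of_dvd hdvd).isCoprime
      have h1 := congrArg (aeval x) hab
      rw [map_add, map_mul, map_mul, hx, hy, mul_zero, mul_zero, add_zero, map_one] at h1
      exact zero_ne_one h1
    · exact absurd h (OnePoint.coe_ne_infty _)
  · rcases hzj with ⟨y, hy, hxy⟩ | ⟨-, hw'⟩
    · exact absurd hxy.symm (OnePoint.coe_ne_infty _)
    · rw [← hw, ← hw']

omit [NumberField K] in
private lemma enu_winf (σ : K →+* ℂ) (N : ℕ) (f : ℕ → (𝓞 K)[X]) :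
    winf N (im σ f) = winf N f := by
  have hinj : Function.Injective (σ.comp (algebraMap (𝓞 K) K)) :=
    σ.injective.comp (FaithfulSMul.algebraMap_injective (𝓞 K) K)
  have h : sdeg N 1 (im σ f) = sdeg N 1 f := by
    unfold sdeg
    refine Finset.sum_congr rfl fun i _ => ?_
    rw [im, natDegree_map_eq_of_injective hinj]
  unfold winf
  rw [h]

omit [NumberField K] in
private lemma enu_eval (σ : K →+* ℂ) {N : ℕ} {f : ℕ → (𝓞 K)[X]} {τ : Spl (tot N f) →+* ℂ}
    (hτ : ∀ x : K, τ (algebraMap K (Spl (tot N f)) x) = σ x) (g : (𝓞 K)[X])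
    (x : Spl (tot N f)) : (g.map (σ.comp (algebraMap (𝓞 K) K))).eval (τ x) =
      τ (aeval x (g.map (algebraMap (𝓞 K) K))) := by
  have h : σ = τ.comp (algebraMap K (Spl (tot N f))) := RingHom.ext fun y => (hτ y).symm
  rw [h, aeval_def, RingHom.comp_assoc, ← Polynomial.map_map, ← Polynomial.map_map, eval_map,
    Polynomial.eval₂_hom, eval_map]

omit [NumberField K] in
private lemma enu_branch (σ : K →+* ℂ) {N : ℕ} {f : ℕ → (𝓞 K)[X]}
    (hf : ((tot N f).map (algebraMap (𝓞 K) K)).Separable) {τ : Spl (tot N f) →+* ℂ}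
    (hτ : ∀ x : K, τ (algebraMap K (Spl (tot N f)) x) = σ x) {i : ℕ} (hi : i ∈ Finset.Ico 1 N)
    (z : OnePoint ℂ) : z ∈ branch N (im σ f) i ↔ ∃ p ∈ enuB N f i, z = p.map τ := by
  constructor
  · rintro (⟨x', hx', rfl⟩ | ⟨rfl, hw⟩)
    · have hP : (((tot N f).map (algebraMap (𝓞 K) K)).map
          (algebraMap K (Spl (tot N f)))).Splits := SplittingField.splits _
      have hP0 : ((tot N f).map (algebraMap (𝓞 K) K)).map (algebraMap K (Spl (tot N f))) ≠ 0 :=
        (Polynomial.map_ne_zero_iff (algebraMap K (Spl (tot N f))).injective).mpr hf.ne_zero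
      have hmap : (((tot N f).map (algebraMap (𝓞 K) K)).map
          (algebraMap K (Spl (tot N f)))).map τ =
          (tot N f).map (σ.comp (algebraMap (𝓞 K) K)) := by
        have h : σ = τ.comp (algebraMap K (Spl (tot N f))) := RingHom.ext fun y => (hτ y).symm
        rw [Polynomial.map_map, Polynomial.map_map, h, RingHom.comp_assoc]
      have hroot : x' ∈ ((((tot N f).map (algebraMap (𝓞 K) K)).map
          (algebraMap K (Spl (tot N f)))).map τ).roots := by
        rw [mem_roots ((Polynomial.map_ne_zero_iff τ.injective).mpr hP0), IsRoot.def, hmap]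
        unfold tot
        rw [Polynomial.map_prod, eval_prod]
        exact Finset.prod_eq_zero hi hx'
      rw [hP.roots_map, Multiset.mem_map] at hroot
      obtain ⟨x, -, rfl⟩ := hroot
      refine ⟨(x : OnePoint (Spl (tot N f))), Or.inl ⟨x, ?_, rfl⟩, rfl⟩
      have h1 : (((f i)).map (σ.comp (algebraMap (𝓞 K) K))).eval (τ x) = 0 := hx'
      rw [enu_eval σ hτ] at h1
      exact (map_eq_zero τ).mp h1
    · refine ⟨OnePoint.infty, Or.inr ⟨rfl, ?_⟩, rfl⟩
      rw [← hw, enu_winf]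
  · rintro ⟨p, ⟨x, hx, rfl⟩ | ⟨rfl, hw⟩, rfl⟩
    · refine Or.inl ⟨τ x, ?_, rfl⟩
      change (((f i)).map (σ.comp (algebraMap (𝓞 K) K))).eval (τ x) = 0
      rw [enu_eval σ hτ, hx, map_zero]
    · exact Or.inr ⟨rfl, by rw [enu_winf, hw]⟩

omit [NumberField K] in
private lemma enu_ext (σ : K →+* ℂ) (g : (𝓞 K)[X]) :
    ∃ τ : Spl g →+* ℂ, ∀ x : K, τ (algebraMap K (Spl g) x) = σ x := by
  let _ : Algebra K ℂ := σ.toAlgebra
  let τ : Spl g →ₐ[K] ℂ := IsAlgClosed.lift
  exact ⟨τ.toRingHom, fun x => τ.commutes x⟩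

theorem code_exists (σ : K →+* ℂ) {N q n : ℕ} (hn : 3 ≤ n) {H Y : ℝ}
    {f : ℕ → (𝓞 K)[X]} (hf : f ∈ Fam K N q n H) (hY : |(discr K : ℝ)| * cond N q f ≤ Y) :
    ∃ (m : ℕ) (w : ℕ → ℕ) (r : ℕ → ℂ), m ≤ n + 1 ∧ (∀ j, w j < N) ∧
      (∀ j, r j = 0 ∨ r j ∈ CRset K σ N q n H Y) ∧ Code σ N f m w r := by
  classical
  obtain ⟨hbox, hq, hdeg, hsep⟩ := id hf
  have hN : 0 < N := by
    rcases Nat.eq_zero_or_pos N with rfl | h
    · exfalso
      have h1 : tot 0 f = 1 := by
        unfold tot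
        rfl
      rw [h1, natDegree_one] at hdeg
      omega
    · exact h
  obtain ⟨τ, hτ⟩ := enu_ext σ (tot N f)
  have h0 : tot N f ≠ 0 := by
    intro h
    rw [h, Polynomial.map_zero] at hsep
    exact not_separable_zero hsep
  have hrfin := rts_finite (tot N f) h0
  have hcinj : Function.Injective (fun x : Spl (tot N f) => (x : OnePoint (Spl (tot N f)))) :=
    OnePoint.coe_injective
  have hsub1 : (fun x : Spl (tot N f) => (x : OnePoint (Spl (tot N f)))) '' rts (tot N f) ⊆
      bp N f := by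
    rintro _ ⟨x, hx, rfl⟩
    exact Or.inl ⟨x, hx, rfl⟩
  have hsub2 : bp N f ⊆ insert OnePoint.infty
      ((fun x : Spl (tot N f) => (x : OnePoint (Spl (tot N f)))) '' rts (tot N f)) := by
    rintro z (⟨x, hx, rfl⟩ | ⟨rfl, -⟩)
    · exact Or.inr ⟨x, hx, rfl⟩
    · exact Or.inl rfl
  have hbfin : (bp N f).Finite := ((hrfin.image _).insert _).subset hsub2
  have hcard : ((fun x : Spl (tot N f) => (x : OnePoint (Spl (tot N f)))) ''
      rts (tot N f)).ncard = n := by
    rw [Set.ncard_image_of_injective _ hcinj, card_rts hsep, hdeg]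
  have hm1 : n ≤ (bp N f).ncard := by
    rw [← hcard]
    exact Set.ncard_le_ncard hsub1 hbfin
  have hm2 : (bp N f).ncard ≤ n + 1 := by
    refine (Set.ncard_le_ncard hsub2 ((hrfin.image _).insert _)).trans ?_
    rw [← hcard]
    exact Set.ncard_insert_le _ _
  set m := (bp N f).ncard with hm
  -- the numbering
  have : Finite (bp N f) := hbfin
  let e : Fin m ≃ bp N f := (Finite.equivFinOfCardEq (Nat.card_coe_set_eq (bp N f))).symm
  let y : Fin m → OnePoint (Spl (tot N f)) := fun j => (e j).1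
  have hyinj : Function.Injective y := fun a b h => e.injective (Subtype.ext h)
  have hymem : ∀ j, y j ∈ bp N f := fun j => (e j).2
  have hysurj : ∀ p ∈ bp N f, ∃ j, y j = p := fun p hp =>
    ⟨e.symm ⟨p, hp⟩, by change (e (e.symm ⟨p, hp⟩)).1 = p; rw [e.apply_symm_apply]⟩
  choose wt hwt1 hwt2 using fun j => (enu_mem hN).mp (hymem j)
  let z : ℕ → OnePoint ℂ := fun j => if h : j < m then (y ⟨j, h⟩).map τ else OnePoint.infty
  have hz : ∀ j (h : j < m), z j = (y ⟨j, h⟩).map τ := fun j h => dif_pos h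
  let w : ℕ → ℕ := fun j => if h : j < m then wt ⟨j, h⟩ else 0
  have hw : ∀ j (h : j < m), w j = wt ⟨j, h⟩ := fun j h => dif_pos h
  let r : ℕ → ℂ := fun j => if 3 ≤ j ∧ j < m then cr (z 0) (z 1) (z 2) (z j) else 0
  refine ⟨m, w, r, hm2, ?_, ?_, by omega, z, ?_, ?_, ?_⟩
  · intro j
    by_cases h : j < m
    · rw [hw j h]
      exact (Finset.mem_Ico.mp (hwt1 ⟨j, h⟩)).2
    · change (if h : j < m then wt ⟨j, h⟩ else 0) < N
      rw [dif_neg h]
      exact hN
  · intro j
    by_cases h : 3 ≤ j ∧ j < m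
    · right
      have hr : r j = cr (z 0) (z 1) (z 2) (z j) := if_pos h
      have h0m : 0 < m := by omega
      have h1m : 1 < m := by omega
      have h2m : 2 < m := by omega
      rw [hr, hz 0 h0m, hz 1 h1m, hz 2 h2m, hz j h.2, cr_map]
      have hne : ∀ (a b : ℕ) (ha : a < m) (hb : b < m), a ≠ b → y ⟨a, ha⟩ ≠ y ⟨b, hb⟩ :=
        fun a b ha hb hab hy => hab (Fin.mk.inj_iff.mp (hyinj hy))
      exact ⟨f, hf, hY, τ, hτ, _, hymem ⟨0, h0m⟩, _, hymem ⟨1, h1m⟩, _, hymem ⟨2, h2m⟩, _,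
        hymem ⟨j, h.2⟩, hne _ _ _ _ (by omega), hne _ _ _ _ (by omega), hne _ _ _ _ (by omega),
        hne _ _ _ _ (by omega), hne _ _ _ _ (by omega), hne _ _ _ _ (by omega), rfl⟩
    · left
      exact if_neg h
  · intro a ha b hb hab
    rw [Set.mem_Iio] at ha hb
    rw [hz a ha, hz b hb] at hab
    exact Fin.mk.inj_iff.mp (hyinj (enu_map_inj τ hab))
  · intro i hi
    ext x
    rw [enu_branch σ hsep hτ hi, Set.mem_ofPred_eq]
    constructor
    · rintro ⟨p, hp, rfl⟩
      obtain ⟨j, rfl⟩ := hysurj p ((enu_mem hN).mpr ⟨i, hi, hp⟩)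
      refine ⟨j, j.2, ?_, ?_⟩
      · rw [hw j j.2]
        exact enu_uniq hsep (hwt1 j) hi (hwt2 j) hp
      · rw [hz j j.2]
    · rintro ⟨j, hj, hwj, rfl⟩
      refine ⟨y ⟨j, hj⟩, ?_, hz j hj⟩
      rw [hw j hj] at hwj
      rw [← hwj]
      exact hwt2 ⟨j, hj⟩
  · intro j h3 hj
    exact if_pos ⟨h3, hj⟩

end FreyCyc
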