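import Pool.Agent.Lib.MP_6babc4_nt.Cyc.Clo

/-!
# Module Inj: two numbers of small height are not close at all the primes above `p`

PROOF. `z = a - b ≠ 0`; product formula `∏_v |z|_v = 1` (`NumberField.prod_abs_eq_one`,
`FinitePlace`). For infinite `v`: `|z|_v ≤ 2 max(|a|,1) max(|b|,1)`, with the multiplicities the factor
is `2^[E:ℚ]`. For finite `v`: `|z|_v ≤ max(|a|,1) max(|b|,1)`; for `P` above `p` the closeness gives
`|z|_P ≤ N(P)^(-1) max(|a|_P,1) max(|b|_P,1)` (all three values are powers of `N(P)`, the valuation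
with values in `ℤᵐ⁰` is strictly smaller: `WithZero` discreteness). The product over the
`P ∋ p` of the `N(P)` is `p^[E:ℚ]`, because `p` is unramified: `p 𝓞 E = ∏ P` (no prime above `p`
divides the different: `NumberField.not_dvd_discr_iff...` or: if `P^2 ∣ (p)` then `P` divides the
different (`pow_sub_one_dvd_differentIdeal`), so `p ∣ |discr|` (`absNorm_differentIdeal`); so the
product of the distinct `P ∋ p` equals `(p)` (every prime factor has multiplicity one), take norms.
Together `1 ≤ 2^M h(a) h(b) p^(-M)` (`mulHeight₁_eq`).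
-/

set_option autoImplicit false

open Polynomial NumberField IsDedekindDomain Module Height

namespace FreyCyc

open FreySparse

variable {E : Type*} [Field E] [NumberField E]

private lemma inj_sq {p : ℕ} (hp : p.Prime) (hd : ¬ (p : ℤ) ∣ discr E)
    (P : HeightOneSpectrum (𝓞 E)) (hP : (p : 𝓞 E) ∈ P.asIdeal) :
    ¬ P.asIdeal ^ 2 ∣ Ideal.span {(p : 𝓞 E)} := by
  intro h
  have hmax := P.isMaximal
  have hZ : Prime (p : ℤ) := Nat.prime_iff_prime_int.1 hp
  have hspan : (Ideal.span {(p : ℤ)}).IsMaximal :=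
    PrincipalIdealRing.isMaximal_of_irreducible hZ.irreducible
  have hdvd : P.asIdeal ^ 2 ∣ (Ideal.span {(p : ℤ)}).map (algebraMap ℤ (𝓞 E)) := by
    rw [Ideal.map_span, Set.image_singleton]
    simpa using h
  have h7 : P.asIdeal ^ (2 - 1) ∣ differentIdeal ℤ (𝓞 E) :=
    pow_sub_one_dvd_differentIdeal ℤ P.asIdeal 2
      (by rw [Ne, Ideal.span_singleton_eq_bot]; exact hZ.ne_zero) hdvd
  rw [show 2 - 1 = 1 from rfl, pow_one] at h7
  have h8 : Ideal.absNorm P.asIdeal ∣ (discr E).natAbs := by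
    rw [← absNorm_differentIdeal E (𝓞 E)]
    exact map_dvd Ideal.absNorm h7
  have h9 : p ∣ Ideal.absNorm P.asIdeal := by
    have h10 : (Ideal.absNorm P.asIdeal : ℤ) ∣ Algebra.norm ℤ ((p : ℕ) : 𝓞 E) :=
      Ideal.absNorm_dvd_norm_of_mem hP
    have h11 : Algebra.norm ℤ ((p : ℕ) : 𝓞 E) = (p : ℤ) ^ (finrank ℤ (𝓞 E)) := by
      have : ((p : ℕ) : 𝓞 E) = algebraMap ℤ (𝓞 E) (p : ℤ) := by simp
      rw [this, Algebra.norm_algebraMap_of_basis (Free.chooseBasis ℤ (𝓞 E)),
        finrank_eq_card_chooseBasisIndex]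
    rw [h11] at h10
    have h12 : Ideal.absNorm P.asIdeal ∣ p ^ (finrank ℤ (𝓞 E)) := by exact_mod_cast h10
    obtain ⟨k, -, hk⟩ := (Nat.dvd_prime_pow hp).1 h12
    have hk0 : k ≠ 0 := by
      rintro rfl
      rw [pow_zero, Ideal.absNorm_eq_one_iff] at hk
      exact hmax.ne_top hk
    rw [hk]
    exact dvd_pow_self _ hk0
  exact hd (Int.natCast_dvd.2 (h9.trans h8))

private lemma inj_mult {p : ℕ} (hp : p.Prime) (hd : ¬ (p : ℤ) ∣ discr E)
    (P : HeightOneSpectrum (𝓞 E)) (hP : (p : 𝓞 E) ∈ P.asIdeal) :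
    multiplicity P.asIdeal (Ideal.span {(p : 𝓞 E)}) = 1 := by
  refine multiplicity_eq_of_dvd_of_not_dvd ?_ (inj_sq hp hd P hP)
  rw [pow_one, Ideal.dvd_span_singleton]
  exact hP

/-- The ideal `(p)` is the product of the distinct primes above `p`. -/
theorem span_eq_prod {p : ℕ} (hp : p.Prime) (hd : ¬ (p : ℤ) ∣ discr E) :
    ∃ S : Finset (HeightOneSpectrum (𝓞 E)), (∀ P, P ∈ S ↔ (p : 𝓞 E) ∈ P.asIdeal) ∧
      Ideal.span {(p : 𝓞 E)} = ∏ P ∈ S, P.asIdeal := by
  classical
  have hp0 : (p : 𝓞 E) ≠ 0 := Nat.cast_ne_zero.mpr hp.ne_zero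
  have hI : Ideal.span {(p : 𝓞 E)} ≠ ⊥ := by
    rw [Ne, Ideal.span_singleton_eq_bot]
    exact hp0
  have hfin : {P : HeightOneSpectrum (𝓞 E) | P.asIdeal ∣ Ideal.span {(p : 𝓞 E)}}.Finite :=
    Ideal.finite_factors hI
  have hmem : ∀ P, P ∈ hfin.toFinset ↔ (p : 𝓞 E) ∈ P.asIdeal := by
    intro P
    rw [Set.Finite.mem_toFinset, Set.mem_ofPred_eq, Ideal.dvd_span_singleton]
  have hone : ∀ P, P ∉ hfin.toFinset → multiplicity P.asIdeal (Ideal.span {(p : 𝓞 E)}) = 0 := by
    intro P hP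
    rw [hmem] at hP
    refine multiplicity_eq_zero.2 ?_
    rw [Ideal.dvd_span_singleton]
    exact hP
  refine ⟨hfin.toFinset, hmem, ?_⟩
  conv_lhs => rw [← Ideal.finprod_heightOneSpectrum_pow_multiplicity hI]
  rw [finprod_eq_prod_of_mulSupport_subset (s := hfin.toFinset)]
  · refine Finset.prod_congr rfl fun P hP => ?_
    rw [inj_mult hp hd P ((hmem P).1 hP), pow_one]
  · intro P hP
    rw [Finset.mem_coe]
    by_contra hcon
    apply hP
    show P.asIdeal ^ multiplicity P.asIdeal (Ideal.span {(p : 𝓞 E)}) = 1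
    rw [hone P hcon, pow_zero]

private lemma inj_val {p : ℕ} (hp : p.Prime) (hd : ¬ (p : ℤ) ∣ discr E)
    (P : HeightOneSpectrum (𝓞 E)) (hP : (p : 𝓞 E) ∈ P.asIdeal) :
    P.valuation E (p : E) = WithZero.exp (-1 : ℤ) := by
  have hp0 : (p : 𝓞 E) ≠ 0 := Nat.cast_ne_zero.mpr hp.ne_zero
  have hc : algebraMap (𝓞 E) E (p : 𝓞 E) = (p : E) := map_natCast _ _
  have h1 : 1 ≤ ord P (p : E) := by
    rw [← hc]
    exact (ord_pos_iff P hp0).2 hP
  have h2 : ¬ 2 ≤ ord P (p : E) := by
    intro h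
    rw [← hc] at h
    exact inj_sq hp hd P hP ((pow_dvd_iff P hp0 2).2 (by exact_mod_cast h))
  have h3 : ord P (p : E) = 1 := by omega
  unfold ord at h3
  have h4 : WithZero.log (P.valuation E (p : E)) = -1 := by omega
  have h5 : P.valuation E (p : E) ≠ 0 := by
    rw [Valuation.ne_zero_iff]
    exact Nat.cast_ne_zero.mpr hp.ne_zero
  rw [← h4, WithZero.exp_log h5]

private lemma inj_fin {p : ℕ} (hp : p.Prime) (hd : ¬ (p : ℤ) ∣ discr E) {a b : E}
    (h : ∀ P : HeightOneSpectrum (𝓞 E), (p : 𝓞 E) ∈ P.asIdeal → Clo P a b) (v : FinitePlace E) :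
    v (a - b) ≤ max (v a) 1 * max (v b) 1 * v (p : E) := by
  have hv : ∀ x : E, v x = ((WithZeroMulInt.toNNReal
      (NumberField.HeightOneSpectrum.absNorm_ne_zero v.maximalIdeal)
      (v.maximalIdeal.valuation E x) : NNReal) : ℝ) := by
    intro x
    rw [← FinitePlace.norm_embedding_eq v x, FinitePlace.norm_embedding']
  by_cases hP : (p : 𝓞 E) ∈ v.maximalIdeal.asIdeal
  · have h1 := h v.maximalIdeal hP
    unfold Clo at h1
    have h2 := inj_val hp hd v.maximalIdeal hP
    have h3 : v.maximalIdeal.valuation E (a - b) ≤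
        max (v.maximalIdeal.valuation E a) 1 * max (v.maximalIdeal.valuation E b) 1 *
          v.maximalIdeal.valuation E (p : E) := by
      rw [h2, ← WithZero.lt_mul_exp_iff_le]
      · rw [mul_assoc, ← WithZero.exp_add, neg_add_cancel, WithZero.exp_zero, mul_one]
        exact h1
      · refine mul_ne_zero (mul_ne_zero ?_ ?_) WithZero.exp_ne_zero
        · exact (lt_of_lt_of_le zero_lt_one (le_max_right _ _)).ne'
        · exact (lt_of_lt_of_le zero_lt_one (le_max_right _ _)).ne'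
    have hmono : Monotone (WithZeroMulInt.toNNReal
        (NumberField.HeightOneSpectrum.absNorm_ne_zero v.maximalIdeal)) :=
      (WithZeroMulInt.toNNReal_strictMono
        (NumberField.HeightOneSpectrum.one_lt_absNorm_nnreal
          v.maximalIdeal)).monotone
    have h4 := hmono h3
    rw [map_mul, map_mul, hmono.map_max, hmono.map_max, map_one] at h4
    rw [hv, hv, hv, hv]
    exact_mod_cast h4
  · have h1 : v (p : E) = 1 := by
      rw [← FinitePlace.norm_embedding_eq v]
      have h2 := (FinitePlace.norm_eq_one_iff_notMem E v.maximalIdeal (p : 𝓞 E)).2 hP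
      rwa [map_natCast] at h2
    rw [h1, mul_one]
    have h2 : v (a - b) ≤ max (v a) (v b) := by
      have h3 := FinitePlace.add_le v a (-b)
      rw [map_neg_eq_map, ← sub_eq_add_neg] at h3
      exact h3
    have ha : 1 ≤ max (v a) 1 := le_max_right _ _
    have hb : 1 ≤ max (v b) 1 := le_max_right _ _
    refine h2.trans (max_le ?_ ?_)
    · exact (le_max_left _ _).trans (le_mul_of_one_le_right (by linarith) hb)
    · exact (le_max_left _ _).trans (le_mul_of_one_le_left (by linarith) ha)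

private lemma inj_supp (a : E) : (fun v : FinitePlace E => max (v a) 1).HasFiniteMulSupport := by
  by_cases ha : a = 0
  · have : (fun v : FinitePlace E => max (v a) 1) = fun _ => 1 := by
      funext v
      rw [ha, map_zero]
      simp
    rw [this]
    simp [Function.HasFiniteMulSupport, Function.mulSupport]
  · refine (FinitePlace.hasFiniteMulSupport ha).subset ?_
    intro v hv
    rw [Function.mem_mulSupport] at hv ⊢
    intro h
    apply hv
    rw [h, max_self]

theorem clo_inj {p : ℕ} (hp : p.Prime) (hd : ¬ (p : ℤ) ∣ discr E) {a b : E} (hab : a ≠ b)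
    (h : ∀ P : HeightOneSpectrum (𝓞 E), (p : 𝓞 E) ∈ P.asIdeal → Clo P a b) :
    (p : ℝ) ^ finrank ℚ E ≤ 2 ^ finrank ℚ E * mulHeight₁ a * mulHeight₁ b := by
  classical
  have hp0 : (p : E) ≠ 0 := Nat.cast_ne_zero.mpr hp.ne_zero
  have hz : a - b ≠ 0 := sub_ne_zero.2 hab
  have hz1 := prod_abs_eq_one hz
  have hp1 := prod_abs_eq_one hp0
  have hpinf : ∏ w : InfinitePlace E, w (p : E) ^ w.mult = (p : ℝ) ^ finrank ℚ E := by
    have h1 : ∀ w : InfinitePlace E, w (p : E) = p := fun w => by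
      rw [← InfinitePlace.norm_embedding_eq, map_natCast, Complex.norm_natCast]
    rw [Finset.prod_congr rfl fun w _ => by rw [h1 w], Finset.prod_pow_eq_pow_sum,
      InfinitePlace.sum_mult_eq]
  rw [hpinf] at hp1
  -- the infinite places
  have hinf : ∏ w : InfinitePlace E, w (a - b) ^ w.mult ≤
      2 ^ finrank ℚ E * ((∏ w : InfinitePlace E, max (w a) 1 ^ w.mult) *
        ∏ w : InfinitePlace E, max (w b) 1 ^ w.mult) := by
    have h1 : (2 : ℝ) ^ finrank ℚ E = ∏ w : InfinitePlace E, (2 : ℝ) ^ w.mult := by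
      rw [Finset.prod_pow_eq_pow_sum, InfinitePlace.sum_mult_eq]
    rw [h1, ← Finset.prod_mul_distrib, ← Finset.prod_mul_distrib]
    refine Finset.prod_le_prod (fun w _ => pow_nonneg (apply_nonneg w _) _) fun w _ => ?_
    rw [← mul_pow, ← mul_pow]
    refine pow_le_pow_left₀ (apply_nonneg w _) ?_ _
    have h2 : w (a - b) ≤ w a + w b := by
      rw [← InfinitePlace.norm_embedding_eq, ← InfinitePlace.norm_embedding_eq,
        ← InfinitePlace.norm_embedding_eq, map_sub]
      exact norm_sub_le _ _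
    have ha : 1 ≤ max (w a) 1 := le_max_right _ _
    have hb : 1 ≤ max (w b) 1 := le_max_right _ _
    have ha' : w a ≤ max (w a) 1 := le_max_left _ _
    have hb' : w b ≤ max (w b) 1 := le_max_left _ _
    nlinarith
  -- the finite places
  have hsa := inj_supp a
  have hsb := inj_supp b
  have hsp := FinitePlace.hasFiniteMulSupport hp0
  have hsz := FinitePlace.hasFiniteMulSupport hz
  have hfin : ∏ᶠ v : FinitePlace E, v (a - b) ≤
      ((∏ᶠ v : FinitePlace E, max (v a) 1) * ∏ᶠ v : FinitePlace E, max (v b) 1) *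
        ∏ᶠ v : FinitePlace E, v (p : E) := by
    have hsab : (fun v : FinitePlace E => max (v a) 1 * max (v b) 1).HasFiniteMulSupport :=
      hsa.mul hsb
    have hsabp : (fun v : FinitePlace E =>
        max (v a) 1 * max (v b) 1 * v (p : E)).HasFiniteMulSupport := hsab.mul hsp
    rw [← finprod_mul_distrib hsa hsb, ← finprod_mul_distrib hsab hsp]
    refine finprod_le_finprod hsz (fun v => apply_nonneg v _) hsabp fun v => ?_
    exact inj_fin hp hd h v
  have hA0 : 0 ≤ ∏ w : InfinitePlace E, w (a - b) ^ w.mult :=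
    Finset.prod_nonneg fun w _ => pow_nonneg (apply_nonneg w _) _
  have hF0 : 0 ≤ ∏ᶠ v : FinitePlace E, v (a - b) := finprod_nonneg fun v => apply_nonneg v _
  have hpp : 0 ≤ (p : ℝ) ^ finrank ℚ E := by positivity
  rw [NumberField.mulHeight₁_eq, NumberField.mulHeight₁_eq]
  set A := ∏ w : InfinitePlace E, max (w a) 1 ^ w.mult with hA
  set B := ∏ w : InfinitePlace E, max (w b) 1 ^ w.mult with hB
  set A' := ∏ᶠ v : FinitePlace E, max (v a) 1 with hA'
  set B' := ∏ᶠ v : FinitePlace E, max (v b) 1 with hB'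
  set Pf := ∏ᶠ v : FinitePlace E, v (p : E) with hPf
  have hAB0 : 0 ≤ 2 ^ finrank ℚ E * (A * B) := hA0.trans hinf
  calc (p : ℝ) ^ finrank ℚ E = (p : ℝ) ^ finrank ℚ E * 1 := (mul_one _).symm
    _ = (p : ℝ) ^ finrank ℚ E *
        ((∏ w : InfinitePlace E, w (a - b) ^ w.mult) * ∏ᶠ v : FinitePlace E, v (a - b)) := by
        rw [hz1]
    _ ≤ (p : ℝ) ^ finrank ℚ E * ((2 ^ finrank ℚ E * (A * B)) * (A' * B' * Pf)) := by
        refine mul_le_mul_of_nonneg_left ?_ hpp
        exact mul_le_mul hinf hfin hF0 hAB0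
    _ = 2 ^ finrank ℚ E * (A * A') * (B * B') * ((p : ℝ) ^ finrank ℚ E * Pf) := by ring
    _ = 2 ^ finrank ℚ E * (A * A') * (B * B') := by rw [hp1, mul_one]

end FreyCyc
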