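import Pool.Agent.Lib.MP_6babc4_nt.Cyc.KDef
import Pool.Agent.Lib.MP_6babc4_nt.Cyc.Base

/-!
# Module KCnd: the conductor with the twists

PROOFS. As `bad_finite`, `cond_pos`, `cond_mem` in Base. `tw_ne`: `lead N f b ≠ 0` because the product
of the `f i` is separable: if `f i b = 0` then `f' i b ≠ 0` (`f i` divides `tot N f`, so it is
separable), the other factors are not zero by the case distinction; `a - b, c - b, a - c ≠ 0`.
`badT_finite`: there are finitely many triples of roots; for each of them `tw ≠ 0` and, for `z ≠ b, c`,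
`cr a b c z ≠ 0` (`dt_ne`; for `z = c` it is `0` and `ord P 0 = 0`), so `gauss` vanishes for all but
finitely many `P` (`base_ord` in Base, private: copy it). `cond_le`: the primes of `Bad` are among
those of `BadT`; the product over the larger finite set of numbers `≥ 1`.
-/

set_option autoImplicit false

open Polynomial NumberField IsDedekindDomain Module

namespace FreyCyc

open FreySparse

variable {K : Type} [Field K] [NumberField K]

theorem tw_ne (N : ℕ) {f : ℕ → (𝓞 K)[X]}
    (hf : ((tot N f).map (algebraMap (𝓞 K) K)).Separable) {a b c : Spl (tot N f)} (hab : a ≠ b)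
    (hac : a ≠ c) (hbc : b ≠ c) : tw N f a b c ≠ 0 := by
  classical
  unfold tw
  refine mul_ne_zero ?_ (pow_ne_zero _ (div_ne_zero (mul_ne_zero (sub_ne_zero.mpr hab)
    (sub_ne_zero.mpr hbc.symm)) (sub_ne_zero.mpr hac)))
  unfold lead
  rw [Finset.prod_ne_zero_iff]
  intro i hi
  refine pow_ne_zero _ ?_
  split_ifs with h
  · have hd : f i ∣ tot N f := Finset.dvd_prod_of_mem f hi
    have hs : ((f i).map (algebraMap (𝓞 K) K)).Separable :=
      hf.of_dvd (Polynomial.map_dvd _ hd)
    have h1 : aeval b ((f i).map (algebraMap (𝓞 K) K)) = 0 := by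
      rw [aeval_map_algebraMap]
      exact h
    have h2 := hs.aeval_derivative_ne_zero h1
    rw [derivative_map, aeval_map_algebraMap] at h2
    exact h2
  · exact h

private lemma kcnd_ord {L : Type} [Field L] [NumberField L] (x : L) :
    {P : HeightOneSpectrum (𝓞 L) | ord P x ≠ 0}.Finite := by
  by_cases hx : x = 0
  · refine Set.finite_empty.subset fun P hP => ?_
    apply hP
    rw [hx]
    unfold ord
    rw [map_zero, WithZero.log_zero, neg_zero]
  obtain ⟨r, s, hs, rfl⟩ := IsFractionRing.div_surjective (A := 𝓞 L) x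
  have hs0 : s ≠ 0 := nonZeroDivisors.ne_zero hs
  have hinj : Function.Injective (algebraMap (𝓞 L) L) := FaithfulSMul.algebraMap_injective _ _
  have hs' : algebraMap (𝓞 L) L s ≠ 0 := (map_ne_zero_iff _ hinj).mpr hs0
  have hr' : algebraMap (𝓞 L) L r ≠ 0 := fun h => hx (by rw [h, zero_div])
  have hr0 : r ≠ 0 := (map_ne_zero_iff _ hinj).mp hr'
  have h0 : Ideal.span {r * s} ≠ (0 : Ideal (𝓞 L)) := by
    rw [Ne, Ideal.zero_eq_bot, Ideal.span_singleton_eq_bot]
    exact mul_ne_zero hr0 hs0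
  refine (Ideal.finite_factors h0).subset fun P hP => ?_
  rw [Set.mem_ofPred_eq] at hP ⊢
  rw [Ideal.dvd_span_singleton]
  by_contra hn
  have hr1 : r ∉ P.asIdeal := fun h => hn (P.asIdeal.mul_mem_right s h)
  have hs1 : s ∉ P.asIdeal := fun h => hn (P.asIdeal.mul_mem_left r h)
  apply hP
  have h1 : ord P (algebraMap (𝓞 L) L r) = 0 := by
    have h2 := ord_nonneg P r
    have h3 := (ord_pos_iff P hr0).not.mpr hr1
    omega
  have h2 : ord P (algebraMap (𝓞 L) L s) = 0 := by
    have h2 := ord_nonneg P s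
    have h3 := (ord_pos_iff P hs0).not.mpr hs1
    omega
  have h3 := ord_mul P (x := algebraMap (𝓞 L) L r / algebraMap (𝓞 L) L s) (div_ne_zero hr' hs') hs'
  rw [div_mul_cancel₀ _ hs', h1, h2] at h3
  omega

private lemma kcnd_above {L : Type} [Field L] [NumberField L] [Algebra K L]
    {S : Set (HeightOneSpectrum (𝓞 K))} {T : Set (HeightOneSpectrum (𝓞 L))} (hT : T.Finite)
    (h : ∀ v ∈ S, ∃ P ∈ T, Above v P) : S.Finite := by
  classical
  choose b hb using fun P : HeightOneSpectrum (𝓞 L) => exists_below (K := K) P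
  refine (hT.image b).subset fun v hv => ?_
  obtain ⟨P, hP, hvP⟩ := h v hv
  exact ⟨P, hP, (below_unique hvP (hb P)).symm⟩

private lemma kcnd_bp (N : ℕ) {f : ℕ → (𝓞 K)[X]}
    (hf : ((tot N f).map (algebraMap (𝓞 K) K)).Separable) :
    (rts (tot N f)).Finite ∧ (bp N f).Finite := by
  have h0 : tot N f ≠ 0 := by
    intro h
    rw [h, Polynomial.map_zero] at hf
    exact not_separable_zero hf
  refine ⟨rts_finite (tot N f) h0, (((rts_finite (tot N f) h0).image
    (fun x : Spl (tot N f) => (x : OnePoint (Spl (tot N f))))).union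
    (Set.finite_singleton OnePoint.infty)).subset fun z hz => ?_⟩
  rcases hz with ⟨x, hx, rfl⟩ | ⟨rfl, -⟩
  · exact Or.inl ⟨x, hx, rfl⟩
  · exact Or.inr rfl

theorem badT_finite (N q : ℕ) {f : ℕ → (𝓞 K)[X]}
    (hf : ((tot N f).map (algebraMap (𝓞 K) K)).Separable) :
    {v : HeightOneSpectrum (𝓞 K) | BadT N q f v}.Finite := by
  obtain ⟨hr, hbp⟩ := kcnd_bp N hf
  have hfin : (⋃ a ∈ rts (tot N f), ⋃ b ∈ rts (tot N f), ⋃ c ∈ rts (tot N f),
      ({P : HeightOneSpectrum (𝓞 (Spl (tot N f))) | ord P (tw N f a b c) ≠ 0} ∪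
        ⋃ z ∈ bp N f, {P : HeightOneSpectrum (𝓞 (Spl (tot N f))) |
          ord P (cr (a : OnePoint (Spl (tot N f))) b c z) ≠ 0})).Finite :=
    hr.biUnion fun a _ => hr.biUnion fun b _ => hr.biUnion fun c _ =>
      (kcnd_ord _).union (hbp.biUnion fun z _ => kcnd_ord _)
  have h2 : {v : HeightOneSpectrum (𝓞 K) | ∃ P : HeightOneSpectrum (𝓞 (Spl (tot N f))),
      Above v P ∧ ∃ a ∈ rts (tot N f), ∃ b ∈ rts (tot N f), ∃ c ∈ rts (tot N f),
        a ≠ b ∧ a ≠ c ∧ b ≠ c ∧ ¬ (N : ℤ) ∣ gauss N f P a b c}.Finite := by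
    refine kcnd_above hfin fun v hv => ?_
    obtain ⟨P, hP, a, ha, b, hb, c, hc, -, -, -, ho⟩ := hv
    refine ⟨P, ?_, hP⟩
    by_contra hcon
    simp only [Set.mem_iUnion, Set.mem_union, not_exists, not_or] at hcon
    obtain ⟨h3, h4⟩ := hcon a ha b hb c hc
    apply ho
    have h5 : ord P (tw N f a b c) = 0 := by
      by_contra h
      exact h3 h
    have h6 : ∀ z ∈ bp N f, ord P (cr (a : OnePoint (Spl (tot N f))) b c z) = 0 := by
      intro z hz
      by_contra h
      exact h4 z hz h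
    have h7 : gauss N f P a b c = 0 := by
      unfold gauss
      rw [h5, zero_add]
      refine finsum_mem_eq_zero_of_forall_eq_zero fun z hz => ?_
      rw [h6 z hz.1, min_self, mul_zero]
    rw [h7]
    exact dvd_zero _
  refine ((bad_finite N q hf).union h2).subset fun v hv => ?_
  rcases hv with hv | hv
  · exact Or.inl hv
  · exact Or.inr hv.2

private lemma kcnd_norm_pos (v : HeightOneSpectrum (𝓞 K)) : 1 ≤ Ideal.absNorm v.asIdeal := by
  rw [Nat.one_le_iff_ne_zero, Ne, Ideal.absNorm_eq_zero_iff]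
  exact v.ne_bot

theorem condT_pos (N q : ℕ) (f : ℕ → (𝓞 K)[X]) : 1 ≤ condT N q f := by
  refine finprod_induction (fun n : ℕ => 1 ≤ n) le_rfl
    (fun a b ha hb => Nat.one_le_iff_ne_zero.mpr (Nat.mul_ne_zero (by omega) (by omega)))
    fun v => finprod_induction (fun n : ℕ => 1 ≤ n) le_rfl
    (fun a b ha hb => Nat.one_le_iff_ne_zero.mpr (Nat.mul_ne_zero (by omega) (by omega)))
    fun _ => kcnd_norm_pos v

theorem condT_mem (N q : ℕ) {f : ℕ → (𝓞 K)[X]}
    (hf : ((tot N f).map (algebraMap (𝓞 K) K)).Separable) {v : HeightOneSpectrum (𝓞 K)}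
    (hv : BadT N q f v) : (condT N q f : 𝓞 K) ∈ v.asIdeal := by
  have h1 : condT N q f = ∏ v ∈ (badT_finite N q hf).toFinset, Ideal.absNorm v.asIdeal :=
    finprod_mem_eq_finite_toFinset_prod (fun v : HeightOneSpectrum (𝓞 K) =>
      Ideal.absNorm v.asIdeal) (badT_finite N q hf)
  have h2 : Ideal.absNorm v.asIdeal ∣ condT N q f := by
    rw [h1]
    exact Finset.dvd_prod_of_mem (fun v : HeightOneSpectrum (𝓞 K) => Ideal.absNorm v.asIdeal)
      ((badT_finite N q hf).mem_toFinset.mpr hv)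
  obtain ⟨t, ht⟩ := h2
  rw [ht, Nat.cast_mul]
  exact v.asIdeal.mul_mem_right _ (Ideal.absNorm_mem v.asIdeal)

theorem cond_le (N q : ℕ) {f : ℕ → (𝓞 K)[X]}
    (hf : ((tot N f).map (algebraMap (𝓞 K) K)).Separable) : cond N q f ≤ condT N q f := by
  have h1 : condT N q f = ∏ v ∈ (badT_finite N q hf).toFinset, Ideal.absNorm v.asIdeal :=
    finprod_mem_eq_finite_toFinset_prod (fun v : HeightOneSpectrum (𝓞 K) =>
      Ideal.absNorm v.asIdeal) (badT_finite N q hf)
  have h2 : cond N q f = ∏ v ∈ (bad_finite N q hf).toFinset, Ideal.absNorm v.asIdeal :=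
    finprod_mem_eq_finite_toFinset_prod (fun v : HeightOneSpectrum (𝓞 K) =>
      Ideal.absNorm v.asIdeal) (bad_finite N q hf)
  rw [h1, h2]
  refine Finset.prod_le_prod_of_subset_of_one_le' ?_ fun v _ _ => kcnd_norm_pos v
  intro v hv
  rw [Set.Finite.mem_toFinset] at hv ⊢
  exact Or.inl hv

end FreyCyc
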