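import Pool.Agent.Lib.MP_6babc4_nt.Cyc.Defs

/-!
# Cyclic covers up to isomorphism over the base field: definitions

`Defs.lean` has the curves `y ^ N = ∏ (f i)(x)^i`, their branch points `bp` (over the splitting field
`Spl (tot N f)`) and the bad primes `Bad`. Here: the isomorphisms over `K`, and the conductor that
takes into account the twists.
-/

set_option autoImplicit false

open Polynomial NumberField IsDedekindDomain Module

namespace FreyCyc

open FreySparse

variable {K : Type*} [Field K] [NumberField K]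

/-- The binary form `y ^ winf ∏ (f i)(x, y) ^ i`, `(f i)(x, y)` being the homogenisation of `f i`;
its degree is divisible by `N` and the curve is `w ^ N = form N f x y`. -/
noncomputable def form {F : Type*} [Field F] [Algebra (𝓞 K) F] (N : ℕ) (f : ℕ → (𝓞 K)[X])
    (x y : F) : F :=
  y ^ winf N f * ∏ i ∈ Finset.Ico 1 N,
    (∑ k ∈ Finset.range ((f i).natDegree + 1),
      algebraMap (𝓞 K) F ((f i).coeff k) * x ^ k * y ^ ((f i).natDegree - k)) ^ i

/-- The curves `w ^ N = form N f x y` and `w ^ N = form N g x y` are isomorphic over `K` by a map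
`(x, y, w) ↦ (a x + b y, c x + e y, t w)`: the two cyclic covers of the projective line are
isomorphic over `K`. -/
def IsoK (N : ℕ) (f g : ℕ → (𝓞 K)[X]) : Prop :=
  ∃ a b c e t : K, a * e - b * c ≠ 0 ∧ t ≠ 0 ∧
    ∀ x y : K, form N g (a * x + b * y) (c * x + e * y) = t ^ N * form N f x y

open Classical in
/-- The weight of a branch point: `winf N f` for infinity, and the `i` with `f i x = 0` for a
root `x` of the product of the `f i`. -/
noncomputable def wt (N : ℕ) (f : ℕ → (𝓞 K)[X]) (z : OnePoint (Spl (tot N f))) : ℕ :=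
  z.elim (winf N f) fun x => ∑ i ∈ Finset.Ico 1 N, if aeval x (f i) = 0 then i else 0

open Classical in
/-- The value at the root `x` of `∏ (f i) ^ i` divided by the power `(X - x) ^ (wt N f x)`. -/
noncomputable def lead (N : ℕ) (f : ℕ → (𝓞 K)[X]) (x : Spl (tot N f)) : Spl (tot N f) :=
  ∏ i ∈ Finset.Ico 1 N,
    (if aeval x (f i) = 0 then aeval x (derivative (f i)) else aeval x (f i)) ^ i

/-- For three roots `a, b, c`: the constant `u` such that, up to `N`-th powers, the curve is
`y ^ N = u ∏ (X - λ z) ^ (wt N f z)`, the product over the branch points `z ≠ b`, in the coordinate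
`X` that takes the values `1, ∞, 0` at `a, b, c` and the value `λ z = cr a b c z` at `z`. -/
noncomputable def tw (N : ℕ) (f : ℕ → (𝓞 K)[X]) (a b c : Spl (tot N f)) : Spl (tot N f) :=
  lead N f b * ((a - b) * (c - b) / (a - c)) ^ wt N f (b : OnePoint (Spl (tot N f)))

/-- The Gauss valuation at `P` (modulo `N`) of the right hand side of that equation. -/
noncomputable def gauss (N : ℕ) (f : ℕ → (𝓞 K)[X])
    (P : HeightOneSpectrum (𝓞 (Spl (tot N f)))) (a b c : Spl (tot N f)) : ℤ :=
  ord P (tw N f a b c) + ∑ᶠ z ∈ bp N f \ {(b : OnePoint (Spl (tot N f)))},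
    (wt N f z : ℤ) * min 0 (ord P (cr (a : OnePoint (Spl (tot N f))) b c z))

/-- The bad primes, the twists included: `Bad N q f v`, or `v` is not above `N` and for some prime above
`v` and some roots `a, b, c` the number `gauss N f P a b c` is not divisible by `N`. -/
def BadT (N q : ℕ) (f : ℕ → (𝓞 K)[X]) (v : HeightOneSpectrum (𝓞 K)) : Prop :=
  Bad N q f v ∨ ((N : 𝓞 K) ∉ v.asIdeal ∧ ∃ P : HeightOneSpectrum (𝓞 (Spl (tot N f))), Above v P ∧
    ∃ a ∈ rts (tot N f), ∃ b ∈ rts (tot N f), ∃ c ∈ rts (tot N f),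
      a ≠ b ∧ a ≠ c ∧ b ≠ c ∧ ¬ (N : ℤ) ∣ gauss N f P a b c)

/-- The product of the norms of the primes of `BadT`. -/
noncomputable def condT (N q : ℕ) (f : ℕ → (𝓞 K)[X]) : ℕ :=
  ∏ᶠ (v : HeightOneSpectrum (𝓞 K)) (_ : BadT N q f v), Ideal.absNorm v.asIdeal

/-- Frey's inequality for `f` with the constants `κ` and `c` and the conductor `condT`. -/
def FreyT (N q : ℕ) (κ c : ℝ) (f : ℕ → (𝓞 K)[X]) : Prop :=
  height N f ≤ κ * Real.log (|(NumberField.discr K : ℝ)| * condT N q f) + c

end FreyCyc
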