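import Pool.Agent.Lib.MP_6babc4_nt.Cyc.KSta

/-!
# Module KGal: descent of the isomorphism to `K`

`Ω = AlgebraicClosure K`. `Rel s A r k`: for `j = 0, 1, 2` the matrix `s(A) A⁻¹` maps the point `r (k j)`
to `r j` (homogeneous coordinates, up to a factor).

PROOFS.
* `gal_perm`: `v_j = A⁻¹ (col (r j))` is a zero of the form of `f` (the factor of index `j` of `psi` at
  `A v_j = col (r j)` is `0`, `w j ≥ 1`). The form has coefficients in `K`, so `s(v_j)` is a zero too:
  some factor `k < m` of `psi` vanishes at `A s(v_j)`, that is `A s(v_j) = μ col (r k)`, `μ ≠ 0`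
  (`A s(v_j) ≠ 0`). As `s(v_j) = s(A)⁻¹ col (r j)` (`r 0, r 1, r 2 = 1, ∞, 0` are fixed by `s`), this says
  that `s(A) A⁻¹` maps `col (r k)` to `μ⁻¹ col (r j)`. For `j = 0, 1, 2` the `k` are different because the
  `r j` are and the matrix is invertible. `k` is unique (the `r k`, `k < m`, are different points).
* `gal_iso`: let `γ = B⁻¹ A`. Then `form g (γ (x, y)) = v psi (A (x, y)) = (v / u) form f x y`. By `Rel` the
  matrices `s(A) A⁻¹` and `s(B) B⁻¹` map the three different points `r (k j)` to the same three points,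
  so they are proportional (a matrix with three different eigenlines is scalar): `s(A) A⁻¹ = ν s(B) B⁻¹`,
  and `s(γ) = s(B)⁻¹ s(A) = ν γ`. Let `t` be an entry `≠ 0` of `γ`: the entries of `γ / t` are fixed by all
  `s`, so they are in `K` (`Ω / K` is Galois, characteristic `0`). Scaling: `psi (t v) = t^W psi v`,
  `W = ∑ w j`, so `form g (γ₀ (x, y)) = (v / u) t^(-W) form f x y` for `γ₀ = t⁻¹ γ`.
* `gal_const`: `e / e'` is fixed by all the `s`, so it is in `K`.
-/

set_option autoImplicit false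

open Polynomial NumberField IsDedekindDomain Module

namespace FreyCyc

open FreySparse

variable {K : Type} [Field K] [NumberField K]

/-- The coordinates of a point as a column. -/
def col {F : Type*} [Field F] (z : OnePoint F) : Fin 2 → F := ![(vec z).1, (vec z).2]

/-- `s(A) A⁻¹` maps `r (k j)` to `r j` for `j = 0, 1, 2`. -/
def Rel {Ω : Type*} [Field Ω] (s : Ω →+* Ω) (A : Matrix (Fin 2) (Fin 2) Ω) (r : ℕ → OnePoint Ω)
    (k : Fin 3 → ℕ) : Prop :=
  ∀ j : Fin 3, ∃ μ : Ω, μ ≠ 0 ∧ (A.map s).mulVec (A⁻¹.mulVec (col (r (k j)))) = μ • col (r j)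

private lemma kg_alg {s : AlgebraicClosure K ≃ₐ[K] AlgebraicClosure K} (c : 𝓞 K) :
    s (algebraMap (𝓞 K) (AlgebraicClosure K) c) = algebraMap (𝓞 K) (AlgebraicClosure K) c := by
  rw [IsScalarTower.algebraMap_apply (𝓞 K) K (AlgebraicClosure K), s.commutes]

private lemma kg_form_s (N : ℕ) (f : ℕ → (𝓞 K)[X]) (s : AlgebraicClosure K ≃ₐ[K] AlgebraicClosure K)
    (x y : AlgebraicClosure K) : s (form N f x y) = form N f (s x) (s y) := by
  unfold form
  rw [map_mul, map_pow, map_prod]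
  congr 1
  refine Finset.prod_congr rfl fun i _ => ?_
  rw [map_pow, map_sum]
  congr 1
  refine Finset.sum_congr rfl fun k _ => ?_
  rw [map_mul, map_mul, map_pow, map_pow, kg_alg]

private lemma kg_form_K (N : ℕ) (f : ℕ → (𝓞 K)[X]) (x y : K) :
    algebraMap K (AlgebraicClosure K) (form N f x y) =
      form N f (algebraMap K (AlgebraicClosure K) x) (algebraMap K (AlgebraicClosure K) y) := by
  unfold form
  rw [map_mul, map_pow, map_prod]
  congr 1
  refine Finset.prod_congr rfl fun i _ => ?_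
  rw [map_pow, map_sum]
  congr 1
  refine Finset.sum_congr rfl fun k _ => ?_
  rw [map_mul, map_mul, map_pow, map_pow, ← IsScalarTower.algebraMap_apply (𝓞 K) K (AlgebraicClosure K)]

private lemma kg_psi_smul {F : Type*} [Field F] (m : ℕ) (w : ℕ → ℕ) (r : ℕ → OnePoint F) (t x y : F) :
    psi m w r (t * x) (t * y) = t ^ (∑ j ∈ Finset.range m, w j) * psi m w r x y := by
  unfold psi
  rw [← Finset.prod_pow_eq_pow_sum, ← Finset.prod_mul_distrib]
  refine Finset.prod_congr rfl fun j _ => ?_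
  rw [← mul_pow]
  congr 1
  ring

private lemma kg_par {F : Type*} [Field F] {p q : F} {z : OnePoint F} (h : p * (vec z).2 - q * (vec z).1 = 0)
    (h0 : p ≠ 0 ∨ q ≠ 0) : ∃ μ : F, μ ≠ 0 ∧ p = μ * (vec z).1 ∧ q = μ * (vec z).2 := by
  induction z using OnePoint.rec with
  | infty =>
    have e1 : (vec (OnePoint.infty : OnePoint F)).1 = 1 := rfl
    have e2 : (vec (OnePoint.infty : OnePoint F)).2 = 0 := rfl
    rw [e1, e2] at h
    rw [e1, e2]
    have hq : q = 0 := by linear_combination -h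
    refine ⟨p, ?_, by ring, by rw [hq]; ring⟩
    rcases h0 with h0 | h0
    · exact h0
    · exact absurd hq h0
  | coe x =>
    have e1 : (vec ((x : F) : OnePoint F)).1 = x := rfl
    have e2 : (vec ((x : F) : OnePoint F)).2 = 1 := rfl
    rw [e1, e2] at h
    rw [e1, e2]
    have hp : p = q * x := by linear_combination h
    refine ⟨q, ?_, hp, by ring⟩
    rintro rfl
    rcases h0 with h0 | h0
    · exact h0 (by rw [hp]; ring)
    · exact h0 rfl

private lemma kg_vec_ne {F : Type*} [Field F] (z : OnePoint F) : (vec z).1 ≠ 0 ∨ (vec z).2 ≠ 0 := by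
  induction z using OnePoint.rec with
  | infty => exact Or.inl (one_ne_zero (α := F))
  | coe x => exact Or.inr (one_ne_zero (α := F))

private lemma kg_col_ne {F : Type*} [Field F] (z : OnePoint F) : col z ≠ 0 := by
  intro h
  have h0 := congrFun h 0
  have h1 := congrFun h 1
  simp only [col, Matrix.cons_val_zero, Matrix.cons_val_one, Pi.zero_apply] at h0 h1
  rcases kg_vec_ne z with h2 | h2
  · exact h2 h0
  · exact h2 h1

private lemma kg_mv {F : Type*} [Field F] (A : Matrix (Fin 2) (Fin 2) F) (v : Fin 2 → F) (i : Fin 2) :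
    A.mulVec v i = A i 0 * v 0 + A i 1 * v 1 := by
  simp [Matrix.mulVec, dotProduct, Fin.sum_univ_two]

/-- one point -/
private lemma kg_one {N : ℕ} {f : ℕ → (𝓞 K)[X]} {m : ℕ} {w : ℕ → ℕ}
    {r : ℕ → OnePoint (AlgebraicClosure K)} {A : Matrix (Fin 2) (Fin 2) (AlgebraicClosure K)}
    {u : AlgebraicClosure K} (hw : ∀ j < m, 1 ≤ w j) (hf : Std N f m w r A u)
    (s : AlgebraicClosure K ≃ₐ[K] AlgebraicClosure K) (j : ℕ) (hj : j < m)
    (hs : ∀ i, s (col (r j) i) = col (r j) i) :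
    ∃ k < m, ∃ μ : AlgebraicClosure K, μ ≠ 0 ∧
      (A.map (s : AlgebraicClosure K →+* AlgebraicClosure K)).mulVec (A⁻¹.mulVec (col (r k))) =
        μ • col (r j) := by
  obtain ⟨hA, hu, hform⟩ := hf
  have hAu : IsUnit A.det := isUnit_iff_ne_zero.mpr hA
  set V : Fin 2 → AlgebraicClosure K := A⁻¹.mulVec (col (r j)) with hV
  have hAV : A.mulVec V = col (r j) := by
    rw [hV, Matrix.mulVec_mulVec, Matrix.mul_nonsing_inv A hAu, Matrix.one_mulVec]
  set sV : Fin 2 → AlgebraicClosure K := fun i => s (V i) with hsV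
  have hsA : (A.map (s : AlgebraicClosure K →+* AlgebraicClosure K)).mulVec sV = col (r j) := by
    funext i
    have h1 := RingHom.map_mulVec (s : AlgebraicClosure K →+* AlgebraicClosure K) A V i
    rw [hAV] at h1
    have h2 : (s : AlgebraicClosure K →+* AlgebraicClosure K) (col (r j) i) = col (r j) i := hs i
    rw [h2] at h1
    exact h1.symm
  -- the form vanishes
  have hz : form N f (V 0) (V 1) = 0 := by
    rw [hform, ← kg_mv A V 0, ← kg_mv A V 1, hAV]
    have : psi m w r (col (r j) 0) (col (r j) 1) = 0 := by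
      unfold psi
      apply Finset.prod_eq_zero (Finset.mem_range.mpr hj)
      rw [pow_eq_zero_iff (by have := hw j hj; omega)]
      simp only [col, Matrix.cons_val_zero, Matrix.cons_val_one]
      ring
    rw [this, mul_zero]
  have hz2 : form N f (sV 0) (sV 1) = 0 := by
    rw [hsV]
    simp only
    rw [← kg_form_s, hz, map_zero]
  rw [hform, ← kg_mv A sV 0, ← kg_mv A sV 1] at hz2
  have hz3 : psi m w r (A.mulVec sV 0) (A.mulVec sV 1) = 0 := by
    rcases mul_eq_zero.mp hz2 with h | h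
    · exact absurd h hu
    · exact h
  unfold psi at hz3
  obtain ⟨k, hk, hk0⟩ := Finset.prod_eq_zero_iff.mp hz3
  have hkm := Finset.mem_range.mp hk
  rw [pow_eq_zero_iff (by have := hw k hkm; omega)] at hk0
  have hX0 : A.mulVec sV ≠ 0 := by
    intro h
    have h1 : sV = 0 := by
      have h2 : A⁻¹.mulVec (A.mulVec sV) = 0 := by rw [h, Matrix.mulVec_zero]
      rwa [Matrix.mulVec_mulVec, Matrix.nonsing_inv_mul A hAu, Matrix.one_mulVec] at h2
    rw [h1, Matrix.mulVec_zero] at hsA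
    exact kg_col_ne (r j) hsA.symm
  have hX0' : A.mulVec sV 0 ≠ 0 ∨ A.mulVec sV 1 ≠ 0 := by
    by_contra hcon
    push Not at hcon
    apply hX0
    funext i
    fin_cases i
    · exact hcon.1
    · exact hcon.2
  obtain ⟨μ, hμ, e1, e2⟩ := kg_par hk0 hX0'
  have hXe : A.mulVec sV = μ • col (r k) := by
    funext i
    fin_cases i
    · simpa [col] using e1
    · simpa [col] using e2
  have hsVe : sV = μ • A⁻¹.mulVec (col (r k)) := by
    have h2 : A⁻¹.mulVec (A.mulVec sV) = A⁻¹.mulVec (μ • col (r k)) := by rw [hXe]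
    rwa [Matrix.mulVec_mulVec, Matrix.nonsing_inv_mul A hAu, Matrix.one_mulVec, Matrix.mulVec_smul] at h2
  refine ⟨k, hkm, μ⁻¹, inv_ne_zero hμ, ?_⟩
  rw [hsVe, Matrix.mulVec_smul] at hsA
  rw [← hsA, smul_smul, inv_mul_cancel₀ hμ, one_smul]

theorem gal_perm {N : ℕ} {f : ℕ → (𝓞 K)[X]} {m : ℕ} (hm : 3 ≤ m) {w : ℕ → ℕ}
    {ρ : ℕ → AlgebraicClosure K} {A : Matrix (Fin 2) (Fin 2) (AlgebraicClosure K)}
    {u : AlgebraicClosure K} (hw : ∀ j < m, 1 ≤ w j) (hr : Set.InjOn ρ (Set.Iio m \ {1}))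
    (h0 : ρ 0 = 1) (h2 : ρ 2 = 0) (hf : Std N f m w (pts ρ) A u)
    (s : AlgebraicClosure K ≃ₐ[K] AlgebraicClosure K) :
    ∃ k : Fin 3 → ℕ, Function.Injective k ∧ (∀ j, k j < m) ∧
      Rel (s : AlgebraicClosure K →+* AlgebraicClosure K) A (pts ρ) k := by
  have c0 : col (pts ρ 0) = ![1, 1] := by
    have : pts ρ 0 = ((ρ 0 : AlgebraicClosure K) : OnePoint (AlgebraicClosure K)) := rfl
    rw [this, h0]
    rfl
  have c1 : col (pts ρ 1) = ![1, 0] := rfl
  have c2 : col (pts ρ 2) = ![0, 1] := by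
    have : pts ρ 2 = ((ρ 2 : AlgebraicClosure K) : OnePoint (AlgebraicClosure K)) := rfl
    rw [this, h2]
    rfl
  have hs : ∀ j : Fin 3, ∀ i, s (col (pts ρ j) i) = col (pts ρ j) i := by
    intro j i
    fin_cases j
    · change s (col (pts ρ 0) i) = col (pts ρ 0) i
      rw [c0]
      fin_cases i <;> simp
    · change s (col (pts ρ 1) i) = col (pts ρ 1) i
      rw [c1]
      fin_cases i <;> simp
    · change s (col (pts ρ 2) i) = col (pts ρ 2) i
      rw [c2]
      fin_cases i <;> simp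
  choose k hk μ hμ hkμ using fun j : Fin 3 =>
    kg_one hw hf s (j : ℕ) (lt_of_lt_of_le j.2 hm) (hs j)
  refine ⟨k, ?_, hk, fun j => ⟨μ j, hμ j, hkμ j⟩⟩
  intro i j hij
  have h3 : μ i • col (pts ρ i) = μ j • col (pts ρ j) := by rw [← hkμ i, ← hkμ j, hij]
  have e0 := congrFun h3 0
  have e1 := congrFun h3 1
  by_contra hne
  have hi := hμ i
  have hj := hμ j
  fin_cases i <;> fin_cases j
  · exact hne rfl
  · change (μ 0 • col (pts ρ 0)) 1 = (μ 1 • col (pts ρ 1)) 1 at e1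
    rw [c0, c1] at e1
    simp at e1
    exact hi e1
  · change (μ 0 • col (pts ρ 0)) 0 = (μ 2 • col (pts ρ 2)) 0 at e0
    rw [c0, c2] at e0
    simp at e0
    exact hi e0
  · change (μ 1 • col (pts ρ 1)) 1 = (μ 0 • col (pts ρ 0)) 1 at e1
    rw [c0, c1] at e1
    simp at e1
    exact hj e1.symm
  · exact hne rfl
  · change (μ 1 • col (pts ρ 1)) 1 = (μ 2 • col (pts ρ 2)) 1 at e1
    rw [c1, c2] at e1
    simp at e1
    exact hj e1.symm
  · change (μ 2 • col (pts ρ 2)) 0 = (μ 0 • col (pts ρ 0)) 0 at e0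
    rw [c0, c2] at e0
    simp at e0
    exact hj e0.symm
  · change (μ 2 • col (pts ρ 2)) 0 = (μ 1 • col (pts ρ 1)) 0 at e0
    rw [c1, c2] at e0
    simp at e0
    exact hj e0.symm
  · exact hne rfl

/-- a matrix with the eigenlines of three different points is scalar -/
private lemma kg_scalar {F : Type*} [Field F] (P : Matrix (Fin 2) (Fin 2) F) (ρ : ℕ → F) (hρ : ρ 0 ≠ ρ 2)
    (h : ∀ j : Fin 3, ∃ l : F, P.mulVec (col (pts ρ j)) = l • col (pts ρ j)) :
    ∃ δ : F, P = δ • (1 : Matrix (Fin 2) (Fin 2) F) := by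
  have c0 : col (pts ρ 0) = ![ρ 0, 1] := rfl
  have c1 : col (pts ρ 1) = ![1, 0] := rfl
  have c2 : col (pts ρ 2) = ![ρ 2, 1] := rfl
  obtain ⟨l0, h0⟩ := h 0
  obtain ⟨l1, h1⟩ := h 1
  obtain ⟨l2, h2⟩ := h 2
  change P.mulVec (col (pts ρ 0)) = l0 • col (pts ρ 0) at h0
  change P.mulVec (col (pts ρ 1)) = l1 • col (pts ρ 1) at h1
  change P.mulVec (col (pts ρ 2)) = l2 • col (pts ρ 2) at h2
  rw [c0] at h0
  rw [c1] at h1
  rw [c2] at h2
  have a0 := congrFun h0 0
  have a1 := congrFun h0 1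
  have b1 := congrFun h1 1
  have d0 := congrFun h2 0
  have d1 := congrFun h2 1
  rw [kg_mv] at a0 a1 b1 d0 d1
  simp at a0 a1 b1 d0 d1
  rw [b1] at a1 d1
  simp at a1 d1
  have e1 : (P 0 0 - P 1 1) * (ρ 0 - ρ 2) = 0 := by
    rw [← a1] at a0
    rw [← d1] at d0
    linear_combination a0 - d0
  have e2 : P 0 0 = P 1 1 := by
    rcases mul_eq_zero.mp e1 with e | e
    · exact sub_eq_zero.mp e
    · exact absurd (sub_eq_zero.mp e) hρ
  have e3 : P 0 1 = 0 := by
    rw [← a1, ← e2] at a0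
    linear_combination a0
  refine ⟨P 1 1, ?_⟩
  ext i j
  fin_cases i <;> fin_cases j
  · simpa using e2
  · simpa using e3
  · simpa using b1
  · simp

private lemma kg_nu {m : ℕ} {ρ : ℕ → AlgebraicClosure K}
    {A B : Matrix (Fin 2) (Fin 2) (AlgebraicClosure K)} (hA : A.det ≠ 0) (hB : B.det ≠ 0)
    (hr : Set.InjOn ρ (Set.Iio m \ {1})) (s : AlgebraicClosure K ≃ₐ[K] AlgebraicClosure K) (k : Fin 3 → ℕ)
    (hk : Function.Injective k) (hkm : ∀ j, k j < m)
    (h1 : Rel (s : AlgebraicClosure K →+* AlgebraicClosure K) A (pts ρ) k)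
    (h2 : Rel (s : AlgebraicClosure K →+* AlgebraicClosure K) B (pts ρ) k) :
    ∃ δ : AlgebraicClosure K, ∀ i j, s ((B⁻¹ * A) i j) = δ * (B⁻¹ * A) i j := by
  have hAu : IsUnit A.det := isUnit_iff_ne_zero.mpr hA
  have hBu : IsUnit B.det := isUnit_iff_ne_zero.mpr hB
  have hm : 3 ≤ m := by
    have h3 : Fintype.card (Fin 3) ≤ (Finset.range m).card := by
      rw [← Finset.card_univ]
      exact Finset.card_le_card_of_injOn k (fun j _ => Finset.mem_coe.mpr (Finset.mem_range.mpr (hkm j))) hk.injOn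
    simpa using h3
  have hρ : ρ 0 ≠ ρ 2 := by
    intro h
    have := hr (show (0 : ℕ) ∈ Set.Iio m \ {1} from ⟨by simp only [Set.mem_Iio]; omega, by simp⟩)
      (show (2 : ℕ) ∈ Set.Iio m \ {1} from ⟨by simp only [Set.mem_Iio]; omega, by simp⟩) h
    omega
  set sA := A.map (s : AlgebraicClosure K →+* AlgebraicClosure K) with hsA
  set sB := B.map (s : AlgebraicClosure K →+* AlgebraicClosure K) with hsB
  have hsBd : sB.det ≠ 0 := by
    have : sB.det = (s : AlgebraicClosure K →+* AlgebraicClosure K) B.det := by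
      rw [hsB, RingHom.map_det]
      rfl
    rw [this]
    exact (_root_.map_ne_zero _).mpr hB
  have hsBu : IsUnit sB.det := isUnit_iff_ne_zero.mpr hsBd
  set M := sA * A⁻¹ with hM
  set M' := sB * B⁻¹ with hM'
  have hM'u : IsUnit M'.det := by
    rw [hM', Matrix.det_mul]
    exact hsBu.mul (Matrix.isUnit_nonsing_inv_det B hBu)
  obtain ⟨δ, hδ⟩ := kg_scalar (M * M'⁻¹) ρ hρ (fun j => by
    obtain ⟨μ, hμ, e1⟩ := h1 j
    obtain ⟨μ', hμ', e2⟩ := h2 j
    refine ⟨μ'⁻¹ * μ, ?_⟩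
    rw [Matrix.mulVec_mulVec] at e1 e2
    have e3 : M'⁻¹.mulVec (col (pts ρ j)) = μ'⁻¹ • col (pts ρ (k j)) := by
      have e4 : col (pts ρ j) = μ'⁻¹ • M'.mulVec (col (pts ρ (k j))) := by
        rw [hM', e2, smul_smul, inv_mul_cancel₀ hμ', one_smul]
      rw [e4, Matrix.mulVec_smul, Matrix.mulVec_mulVec, Matrix.nonsing_inv_mul M' hM'u, Matrix.one_mulVec]
    rw [← Matrix.mulVec_mulVec, e3, Matrix.mulVec_smul, hM, e1, smul_smul])
  have e5 : M = δ • M' := by
    calc M = M * (M'⁻¹ * M') := by rw [Matrix.nonsing_inv_mul M' hM'u, Matrix.mul_one]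
      _ = (M * M'⁻¹) * M' := (Matrix.mul_assoc M M'⁻¹ M').symm
      _ = δ • M' := by rw [hδ, Matrix.smul_mul, Matrix.one_mul]
  have e6 : sA = δ • (sB * (B⁻¹ * A)) := by
    calc sA = sA * (A⁻¹ * A) := by rw [Matrix.nonsing_inv_mul A hAu, Matrix.mul_one]
      _ = M * A := by rw [hM, Matrix.mul_assoc]
      _ = δ • (sB * (B⁻¹ * A)) := by rw [e5, hM', Matrix.smul_mul, Matrix.mul_assoc]
  set γ := B⁻¹ * A with hγ
  have e7 : B * γ = A := by rw [hγ, ← Matrix.mul_assoc, Matrix.mul_nonsing_inv B hBu, Matrix.one_mul]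
  have e8 : sB * γ.map (s : AlgebraicClosure K →+* AlgebraicClosure K) = sA := by
    rw [hsB, hsA, ← Matrix.map_mul, e7]
  have e9 : γ.map (s : AlgebraicClosure K →+* AlgebraicClosure K) = δ • γ := by
    have h3 : sB⁻¹ * (sB * γ.map (s : AlgebraicClosure K →+* AlgebraicClosure K)) = sB⁻¹ * (sB * (δ • γ)) := by
      rw [e8, e6, Matrix.mul_smul sB δ γ]
    rwa [← Matrix.mul_assoc, ← Matrix.mul_assoc, Matrix.nonsing_inv_mul sB hsBu, Matrix.one_mul,
      Matrix.one_mul] at h3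
  refine ⟨δ, fun i j => ?_⟩
  have h4 := congrFun (congrFun e9 i) j
  exact h4

private lemma kg_exists {N : ℕ} {f : ℕ → (𝓞 K)[X]} {m : ℕ} {w : ℕ → ℕ}
    {r : ℕ → OnePoint (AlgebraicClosure K)} {A : Matrix (Fin 2) (Fin 2) (AlgebraicClosure K)}
    {u : AlgebraicClosure K} (hf : Std N f m w r A u) : ∃ x y : K, form N f x y ≠ 0 := by
  obtain ⟨hA, hu, hform⟩ := hf
  have hfin : (⋃ j ∈ Set.Iio m, {x : K |
      (A 0 0 * algebraMap K (AlgebraicClosure K) x + A 0 1 * 1) * (vec (r j)).2 -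
      (A 1 0 * algebraMap K (AlgebraicClosure K) x + A 1 1 * 1) * (vec (r j)).1 = 0}).Finite := by
    refine (Set.finite_Iio m).biUnion fun j _ => Set.Subsingleton.finite ?_
    intro x hx x' hx'
    simp only [Set.mem_ofPred_eq] at hx hx'
    set p := (vec (r j)).1
    set q := (vec (r j)).2
    have e1 : (A 0 0 * q - A 1 0 * p) *
        (algebraMap K (AlgebraicClosure K) x - algebraMap K (AlgebraicClosure K) x') = 0 := by
      linear_combination hx - hx'
    rcases mul_eq_zero.mp e1 with e2 | e2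
    · exfalso
      have e3 : A 0 1 * q - A 1 1 * p = 0 := by
        linear_combination hx - algebraMap K (AlgebraicClosure K) x * e2
      rw [Matrix.det_fin_two] at hA
      have e4 : (A 0 0 * A 1 1 - A 0 1 * A 1 0) * q = 0 := by
        linear_combination A 1 1 * e2 - A 1 0 * e3
      have e5 : (A 0 0 * A 1 1 - A 0 1 * A 1 0) * p = 0 := by
        linear_combination A 0 1 * e2 - A 0 0 * e3
      rcases kg_vec_ne (r j) with h | h
      · exact h ((mul_eq_zero.mp e5).resolve_left hA)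
      · exact h ((mul_eq_zero.mp e4).resolve_left hA)
    · exact FaithfulSMul.algebraMap_injective K (AlgebraicClosure K) (sub_eq_zero.mp e2)
  haveI : Infinite K := CharZero.infinite K
  obtain ⟨x, hx⟩ := hfin.exists_notMem
  refine ⟨x, 1, fun h => ?_⟩
  have h1 := congrArg (algebraMap K (AlgebraicClosure K)) h
  rw [kg_form_K, map_zero, map_one, hform] at h1
  have h2 := (mul_eq_zero.mp h1).resolve_left hu
  unfold psi at h2
  obtain ⟨j, hj, hj0⟩ := Finset.prod_eq_zero_iff.mp h2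
  apply hx
  simp only [Set.mem_iUnion]
  exact ⟨j, Finset.mem_range.mp hj, eq_zero_of_pow_eq_zero hj0⟩

theorem gal_iso {N : ℕ} {f g : ℕ → (𝓞 K)[X]} {m : ℕ} {w : ℕ → ℕ}
    {ρ : ℕ → AlgebraicClosure K} {A B : Matrix (Fin 2) (Fin 2) (AlgebraicClosure K)}
    {u v : AlgebraicClosure K} (hr : Set.InjOn ρ (Set.Iio m \ {1}))
    (hf : Std N f m w (pts ρ) A u) (hg : Std N g m w (pts ρ) B v)
    (hs : ∀ s : AlgebraicClosure K ≃ₐ[K] AlgebraicClosure K, ∃ k : Fin 3 → ℕ,
      Function.Injective k ∧ (∀ j, k j < m) ∧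
      Rel (s : AlgebraicClosure K →+* AlgebraicClosure K) A (pts ρ) k ∧
      Rel (s : AlgebraicClosure K →+* AlgebraicClosure K) B (pts ρ) k) :
    ∃ (a b c e t : K) (p q : Fin 2), a * e - b * c ≠ 0 ∧ (B⁻¹ * A) p q ≠ 0 ∧ t ≠ 0 ∧
      algebraMap K (AlgebraicClosure K) t =
        v / (u * (B⁻¹ * A) p q ^ ∑ j ∈ Finset.range m, w j) ∧
      ∀ x y : K, form N g (a * x + b * y) (c * x + e * y) = t * form N f x y := by
  obtain ⟨x₀, y₀, hxy⟩ := kg_exists hf
  obtain ⟨hA, hu, hfA⟩ := hf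
  obtain ⟨hB, hv, hgB⟩ := hg
  have hBu : IsUnit B.det := isUnit_iff_ne_zero.mpr hB
  have hδ : ∀ s : AlgebraicClosure K ≃ₐ[K] AlgebraicClosure K, ∃ δ : AlgebraicClosure K,
      ∀ i j, s ((B⁻¹ * A) i j) = δ * (B⁻¹ * A) i j := by
    intro s
    obtain ⟨k, hk, hkm, h1, h2⟩ := hs s
    exact kg_nu hA hB hr s k hk hkm h1 h2
  set γ := B⁻¹ * A with hγ
  have hBγ : B * γ = A := by rw [hγ, ← Matrix.mul_assoc, Matrix.mul_nonsing_inv B hBu, Matrix.one_mul]
  have hγd : γ.det ≠ 0 := by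
    intro h
    apply hA
    rw [← hBγ, Matrix.det_mul, h, mul_zero]
  obtain ⟨p, q, hpq⟩ : ∃ p q : Fin 2, γ p q ≠ 0 := by
    by_contra hcon
    push Not at hcon
    apply hγd
    rw [Matrix.det_fin_two, hcon 0 0, hcon 0 1]
    ring
  set t₀ := γ p q with ht₀
  have hin : ∀ i j, ∃ c : K, algebraMap K (AlgebraicClosure K) c = γ i j / t₀ := by
    intro i j
    have := (InfiniteGalois.mem_range_algebraMap_iff_fixed (k := K) (γ i j / t₀)).mpr (fun s => by
      obtain ⟨δ, h⟩ := hδ s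
      have hδ0 : δ ≠ 0 := by
        rintro rfl
        have h3 := h p q
        rw [zero_mul] at h3
        exact hpq ((_root_.map_eq_zero s).mp h3)
      rw [map_div₀, h i j, ht₀, h p q, mul_div_mul_left _ _ hδ0])
    exact this
  obtain ⟨a, ha⟩ := hin 0 0
  obtain ⟨b, hb⟩ := hin 0 1
  obtain ⟨c, hc⟩ := hin 1 0
  obtain ⟨e, he⟩ := hin 1 1
  set W := ∑ j ∈ Finset.range m, w j with hW
  have B00 : B 0 0 * γ 0 0 + B 0 1 * γ 1 0 = A 0 0 := by
    rw [← hBγ, Matrix.mul_apply, Fin.sum_univ_two]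
  have B01 : B 0 0 * γ 0 1 + B 0 1 * γ 1 1 = A 0 1 := by
    rw [← hBγ, Matrix.mul_apply, Fin.sum_univ_two]
  have B10 : B 1 0 * γ 0 0 + B 1 1 * γ 1 0 = A 1 0 := by
    rw [← hBγ, Matrix.mul_apply, Fin.sum_univ_two]
  have B11 : B 1 0 * γ 0 1 + B 1 1 * γ 1 1 = A 1 1 := by
    rw [← hBγ, Matrix.mul_apply, Fin.sum_univ_two]
  have key : ∀ x y : AlgebraicClosure K,
      form N g (γ 0 0 / t₀ * x + γ 0 1 / t₀ * y) (γ 1 0 / t₀ * x + γ 1 1 / t₀ * y) =
        v / (u * t₀ ^ W) * form N f x y := by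
    intro x y
    rw [hgB, hfA]
    have r1 : B 0 0 * (γ 0 0 / t₀ * x + γ 0 1 / t₀ * y) + B 0 1 * (γ 1 0 / t₀ * x + γ 1 1 / t₀ * y) =
        t₀⁻¹ * (A 0 0 * x + A 0 1 * y) := by
      rw [← B00, ← B01]
      ring
    have r2 : B 1 0 * (γ 0 0 / t₀ * x + γ 0 1 / t₀ * y) + B 1 1 * (γ 1 0 / t₀ * x + γ 1 1 / t₀ * y) =
        t₀⁻¹ * (A 1 0 * x + A 1 1 * y) := by
      rw [← B10, ← B11]
      ring
    rw [r1, r2, kg_psi_smul, ← hW, inv_pow]
    have hp : t₀ ^ W ≠ 0 := pow_ne_zero _ hpq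
    field_simp
  have keyK : ∀ x y : K, algebraMap K (AlgebraicClosure K) (form N g (a * x + b * y) (c * x + e * y)) =
      v / (u * t₀ ^ W) * algebraMap K (AlgebraicClosure K) (form N f x y) := by
    intro x y
    rw [kg_form_K, kg_form_K, ← key]
    simp only [map_add, map_mul, ha, hb, hc, he]
  have hinj := FaithfulSMul.algebraMap_injective K (AlgebraicClosure K)
  have hxy' : algebraMap K (AlgebraicClosure K) (form N f x₀ y₀) ≠ 0 :=
    (map_ne_zero_iff _ hinj).mpr hxy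
  have htΩ : v / (u * t₀ ^ W) ≠ 0 := div_ne_zero hv (mul_ne_zero hu (pow_ne_zero _ hpq))
  have ht : algebraMap K (AlgebraicClosure K)
      (form N g (a * x₀ + b * y₀) (c * x₀ + e * y₀) / form N f x₀ y₀) = v / (u * t₀ ^ W) := by
    rw [map_div₀, keyK, mul_div_assoc, div_self hxy', mul_one]
  refine ⟨a, b, c, e, form N g (a * x₀ + b * y₀) (c * x₀ + e * y₀) / form N f x₀ y₀, p, q, ?_, hpq, ?_,
    ht, ?_⟩
  · intro h
    have h1 := congrArg (algebraMap K (AlgebraicClosure K)) h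
    rw [map_sub, map_mul, map_mul, map_zero, ha, hb, hc, he] at h1
    apply hγd
    rw [Matrix.det_fin_two]
    have h2 : (γ 0 0 * γ 1 1 - γ 0 1 * γ 1 0) / (t₀ * t₀) = 0 := by
      rw [← h1]
      field_simp
    rcases div_eq_zero_iff.mp h2 with h3 | h3
    · exact h3
    · exact absurd h3 (mul_ne_zero hpq hpq)
  · intro h
    rw [h, map_zero] at ht
    exact htΩ ht.symm
  · intro x y
    apply hinj
    rw [map_mul, ht, keyK]

theorem gal_const {e e' : AlgebraicClosure K} (h0 : e ≠ 0) (h0' : e' ≠ 0)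
    (h : ∀ s : AlgebraicClosure K ≃ₐ[K] AlgebraicClosure K, s e / e = s e' / e') :
    ∃ t : K, t ≠ 0 ∧ e = algebraMap K (AlgebraicClosure K) t * e' := by
  obtain ⟨t, ht⟩ := (InfiniteGalois.mem_range_algebraMap_iff_fixed (k := K) (e / e')).mpr (fun s => by
    have h1 := h s
    have h2 : s e' ≠ 0 := (_root_.map_ne_zero s).mpr h0'
    rw [map_div₀, div_eq_div_iff h2 h0']
    rw [div_eq_div_iff h0 h0'] at h1
    linear_combination h1)
  refine ⟨t, ?_, ?_⟩
  · rintro rfl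
    rw [map_zero] at ht
    exact div_ne_zero h0 h0' ht.symm
  · rw [ht, div_mul_cancel₀ _ h0']

end FreyCyc
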