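import Pool.Agent.Lib.MP_6babc4_nt.Cyc.KSta

/-!
# Module KRel: the relative twist is unramified at the good primes

PROOF. `θ : Spl (tot N f) ≃ₐ[K] Spl (tot N g)` with `ι' ∘ θ = ι` (the two embeddings have the same image).
Let `v ∌ N condT(f) condT(g)`: `N ∉ v` and `v` is neither in `BadT N q f` nor in `BadT N q g`
(`condT_mem`). Let `P` be a prime of `Spl (tot N f)` above `v` (`exists_above`) and `P'` its image under
`θ` (`ord P' (θ x) = ord P x`; `P'` is above `v`). Then `N ∣ gauss N f P a b c` and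
`N ∣ gauss N g P' a' b' c'`, and by `hg` of the two `SForm` and `ρ' j = θ (ρ j)` (`j ≠ 1`, `ι` injective) the
sums are equal, so `ord P (tw f) ≡ ord P' (tw g)` modulo `N`, and `ord P u ≡ ord P' u'` by `hu`. Let
`t₀ ∈ Spl (tot N f)`, `ι t₀ = t`: `θ⁻¹ u' = c₀ u t₀^W` in `Spl (tot N f)`, so
`ord P c₀ = ord P' u' - ord P u - W ord P t₀ ≡ 0` modulo `N` (`hW`). Finally `v` is unramified in
`Spl (tot N f)` (`¬ Bad`), so `ord P (algebraMap c₀) = ord v c₀`: `ord_algebraMap`-like, with `e = 1`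
because `P^2 ∤ v` (if `π ∈ v`, `ord v π = 1` and `ord P π = e ≥ 2` then... use
`IsDedekindDomain.HeightOneSpectrum` valuation comap: `e` is the ramification index).
-/

set_option autoImplicit false

open Polynomial NumberField IsDedekindDomain Module

namespace FreyCyc

open FreySparse

variable {K : Type} [Field K] [NumberField K]

private lemma krel_dvd {E : Type} [Field E] [NumberField E] [Algebra K E]
    {v : HeightOneSpectrum (𝓞 K)} {P : HeightOneSpectrum (𝓞 E)} {e : ℕ} (he : 2 ≤ e)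
    (h : ∀ c : K, ord P (algebraMap K E c) = e * ord v c) :
    P.asIdeal ^ 2 ∣ v.asIdeal.map (algebraMap (𝓞 K) (𝓞 E)) := by
  rw [Ideal.dvd_iff_le, Ideal.map_le_iff_le_comap]
  intro α hα
  rw [Ideal.mem_comap]
  by_cases h0 : α = 0
  · rw [h0, map_zero]
    exact zero_mem _
  have h1 : 1 ≤ ord v (algebraMap (𝓞 K) K α) := (ord_pos_iff v h0).mpr hα
  have h0' : algebraMap (𝓞 K) (𝓞 E) α ≠ 0 :=
    (map_ne_zero_iff _ (FaithfulSMul.algebraMap_injective (𝓞 K) (𝓞 E))).mpr h0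
  rw [← Ideal.dvd_span_singleton, pow_dvd_iff P h0']
  have h2 : algebraMap (𝓞 E) E (algebraMap (𝓞 K) (𝓞 E) α) =
      algebraMap K E (algebraMap (𝓞 K) K α) := rfl
  rw [h2, h]
  have h3 : (2 : ℤ) ≤ e := by exact_mod_cast he
  push_cast
  nlinarith

/-- The order at an unramified prime above. -/
private lemma krel_unram {E : Type} [Field E] [NumberField E] [Algebra K E]
    {v : HeightOneSpectrum (𝓞 K)} {P : HeightOneSpectrum (𝓞 E)} (hP : Above v P)
    (hr : ¬ P.asIdeal ^ 2 ∣ v.asIdeal.map (algebraMap (𝓞 K) (𝓞 E))) (c : K) :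
    ord P (algebraMap K E c) = ord v c := by
  obtain ⟨v', e, hab, he, hc⟩ := ord_algebraMap (E := K) P
  have hv : v' = v := below_unique hab hP
  subst hv
  have h1 : e = 1 := by
    by_contra h
    exact hr (krel_dvd (by omega) hc)
  rw [hc, h1, Nat.cast_one, one_mul]

private lemma krel_theta {E E' Ω : Type} [Field E] [Field E'] [Field Ω] [Algebra K E]
    [Algebra K E'] [Algebra K Ω] (ι : E →ₐ[K] Ω) (ι' : E' →ₐ[K] Ω)
    (hι : ι.fieldRange ≤ ι'.fieldRange) : ∃ θ : E →ₐ[K] E', ∀ x, ι' (θ x) = ι x := by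
  have h : ∀ x, ι x ∈ ι'.range := fun x => hι ⟨x, rfl⟩
  refine ⟨((AlgEquiv.ofInjectiveField ι').symm : ι'.range →ₐ[K] E').comp
    (ι.codRestrict ι'.range h), fun x => ?_⟩
  have h1 := (AlgEquiv.ofInjectiveField ι').apply_symm_apply (ι.codRestrict ι'.range h x)
  exact congrArg Subtype.val h1

private lemma krel_exists (v : HeightOneSpectrum (𝓞 K)) :
    ∃ α : 𝓞 K, α ≠ 0 ∧ α ∈ v.asIdeal := by
  obtain ⟨α, hα, h0⟩ := Submodule.exists_mem_ne_zero_of_ne_bot v.ne_bot
  exact ⟨α, h0, hα⟩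

theorem rel_ord {N q : ℕ} (hN : N ≠ 0) {f g : ℕ → (𝓞 K)[X]}
    (hf : ((tot N f).map (algebraMap (𝓞 K) K)).Separable)
    (hg : ((tot N g).map (algebraMap (𝓞 K) K)).Separable) {m : ℕ} {w : ℕ → ℕ}
    {ρ : ℕ → Spl (tot N f)} {A : Matrix (Fin 2) (Fin 2) (Spl (tot N f))}
    {u a b c : Spl (tot N f)} (h : SForm N f m w ρ A u a b c)
    {ρ' : ℕ → Spl (tot N g)} {A' : Matrix (Fin 2) (Fin 2) (Spl (tot N g))}
    {u' a' b' c' : Spl (tot N g)} (h' : SForm N g m w ρ' A' u' a' b' c')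
    (ι : Spl (tot N f) →ₐ[K] AlgebraicClosure K) (ι' : Spl (tot N g) →ₐ[K] AlgebraicClosure K)
    (hι : ι.fieldRange = ι'.fieldRange) (hρ : ∀ j < m, j ≠ 1 → ι (ρ j) = ι' (ρ' j))
    {c₀ : K} {t : AlgebraicClosure K} (ht : t ∈ ι.fieldRange) (ht0 : t ≠ 0) (hc0 : c₀ ≠ 0)
    (hc : algebraMap K (AlgebraicClosure K) c₀ =
      ι' u' / (ι u * t ^ ∑ j ∈ Finset.range m, w j)) (v : HeightOneSpectrum (𝓞 K))
    (hv : ((N * condT N q f * condT N q g : ℕ) : 𝓞 K) ∉ v.asIdeal) :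
    (N : ℤ) ∣ ord v c₀ := by
  have hvf : ¬ BadT N q f v := fun hb => by
    apply hv
    rw [Nat.cast_mul, Nat.cast_mul]
    exact v.asIdeal.mul_mem_right _ (v.asIdeal.mul_mem_left _ (condT_mem N q hf hb))
  have hvg : ¬ BadT N q g v := fun hb => by
    apply hv
    rw [Nat.cast_mul]
    exact v.asIdeal.mul_mem_left _ (condT_mem N q hg hb)
  have hvN : (N : 𝓞 K) ∉ v.asIdeal := fun hb => by
    apply hv
    rw [Nat.cast_mul, Nat.cast_mul]
    exact v.asIdeal.mul_mem_right _ (v.asIdeal.mul_mem_right _ hb)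
  have hgf : ∀ P : HeightOneSpectrum (𝓞 (Spl (tot N f))), Above v P →
      (N : ℤ) ∣ gauss N f P a b c := by
    intro P hP
    by_contra hcon
    exact hvf (Or.inr ⟨hvN, P, hP, a, h.ha, b, h.hb, c, h.hc, h.hab, h.hac, h.hbc, hcon⟩)
  have hgg : ∀ P : HeightOneSpectrum (𝓞 (Spl (tot N g))), Above v P →
      (N : ℤ) ∣ gauss N g P a' b' c' := by
    intro P hP
    by_contra hcon
    exact hvg (Or.inr ⟨hvN, P, hP, a', h'.ha, b', h'.hb, c', h'.hc, h'.hab, h'.hac, h'.hbc,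
      hcon⟩)
  have hrg : ∀ P : HeightOneSpectrum (𝓞 (Spl (tot N g))),
      ¬ P.asIdeal ^ 2 ∣ v.asIdeal.map (algebraMap (𝓞 K) (𝓞 (Spl (tot N g)))) := by
    intro P hP
    exact hvg (Or.inl ⟨hvN, Or.inl ⟨P, hP⟩⟩)
  -- the isomorphism
  obtain ⟨θ, hθ⟩ := krel_theta ι ι' hι.le
  have hιi : Function.Injective ι' := (ι' : Spl (tot N g) →+* AlgebraicClosure K).injective
  letI : Algebra (Spl (tot N f)) (Spl (tot N g)) := θ.toRingHom.toAlgebra
  obtain ⟨P', hP'⟩ := exists_above (Spl (tot N g)) v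
  obtain ⟨P, e, -, he, hord⟩ := ord_algebraMap (E := Spl (tot N f)) P'
  have hord' : ∀ x : Spl (tot N f), ord P' (θ x) = e * ord P x := hord
  obtain ⟨v', e', hab', he', hord2⟩ := ord_algebraMap (E := K) P
  have hK : ∀ x : K, ord P' (algebraMap K (Spl (tot N g)) x) = ord v x :=
    krel_unram hP' (hrg P')
  have hkey : ∀ x : K, ord v x = (e : ℤ) * (e' * ord v' x) := by
    intro x
    rw [← hK, ← θ.commutes, hord', hord2]
  have he1 : (1 : ℤ) ≤ e := by exact_mod_cast he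
  have he1' : (1 : ℤ) ≤ e' := by exact_mod_cast he'
  have hvv : v = v' := by
    have hle : v.asIdeal ≤ v'.asIdeal := by
      intro α hα
      by_cases h0 : α = 0
      · rw [h0]
        exact zero_mem _
      have h1 := (ord_pos_iff v h0).mpr hα
      rw [hkey] at h1
      rw [← ord_pos_iff v' h0]
      by_contra h2
      have h3 : ord v' (algebraMap (𝓞 K) K α) ≤ 0 := by omega
      have h4 : (e' : ℤ) * ord v' (algebraMap (𝓞 K) K α) ≤ 0 :=
        mul_nonpos_of_nonneg_of_nonpos (by omega) h3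
      have h5 : (e : ℤ) * (e' * ord v' (algebraMap (𝓞 K) K α)) ≤ 0 :=
        mul_nonpos_of_nonneg_of_nonpos (by omega) h4
      omega
    exact HeightOneSpectrum.ext (v.isMaximal.eq_of_le v'.isPrime.ne_top hle)
  subst hvv
  have hee : e = 1 := by
    obtain ⟨α, h0, hα⟩ := krel_exists v
    have h1 := (ord_pos_iff v h0).mpr hα
    have h2 := hkey (algebraMap (𝓞 K) K α)
    have h3 : ((e : ℤ) * e' - 1) * ord v (algebraMap (𝓞 K) K α) = 0 := by linarith
    have h4 : (e : ℤ) * e' - 1 = 0 := by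
      rcases mul_eq_zero.mp h3 with h4 | h4
      · exact h4
      · omega
    have h5 : (e : ℤ) * e' = 1 := by omega
    have h6 : e * e' = 1 := by exact_mod_cast h5
    exact Nat.eq_one_of_mul_eq_one_right h6
  have hθo : ∀ x : Spl (tot N f), ord P' (θ x) = ord P x := by
    intro x
    rw [hord', hee, Nat.cast_one, one_mul]
  -- the coordinates
  have hρ2 : ∀ j ∈ (Finset.range m).erase 1, ord P' (ρ' j) = ord P (ρ j) := by
    intro j hj
    have hj1 := (Finset.mem_erase.mp hj).1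
    have hjm := Finset.mem_range.mp (Finset.mem_erase.mp hj).2
    have h1 : ρ' j = θ (ρ j) := hιi (by rw [hθ, hρ j hjm hj1])
    rw [h1, hθo]
  have hsum : ∑ j ∈ (Finset.range m).erase 1, (w j : ℤ) * min 0 (ord P' (ρ' j)) =
      ∑ j ∈ (Finset.range m).erase 1, (w j : ℤ) * min 0 (ord P (ρ j)) :=
    Finset.sum_congr rfl fun j hj => by rw [hρ2 j hj]
  have h1 := hgf P hab'
  have h2 := hgg P' hP'
  rw [h.hg P] at h1
  rw [h'.hg P', hsum] at h2
  have h3 : (N : ℤ) ∣ ord P' (tw N g a' b' c') - ord P (tw N f a b c) := by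
    have h4 := dvd_sub h2 h1
    rwa [add_sub_add_right_eq_sub] at h4
  obtain ⟨s, hs, hus⟩ := h.hu
  obtain ⟨s', hs', hus'⟩ := h'.hu
  have htw := tw_ne N hf h.hab h.hac h.hbc
  have htw' := tw_ne N hg h'.hab h'.hac h'.hbc
  have hu0 : u ≠ 0 := by
    rw [hus]
    exact mul_ne_zero (pow_ne_zero _ hs) htw
  have hu0' : u' ≠ 0 := by
    rw [hus']
    exact mul_ne_zero (pow_ne_zero _ hs') htw'
  have ho1 : ord P u = N * ord P s + ord P (tw N f a b c) := by
    rw [hus, ord_mul P (pow_ne_zero _ hs) htw, ord_pow P hs]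
  have ho2 : ord P' u' = N * ord P' s' + ord P' (tw N g a' b' c') := by
    rw [hus', ord_mul P' (pow_ne_zero _ hs') htw', ord_pow P' hs']
  -- the equation
  obtain ⟨t', ht'⟩ : ∃ t', ι' t' = t := by
    have h4 : t ∈ ι'.fieldRange := by
      rw [← hι]
      exact ht
    obtain ⟨t', h5⟩ := h4
    exact ⟨t', h5⟩
  have ht0' : t' ≠ 0 := by
    rintro rfl
    rw [map_zero] at ht'
    exact ht0 ht'.symm
  obtain ⟨W, hW⟩ : ∃ W, W = ∑ j ∈ Finset.range m, w j := ⟨_, rfl⟩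
  have hNW : (N : ℤ) ∣ (W : ℤ) := by
    rw [hW]
    exact_mod_cast h.hW
  have hθu : θ u ≠ 0 := by
    intro h0
    apply hu0
    exact (θ : Spl (tot N f) →+* Spl (tot N g)).injective (by rw [map_zero]; exact h0)
  have heq : algebraMap K (Spl (tot N g)) c₀ * (θ u * t' ^ W) = u' := by
    apply hιi
    rw [map_mul, map_mul, map_pow, AlgHom.commutes, hθ, ht', hc, ← hW]
    have h6 : ι u ≠ 0 := by
      rw [← hθ]
      intro h0
      exact hθu (hιi (by rw [h0, map_zero]))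
    exact div_mul_cancel₀ _ (mul_ne_zero h6 (pow_ne_zero _ ht0))
  have hc0' : algebraMap K (Spl (tot N g)) c₀ ≠ 0 :=
    (map_ne_zero_iff _ (algebraMap K (Spl (tot N g))).injective).mpr hc0
  have h7 := congrArg (ord P') heq
  rw [ord_mul P' hc0' (mul_ne_zero hθu (pow_ne_zero _ ht0')), ord_mul P' hθu
    (pow_ne_zero _ ht0'), ord_pow P' ht0', hθo, hK] at h7
  have h8 : ord v c₀ = N * (ord P' s' - ord P s) +
      (ord P' (tw N g a' b' c') - ord P (tw N f a b c)) - W * ord P' t' := by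
    rw [ho1, ho2] at h7
    linarith
  rw [h8]
  exact dvd_sub (dvd_add (dvd_mul_right _ _) h3) (Dvd.dvd.mul_right hNW _)

end FreyCyc
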