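import Pool.Agent.Lib.MP_6babc4_nt.Cyc.Stp
import Pool.Agent.Lib.MP_6babc4_nt.Sp.Dif

/-!
# Module Kum: one Kummer extension

PROOF. `E'` = splitting field of `X^q - b` over `E` (`SplittingField`), `x` a root, `E' = E(x)`
(all the roots are `ζ^j x`), Galois, `m = [E' : E] ≤ q`; `[E' : ℚ] = m [E : ℚ]`.
RAMIFICATION: if `P'^2 ∣ P 𝓞 E'` then `w ∈ P`. Suppose `w ∉ P`, so `q ∉ P` and `q ∣ ord P b`. Choose
`z ∈ E` with `ord P z = - ord P b / q`, and `t ∉ P` such that `t z^q b` is integral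
(`exists_denom`). `x' = t z x`, `x'^q = u := t^q z^q b ∈ 𝓞 E`, `u ∉ P`, `E' = E(x')`. The minimal
polynomial `g` of `x'` over `𝓞 E` divides `X^q - u`, so `g'(x')` divides `q x'^(q-1)`, which is not in
`P'`; `g'(x')` is in the different (`aeval_derivative_mem_differentIdeal`, `E' = E(x')`), so `P'`
does not divide the different; but `P'^2 ∣ P 𝓞 E'` gives `P' ∣ different`
(`pow_sub_one_dvd_differentIdeal`).
DISCRIMINANT: `NumberField.natAbs_discr_eq_absNorm_differentIdeal_mul_natAbs_discr_pow` and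
`different_dvd` (module Sp/Dif) with `J = (w)`: `|D_E'| ≤ (m^[E:ℚ] w^[E:ℚ] |D_E|)^m`.
-/

set_option autoImplicit false

open Polynomial NumberField IsDedekindDomain Module

namespace FreyCyc

open FreySparse

/-- An element integral at `P` has a denominator which is not in `P`. -/
theorem exists_denom {E : Type} [Field E] [NumberField E] (P : HeightOneSpectrum (𝓞 E)) {u : E}
    (hu0 : u ≠ 0) (hu : 0 ≤ ord P u) :
    ∃ q : 𝓞 E, q ∉ P.asIdeal ∧ ∃ r : 𝓞 E, algebraMap (𝓞 E) E q * u = algebraMap (𝓞 E) E r := by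
  obtain ⟨r, s, hs, hrs⟩ := IsFractionRing.div_surjective (A := 𝓞 E) u
  have hs0 : s ≠ 0 := nonZeroDivisors.ne_zero hs
  have hs0' : algebraMap (𝓞 E) E s ≠ 0 := by
    rwa [ne_eq, FaithfulSMul.algebraMap_eq_zero_iff]
  have hr : algebraMap (𝓞 E) E r = u * algebraMap (𝓞 E) E s := by
    rw [← hrs, div_mul_cancel₀ _ hs0']
  have hr0' : algebraMap (𝓞 E) E r ≠ 0 := by
    rw [hr]
    exact mul_ne_zero hu0 hs0'
  have hr0 : r ≠ 0 := by
    rintro rfl
    exact hr0' (map_zero _)
  obtain ⟨k, hk⟩ := Int.eq_ofNat_of_zero_le (ord_nonneg P s)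
  have h1 : P.asIdeal ^ k ∣ Ideal.span {s} := by
    rw [pow_dvd_iff P hs0, hk]
  have h2 : ¬ P.asIdeal ^ (k + 1) ∣ Ideal.span {s} := by
    rw [pow_dvd_iff P hs0, hk]
    push_cast
    omega
  have h3 : P.asIdeal ^ k ∣ Ideal.span {r} := by
    rw [pow_dvd_iff P hr0, hr, ord_mul P hu0 hs0', hk]
    omega
  obtain ⟨Q, hQ⟩ := h1
  have h4 : ¬ P.asIdeal ∣ Q := by
    rintro ⟨R, hR⟩
    exact h2 ⟨R, by rw [hQ, hR, pow_succ, mul_assoc]⟩
  rw [Ideal.dvd_iff_le] at h4
  obtain ⟨q, hqQ, hqP⟩ := Set.not_subset.1 h4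
  refine ⟨q, hqP, ?_⟩
  have h5 : q * r ∈ Ideal.span {s} := by
    rw [hQ, mul_comm q r]
    refine Ideal.mul_mem_mul ?_ hqQ
    rw [← Ideal.span_singleton_le_iff_mem, ← Ideal.dvd_iff_le]
    exact h3
  obtain ⟨t, ht⟩ := Ideal.mem_span_singleton.1 h5
  refine ⟨t, ?_⟩
  have h6 : algebraMap (𝓞 E) E q * algebraMap (𝓞 E) E r =
      algebraMap (𝓞 E) E s * algebraMap (𝓞 E) E t := by
    rw [← map_mul, ht, map_mul]
  rw [hr] at h6
  apply mul_right_cancel₀ hs0'
  rw [mul_assoc, h6, mul_comm]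

/-- There is an element of given order. -/
theorem exists_ord {E : Type} [Field E] [NumberField E] (P : HeightOneSpectrum (𝓞 E)) (j : ℤ) :
    ∃ z : E, z ≠ 0 ∧ ord P z = j := by
  obtain ⟨z, hz⟩ := P.valuation_surjective E (WithZero.exp (-j))
  refine ⟨z, ?_, ?_⟩
  · rintro rfl
    rw [map_zero] at hz
    exact WithZero.coe_ne_zero hz.symm
  · unfold ord
    rw [hz, WithZero.log_exp]
    ring

/-- Unramified: the local part. -/
theorem kummer_unram {q : ℕ} (h0 : 0 < q) {E E' : Type} [Field E] [NumberField E] [Field E']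
    [NumberField E'] [Algebra E E'] {x : E'} (hx : IntermediateField.adjoin E {x} = ⊤) {b : E}
    (hb : b ≠ 0) (hxb : x ^ q = algebraMap E E' b) (P : HeightOneSpectrum (𝓞 E))
    (hP : (q : 𝓞 E) ∉ P.asIdeal) (hord : (q : ℤ) ∣ ord P b) (P' : HeightOneSpectrum (𝓞 E')) :
    ¬ P'.asIdeal ^ 2 ∣ P.asIdeal.map (algebraMap (𝓞 E) (𝓞 E')) := by
  intro hram
  have hAbove : Above P P' := (dvd_pow_self _ two_ne_zero).trans hram
  haveI := P.isPrime
  haveI := P'.isPrime
  haveI : P.asIdeal.IsMaximal := P.isMaximal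
  obtain ⟨j, hj⟩ := hord
  obtain ⟨z, hz0, hz⟩ := exists_ord P (-j)
  have hu0 : z ^ q * b ≠ 0 := mul_ne_zero (pow_ne_zero _ hz0) hb
  have hou : ord P (z ^ q * b) = 0 := by
    rw [ord_mul P (pow_ne_zero _ hz0) hb, ord_pow P hz0, hz, hj]
    ring
  obtain ⟨t, ht, r, hr⟩ := exists_denom P hu0 hou.ge
  have ht0 : t ≠ 0 := by
    rintro rfl
    exact ht P.asIdeal.zero_mem
  have ht0' : algebraMap (𝓞 E) E t ≠ 0 := by
    rwa [ne_eq, FaithfulSMul.algebraMap_eq_zero_iff]
  have hr0' : algebraMap (𝓞 E) E r ≠ 0 := by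
    rw [← hr]
    exact mul_ne_zero ht0' hu0
  have hr0 : r ≠ 0 := by
    rintro rfl
    exact hr0' (map_zero _)
  have hot : ord P (algebraMap (𝓞 E) E t) = 0 := by
    have h1 := ord_nonneg P t
    have h2 : ¬ 1 ≤ ord P (algebraMap (𝓞 E) E t) := fun h => ht ((ord_pos_iff P ht0).1 h)
    omega
  have hrP : r ∉ P.asIdeal := by
    intro h
    have h1 := (ord_pos_iff P hr0).2 h
    rw [← hr, ord_mul P ht0' hu0, hot, hou] at h1
    omega
  -- the integer `u` and its root
  set u : 𝓞 E := t ^ (q - 1) * r with hu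
  have huP : u ∉ P.asIdeal := by
    intro h
    rcases P.isPrime.mem_or_mem h with h | h
    · exact ht (P.isPrime.mem_of_pow_mem _ h)
    · exact hrP h
  set c : E := algebraMap (𝓞 E) E t * z with hc
  have hc0 : c ≠ 0 := mul_ne_zero ht0' hz0
  set x' : E' := algebraMap E E' c * x with hx'
  have hx'u : x' ^ q = algebraMap E E' (algebraMap (𝓞 E) E u) := by
    rw [hx', mul_pow, hxb, ← map_pow, ← map_mul]
    congr 1
    rw [hu, map_mul, map_pow, ← hr, hc, mul_pow]
    have h1 : algebraMap (𝓞 E) E t ^ q =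
        algebraMap (𝓞 E) E t ^ (q - 1) * algebraMap (𝓞 E) E t := by
      rw [← pow_succ, Nat.sub_add_cancel h0]
    rw [h1]
    ring
  have hint : IsIntegral ℤ x' := by
    refine IsIntegral.of_pow h0 ?_
    rw [hx'u]
    exact (RingOfIntegers.isIntegral_coe u).map (IsScalarTower.toAlgHom ℤ E E')
  set X' : 𝓞 E' := ⟨x', hint⟩ with hX'
  have hXx : algebraMap (𝓞 E') E' X' = x' := rfl
  have hXu : X' ^ q = algebraMap (𝓞 E) (𝓞 E') u := by
    apply FaithfulSMul.algebraMap_injective (𝓞 E') E'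
    rw [map_pow, hXx, hx'u, ← IsScalarTower.algebraMap_apply (𝓞 E) E E',
      ← IsScalarTower.algebraMap_apply (𝓞 E) (𝓞 E') E']
  have htop : IntermediateField.adjoin E {x'} = ⊤ := by
    rw [← top_le_iff, ← hx, IntermediateField.adjoin_simple_le_iff]
    have h1 : x = algebraMap E E' c⁻¹ * x' := by
      rw [hx', ← mul_assoc, ← map_mul, inv_mul_cancel₀ hc0, map_one, one_mul]
    rw [h1]
    exact mul_mem (IntermediateField.algebraMap_mem _ _)
      (IntermediateField.mem_adjoin_simple_self E x')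
  have hadj : Algebra.adjoin E {algebraMap (𝓞 E') E' X'} = ⊤ := by
    rw [hXx, ← IntermediateField.adjoin_simple_toSubalgebra_of_isAlgebraic
      (Algebra.IsAlgebraic.isAlgebraic x'), htop, IntermediateField.top_toSubalgebra]
  have h1 := aeval_derivative_mem_differentIdeal (𝓞 E) E E' X' hadj
  have h2 := pow_sub_one_dvd_differentIdeal (𝓞 E) P'.asIdeal 2 P.ne_bot hram
  have h3 : aeval X' (derivative (minpoly (𝓞 E) X')) ∈ P'.asIdeal := by
    rw [show 2 - 1 = 1 from rfl, pow_one, Ideal.dvd_iff_le] at h2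
    exact h2 h1
  have hintX : IsIntegral (𝓞 E) X' := Algebra.IsIntegral.isIntegral X'
  have h4 : minpoly (𝓞 E) X' ∣ X ^ q - C u := by
    refine minpoly.isIntegrallyClosed_dvd hintX ?_
    rw [map_sub, map_pow, aeval_X, aeval_C, hXu, sub_self]
  obtain ⟨g, hg⟩ := h4
  have h5 : (q : 𝓞 E') * X' ^ (q - 1) =
      aeval X' (derivative (minpoly (𝓞 E) X')) * aeval X' g := by
    have h6 := congrArg (fun p => aeval X' (derivative p)) hg
    simp only [derivative_sub, derivative_X_pow, derivative_C, sub_zero, derivative_mul, map_add,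
      map_mul, map_pow, aeval_X, aeval_C, minpoly.aeval, zero_mul, add_zero, map_natCast] at h6
    exact h6
  have h7 : (q : 𝓞 E') * X' ^ (q - 1) ∈ P'.asIdeal := by
    rw [h5]
    exact Ideal.mul_mem_right _ _ h3
  rcases P'.isPrime.mem_or_mem h7 with h | h
  · apply hP
    rw [← mem_iff_of_above hAbove, map_natCast]
    exact h
  · have h8 : X' ∈ P'.asIdeal := P'.isPrime.mem_of_pow_mem _ h
    apply huP
    rw [← mem_iff_of_above hAbove, ← hXu]
    exact Ideal.pow_mem_of_mem _ h8 _ h0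

/-- The discriminant of a Galois extension ramified only at the divisors of `w`. -/
theorem discr_galois {E E' : Type} [Field E] [NumberField E] [Field E'] [NumberField E']
    [Algebra E E'] [IsGalois E E'] {w m : ℕ} (hw : w ≠ 0) (hm : finrank E E' ≤ m)
    (h : ∀ (P : HeightOneSpectrum (𝓞 E)) (P' : HeightOneSpectrum (𝓞 E')),
      P'.asIdeal ^ 2 ∣ P.asIdeal.map (algebraMap (𝓞 E) (𝓞 E')) → (w : 𝓞 E) ∈ P.asIdeal) :
    |(discr E' : ℝ)| ≤ (|(discr E : ℝ)| * ((m : ℝ) * w) ^ finrank ℚ E) ^ m := by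
  have hL := natAbs_discr_eq_absNorm_differentIdeal_mul_natAbs_discr_pow E (𝓞 E) E' (𝓞 E')
  have hdvd := different_dvd E E' (Ideal.span {(w : 𝓞 E)}) (fun v P hP => by
    rw [Ideal.dvd_span_singleton]
    exact h v P hP)
  have hfr : finrank (𝓞 E) (𝓞 E') = finrank E E' := by
    rw [← IsFractionRing.finrank_eq (𝓞 E) E (𝓞 E') E']
  have hpos : 0 < finrank E E' := finrank_pos
  have hD : 1 ≤ (discr E).natAbs := Int.natAbs_pos.2 (discr_ne_zero E)
  have hnorm : Ideal.absNorm (differentIdeal (𝓞 E) (𝓞 E')) ≤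
      (finrank E E' ^ finrank ℚ E * w ^ finrank ℚ E) ^ finrank E E' := by
    have h1 : Ideal.absNorm (differentIdeal (𝓞 E) (𝓞 E')) ∣ Ideal.absNorm
        (Ideal.span {(finrank E E' : 𝓞 E')} *
          (Ideal.span {(w : 𝓞 E)}).map (algebraMap (𝓞 E) (𝓞 E'))) :=
      Ideal.absNorm_dvd_absNorm_of_le (Ideal.le_of_dvd hdvd)
    rw [map_mul, Ideal.absNorm_span_natCast, Ideal.absNorm_algebraMap,
      Ideal.absNorm_span_natCast, RingOfIntegers.rank, RingOfIntegers.rank,
      ← finrank_mul_finrank ℚ E E', hfr, pow_mul, ← mul_pow] at h1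
    refine Nat.le_of_dvd ?_ h1
    exact pow_pos (Nat.mul_pos (pow_pos hpos _) (pow_pos (Nat.pos_of_ne_zero hw) _)) _
  have h3 : (discr E').natAbs ≤
      ((discr E).natAbs * (m * w) ^ finrank ℚ E) ^ m := by
    rw [hL]
    calc Ideal.absNorm (differentIdeal (𝓞 E) (𝓞 E')) * (discr E).natAbs ^ finrank E E'
        ≤ (finrank E E' ^ finrank ℚ E * w ^ finrank ℚ E) ^ finrank E E' *
            (discr E).natAbs ^ finrank E E' := Nat.mul_le_mul_right _ hnorm
      _ = ((discr E).natAbs * (finrank E E' * w) ^ finrank ℚ E) ^ finrank E E' := by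
          rw [mul_pow (finrank E E') w, mul_pow (discr E).natAbs, mul_comm]
      _ ≤ ((discr E).natAbs * (m * w) ^ finrank ℚ E) ^ finrank E E' := by
          gcongr
      _ ≤ ((discr E).natAbs * (m * w) ^ finrank ℚ E) ^ m := by
          refine Nat.pow_le_pow_right (Nat.mul_pos hD (pow_pos (Nat.mul_pos (by omega)
            (Nat.pos_of_ne_zero hw)) _)) hm
  have h4 : ((discr E').natAbs : ℝ) ≤
      (((discr E).natAbs : ℝ) * ((m : ℝ) * w) ^ finrank ℚ E) ^ m := by
    exact_mod_cast h3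
  rw [Nat.cast_natAbs, Nat.cast_natAbs, Int.cast_abs, Int.cast_abs] at h4
  exact h4

theorem kummer_step {q : ℕ} (h0 : 0 < q) {E : Type} [Field E] [NumberField E] {ζ : E}
    (hζ : IsPrimitiveRoot ζ q) {b : E} (hb : b ≠ 0) {w : ℕ} (hw : w ≠ 0) (hqw : q ∣ w)
    (h : ∀ P : HeightOneSpectrum (𝓞 E), (w : 𝓞 E) ∉ P.asIdeal → (q : ℤ) ∣ ord P b) :
    ∃ (E' : Type) (_ : Field E') (_ : NumberField E') (_ : Algebra E E') (x : E'),
      x ^ q = algebraMap E E' b ∧ finrank ℚ E' ≤ q * finrank ℚ E ∧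
      |(discr E' : ℝ)| ≤ (|(discr E : ℝ)| * ((q : ℝ) * w) ^ finrank ℚ E) ^ q := by
  set p : E[X] := X ^ q - C b with hp
  have hpdeg : p.natDegree = q := natDegree_X_pow_sub_C
  have hp0 : p ≠ 0 := X_pow_sub_C_ne_zero h0 b
  haveI : NumberField p.SplittingField := NumberField.of_module_finite E p.SplittingField
  have hsep : p.Separable := by
    refine separable_X_pow_sub_C b ?_ hb
    exact_mod_cast h0.ne'
  haveI : IsGalois E p.SplittingField := IsGalois.of_separable_splitting_field hsep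
  have hsplit := SplittingField.splits p
  have hdegp : p.degree = q := degree_X_pow_sub_C h0 b
  have hev : ∀ y : p.SplittingField, aeval y p = y ^ q - algebraMap E p.SplittingField b := by
    intro y
    change aeval y (X ^ q - C b : E[X]) = _
    rw [map_sub, map_pow, aeval_X, aeval_C]
  have hdeg0 : (p.map (algebraMap E p.SplittingField)).degree ≠ 0 := by
    rw [degree_map, hdegp]
    exact_mod_cast h0.ne'
  obtain ⟨x, hx⟩ := hsplit.exists_eval_eq_zero hdeg0
  have hxb : x ^ q = algebraMap E p.SplittingField b := by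
    rw [eval_map_algebraMap, hev, sub_eq_zero] at hx
    exact hx
  have hx0 : x ≠ 0 := by
    rintro rfl
    rw [zero_pow h0.ne'] at hxb
    exact hb (FaithfulSMul.algebraMap_injective E p.SplittingField (by rw [← hxb, map_zero]))
  have hζ' : IsPrimitiveRoot (algebraMap E p.SplittingField ζ) q :=
    hζ.map_of_injective (FaithfulSMul.algebraMap_injective E p.SplittingField)
  have htop : IntermediateField.adjoin E {x} = ⊤ := by
    have h1 : IntermediateField.adjoin E (p.rootSet p.SplittingField) = ⊤ := by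
      have h2 := SplittingField.adjoin_rootSet p
      rw [← top_le_iff]
      intro y _
      have h3 : y ∈ Algebra.adjoin E (p.rootSet p.SplittingField) := by
        rw [h2]
        exact Algebra.mem_top
      exact IntermediateField.algebra_adjoin_le_adjoin E _ h3
    rw [← top_le_iff, ← h1, IntermediateField.adjoin_le_iff]
    intro y hy
    rw [mem_rootSet] at hy
    have hy1 : y ^ q = algebraMap E p.SplittingField b := by
      have h2 := hy.2
      rw [hev, sub_eq_zero] at h2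
      exact h2
    have hy2 : (y / x) ^ q = 1 := by
      rw [div_pow, hy1, hxb, div_self]
      rw [← hxb]
      exact pow_ne_zero _ hx0
    haveI : NeZero q := ⟨h0.ne'⟩
    obtain ⟨i, -, hi⟩ := hζ'.eq_pow_of_pow_eq_one hy2
    have hy3 : y = algebraMap E p.SplittingField (ζ ^ i) * x := by
      rw [map_pow, hi, div_mul_cancel₀ _ hx0]
    rw [hy3]
    exact mul_mem (IntermediateField.algebraMap_mem _ _)
      (IntermediateField.mem_adjoin_simple_self E x)
  have hfin : finrank E p.SplittingField ≤ q := by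
    have h1 : finrank E (IntermediateField.adjoin E {x}) = (minpoly E x).natDegree :=
      IntermediateField.adjoin.finrank (Algebra.IsIntegral.isIntegral x)
    rw [htop, IntermediateField.finrank_top'] at h1
    rw [h1, ← hpdeg]
    refine natDegree_le_of_dvd (minpoly.dvd E x ?_) hp0
    rw [hev, hxb, sub_self]
  refine ⟨p.SplittingField, inferInstance, inferInstance, inferInstance, x, hxb, ?_, ?_⟩
  · rw [← finrank_mul_finrank ℚ E p.SplittingField, mul_comm]
    exact Nat.mul_le_mul_right _ hfin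
  · refine discr_galois hw hfin (fun P P' hPP => ?_)
    by_contra hcon
    have hqP : (q : 𝓞 E) ∉ P.asIdeal := by
      intro h1
      apply hcon
      obtain ⟨k, rfl⟩ := hqw
      rw [Nat.cast_mul]
      exact Ideal.mul_mem_right _ _ h1
    exact kummer_unram h0 htop hb hxb P hqP (h P hcon) P' hPP

end FreyCyc
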