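import Pool.Agent.Lib.MP_6babc4_nt.Cyc.Enu
import Pool.Agent.Lib.MP_6babc4_nt.Cyc.Arc

/-!
# Module Main: the theorem

PROOF. Let `C₁, C` be the constants of `height_le` and `A, C₂` those of `cr_count` for
`ε' = ε / (2 (n + 1))`; `κ = 2 (n + 1) A C₁ / ε`, `Y = H^(C₁/κ) ≥ 1`. If `f ∈ Fam K N q n H` violates
`Frey N q κ c f`, `c ≥ C`, then `|D_K| cond ≤ Y` (see `main_vio` in Sp/Main). Let
`S = CRset K σ N q n H Y`, a finite set with at most `C₂ Y^A H^ε'` elements, so `S ∪ {0}` has at most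
`2 C₂ Y^A H^ε'`. By `code_exists` each violator has a code `(m, w, r)`, `m ≤ n + 1`; only the values
`w j, r j` for `j < m ≤ n + 1` matter (`Code` depends on nothing else), so the code is an element of
`Fin (n + 2) × (Fin (n + 1) → Fin N) × (Fin (n + 1) → S ∪ {0})`, of cardinality at most
`(n + 2) N^(n+1) (2 C₂ Y^A H^ε')^(n+1) = C₃ H^(A (n+1) C₁/κ + (n+1) ε') = C₃ H^ε`. `T` contains one
violator for each code that occurs, `code_iso`.
-/

set_option autoImplicit false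

open Polynomial NumberField IsDedekindDomain Module

namespace FreyCyc

open FreySparse

private lemma Main_vio {N q : ℕ} {κ c C C₁ : ℝ} (hκ : 0 < κ) (hc : C ≤ c) {K : Type} [Field K]
    [NumberField K] {H : ℝ} (hH : 1 ≤ H) {f : ℕ → (𝓞 K)[X]}
    (hh : height N f ≤ C₁ * Real.log H + C) (hF : ¬ Frey N q κ c f) :
    |(NumberField.discr K : ℝ)| * cond N q f ≤ H ^ (C₁ / κ) := by
  unfold Frey at hF
  push Not at hF
  have h1 : κ * Real.log (|(NumberField.discr K : ℝ)| * cond N q f) < C₁ * Real.log H := by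
    linarith
  have hD : 1 ≤ |(NumberField.discr K : ℝ)| := by
    have h := Int.one_le_abs (NumberField.discr_ne_zero K)
    rw [← Int.cast_abs]
    exact_mod_cast h
  have hcd : (1 : ℝ) ≤ cond N q f := by exact_mod_cast cond_pos N q f
  have hpos : 0 < |(NumberField.discr K : ℝ)| * cond N q f := by positivity
  have hH0 : 0 < H := by linarith
  have h2 : Real.log (|(NumberField.discr K : ℝ)| * cond N q f) < C₁ / κ * Real.log H := by
    have h3 : C₁ / κ * Real.log H = (C₁ * Real.log H) / κ := by ring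
    rw [h3, lt_div_iff₀ hκ]
    linarith
  rw [← Real.log_rpow hH0] at h2
  exact ((Real.log_lt_log_iff hpos (Real.rpow_pos_of_pos hH0 _)).1 h2).le

/-- The extension of a tuple by zero. -/
private def Main_ext {α : Type} [Zero α] (n : ℕ) (w : Fin (n + 1) → α) (j : ℕ) : α :=
  if h : j < n + 1 then w ⟨j, h⟩ else 0

private lemma Main_ext_eq {α : Type} [Zero α] {n : ℕ} (w : ℕ → α) {j : ℕ} (h : j < n + 1) :
    Main_ext n (fun i : Fin (n + 1) => w i) j = w j := by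
  unfold Main_ext
  rw [dif_pos h]

private lemma Main_code {K : Type} [Field K] [NumberField K] {σ : K →+* ℂ} {N n : ℕ}
    {f : ℕ → (𝓞 K)[X]} {m : ℕ} {w : ℕ → ℕ} {r : ℕ → ℂ} (hm : m ≤ n + 1) (h : Code σ N f m w r) :
    Code σ N f m (Main_ext n fun i : Fin (n + 1) => w i)
      (Main_ext n fun i : Fin (n + 1) => r i) := by
  obtain ⟨h3, z, hz, hb, hr⟩ := h
  refine ⟨h3, z, hz, fun i hi => ?_, fun j h3j hjm => ?_⟩
  · rw [hb i hi]
    ext x
    constructor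
    · rintro ⟨j, hj, hw, hx⟩
      exact ⟨j, hj, (Main_ext_eq w (by omega)).trans hw, hx⟩
    · rintro ⟨j, hj, hw, hx⟩
      exact ⟨j, hj, (Main_ext_eq w (by omega)).symm.trans hw, hx⟩
  · rw [Main_ext_eq r (by omega)]
    exact hr j h3j hjm

/-- The number of the classes is at most the number of the codes. -/
private lemma Main_classes {K : Type} [Field K] [NumberField K] (σ : K →+* ℂ) {N q n : ℕ}
    (hn : 3 ≤ n) {H Y : ℝ} {S : Finset ℂ} (hS : CRset K σ N q n H Y ⊆ (S : Set ℂ)) :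
    ∃ T : Finset (ℕ → (𝓞 K)[X]), T.card ≤ (n + 2) * (N ^ (n + 1) * (S.card + 1) ^ (n + 1)) ∧
      ∀ f ∈ Fam K N q n H, |(discr K : ℝ)| * cond N q f ≤ Y →
        ∃ g ∈ T, Iso N (im σ f) (im σ g) := by
  classical
  obtain ⟨P, hP⟩ : ∃ P : Finset (ℕ × (Fin (n + 1) → ℕ) × (Fin (n + 1) → ℂ)),
      P = Finset.range (n + 2) ×ˢ (Fintype.piFinset (fun _ : Fin (n + 1) => Finset.range N) ×ˢ
        Fintype.piFinset (fun _ : Fin (n + 1) => insert (0 : ℂ) S)) := ⟨_, rfl⟩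
  have hPc : P.card ≤ (n + 2) * (N ^ (n + 1) * (S.card + 1) ^ (n + 1)) := by
    rw [hP, Finset.card_product, Finset.card_product, Fintype.card_piFinset_const,
      Fintype.card_piFinset_const, Finset.card_range, Finset.card_range]
    exact Nat.mul_le_mul_left _ (Nat.mul_le_mul_left _
      (Nat.pow_le_pow_left (Finset.card_insert_le _ _) _))
  obtain ⟨g, hg⟩ : ∃ g : ℕ × (Fin (n + 1) → ℕ) × (Fin (n + 1) → ℂ) → (ℕ → (𝓞 K)[X]),
      ∀ t, (∃ f, Code σ N f t.1 (Main_ext n t.2.1) (Main_ext n t.2.2)) →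
        Code σ N (g t) t.1 (Main_ext n t.2.1) (Main_ext n t.2.2) := by
    refine ⟨fun t => if h : ∃ f, Code σ N f t.1 (Main_ext n t.2.1) (Main_ext n t.2.2) then h.choose
      else fun _ => 0, fun t ht => ?_⟩
    show Code σ N (if h : ∃ f, Code σ N f t.1 (Main_ext n t.2.1) (Main_ext n t.2.2) then h.choose
      else fun _ => 0) t.1 _ _
    rw [dif_pos ht]
    exact ht.choose_spec
  refine ⟨P.image g, Finset.card_image_le.trans hPc, fun f hf hY => ?_⟩
  obtain ⟨m, w, r, hm, hw, hr, hcode⟩ := code_exists σ hn hf hY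
  have hc := Main_code hm hcode
  refine ⟨g (m, (fun i : Fin (n + 1) => w i), (fun i : Fin (n + 1) => r i)), ?_, ?_⟩
  · refine Finset.mem_image_of_mem _ ?_
    rw [hP, Finset.mem_product, Finset.mem_product, Fintype.mem_piFinset, Fintype.mem_piFinset]
    refine ⟨?_, fun i => ?_, fun i => ?_⟩
    · rw [Finset.mem_range]
      show m < n + 2
      omega
    · rw [Finset.mem_range]
      exact hw _
    · rw [Finset.mem_insert]
      rcases hr (i : ℕ) with h | h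
      · exact Or.inl h
      · exact Or.inr (hS h)
  · exact code_iso hc (hg (m, (fun i : Fin (n + 1) => w i), (fun i : Fin (n + 1) => r i)) ⟨f, hc⟩)

theorem main (d n N q : ℕ) (h3 : 3 ≤ q) (hn : 3 ≤ n) {ε : ℝ} (hε : 0 < ε) :
    ∃ κ c : ℝ, ∀ (K : Type) [Field K] [NumberField K], finrank ℚ K = d → ∀ σ : K →+* ℂ,
      ∀ H : ℝ, 1 ≤ H → ∃ T : Finset (ℕ → (𝓞 K)[X]), (T.card : ℝ) ≤ c * H ^ ε ∧
        ∀ f ∈ Fam K N q n H, ¬ Frey N q κ c f → ∃ g ∈ T, Iso N (im σ f) (im σ g) := by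
  classical
  by_cases hN : N = 0
  · refine ⟨0, 0, fun K _ _ _ σ H hH => ⟨∅, ?_, fun f hf _ => ?_⟩⟩
    · rw [Finset.card_empty, Nat.cast_zero, zero_mul]
    · exfalso
      have h1 := hf.2.2.1
      rw [hN] at h1
      have h2 : tot 0 f = 1 := by
        unfold tot
        rw [Finset.Ico_eq_empty (by omega), Finset.prod_empty]
      rw [h2, natDegree_one] at h1
      omega
  have hn1 : (0 : ℝ) < (n : ℝ) + 1 := by positivity
  obtain ⟨C₁, C, hC₁, hC, hh⟩ := height_le n N q hn hN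
  obtain ⟨ε', hε'⟩ : ∃ ε' : ℝ, ε' = ε / (2 * ((n : ℝ) + 1)) := ⟨_, rfl⟩
  have hε'0 : 0 < ε' := by
    rw [hε']
    positivity
  obtain ⟨A, C₂, hA, hC₂, hcount⟩ := cr_count d n N q hN h3 hε'0
  obtain ⟨κ, hκ⟩ : ∃ κ : ℝ, κ = 2 * ((n : ℝ) + 1) * A * C₁ / ε := ⟨_, rfl⟩
  have hκ0 : 0 < κ := by
    rw [hκ]
    positivity
  obtain ⟨C₃, hC₃⟩ : ∃ C₃ : ℝ, C₃ = ((n : ℝ) + 2) * ((N : ℝ) ^ (n + 1) * (2 * C₂) ^ (n + 1)) :=
    ⟨_, rfl⟩
  have hC₃0 : 0 ≤ C₃ := by
    rw [hC₃]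
    positivity
  refine ⟨κ, C + C₃, fun K _ _ hd σ H hH => ?_⟩
  have hH0 : 0 < H := by linarith
  obtain ⟨Y, hY⟩ : ∃ Y : ℝ, Y = H ^ (C₁ / κ) := ⟨_, rfl⟩
  have hY1 : 1 ≤ Y := by
    rw [hY]
    exact Real.one_le_rpow hH (by positivity)
  obtain ⟨hfin, hcard⟩ := hcount K hd σ H Y hH hY1
  obtain ⟨T, hT, hTf⟩ := Main_classes σ (N := N) (q := q) hn (H := H) (Y := Y)
    (S := hfin.toFinset) (by rw [Set.Finite.coe_toFinset])
  refine ⟨T, ?_, fun f hf hF => hTf f hf ?_⟩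
  swap
  · rw [hY]
    exact Main_vio hκ0 (by linarith) hH (hh K H hH f hf) hF
  rw [← Set.ncard_eq_toFinset_card _ hfin] at hT
  have hT' : (T.card : ℝ) ≤ ((n : ℝ) + 2) *
      ((N : ℝ) ^ (n + 1) * (((CRset K σ N q n H Y).ncard : ℝ) + 1) ^ (n + 1)) := by
    exact_mod_cast hT
  have hYA : 1 ≤ Y ^ A := Real.one_le_rpow hY1 hA.le
  have hHε : 1 ≤ H ^ ε' := Real.one_le_rpow hH hε'0.le
  have h1 : 1 ≤ C₂ * Y ^ A * H ^ ε' :=
    one_le_mul_of_one_le_of_one_le (one_le_mul_of_one_le_of_one_le hC₂ hYA) hHε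
  have h2 : ((CRset K σ N q n H Y).ncard : ℝ) + 1 ≤ 2 * C₂ * (Y ^ A * H ^ ε') := by linarith
  have h4 : (Y ^ A * H ^ ε') ^ (n + 1) = H ^ ε := by
    rw [hY, ← Real.rpow_mul hH0.le, ← Real.rpow_add hH0, ← Real.rpow_natCast,
      ← Real.rpow_mul hH0.le]
    congr 1
    rw [hκ, hε']
    push_cast
    field_simp
    ring
  calc (T.card : ℝ) ≤ ((n : ℝ) + 2) *
        ((N : ℝ) ^ (n + 1) * (2 * C₂ * (Y ^ A * H ^ ε')) ^ (n + 1)) := by
        refine hT'.trans ?_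
        gcongr
    _ = C₃ * H ^ ε := by
        rw [hC₃, mul_pow (2 * C₂), h4]
        ring
    _ ≤ (C + C₃) * H ^ ε := by
        refine mul_le_mul_of_nonneg_right (by linarith) (Real.rpow_nonneg hH0.le _)

end FreyCyc
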