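import Pool.Agent.Lib.MP_6babc4_nt.Cyc.Defs

/-!
# Module Mob: Möbius transformations and cross ratios

`Code σ N f m w r`: the branch points over `ℂ` of the curve of `f` (under `σ`) can be numbered
`z 0, ..., z (m - 1)` with weights `w j` and cross ratios `r j = cr (z 0) (z 1) (z 2) (z j)`, `j ≥ 3`.

PROOFS.
* `mobius`: for distinct `a, b, c` the map `z ↦ cr a b c z`, i.e.
  `(dt a b · dt c z : dt a c · dt b z)`, is given by the matrix
  `!![-dt a b * c₂, dt a b * c₁; -dt a c * b₂, dt a c * b₁]` (`vec b = (b₁, b₂)`, ...) of determinant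
  `dt a b * dt a c * dt b c * (± 1) ≠ 0`; it maps `a ↦ 1`, `b ↦ ∞`, `c ↦ 0` and `z ↦ cr a b c z` for
  `z ≠ b`. Let `M, M'` be the matrices for `(a, b, c)` and `(a', b', c')`; `g = M'⁻¹ M`:
  `g • z = z'` iff `M • z = M' • z'`.
* `code_iso`: `mobius` for the first three points.
-/

set_option autoImplicit false

open Polynomial NumberField Module

namespace FreyCyc

private lemma Mob_smul {F : Type*} [Field F] [DecidableEq F] (g : Matrix.GeneralLinearGroup (Fin 2) F)
    (z : OnePoint F) : g • z =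
      if g 1 0 * (vec z).1 + g 1 1 * (vec z).2 = 0 then OnePoint.infty
      else (((g 0 0 * (vec z).1 + g 0 1 * (vec z).2) / (g 1 0 * (vec z).1 + g 1 1 * (vec z).2) : F) :
        OnePoint F) := by
  cases z with
  | infty =>
    rw [OnePoint.smul_infty_eq_ite]
    simp [vec]
  | coe k =>
    rw [OnePoint.smul_some_eq_ite]
    simp [vec]

private lemma Mob_dt {F : Type*} [Field F] (x y : OnePoint F) : dt x y = 0 ↔ x = y := by
  cases x with
  | infty =>
    cases y with
    | infty => simp [dt, vec]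
    | coe b => simp [dt, vec]
  | coe a =>
    cases y with
    | infty => simp [dt, vec]
    | coe b => simp [dt, vec, sub_eq_zero]

private lemma Mob_dt_swap {F : Type*} [Field F] (x y : OnePoint F) : dt x y = - dt y x := by
  unfold dt
  ring

private lemma Mob_std {F : Type*} [Field F] [DecidableEq F] {a b c : OnePoint F} (hab : a ≠ b)
    (hac : a ≠ c) (hbc : b ≠ c) : ∃ g : Matrix.GeneralLinearGroup (Fin 2) F,
      g • b = OnePoint.infty ∧ ∀ z : OnePoint F, z ≠ b → g • z = ((cr a b c z : F) : OnePoint F) := by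
  have h1 : dt a b ≠ 0 := fun h => hab ((Mob_dt a b).mp h)
  have h2 : dt a c ≠ 0 := fun h => hac ((Mob_dt a c).mp h)
  have h3 : dt b c ≠ 0 := fun h => hbc ((Mob_dt b c).mp h)
  set M : Matrix (Fin 2) (Fin 2) F := !![-dt a b * (vec c).2, dt a b * (vec c).1;
    -dt a c * (vec b).2, dt a c * (vec b).1] with hM
  have hdet : M.det ≠ 0 := by
    have h4 : M.det = - (dt a b * dt a c * dt b c) := by
      rw [hM, Matrix.det_fin_two_of]
      have h5 : dt b c = (vec b).1 * (vec c).2 - (vec b).2 * (vec c).1 := rfl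
      rw [h5]
      ring
    rw [h4]
    exact neg_ne_zero.mpr (mul_ne_zero (mul_ne_zero h1 h2) h3)
  have hdet' : IsUnit M.det := isUnit_iff_ne_zero.mpr hdet
  have hg : ∀ z : OnePoint F, (Matrix.GeneralLinearGroup.mkOfDetNeZero M hdet) • z =
      if dt a c * dt b z = 0 then OnePoint.infty else ((cr a b c z : F) : OnePoint F) := by
    intro z
    rw [Mob_smul]
    have e00 : (Matrix.GeneralLinearGroup.mkOfDetNeZero M hdet) 0 0 = -dt a b * (vec c).2 := rfl
    have e01 : (Matrix.GeneralLinearGroup.mkOfDetNeZero M hdet) 0 1 = dt a b * (vec c).1 := rfl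
    have e10 : (Matrix.GeneralLinearGroup.mkOfDetNeZero M hdet) 1 0 = -dt a c * (vec b).2 := rfl
    have e11 : (Matrix.GeneralLinearGroup.mkOfDetNeZero M hdet) 1 1 = dt a c * (vec b).1 := rfl
    rw [e00, e01, e10, e11]
    have h4 : -dt a c * (vec b).2 * (vec z).1 + dt a c * (vec b).1 * (vec z).2 =
        dt a c * dt b z := by
      have h5 : dt b z = (vec b).1 * (vec z).2 - (vec b).2 * (vec z).1 := rfl
      rw [h5]
      ring
    have h6 : -dt a b * (vec c).2 * (vec z).1 + dt a b * (vec c).1 * (vec z).2 =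
        dt a b * dt c z := by
      have h5 : dt c z = (vec c).1 * (vec z).2 - (vec c).2 * (vec z).1 := rfl
      rw [h5]
      ring
    rw [h4, h6]
    rfl
  refine ⟨Matrix.GeneralLinearGroup.mkOfDetNeZero M hdet, ?_, ?_⟩
  · rw [hg, if_pos]
    rw [(Mob_dt b b).mpr rfl, mul_zero]
  · intro z hz
    rw [hg, if_neg]
    exact mul_ne_zero h2 fun h => hz ((Mob_dt b z).mp h).symm

private lemma Mob_aux {F : Type*} [Field F] [DecidableEq F] {a b c a' b' c' : OnePoint F}
    (hab : a ≠ b) (hac : a ≠ c) (hbc : b ≠ c) (hab' : a' ≠ b') (hac' : a' ≠ c') (hbc' : b' ≠ c') :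
    ∃ g : Matrix.GeneralLinearGroup (Fin 2) F, g • a = a' ∧ g • b = b' ∧ g • c = c' ∧
      ∀ z z' : OnePoint F, z ≠ b → z' ≠ b' → cr a b c z = cr a' b' c' z' → g • z = z' := by
  obtain ⟨g, hg1, hg2⟩ := Mob_std hab hac hbc
  obtain ⟨g', hg1', hg2'⟩ := Mob_std hab' hac' hbc'
  have key : ∀ z z' : OnePoint F, z ≠ b → z' ≠ b' → cr a b c z = cr a' b' c' z' →
      (g'⁻¹ * g) • z = z' := by
    intro z z' hz hz' h
    rw [mul_smul, hg2 z hz, h, ← hg2' z' hz', inv_smul_smul]
  have hone : ∀ {x y w : OnePoint F}, x ≠ y → x ≠ w → cr x y w x = 1 := by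
    intro x y w h1 h2
    have h3 : dt x y ≠ 0 := fun h => h1 ((Mob_dt x y).mp h)
    have h4 : dt x w ≠ 0 := fun h => h2 ((Mob_dt x w).mp h)
    unfold cr
    rw [Mob_dt_swap w x, Mob_dt_swap y x]
    field_simp
  have hzero : ∀ {x y w : OnePoint F}, cr x y w w = 0 := by
    intro x y w
    unfold cr
    rw [(Mob_dt w w).mpr rfl, mul_zero, zero_div]
  refine ⟨g'⁻¹ * g, ?_, ?_, ?_, key⟩
  · exact key a a' hab hab' (by rw [hone hab hac, hone hab' hac'])
  · rw [mul_smul, hg1, ← hg1', inv_smul_smul]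
  · exact key c c' hbc.symm hbc'.symm (by rw [hzero, hzero])

open Classical in
theorem mobius {F : Type*} [Field F] {a b c a' b' c' : OnePoint F} (hab : a ≠ b) (hac : a ≠ c)
    (hbc : b ≠ c) (hab' : a' ≠ b') (hac' : a' ≠ c') (hbc' : b' ≠ c') :
    ∃ g : Matrix.GeneralLinearGroup (Fin 2) F, g • a = a' ∧ g • b = b' ∧ g • c = c' ∧
      ∀ z z' : OnePoint F, z ≠ b → z' ≠ b' → cr a b c z = cr a' b' c' z' → g • z = z' :=
  Mob_aux hab hac hbc hab' hac' hbc'

variable {K : Type} [Field K] [NumberField K]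

/-- A numbering of the branch points, with the weights `w` and the cross ratios `r`. -/
def Code (σ : K →+* ℂ) (N : ℕ) (f : ℕ → (𝓞 K)[X]) (m : ℕ) (w : ℕ → ℕ) (r : ℕ → ℂ) : Prop :=
  3 ≤ m ∧ ∃ z : ℕ → OnePoint ℂ, Set.InjOn z (Set.Iio m) ∧
    (∀ i ∈ Finset.Ico 1 N, branch N (im σ f) i = {x | ∃ j < m, w j = i ∧ x = z j}) ∧
    ∀ j, 3 ≤ j → j < m → r j = cr (z 0) (z 1) (z 2) (z j)

theorem code_iso {σ : K →+* ℂ} {N : ℕ} {f g : ℕ → (𝓞 K)[X]} {m : ℕ} {w : ℕ → ℕ} {r : ℕ → ℂ}
    (hf : Code σ N f m w r) (hg : Code σ N g m w r) : Iso N (im σ f) (im σ g) := by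
  obtain ⟨hm, z, hz, hb, hr⟩ := hf
  obtain ⟨_, z', hz', hb', hr'⟩ := hg
  have hne : ∀ i j : ℕ, i < m → j < m → i ≠ j → z i ≠ z j := fun i j hi hj h he =>
    h (hz (Set.mem_Iio.mpr hi) (Set.mem_Iio.mpr hj) he)
  have hne' : ∀ i j : ℕ, i < m → j < m → i ≠ j → z' i ≠ z' j := fun i j hi hj h he =>
    h (hz' (Set.mem_Iio.mpr hi) (Set.mem_Iio.mpr hj) he)
  unfold Iso
  obtain ⟨γ, h0, h1, h2, h3⟩ := Mob_aux (hne 0 1 (by omega) (by omega) (by omega))
    (hne 0 2 (by omega) (by omega) (by omega)) (hne 1 2 (by omega) (by omega) (by omega))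
    (hne' 0 1 (by omega) (by omega) (by omega)) (hne' 0 2 (by omega) (by omega) (by omega))
    (hne' 1 2 (by omega) (by omega) (by omega))
  have hall : ∀ j, j < m → γ • z j = z' j := by
    intro j hj
    rcases Nat.lt_or_ge j 3 with h | h
    · interval_cases j
      · exact h0
      · exact h1
      · exact h2
    · exact h3 _ _ (hne j 1 hj (by omega) (by omega)) (hne' j 1 hj (by omega) (by omega))
        ((hr j h hj).symm.trans (hr' j h hj))
  refine ⟨γ, ?_⟩
  intro i hi x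
  rw [hb i hi, hb' i hi]
  constructor
  · rintro ⟨j, hj, hw, rfl⟩
    exact ⟨j, hj, hw, hall j hj⟩
  · rintro ⟨j, hj, hw, hx⟩
    refine ⟨j, hj, hw, ?_⟩
    rw [← hall j hj] at hx
    exact MulAction.injective γ hx

end FreyCyc
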