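import Pool.Agent.Lib.MP_6babc4_nt.Cyc.Defs
import Pool.Agent.Lib.MP_6babc4_nt.Sp.Bas

/-!
# Module Stp: the step of the descent, algebra and orders

The step: if `a ≠ 0, 1`, `x ^ q = a`, `y ^ q = a - 1` and `t = x / y` then `t ^ q = a / (a - 1)` and the
new number is `stp ζ t = ζ (t - 1) / ((1 + ζ) (t - ζ)) = ζ (x - y) / ((1 + ζ) (x - ζ y))`.

PROOFS. `q ≥ 3` is an integer, `ζ` a primitive `q`-th root of unity, so `1 + ζ ≠ 0` (otherwise
`ζ^2 = 1`).
* `t_ne`: `(ζ^j)^q = 1` but `t^q = a/(a-1) ≠ 1`.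
* `stp_ne`: `stp = 0` iff `t = 1` (or `t = ζ`), and
  `1 - stp ζ t = (t - ζ^2) / ((1 + ζ)(t - ζ))` (`field_simp; ring`).
* `chain_unique`: induction on `k`, `stp ζ` is injective on `t ≠ ζ` (cross-multiply, the determinant
  `ζ(1+ζ)(1-ζ)` is not zero), and `a/(a-1) = a'/(a'-1)` gives `a = a'`.
* `ord_eq`: `∏_(j < q) (x - ζ^j y) = x^q - y^q = 1` (`IsPrimitiveRoot.pow_sub_pow_eq_prod_sub_mul`
  or the version with `nthRootsFinset`; `X_pow_sub_one_eq_prod`), `w_j = x - ζ^j y`. `P` does not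
  contain `q`, so `ord P (ζ^i - ζ^j) = 0` for `i ≢ j` mod `q` (`∏_(j=1..q-1) (1 - ζ^j) = q`, all the
  factors integral: `IsPrimitiveRoot.prod_one_sub_pow_eq_order` or similar). If `ord P x ≥ 0` and
  `ord P y ≥ 0` then all `ord P w_j ≥ 0` with sum `0`, so all are `0`. Otherwise `x^q - y^q = 1` gives
  `ord P x = ord P y = -m < 0` (if only one were negative the order of the difference would be
  `q` times it, not `0`), all `ord P w_j ≥ -m`, `w_i - w_j = (ζ^j - ζ^i) y` has order `-m`, so at most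
  one `j` has `ord P w_j > -m`; the sum of all orders is `0`, so exactly one, of order
  `(q - 1) m ≡ -m` mod `q`.
* `stp_ord`: `stp ζ (x/y) = ζ w_0 / ((1 + ζ) w_1)`, `stp - 1 = - w_2 / ((1 + ζ) w_1)`, and
  `ord P (1 + ζ) = 0` (`1 - ζ^2 = (1 - ζ)(1 + ζ)`), `ord P ζ = 0`. (`w_0, w_1, w_2 ≠ 0`: their product
  with the others is `1`.)
-/

set_option autoImplicit false

open Polynomial NumberField IsDedekindDomain Module

namespace FreyCyc

open FreySparse

/-- The Möbius map of the step. -/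
def stp {E : Type*} [Field E] (ζ t : E) : E := ζ * (t - 1) / ((1 + ζ) * (t - ζ))

/-- The chain of `k` steps from `a` to `b`. -/
def Chain {E : Type*} [Field E] (q : ℕ) (ζ : E) : ℕ → E → E → Prop
  | 0, a, b => a = b
  | k + 1, a, b => ∃ t : E, a ≠ 0 ∧ a ≠ 1 ∧ t ^ q = a / (a - 1) ∧ Chain q ζ k (stp ζ t) b

section algebra

variable {E : Type*} [Field E] [CharZero E] {q : ℕ} {ζ : E}

theorem one_add_ne (h3 : 3 ≤ q) (hζ : IsPrimitiveRoot ζ q) : 1 + ζ ≠ 0 := by
  intro h
  have h1 : ζ = -1 := by linear_combination h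
  have h2 : ζ ^ 2 = 1 := by rw [h1]; norm_num
  have h4 := Nat.le_of_dvd (by norm_num) ((hζ.pow_eq_one_iff_dvd 2).mp h2)
  omega

theorem t_ne (hζ : IsPrimitiveRoot ζ q) {a t : E} (h1 : a ≠ 1)
    (h : t ^ q = a / (a - 1)) (j : ℕ) : t ≠ ζ ^ j := by
  rintro rfl
  have h2 : (ζ ^ j) ^ q = 1 := by rw [← pow_mul, mul_comm, pow_mul, hζ.pow_eq_one, one_pow]
  rw [h2, eq_div_iff (sub_ne_zero.mpr h1), one_mul] at h
  have h4 : (1 : E) = 0 := by linear_combination -h
  exact one_ne_zero h4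

theorem stp_ne (h3 : 3 ≤ q) (hζ : IsPrimitiveRoot ζ q) {t : E}
    (ht : ∀ j : ℕ, t ≠ ζ ^ j) : stp ζ t ≠ 0 ∧ stp ζ t ≠ 1 := by
  have h1 := one_add_ne h3 hζ
  have h2 : t - ζ ≠ 0 := by
    have := ht 1
    rw [pow_one] at this
    exact sub_ne_zero.mpr this
  have h4 : t - 1 ≠ 0 := by
    have := ht 0
    rw [pow_zero] at this
    exact sub_ne_zero.mpr this
  have h5 : ζ ≠ 0 := hζ.ne_zero (by omega)
  unfold stp
  refine ⟨div_ne_zero (mul_ne_zero h5 h4) (mul_ne_zero h1 h2), ?_⟩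
  rw [Ne, div_eq_one_iff_eq (mul_ne_zero h1 h2)]
  intro h
  apply ht 2
  linear_combination -h

theorem chain_unique (h3 : 3 ≤ q) (hζ : IsPrimitiveRoot ζ q) (k : ℕ) {a a' b : E}
    (h : Chain q ζ k a b) (h' : Chain q ζ k a' b) : a = a' := by
  induction k generalizing a a' with
  | zero => exact (show a = b from h).trans (show a' = b from h').symm
  | succ k ih =>
    obtain ⟨t, h0, h1, ht, hc⟩ := h
    obtain ⟨t', h0', h1', ht', hc'⟩ := h'
    have e1 := ih hc hc'
    have hn := one_add_ne h3 hζ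
    have h2 : t - ζ ≠ 0 := by
      have := t_ne hζ h1 ht 1
      rw [pow_one] at this
      exact sub_ne_zero.mpr this
    have h2' : t' - ζ ≠ 0 := by
      have := t_ne hζ h1' ht' 1
      rw [pow_one] at this
      exact sub_ne_zero.mpr this
    have h5 : ζ ≠ 0 := hζ.ne_zero (by omega)
    have h6 : 1 - ζ ≠ 0 := by
      intro h
      have h7 : ζ ^ 1 = 1 := by rw [pow_one]; linear_combination -h
      have := Nat.le_of_dvd one_pos ((hζ.pow_eq_one_iff_dvd 1).mp h7)
      omega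
    have e2 : t = t' := by
      unfold stp at e1
      rw [div_eq_div_iff (mul_ne_zero hn h2) (mul_ne_zero hn h2')] at e1
      have e3 : ζ * (1 + ζ) * (1 - ζ) * (t - t') = 0 := by linear_combination e1
      have e4 : t - t' = 0 := by
        rcases mul_eq_zero.mp e3 with e5 | e5
        · exact absurd e5 (mul_ne_zero (mul_ne_zero h5 hn) h6)
        · exact e5
      linear_combination e4
    rw [e2] at ht
    rw [ht, div_eq_div_iff (sub_ne_zero.mpr h1) (sub_ne_zero.mpr h1')] at ht'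
    linear_combination -ht'

/-- The chain under a homomorphism of fields. -/
theorem chain_map {F : Type*} [Field F] (φ : E →+* F) (k : ℕ) {a b : E}
    (h : Chain q ζ k a b) : Chain q (φ ζ) k (φ a) (φ b) := by
  induction k generalizing a with
  | zero => exact congrArg φ (show a = b from h)
  | succ k ih =>
    obtain ⟨t, h0, h1, ht, hc⟩ := h
    refine ⟨φ t, (map_ne_zero φ).mpr h0, ?_, ?_, ?_⟩
    · intro h
      apply h1
      apply φ.injective
      rw [h, map_one]
    · rw [← map_pow, ht, map_div₀, map_sub, map_one]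
    · have h2 : φ (stp ζ t) = stp (φ ζ) (φ t) := by
        unfold stp
        simp only [map_div₀, map_mul, map_sub, map_add, map_one]
      rw [← h2]
      exact ih hc

end algebra

section orders

variable {E : Type*} [Field E] [NumberField E] {q : ℕ} {ζ : E}

private lemma stp_ord_div (P : HeightOneSpectrum (𝓞 E)) {x y : E} (hx : x ≠ 0) (hy : y ≠ 0) :
    ord P (x / y) = ord P x - ord P y := by
  have h1 : x = x / y * y := by field_simp
  have h2 := ord_mul P (div_ne_zero hx hy) hy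
  rw [← h1] at h2
  omega

private lemma stp_ord_int (P : HeightOneSpectrum (𝓞 E)) {x : E} (hx : IsIntegral ℤ x) :
    0 ≤ ord P x := ord_nonneg P ⟨x, hx⟩

private lemma stp_ord_ell (P : HeightOneSpectrum (𝓞 E)) (hq : q ≠ 0)
    (hP : (q : 𝓞 E) ∉ P.asIdeal) : ord P (q : E) = 0 := by
  have h0 : (q : 𝓞 E) ≠ 0 := by exact_mod_cast hq
  have h1 := ord_nonneg P (q : 𝓞 E)
  have h2 := (ord_pos_iff P h0).not.mpr hP
  rw [map_natCast] at h1 h2
  omega

/-- The order of a root of unity. -/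
lemma stp_ord_zeta (P : HeightOneSpectrum (𝓞 E)) (hq : 0 < q) (hζ : IsPrimitiveRoot ζ q) (j : ℕ) :
    ord P (ζ ^ j) = 0 := by
  have h0 : ζ ≠ 0 := hζ.ne_zero hq.ne'
  have h1 : ord P (ζ ^ q) = 0 := by rw [hζ.pow_eq_one, ord_one]
  rw [ord_pow P h0] at h1
  have h2 : ord P ζ = 0 := by
    rcases mul_eq_zero.mp h1 with h | h
    · exact absurd h (by exact_mod_cast hq.ne')
    · exact h
  rw [ord_pow P h0, h2, mul_zero]

/-- The order of `1 - ζ ^ k` at a prime which does not divide `q`. -/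
lemma stp_ord_one_sub (P : HeightOneSpectrum (𝓞 E)) (hq : 0 < q) (hζ : IsPrimitiveRoot ζ q)
    (hP : (q : 𝓞 E) ∉ P.asIdeal) {k : ℕ} (hk : 0 < k) (hkq : k < q) :
    ord P (1 - ζ ^ k) = 0 := by
  obtain ⟨n, rfl⟩ : ∃ n, q = n + 1 := ⟨q - 1, by omega⟩
  have hint : ∀ j : ℕ, IsIntegral ℤ (1 - ζ ^ j) := fun j =>
    isIntegral_one.sub ((hζ.isIntegral hq).pow j)
  have hne : ∀ j ∈ Finset.range n, 1 - ζ ^ (j + 1) ≠ 0 := by
    intro j hj h
    rw [Finset.mem_range] at hj
    have h7 : ζ ^ (j + 1) = 1 := by linear_combination -h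
    have := Nat.le_of_dvd (by omega) ((hζ.pow_eq_one_iff_dvd (j + 1)).mp h7)
    omega
  have h1 : ∑ j ∈ Finset.range n, ord P (1 - ζ ^ (j + 1)) = 0 := by
    rw [← ord_prod P _ _ hne, hζ.prod_one_sub_pow_eq_order]
    have := stp_ord_ell P (by omega) hP
    push_cast at this
    exact this
  have h2 := (Finset.sum_eq_zero_iff_of_nonneg
    (fun j _ => stp_ord_int P (hint (j + 1)))).mp h1 (k - 1) (by rw [Finset.mem_range]; omega)
  rwa [Nat.sub_add_cancel hk] at h2

private lemma stp_ord_sub (P : HeightOneSpectrum (𝓞 E)) (hq : 0 < q) (hζ : IsPrimitiveRoot ζ q)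
    (hP : (q : 𝓞 E) ∉ P.asIdeal) {i j : ℕ} (hij : i < j) (hj : j < q) :
    ord P (ζ ^ i - ζ ^ j) = 0 ∧ ζ ^ i - ζ ^ j ≠ 0 := by
  have h0 : ζ ≠ 0 := hζ.ne_zero hq.ne'
  have h1 : ζ ^ i - ζ ^ j = ζ ^ i * (1 - ζ ^ (j - i)) := by
    rw [mul_sub, mul_one, ← pow_add, Nat.add_sub_cancel' hij.le]
  have h2 : 1 - ζ ^ (j - i) ≠ 0 := by
    intro h
    have h7 : ζ ^ (j - i) = 1 := by linear_combination -h
    have := Nat.le_of_dvd (by omega) ((hζ.pow_eq_one_iff_dvd (j - i)).mp h7)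
    omega
  refine ⟨?_, ?_⟩
  · rw [h1, ord_mul P (pow_ne_zero _ h0) h2, stp_ord_zeta P hq hζ,
      stp_ord_one_sub P hq hζ hP (by omega) (by omega)]
    rfl
  · rw [h1]
    exact mul_ne_zero (pow_ne_zero _ h0) h2

private lemma stp_ord_sub' (P : HeightOneSpectrum (𝓞 E)) (hq : 0 < q) (hζ : IsPrimitiveRoot ζ q)
    (hP : (q : 𝓞 E) ∉ P.asIdeal) {i j : ℕ} (hij : i ≠ j) (hi : i < q) (hj : j < q) :
    ord P (ζ ^ i - ζ ^ j) = 0 ∧ ζ ^ i - ζ ^ j ≠ 0 := by
  rcases Nat.lt_or_gt_of_ne hij with h | h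
  · exact stp_ord_sub P hq hζ hP h hj
  · obtain ⟨h1, h2⟩ := stp_ord_sub P hq hζ hP h hi
    have h4 : ζ ^ i - ζ ^ j = -(ζ ^ j - ζ ^ i) := by ring
    rw [h4, ord_neg]
    exact ⟨h1, neg_ne_zero.mpr h2⟩

/-- The product of the `x - ζ ^ i y`. -/
lemma stp_prod (hq : 0 < q) (hζ : IsPrimitiveRoot ζ q) (x y : E) :
    ∏ i ∈ Finset.range q, (x - ζ ^ i * y) = x ^ q - y ^ q := by
  have : NeZero q := ⟨hq.ne'⟩
  rw [hζ.pow_sub_pow_eq_prod_sub_mul x y hq]
  refine Finset.prod_nbij (fun i => ζ ^ i) ?_ ?_ ?_ (fun _ _ => rfl)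
  · intro i _
    rw [Polynomial.mem_nthRootsFinset hq, ← pow_mul, mul_comm, pow_mul, hζ.pow_eq_one, one_pow]
  · intro i hi j hj h
    rw [Finset.coe_range, Set.mem_Iio] at hi hj
    exact hζ.pow_inj hi hj h
  · intro z hz
    rw [Finset.mem_coe, Polynomial.mem_nthRootsFinset hq] at hz
    obtain ⟨i, hi, h⟩ := hζ.eq_pow_of_pow_eq_one hz
    exact ⟨i, by simpa using hi, h⟩

/-- All the orders are congruent to one number. -/
private lemma stp_key (hpos : 0 < q) (hζ : IsPrimitiveRoot ζ q)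
    (P : HeightOneSpectrum (𝓞 E)) (hP : (q : 𝓞 E) ∉ P.asIdeal) {x y : E} (hx : x ≠ 0) (hy : y ≠ 0)
    (hxy : x ^ q - y ^ q = 1) :
    ∃ m : ℤ, ∀ i < q, (q : ℤ) ∣ ord P (x - ζ ^ i * y) + m := by
  have hpos : 0 < q := by omega
  have hζ0 : ζ ≠ 0 := hζ.ne_zero (by omega)
  have hprod := stp_prod hpos hζ x y
  rw [hxy] at hprod
  have hW : ∀ i ∈ Finset.range q, x - ζ ^ i * y ≠ 0 := by
    intro i hi h
    rw [Finset.prod_eq_zero hi h] at hprod
    exact zero_ne_one hprod
  have hsum : ∑ i ∈ Finset.range q, ord P (x - ζ ^ i * y) = 0 := by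
    rw [← ord_prod P _ _ hW, hprod, ord_one]
  have hlow : ∀ i ∈ Finset.range q, min (ord P x) (ord P y) ≤ ord P (x - ζ ^ i * y) := by
    intro i hi
    have h1 : -(ζ ^ i * y) ≠ 0 := neg_ne_zero.mpr (mul_ne_zero (pow_ne_zero _ hζ0) hy)
    have h2 := le_ord_add P hx h1 (by rw [← sub_eq_add_neg]; exact hW i hi)
    rw [← sub_eq_add_neg, ord_neg, ord_mul P (pow_ne_zero _ hζ0) hy,
      stp_ord_zeta P hpos hζ, zero_add] at h2
    exact h2
  by_cases hint : 0 ≤ min (ord P x) (ord P y)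
  · refine ⟨0, fun i hi => ?_⟩
    have h1 := (Finset.sum_eq_zero_iff_of_nonneg
      (fun i hi => hint.trans (hlow i hi))).mp hsum i (Finset.mem_range.mpr hi)
    rw [h1]
    simp
  · -- the orders of `x` and `y` are equal
    have hxl : ord P (x ^ q) = q * ord P x := ord_pow P hx q
    have hyl : ord P (y ^ q) = q * ord P y := ord_pow P hy q
    have e1 : min 0 (q * ord P y) ≤ q * ord P x := by
      have h1 : (1 : E) + y ^ q = x ^ q := by linear_combination -hxy
      have h2 := le_ord_add P (x := (1 : E)) (y := y ^ q) one_ne_zero (pow_ne_zero _ hy)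
        (by rw [h1]; exact pow_ne_zero _ hx)
      rwa [h1, ord_one, hxl, hyl] at h2
    have e2 : min 0 (q * ord P x) ≤ q * ord P y := by
      have h1 : (-1 : E) + x ^ q = y ^ q := by linear_combination hxy
      have h2 := le_ord_add P (x := (-1 : E)) (y := x ^ q) (neg_ne_zero.mpr one_ne_zero)
        (pow_ne_zero _ hx) (by rw [h1]; exact pow_ne_zero _ hy)
      rwa [h1, ord_neg, ord_one, hxl, hyl] at h2
    have hqZ : (0 : ℤ) < q := by exact_mod_cast hpos
    have hxy' : ord P x = ord P y ∧ ord P x < 0 := by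
      have h0 : min (ord P x) (ord P y) < 0 := not_le.mp hint
      rcases min_lt_iff.mp h0 with h | h
      · have h1 : (q : ℤ) * ord P x < 0 := mul_neg_of_pos_of_neg hqZ h
        have h2 : (q : ℤ) * ord P y ≤ q * ord P x := by
          rcases min_le_iff.mp e1 with h4 | h4
          · omega
          · exact h4
        have h3 : ord P y ≤ ord P x := le_of_mul_le_mul_left h2 hqZ
        have h4 : (q : ℤ) * ord P y < 0 := lt_of_le_of_lt h2 h1
        have h5 : (q : ℤ) * ord P x ≤ q * ord P y := by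
          rcases min_le_iff.mp e2 with h6 | h6
          · omega
          · exact h6
        have h6 : ord P x ≤ ord P y := le_of_mul_le_mul_left h5 hqZ
        exact ⟨le_antisymm h6 h3, h⟩
      · have h1 : (q : ℤ) * ord P y < 0 := mul_neg_of_pos_of_neg hqZ h
        have h2 : (q : ℤ) * ord P x ≤ q * ord P y := by
          rcases min_le_iff.mp e2 with h4 | h4
          · omega
          · exact h4
        have h3 : ord P x ≤ ord P y := le_of_mul_le_mul_left h2 hqZ
        have h4 : (q : ℤ) * ord P x < 0 := lt_of_le_of_lt h2 h1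
        have h5 : (q : ℤ) * ord P y ≤ q * ord P x := by
          rcases min_le_iff.mp e1 with h6 | h6
          · omega
          · exact h6
        have h6 : ord P y ≤ ord P x := le_of_mul_le_mul_left h5 hqZ
        exact ⟨le_antisymm h3 h6, lt_of_le_of_lt h3 h⟩
    obtain ⟨hxy1, hneg⟩ := hxy'
    set m : ℤ := -ord P x with hm
    have hlow' : ∀ i ∈ Finset.range q, -m ≤ ord P (x - ζ ^ i * y) := by
      intro i hi
      have h1 := hlow i hi
      rw [← hxy1, min_self] at h1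
      omega
    -- at most one of the orders is larger
    have hone : ∀ i ∈ Finset.range q, ∀ j ∈ Finset.range q, i ≠ j →
        ord P (x - ζ ^ i * y) ≠ -m → ord P (x - ζ ^ j * y) = -m := by
      intro i hi j hj hij h
      by_contra hcon
      have hi' := lt_of_le_of_ne (hlow' i hi) (Ne.symm h)
      have hj' := lt_of_le_of_ne (hlow' j hj) (Ne.symm hcon)
      obtain ⟨h1, h2⟩ := stp_ord_sub' P hpos hζ hP hij (Finset.mem_range.mp hi)
        (Finset.mem_range.mp hj)
      have h4 : (x - ζ ^ j * y) + -(x - ζ ^ i * y) = (ζ ^ i - ζ ^ j) * y := by ring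
      have h5 := le_ord_add P (hW j hj) (neg_ne_zero.mpr (hW i hi))
        (by rw [h4]; exact mul_ne_zero h2 hy)
      rw [h4, ord_neg, ord_mul P h2 hy, h1, zero_add, ← hxy1] at h5
      rcases min_le_iff.mp h5 with h6 | h6
      · omega
      · omega
    refine ⟨m, fun i hi => ?_⟩
    have hi' : i ∈ Finset.range q := Finset.mem_range.mpr hi
    by_cases h : ord P (x - ζ ^ i * y) = -m
    · rw [h]
      simp
    · have h1 : ∑ j ∈ (Finset.range q).erase i, ord P (x - ζ ^ j * y) = ((q : ℤ) - 1) * (-m) := by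
        rw [Finset.sum_congr rfl (g := fun _ => -m) (fun j hj => hone i hi' j
          (Finset.mem_of_mem_erase hj) (Finset.ne_of_mem_erase hj).symm h), Finset.sum_const,
          Finset.card_erase_of_mem hi', Finset.card_range, nsmul_eq_mul]
        congr 1
        push_cast [Nat.cast_sub hpos]
        ring
      have h2 := Finset.add_sum_erase (Finset.range q) (fun j => ord P (x - ζ ^ j * y)) hi'
      rw [hsum, h1] at h2
      refine ⟨m, ?_⟩
      linear_combination h2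

theorem ord_eq (h3 : 3 ≤ q) (hζ : IsPrimitiveRoot ζ q)
    (P : HeightOneSpectrum (𝓞 E)) (hP : (q : 𝓞 E) ∉ P.asIdeal) {x y : E} (hx : x ≠ 0) (hy : y ≠ 0)
    (hxy : x ^ q - y ^ q = 1) (i j : ℕ) :
    (q : ℤ) ∣ ord P (x - ζ ^ i * y) - ord P (x - ζ ^ j * y) := by
  obtain ⟨m, hm⟩ := stp_key (by omega) hζ P hP hx hy hxy
  have hmod : ∀ i : ℕ, ζ ^ i = ζ ^ (i % q) := by
    intro i
    conv_lhs => rw [← Nat.mod_add_div i q]
    rw [pow_add, pow_mul, hζ.pow_eq_one, one_pow, mul_one]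
  rw [hmod i, hmod j]
  have h1 := hm (i % q) (Nat.mod_lt _ (by omega))
  have h2 := hm (j % q) (Nat.mod_lt _ (by omega))
  have h4 := dvd_sub h1 h2
  rwa [add_sub_add_right_eq_sub] at h4

theorem stp_ord (h3 : 3 ≤ q) (hζ : IsPrimitiveRoot ζ q)
    (P : HeightOneSpectrum (𝓞 E)) (hP : (q : 𝓞 E) ∉ P.asIdeal) {x y : E} (hx : x ≠ 0) (hy : y ≠ 0)
    (hxy : x ^ q - y ^ q = 1) :
    (q : ℤ) ∣ ord P (stp ζ (x / y)) ∧ (q : ℤ) ∣ ord P (stp ζ (x / y) - 1) := by
  have hpos : 0 < q := by omega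
  have hζ0 : ζ ≠ 0 := hζ.ne_zero (by omega)
  have hprod := stp_prod hpos hζ x y
  rw [hxy] at hprod
  have hW : ∀ i < q, x - ζ ^ i * y ≠ 0 := by
    intro i hi h
    rw [Finset.prod_eq_zero (Finset.mem_range.mpr hi) h] at hprod
    exact zero_ne_one hprod
  have hn := one_add_ne h3 hζ
  have hz1 : ord P ζ = 0 := by
    have := stp_ord_zeta P hpos hζ 1
    rwa [pow_one] at this
  have hone : ord P (1 + ζ) = 0 := by
    have h1 := stp_ord_one_sub P hpos hζ hP (k := 1) one_pos (by omega)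
    have h2 := stp_ord_one_sub P hpos hζ hP (k := 2) two_pos (by omega)
    have h4 : 1 - ζ ^ 2 = (1 - ζ ^ 1) * (1 + ζ) := by ring
    have h5 : 1 - ζ ^ 1 ≠ 0 := by
      intro h
      have h7 : ζ ^ 1 = 1 := by linear_combination -h
      have := Nat.le_of_dvd one_pos ((hζ.pow_eq_one_iff_dvd 1).mp h7)
      omega
    rw [h4, ord_mul P h5 hn, h1, zero_add] at h2
    exact h2
  have hw0 := hW 0 hpos
  have hw1 := hW 1 (by omega)
  have hw2 := hW 2 (by omega)
  have hden : x / y - ζ ≠ 0 := by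
    intro h
    apply hw1
    have : x / y = ζ := by linear_combination h
    rw [div_eq_iff hy] at this
    rw [pow_one, this]
    ring
  constructor
  · have h1 : stp ζ (x / y) = ζ * (x - ζ ^ 0 * y) / ((1 + ζ) * (x - ζ ^ 1 * y)) := by
      unfold stp
      rw [div_eq_div_iff (mul_ne_zero hn hden) (mul_ne_zero hn hw1)]
      field_simp
    rw [h1, stp_ord_div P (mul_ne_zero hζ0 hw0) (mul_ne_zero hn hw1), ord_mul P hζ0 hw0,
      ord_mul P hn hw1, hz1, hone, zero_add, zero_add]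
    exact ord_eq h3 hζ P hP hx hy hxy 0 1
  · have h1 : stp ζ (x / y) - 1 = -(x - ζ ^ 2 * y) / ((1 + ζ) * (x - ζ ^ 1 * y)) := by
      unfold stp
      rw [div_sub_one (mul_ne_zero hn hden), div_eq_div_iff (mul_ne_zero hn hden)
        (mul_ne_zero hn hw1)]
      field_simp
      ring
    rw [h1, stp_ord_div P (neg_ne_zero.mpr hw2) (mul_ne_zero hn hw1), ord_neg,
      ord_mul P hn hw1, hone, zero_add]
    exact ord_eq h3 hζ P hP hx hy hxy 2 1

end orders

end FreyCyc
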